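import Pool.Agent.H3.D2G.RecY

/-!
# Joints of the parts with more than one contact coordinate, outside a set of windows

`lTvX_of_gh`, `lTp2X_of_gh`: `LTvX X n`, `LTp2X X n` from their class theorems. `lTvL_four`,
`lTp2L_four`: dimension four, `X = FasL`.
-/

set_option autoImplicit false

namespace Pool.ASM

open MeasureTheory Set Filter Topology
open Pool.GEN Pool.PKG Pool.SW
open Pool.ONE (Ext0 Ext)
open Pool.MIC6
open Pool.STR (StaAt SteepAt ThinAt)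

/-- **`LTvX X n` from its class theorem**, with a property. -/
theorem lTvX_of_gh {n : ℕ} {ι : Type} [Countable ι] {Q : PropG n ι} (hQ : AePG n Q) {X : WinC}
    (Φ : (ℕ → Kg) → (ℕ → ℝ) → Prop)
    (hX : ∀ (hn : 2 ≤ n) (P : ℝ → ℝ → ℝ) (P' PB : ℕ → List (Fin n) × Fin n → ℝ → ℝ → ℝ)
      (o : Od n) (g : ℝ), ¬ X n hn P P' PB o g → ∀ κ : ℕ → Kg, KgT n κ (SlL hn P P' o g) →
      KgU hn P P' PB o g κ → Φ κ (SlL hn P P' o g))
    (hcls : ∀ h : ℝ, 0 < h → h ≤ 1 → ∀ (Sl : ℕ → ℝ) (κ : ℕ → Kg), TwC n Sl →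
      (∀ l < n - 1, Sl l ≠ Sl (n - 1)) → Φ κ Sl → KgT n κ Sl → VoidQH n h Sl κ Q) :
    LTvX X n := by
  intro hi hn hZ hF hTop S P r P' Λ PB H h hh hh1 ρ hρ hrow
  refine (noB_kh hQ (fun κ Sl => TwC n Sl ∧ (∀ l < n - 1, Sl l ≠ Sl (n - 1)) ∧ Φ κ Sl)
    (fun h h0 h1 Sl κ k0 k1 => hcls h h0 h1 Sl κ k0.1 k0.2.1 k0.2.2 k1) hi hn hZ hF hTop S P r P' Λ
    PB H h hh hh1 ρ hρ hrow).mono fun o => Eventually.of_forall fun g _ hx => ?_
  obtain ⟨⟨hT, hN, hO, i, hi1⟩, hf⟩ := hx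
  refine ⟨hT, fun κ h1 h2 => ⟨⟨?_, i, i.2, ?_⟩, fun l hl => ?_, hX hn P P' PB o g hf κ h1 h2⟩⟩
  · by_contra hcon
    push Not at hcon
    refine hO fun j hj => ?_
    rw [slo_SlL H hTop hF o g j.2]
    exact hcon j hj j.2
  · rw [← slo_SlL H hTop hF o g i.2]
    exact hi1
  · rw [← slN_SlL o g (by omega), ← slN_SlL o g le_rfl]
    exact hN l hl

/-- **`LTp2X X n` from its class theorem**, with a property: a tie. -/
theorem lTp2X_of_gh {n : ℕ} {ι : Type} [Countable ι] {Q : PropG n ι} (hQ : AePG n Q) {X : WinC}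
    (Φ : (ℕ → Kg) → (ℕ → ℝ) → Prop)
    (hX : ∀ (hn : 2 ≤ n) (P : ℝ → ℝ → ℝ) (P' PB : ℕ → List (Fin n) × Fin n → ℝ → ℝ → ℝ)
      (o : Od n) (g : ℝ), ¬ X n hn P P' PB o g → ∀ κ : ℕ → Kg, KgT n κ (SlL hn P P' o g) →
      KgU hn P P' PB o g κ → Φ κ (SlL hn P P' o g))
    (hcls : ∀ h : ℝ, 0 < h → h ≤ 1 → ∀ (Sl : ℕ → ℝ) (κ : ℕ → Kg), TwC n Sl →
      (∃ l < n - 1, Sl l = Sl (n - 1)) → Φ κ Sl → KgT n κ Sl → VoidQH n h Sl κ Q) :
    LTp2X X n := by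
  intro hi hn hZ hF hTop S P r P' Λ PB H h hh hh1 ρ hρ hrow
  refine (noB_kh hQ (fun κ Sl => TwC n Sl ∧ (∃ l < n - 1, Sl l = Sl (n - 1)) ∧ Φ κ Sl)
    (fun h h0 h1 Sl κ k0 k1 => hcls h h0 h1 Sl κ k0.1 k0.2.1 k0.2.2 k1) hi hn hZ hF hTop S P r P' Λ
    PB H h hh hh1 ρ hρ hrow).mono fun o => Eventually.of_forall fun g _ hx => ?_
  obtain ⟨⟨hT, ⟨l, hl, hti⟩, hO⟩, hf⟩ := hx
  have h1 : 1 < SlL hn P P' o g (n - 1) := by
    rw [← slN_SlL o g le_rfl]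
    exact hT.1
  have h2 : SlL hn P P' o g l = SlL hn P P' o g (n - 1) := by
    rw [← slN_SlL o g (by omega), ← slN_SlL o g le_rfl]
    exact hti
  refine ⟨hT, fun κ h3 h4 => ⟨⟨?_, l, hl, by rw [h2]; exact h1⟩, ⟨l, hl, h2⟩,
    hX hn P P' PB o g hf κ h3 h4⟩⟩
  by_contra hcon
  push Not at hcon
  refine hO fun j hj => ?_
  rw [slo_SlL H hTop hF o g j.2]
  exact hcon j hj j.2

theorem notL_SlL {n : ℕ} {hn : 2 ≤ n} {P : ℝ → ℝ → ℝ}
    {P' PB : ℕ → List (Fin n) × Fin n → ℝ → ℝ → ℝ} {o : Od n} {g : ℝ}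
    (h : ¬ FasL n hn P P' PB o g) : ∃ l < n - 1, SlL hn P P' o g (n - 1) ≤ SlL hn P P' o g l := by
  by_contra hcon
  push Not at hcon
  refine h fun l hl => ?_
  rw [slN_SlL o g hl.le, slN_SlL o g le_rfl]
  exact hcon l hl

/-- **Dimension four, more than one contact coordinate, no tie**: exactly one coordinate `l` of the
base has slope more than one, and it is faster than the target. -/
theorem lTvL_four {ι : Type} [Countable ι] {Q : PropG 4 ι} (hQ : AePG 4 Q)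
    (hcls : ∀ h : ℝ, 0 < h → h ≤ 1 → ∀ (Sl : ℕ → ℝ) (κ : ℕ → Kg) (l : ℕ), 1 ≤ l → l < 3 →
      Sl 3 < Sl l → (∀ k < 3, k ≠ l → Sl k = 1) → KgT 4 κ Sl → VoidQH 4 h Sl κ Q) :
    LTvX FasL 4 := by
  refine lTvX_of_gh hQ (fun _ Sl => ∃ l < 3, Sl 3 ≤ Sl l)
    (fun hn P P' PB o g hf κ _ _ => notL_SlL hf) fun h h0 h1 Sl κ hT hN hL hK => ?_
  obtain ⟨l, hl, hle⟩ := hL
  obtain ⟨⟨j, hj1, hj, hjs⟩, -⟩ := hT
  have h3 : 1 < Sl 3 := hK.tar1
  have hlt : Sl 3 < Sl l := lt_of_le_of_ne hle (hN l hl).symm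
  have h0' : Sl 0 = 1 := (hK.one 0 (by norm_num)).1 hK.zero
  have hj' : Sl j = 1 := le_antisymm hjs (hK.ge j (by omega))
  have hl1 : 1 ≤ l := by
    rcases Nat.eq_zero_or_pos l with h5 | h5
    · subst h5
      linarith
    · exact h5
  have hjl : j ≠ l := fun h5 => by
    subst h5
    linarith
  refine hcls h h0 h1 Sl κ l hl1 hl hlt (fun k hk hkl => ?_) hK
  rcases (show k = 0 ∨ k = j by omega) with rfl | rfl
  · exact h0'
  · exact hj'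

/-- **Dimension four, more than one contact coordinate, a tie**: exactly one coordinate `l` of the
base has slope more than one, the slope of the target. -/
theorem lTp2L_four {ι : Type} [Countable ι] {Q : PropG 4 ι} (hQ : AePG 4 Q) {X : WinC}
    (hcls : ∀ h : ℝ, 0 < h → h ≤ 1 → ∀ (Sl : ℕ → ℝ) (κ : ℕ → Kg) (l : ℕ), 1 ≤ l → l < 3 →
      Sl l = Sl 3 → (∀ k < 3, k ≠ l → Sl k = 1) → KgT 4 κ Sl → VoidQH 4 h Sl κ Q) :
    LTp2X X 4 := by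
  refine lTp2X_of_gh hQ (fun _ _ => True)
    (fun hn P P' PB o g hf κ _ _ => trivial) fun h h0 h1 Sl κ hT hN _ hK => ?_
  obtain ⟨l, hl, hle⟩ := hN
  obtain ⟨⟨j, hj1, hj, hjs⟩, -⟩ := hT
  have h3 : 1 < Sl 3 := hK.tar1
  have hle' : Sl l = Sl 3 := hle
  have h0' : Sl 0 = 1 := (hK.one 0 (by norm_num)).1 hK.zero
  have hj' : Sl j = 1 := le_antisymm hjs (hK.ge j (by omega))
  have hl1 : 1 ≤ l := by
    rcases Nat.eq_zero_or_pos l with h5 | h5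
    · subst h5
      linarith
    · exact h5
  have hjl : j ≠ l := fun h5 => by
    subst h5
    linarith
  refine hcls h h0 h1 Sl κ l hl1 hl hle' (fun k hk hkl => ?_) hK
  rcases (show k = 0 ∨ k = j by omega) with rfl | rfl
  · exact h0'
  · exact hj'

end Pool.ASM
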