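import Pool.Agent.H3.D2G.RecK
import Pool.Agent.H19.ONE.Nor1

/-!
# The joints for all packages, and for the rows whose target has slope one

`lVoA_of_gq`, `lVoA_of_g`: `LVoA n` from its class theorem. `lCell1_of_gq`, `lCell1_of_g`: `LCell1 n κ`
from its class theorem.
-/

set_option autoImplicit false

namespace Pool.ASM

open MeasureTheory Set Filter Topology
open Pool.GEN Pool.PKG Pool.SW
open Pool.ONE (Ext0 Ext)
open Pool.MIC6
open Pool.STR (StaAt SteepAt)

/-- **`LVoA` from its class theorem**, with a property. -/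
theorem lVoA_of_gq {n : ℕ} {ι : Type} [Countable ι] {Q : PropG n ι} (hQ : AePG n Q)
    (hcls : ∀ h : ℝ, 0 < h → h ≤ 1 → ∀ Sl : ℕ → ℝ, (∀ l < n - 1, Sl l = 1) →
      1 < Sl (n - 1) → VoidQG n h Sl (kgV n) Q) : LVoA n := by
  intro _ hn _ hF hTop S P r P' Λ PB H h h0 h1 o
  filter_upwards [void_of_gq (κ := kgV n) hQ H hTop hF h (fun Sl k1 k2 =>
    hcls _ h0 h1 Sl (fun l hl => (k1 l (by omega)).1 (by
      unfold kgV
      rw [if_pos hl])) ((k1 (n - 1) (by omega)).2.1 (by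
      unfold kgV
      rw [if_neg (lt_irrefl _)]))) o] with g h2 R hT hs
  refine h2 R fun l hl => ?_
  unfold kgV
  split_ifs with h3
  · have h4 := hs ⟨l, h3⟩
    rw [slo_slN, slN_lvl o (by omega)] at h4
    exact h4
  · have h4 : l = n - 1 := by omega
    have h5 : LvL hn P P' o (n - 1) = P := lvL_last o
    subst h4
    obtain ⟨h6, h7⟩ := hT
    rw [slN_tar] at h6
    refine ⟨?_, ?_⟩
    · rw [h5]
      exact h6
    · rw [h5, LvT_top]
      exact h7

/-- **`LVoA` from its class theorem.** -/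
theorem lVoA_of_g {n : ℕ} (hcls : ∀ h : ℝ, 0 < h → h ≤ 1 → ∀ Sl : ℕ → ℝ,
    (∀ l < n - 1, Sl l = 1) → 1 < Sl (n - 1) → VoidG n h Sl (kgV n)) : LVoA n :=
  lVoA_of_gq (aePG_true n Unit) fun h h0 h1 Sl k1 k2 => (hcls h h0 h1 Sl k1 k2).q _

/-- The kinds of `LCell1`: the list, the steep coordinate, and the target of the class with slope
one. -/
def kg1 (n : ℕ) (κ : List Kd) (l : ℕ) : Kg := if l = n - 1 then .one else kgL κ l

/-- **`LCell1` from its class theorem**, with a property. -/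
theorem lCell1_of_gq {n : ℕ} {ι : Type} [Countable ι] {Q : PropG n ι} (hQ : AePG n Q)
    {κ : List Kd} (hκn : κ.length < n - 1)
    (hcls : ∀ h : ℝ, 0 < h → h ≤ 1 → ∀ Sl : ℕ → ℝ, (∀ (l : ℕ) (hl : l < κ.length),
      (κ[l] = .one → Sl l = 1) ∧ (κ[l] = .thin → 1 < Sl l) ∧ (κ[l] = .sta → 2 ≤ Sl l)) →
      2 < Sl κ.length → Sl (n - 1) = 1 → (∀ l < n, 1 ≤ Sl l) →
      CelQG n κ.length h Sl (kg1 n κ) Q) : LCell1 n κ := fun _ => by
  refine (Tol.le (1 / 2) (by norm_num)).mono fun η hη => ?_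
  intro hn _ hF hTop D hD hD1 _ S P r P' Λ PB H o
  have h1 := hη D hD
  have e1 : ∀ l < κ.length, kg1 n κ l = kgL κ l := fun l hl => if_neg (by omega)
  have e2 : kg1 n κ κ.length = .stp := by
    unfold kg1
    rw [if_neg (by omega), kgL_len]
  have e3 : kg1 n κ (n - 1) = .one := if_pos rfl
  filter_upwards [sta_of_gq (κ := kg1 n κ) (i := κ.length) hQ H hTop hF ((1 - η D) * D) (by omega)
    (fun Sl k1 k2 => hcls _ (mul_pos (by linarith) hD) (by nlinarith) Sl (fun l hl => by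
      have k3 := k1 l (by omega)
      rw [e1 l hl, kgL_lt hl] at k3
      refine ⟨fun h4 => k3.1 (by rw [h4]; rfl), fun h4 => k3.2.1 (by rw [h4]; rfl),
        fun h4 => k3.2.2.1 (by rw [h4]; rfl)⟩) ((k1 κ.length (by omega)).2.2.2 e2)
      ((k1 (n - 1) (by omega)).1 e3) k2) o] with g h2 R hone _ hkd hs hst
  refine h2 R fun l hl => ?_
  rcases eq_or_ne l (n - 1) with h5 | h5
  · rw [h5, e3]
    have h6 : LvL hn P P' o (n - 1) = P := lvL_last o
    show deriv (fun a => LvL hn P P' o (n - 1) a a) g = 1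
    rw [h6]
    exact hone
  · rcases lt_trichotomy l κ.length with h6 | h6 | h6
    · rw [e1 l h6, kgL_lt h6]
      exact (hkd l h6).kg
    · rw [h6, e2]
      exact ⟨hs, hst⟩
    · unfold kg1
      rw [if_neg h5]
      unfold kgL
      rw [if_neg (by omega), if_neg (by omega)]
      trivial

/-- **`LCell1` from its class theorem.** -/
theorem lCell1_of_g {n : ℕ} {κ : List Kd} (hκn : κ.length < n - 1)
    (hcls : ∀ h : ℝ, 0 < h → h ≤ 1 → ∀ Sl : ℕ → ℝ, (∀ (l : ℕ) (hl : l < κ.length),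
      (κ[l] = .one → Sl l = 1) ∧ (κ[l] = .thin → 1 < Sl l) ∧ (κ[l] = .sta → 2 ≤ Sl l)) →
      2 < Sl κ.length → Sl (n - 1) = 1 → (∀ l < n, 1 ≤ Sl l) →
      CelG n κ.length h Sl (kg1 n κ)) : LCell1 n κ :=
  lCell1_of_gq (aePG_true n Unit) hκn fun h h0 h1 Sl k1 k2 k3 k4 =>
    (hcls h h0 h1 Sl k1 k2 k3 k4).q _

end Pool.ASM
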