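import Pool.Agent.H3.D2G.Afa
import Pool.Agent.H91.FR.QpG

/-!
# Affine labels over one contact coordinate, as a property of the windows

`near_two`: near a window whose place one has a slope larger than one, the level of the place two is
the number of the unit ball. `AfQ`: the places one and two have affine labels just before all windows
of `G` near the window; `aePG_af`: it holds at almost every window, in a subclass.
-/

set_option autoImplicit false

namespace Pool.PKG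

open Finset MeasureTheory
open Pool.Agent.H49.Ent Pool.Agent.H32.Dense Pool.STK Pool.KA Pool.KSAT Pool.K2S Pool.PB Pool.GEN
open Pool.S6C Pool.GRW Pool.RCD
open Pool.TOP (TopS)
open Pool.CHT
open Pool.OWN72 (epo cc_epo Ctw Dsc gs_act ctw_ae dns_pt dsc_pos)
open Pool.AVG96 (SlpG slpG_of gap_ae)
open Pool.CDX (AfG AffL afG_two)
open Pool.LA91 (HerQ)

variable {n : ℕ} {hn : 2 ≤ n} {S : PCl n} {P : ℝ → ℝ → ℝ} {rr : ℝ → ℝ}
  {P' : ℕ → List (Fin n) × Fin n → ℝ → ℝ → ℝ} {Λ : Finset (Fin n) → Fin n → ℝ → ℝ → ℝ}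
  {PB : ℕ → List (Fin n) × Fin n → ℝ → ℝ → ℝ}

/-- **The level of the place two** near a window whose place one has a slope larger than one. -/
theorem near_two (H : Pk hn S P rr P' Λ) (hTop : TopS n) (hF : FZX (n - 1)) {o : Od n} {g : ℝ}
    (h2 : 2 < n - 1) {G' : Set ℝ} (hG' : G' ⊆ Gs P rr P' Λ o ∩ Ctw Λ) (hD : Dsc G' g) {s : ℝ}
    (hs : 1 < s) (hd : HasDerivAt (fun a => LvL hn P P' o 1 a a) s g)
    (hlo : g < LvL hn P P' o 1 g g) :
    ∃ ρ : ℝ, 0 < ρ ∧ ∀ w ∈ G', g - ρ ≤ w → w ≤ g + ρ → LvL hn P P' o 2 w w =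
      Λ {cc hn o.1.1 0, cc hn o.1.1 1} (cc hn o.1.1 2) w w := by
  obtain ⟨δ, hδ, h3⟩ : ∃ δ : ℝ, 0 < δ ∧ ∀ a : ℝ, |a - g| < δ →
      |LvL hn P P' o 1 a a - LvL hn P P' o 1 g g - s * (a - g)| ≤ (s - 1) / 16 * |a - g| := by
    have h4 := (hasDerivAt_iff_isLittleO.1 hd).def (c := (s - 1) / 16) (by linarith)
    obtain ⟨δ, hδ, h5⟩ := Metric.eventually_nhds_iff.1 h4
    refine ⟨δ, hδ, fun a ha => ?_⟩
    have h6 := h5 (y := a) (by rw [Real.dist_eq]; exact ha)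
    rw [Real.norm_eq_abs, Real.norm_eq_abs, smul_eq_mul] at h6
    rwa [mul_comm s (a - g)]
  obtain ⟨r₀, hr₀, h4⟩ := hD (1 / 4) (by norm_num)
  obtain ⟨r, hr⟩ : ∃ r, r = min r₀ δ / 2 := ⟨_, rfl⟩
  have hm : 0 < min r₀ δ := lt_min hr₀ hδ
  have hr0 : 0 < r := by rw [hr]; linarith
  have hr1 : r < r₀ := by
    rw [hr]
    linarith [min_le_left r₀ δ]
  have hr2 : r < δ := by
    rw [hr]
    linarith [min_le_right r₀ δ]
  obtain ⟨a₀, ha₀, b1, b2⟩ := h4 r hr0 hr1 (g + r / 2) (g + r) (by linarith) (by linarith) le_rfl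
  obtain ⟨d, hd0⟩ : ∃ d, d = LvL hn P P' o 1 g g - g := ⟨_, rfl⟩
  have hdp : 0 < d := by linarith
  obtain ⟨σ, hσ⟩ : ∃ σ, σ = s - 1 := ⟨_, rfl⟩
  have hσ0 : 0 < σ := by linarith
  obtain ⟨ρ, hρ⟩ : ∃ ρ, ρ = min (r / 8) (d / (4 * s)) := ⟨_, rfl⟩
  have hρ0 : 0 < ρ := by rw [hρ]; exact lt_min (by linarith) (by positivity)
  have hρ1 : ρ ≤ r / 8 := by rw [hρ]; exact min_le_left _ _
  have hρ2 : s * ρ ≤ d / 4 := by
    have h5 : ρ ≤ d / (4 * s) := by rw [hρ]; exact min_le_right _ _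
    calc s * ρ ≤ s * (d / (4 * s)) := mul_le_mul_of_nonneg_left h5 (by linarith)
      _ = d / 4 := by field_simp
  rw [← hσ] at h3
  -- the later window
  have c1 := (abs_le.1 (h3 a₀ (by rw [abs_of_pos (by linarith)]; linarith))).1
  rw [abs_of_pos (by linarith : 0 < a₀ - g)] at c1
  have c2 : σ * (r / 2) ≤ σ * (a₀ - g) := mul_le_mul_of_nonneg_left (by linarith) hσ0.le
  have hGa := hG' ha₀
  have ha0 : 0 < a₀ := hGa.1.1.1.1
  rw [lev_one H hTop hF hGa.1 (by omega)] at c1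
  refine ⟨ρ, hρ0, fun w hw w1 w2 => ?_⟩
  have hGw := hG' hw
  have e1 : |w - g| ≤ ρ := by
    rw [abs_le]
    constructor <;> linarith
  have k1 := h3 w (by linarith)
  have k2 : σ * |w - g| ≤ σ * ρ := mul_le_mul_of_nonneg_left e1 hσ0.le
  have k3 : σ * ρ ≤ σ * (r / 8) := mul_le_mul_of_nonneg_left hρ1 hσ0.le
  have k4 : σ * (w - g) ≤ σ * |w - g| := mul_le_mul_of_nonneg_left (le_abs_self _) hσ0.le
  have k5 : σ * -(w - g) ≤ σ * |w - g| := mul_le_mul_of_nonneg_left (neg_le_abs _) hσ0.le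
  have k6 := abs_le.1 k1
  have k7 : σ * ρ ≤ s * ρ := mul_le_mul_of_nonneg_right (by linarith) hρ0.le
  have k8 : σ * (a₀ - g) = s * (a₀ - g) - (a₀ - g) := by rw [hσ]; ring
  have k9 : σ * (w - g) = s * (w - g) - (w - g) := by rw [hσ]; ring
  have hσr : 0 < σ * r := mul_pos hσ0 hr0
  refine lev_two H hTop hF hGw.1 h2 hGw.2 (by linarith [k6.1]) ha0.le
    (a := a₀ + σ * r / 8) (by linarith) ?_
  linarith [k6.2]

/-- **Affine labels** of the places one and two just before all windows of `G` near the window. -/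
def AfQ {n : ℕ} (_ : Unit) (_ : ℕ) (S : PCl n) (_ : List (Fin n) × Fin n → ℝ → ℝ → ℝ) (_ : ℝ)
    (c : ℕ → Fin n) (_ : ℝ → ℝ → ℝ) (_ : ℝ → ℝ) (L _ : ℕ → ℝ → ℝ → ℝ) (_ : ℕ → Kg)
    (G : Set ℝ) (x : ℝ) : Prop :=
  2 < n - 1 → 1 < deriv (fun a => L 1 a a) x →
    AfG S c (fun w l => L l w w) G x 1 ∧ AfG S c (fun w l => L l w w) G x 2

theorem her_af (n : ℕ) : HerQ (AfQ : PropG n Unit) := by
  intro p k₀ S S' P θ c Pt r L T κ G x hs h h1 h2
  exact ⟨(h h1 h2).1.sub hs, (h h1 h2).2.sub hs⟩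

/-- **It holds at almost every window**, in a subclass. -/
theorem aePG_af (n : ℕ) : AePG n (AfQ : PropG n Unit) := by
  intro hn S P r P' Λ PB PQ H hTop hF o G hG hGs
  by_cases h2 : 2 < n - 1
  swap
  · exact ⟨S, H.toPk.ne, fun _ _ _ _ h => h, Filter.Eventually.of_forall fun g _ κ _ p =>
      ⟨0, fun h => absurd h h2⟩⟩
  have h01 : cc hn o.1.1 0 ≠ cc hn o.1.1 1 := fun h => by
    have := cc_inj' hn o.1.1 (i := 0) (j := 1) (by omega) (by omega) h
    omega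
  obtain ⟨S', s1, s2, s3⟩ := afG_two H.toPk.ne (by norm_num) H.toPk.tmc H.toPk.lam h01
    (gs_act H.toPk o)
  refine ⟨S', s1, s2, ?_⟩
  have hct : ∀ᵐ g : ℝ, g ∈ Ctw Λ := by
    have h1 := (ctw_ae (Λ := Λ) H.toPk.lam).ae_notMem volume
    filter_upwards [h1] with g hg
    by_contra hcon
    exact hg hcon
  filter_upwards [hct, dns_pt (G ∩ Ctw Λ), gap_ae hG, H.toPkT.dia_all H.pble hTop hF,
    sl_one H.toPkT hTop hF] with g kct kdn kgap kdia ksl hg κ _ p
  refine ⟨0, fun _ hs1 => ?_⟩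
  have hgG := hGs hg
  have hds : Dsc (G ∩ Ctw Λ) g := kdn ⟨hg, kct⟩
  have hsub : G ∩ Ctw Λ ⊆ Gs P r P' Λ o ∩ Ctw Λ := fun x hx => ⟨hGs hx.1, hx.2⟩
  have hder : ∀ l, l ≤ n - 1 → HasDerivAt (fun a => LvL hn P P' o l a a)
      (deriv (fun a => LvL hn P P' o l a a) g) g := fun l hl =>
    (kdia o hgG l hl).1.hasDerivAt
  have hnn : ∀ l, 1 ≤ l → l ≤ 2 → 0 ≤ deriv (fun a => LvL hn P P' o l a a) g := fun l _ hl => by
    have h5 : 1 ≤ deriv (fun a => LvL hn P P' o l a a) g := ksl o hgG l (by omega)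
    linarith
  have hgt : ∀ l, 1 ≤ l → l < 2 → 1 < deriv (fun a => LvL hn P P' o l a a) g := fun l h3 h4 => by
    obtain rfl : l = 1 := by omega
    exact hs1
  have hSG : SlpG (fun w l => LvL hn P P' o l w w) 1 2 G g
      (fun l => deriv (fun a => LvL hn P P' o l a a) g) :=
    slpG_of hnn hgt (fun l _ h4 => (hder l (by omega)).hasDerivWithinAt) (kgap hg)
  have hSG' : SlpG (fun w l => LvL hn P P' o l w w) 1 2 (G ∩ Ctw Λ) g
      (fun l => deriv (fun a => LvL hn P P' o l a a) g) :=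
    slpG_of hnn hgt (fun l _ h4 => (hder l (by omega)).hasDerivWithinAt) (gap_dsc hds)
  have hle : ∀ a ∈ Gs P r P' Λ o, a ≤ LvL hn P P' o 1 a a := fun a ha => by
    rw [gs_lvl H.toPk hTop hF ha (by omega)]
    exact le_vs H.toPk.lam (epo hn o) ha.1.1.2.1.le _
  have hlo : g < LvL hn P P' o 1 g g := by
    have h5 := dsc_pos hds (f := fun a => LvL hn P P' o 1 a a - a)
      (s := deriv (fun a => LvL hn P P' o 1 a a) g - 1)
      ((hder 1 (by omega)).sub (hasDerivAt_id g)) (by linarith)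
      (fun a ha => by
        have := hle a (hGs ha.1)
        show 0 ≤ LvL hn P P' o 1 a a - a
        linarith) (by
        have := hle g hgG
        show 0 ≤ LvL hn P P' o 1 g g - g
        linarith)
    have h6 : 0 < LvL hn P P' o 1 g g - g := h5
    linarith
  have hlo2 : LvL hn P P' o 1 g g ≤ LvL hn P P' o 2 g g := by
    rw [gs_lvl H.toPk hTop hF hgG (by omega), gs_lvl H.toPk hTop hF hgG h2]
    have h1 : Vgr Λ (epo hn o) g := hgG.1.1.2.2.1
    exact h1.mono H.toPk.lam hgG.1.1.2.1.le (by omega)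
  obtain ⟨ρ₀, hρ₀, h6⟩ := near_two H.toPk hTop hF h2 hsub hds hs1 (hder 1 (by omega)) hlo
  have e1 : (range 1).image (cc hn o.1.1) = {cc hn o.1.1 0} := by simp
  have e2 : (range 2).image (cc hn o.1.1) = {cc hn o.1.1 0, cc hn o.1.1 1} :=
    Pool.OWN72.img_two _
  have h7 := s3 hSG' ⟨hg, kct⟩ le_rfl le_rfl hρ₀ (fun w hw w1 w2 i i1 i2 => by
    have hi : i = 1 ∨ i = 2 := by omega
    rcases hi with rfl | rfl
    · rw [e1]
      exact lev_one H.toPk hTop hF (hGs hw.1) (by omega)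
    · rw [e2]
      exact h6 w hw w1 w2) hgG.1.1.1 hlo (hlo.trans_le hlo2)
    (lev_lt H.toPk hTop hF hgG (by omega))
  exact ⟨afG_big h7.1 hSG le_rfl (by norm_num) Set.inter_subset_left (gap_dsc hds),
    afG_big h7.2 hSG (by norm_num) le_rfl Set.inter_subset_left (gap_dsc hds)⟩

end Pool.PKG
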