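import Pool.Agent.H3.D2G.Chn1
import Pool.Agent.H96.AVG.Gch
import Pool.Agent.H3.V0F.Attg

/-!
# The class and the labels at a closed set of good windows, from the records

`tgt_lt`: the level of the target is smaller than one. `tgt_att`: the labels of the target at all
good windows, in one subclass. `gch_sub`: one subclass in which the structure `GCh` over the first
place holds for all orders, all closed sets of good windows, all places and all side informations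
which know the digits of the base. `gch_list`: the same for a place of the list, in the class itself.
-/

set_option autoImplicit false

namespace Pool.PKG

open Finset
open Pool.Agent.H49.Ent Pool.Agent.H32.Dense Pool.STK Pool.KA Pool.KSAT Pool.K2S Pool.PB Pool.GEN
open Pool.S6C Pool.GRW Pool.RCD
open Pool.TOP (TopS)
open Pool.CHT
open Pool.ONE (lst)
open Pool.LA91 (Chn ChG Att Ful FulC Kn AttG)
open Pool.AVG96

variable {n : ℕ} {hn : 2 ≤ n} {S : PCl n} {P : ℝ → ℝ → ℝ} {rr : ℝ → ℝ}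
  {P' : ℕ → List (Fin n) × Fin n → ℝ → ℝ → ℝ} {Λ : Finset (Fin n) → Fin n → ℝ → ℝ → ℝ}

/-- The level of the target at a good window is smaller than one. -/
theorem tgt_lt (H : Pk hn S P rr P' Λ) (hTop : TopS n) (hF : FZX (n - 1)) {o : Od n} {w : ℝ}
    (hw : w ∈ Gs P rr P' Λ o) : P w w < 1 := by
  obtain ⟨α, Q, c, F⟩ := H.fac hTop hF hw
  obtain ⟨h0, h1, -⟩ := V0F.tgt_lbU H hTop hF hw F F.gα
  have h2 := F.thc
  have h3 := tht_pos o.2
  linarith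

/-- **The labels of the target** at all good windows of all orders, in one subclass. -/
theorem tgt_att (H : Pk hn S P rr P' Λ) (hTop : TopS n) (hF : FZX (n - 1)) :
    ∃ S' : PCl n, S'.Ne ∧
      (∀ (τ : ℝ) (J : ℕ) (F : Fam n J) (A : F.Ω → Prop), S'.St τ J F A → S.St τ J F A) ∧
      ∀ (o : Od n) (w : ℝ), w ∈ Gs P rr P' Λ o → ∃ rk E : ℝ, 0 ≤ rk ∧ rk < 1 ∧ 0 ≤ E ∧
        E + LvL hn P P' o (n - 1) w w < 1 ∧
        AtE S' ((range (n - 1)).image (cc hn o.1.1)) (cc hn o.1.1 (n - 1)) w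
          (LvL hn P P' o (n - 1) w w) rk E := by
  obtain ⟨S', h1, h2, h3⟩ := V0F.attU_sub H hTop hF
  refine ⟨S', h1, h2, fun o w hw => ?_⟩
  obtain ⟨α, Q, c, F⟩ := H.fac hTop hF hw
  obtain ⟨hE0, -, -⟩ := V0F.tgt_lbU H hTop hF hw F F.gα
  obtain ⟨-, hwu, hu⟩ := V0F.gs_full H hTop hF hw
  have hc0 : 0 < c := (tht_pos o.2).trans F.thc
  have hw0 := F.g0
  rw [V0F.img_lst, cc_top, lvL_last]
  exact ⟨LvL hn P P' o (n - 2) w w, 1 - c / 2 - P w w, hw0.le.trans hwu, hu, hE0, by linarith,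
    h3 o w hw w α Q c F F.gα⟩

/-- The levels are smaller than one at the good windows. -/
theorem lev_lt' (H : Pk hn S P rr P' Λ) (hTop : TopS n) (hF : FZX (n - 1)) {o : Od n} {w : ℝ}
    (hw : w ∈ Gs P rr P' Λ o) {l : ℕ} (hl : l ≤ n - 1) : LvL hn P P' o l w w < 1 := by
  rcases hl.lt_or_eq with h | h
  · exact lev_lt H hTop hF hw h
  · rw [h, lvL_last]
    exact tgt_lt H hTop hF hw

/-- A part of `GCh` in terms of the labels of the place `r`. -/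
theorem gch_of (H : Pk hn S P rr P' Λ) (hTop : TopS n) (hF : FZX (n - 1)) {o : Od n}
    (hlaw : ∀ l, 1 ≤ l → l ≤ n - 1 → Pool.LEV.Law (LvL hn P P' o l))
    {G : Set ℝ} (hG : IsClosed G) (hGs : G ⊆ Gs P rr P' Λ o) {r : ℕ} (hr1 : 1 ≤ r)
    (hr : r ≤ n - 1) {S' : PCl n} (hne : S'.Ne)
    (hsub : ∀ (τ : ℝ) (J : ℕ) (F : Fam n J) (A : F.Ω → Prop), S'.St τ J F A → S.St τ J F A)
    (hat : ∀ w ∈ G, AtT S' (cc hn o.1.1) 1 r w (LvL hn P P' o r w w)) {s : ℝ} {η : ℚ → ℝ}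
    (hη : ∀ w : ℚ, RNum S' (fun J F => ptr F J) (vg ((w : ℝ) + s)) (η w)) {A B Λ' : ℝ}
    (hA : 0 ≤ A) (hΛ : 0 < Λ') {γ : ∀ J : ℕ, Fam n J → Type}
    {y : ∀ (J : ℕ) (F : Fam n J), F.Ω → γ J F}
    (kn : ∃ p₀ lam : ℝ, p₀ ≤ 1 ∧ Λ' ≤ lam ∧ B + Λ' ≤ p₀ ∧
      Kn ((range 1).image (cc hn o.1.1)) p₀ lam y) :
    GCh S' (fun J F => ptr F J) y (cc hn o.1.1) 1 r s A B Λ' (fun w l => LvL hn P P' o l w w)
      G where
  ne := hne
  pos := by
    obtain ⟨al, g₀, s, d, e, K₀, N, hal, hg₀, hC⟩ := H.cl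
    exact fun τ J F A h => hC.pos τ J F A (hsub τ J F A h)
  tm := by
    obtain ⟨al, g₀, s, d, e, K₀, N, hal, hg₀, hC⟩ := H.cl
    exact ⟨6, fun τ J F A hτ h => Pool.GEN.N83.clx_tmc hC τ J F A hτ (hsub τ J F A h)⟩
  rn := fun q _ _ => ⟨η q, hη q⟩
  cl := hG
  ch := fun w hw _ _ => by
    obtain ⟨u₁, rd, h1, h2⟩ := gs_chn1 H hTop hF (hGs hw) hr1 hr
    exact ⟨u₁, rd, fun l _ hl => h1 l hl, h2.sub hsub⟩
  att := fun w hw _ _ => hat w hw
  pt := fun _ _ => ⟨fun x => x, fun _ => rfl⟩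
  kn := kn
  mono := fun l h1l hl v hv o' ho _ hvo _ =>
    law_gap (hlaw l h1l (hl.trans hr)) (hGs hv).1.1.1.le hvo (hGs ho).1.1.2.1.le
      (lev_lt' H hTop hF (hGs ho) (hl.trans hr))
  A0 := hA
  Λ0 := hΛ

variable {PB : ℕ → List (Fin n) × Fin n → ℝ → ℝ → ℝ}

/-- The labels of a place of the list, in the form of `GCh`. -/
theorem att_list (H : Pk hn S P rr P' Λ) (hTop : TopS n) (hF : FZX (n - 1)) {o : Od n} {w : ℝ}
    (hw : w ∈ Gs P rr P' Λ o) {r : ℕ} (hr : r < n - 1) (r₀ : ℕ) :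
    AtT S (cc hn o.1.1) r₀ r w (LvL hn P P' o r w w) := by
  obtain ⟨u₁, rd, h1, h2⟩ := gs_chn H hTop hF hw (i := r + 1) (by omega)
  exact AtT.of (h1 r (by omega)) hw.1.1.2.1.le (h2.att r (Nat.zero_le _) (by omega))

/-- **The class and the labels at a closed set of good windows**, over the first place, for a place
of the list. -/
theorem gch_list (H : PkT hn S P rr P' Λ PB) (hTop : TopS n) (hF : FZX (n - 1)) {o : Od n}
    {G : Set ℝ} (hG : IsClosed G) (hGs : G ⊆ Gs P rr P' Λ o) {r : ℕ} (hr1 : 1 ≤ r)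
    (hr : r < n - 1) {s : ℝ} {η : ℚ → ℝ}
    (hη : ∀ w : ℚ, RNum S (fun J F => ptr F J) (vg ((w : ℝ) + s)) (η w)) {A B Λ' : ℝ}
    (hA : 0 ≤ A) (hΛ : 0 < Λ') {γ : ∀ J : ℕ, Fam n J → Type}
    {y : ∀ (J : ℕ) (F : Fam n J), F.Ω → γ J F}
    (kn : ∃ p₀ lam : ℝ, p₀ ≤ 1 ∧ Λ' ≤ lam ∧ B + Λ' ≤ p₀ ∧
      Kn ((range 1).image (cc hn o.1.1)) p₀ lam y) :
    GCh S (fun J F => ptr F J) y (cc hn o.1.1) 1 r s A B Λ' (fun w l => LvL hn P P' o l w w) G :=
  gch_of H.toPk hTop hF (fun l _ _ => H.lawL o l) hG hGs hr1 hr.le H.toPk.ne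
    (fun _ _ _ _ h => h) (fun _ hw => att_list H.toPk hTop hF (hGs hw) hr 1) hη hA hΛ kn

/-- **One subclass** in which the structure `GCh` over the first place holds, in every subclass of it
with numbers, for all orders, all closed sets of good windows, all places with `2 ≤ r` or
`r < n - 1`, and all side informations. -/
theorem gch_sub (H : PkT hn S P rr P' Λ PB) (hTop : TopS n) (hF : FZX (n - 1)) :
    ∃ S₁ : PCl n, S₁.Ne ∧
      (∀ (τ : ℝ) (J : ℕ) (F : Fam n J) (A : F.Ω → Prop), S₁.St τ J F A → S.St τ J F A) ∧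
      ∀ {S' : PCl n}, S'.Ne →
        (∀ (τ : ℝ) (J : ℕ) (F : Fam n J) (A : F.Ω → Prop), S'.St τ J F A → S₁.St τ J F A) →
        ∀ {o : Od n} {G : Set ℝ}, IsClosed G → G ⊆ Gs P rr P' Λ o → ∀ {r : ℕ}, 1 ≤ r →
        r ≤ n - 1 → 2 ≤ r ∨ r < n - 1 → ∀ {s : ℝ} {η : ℚ → ℝ},
        (∀ w : ℚ, RNum S' (fun J F => ptr F J) (vg ((w : ℝ) + s)) (η w)) → ∀ {A B Λ' : ℝ},
        0 ≤ A → 0 < Λ' → ∀ {γ : ∀ J : ℕ, Fam n J → Type}
        {y : ∀ (J : ℕ) (F : Fam n J), F.Ω → γ J F},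
        (∃ p₀ lam : ℝ, p₀ ≤ 1 ∧ Λ' ≤ lam ∧ B + Λ' ≤ p₀ ∧
          Kn ((range 1).image (cc hn o.1.1)) p₀ lam y) →
        GCh S' (fun J F => ptr F J) y (cc hn o.1.1) 1 r s A B Λ'
          (fun w l => LvL hn P P' o l w w) G := by
  obtain ⟨S₁, h1, h2, h3⟩ := tgt_att H.toPk hTop hF
  refine ⟨S₁, h1, h2, ?_⟩
  intro S' hne hs o G hG hGs r hr1 hr hr2 s η hη A B Λ' hA hΛ γ y kn
  have hs' : ∀ (τ : ℝ) (J : ℕ) (F : Fam n J) (A : F.Ω → Prop), S'.St τ J F A → S.St τ J F A :=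
    fun τ J F A h => h2 τ J F A (hs τ J F A h)
  refine gch_of H.toPk hTop hF (fun l _ _ => H.lawL o l) hG hGs hr1 hr hne hs'
    (fun w hw => ?_) hη hA hΛ kn
  rcases hr.lt_or_eq with h | h
  · exact (att_list H.toPk hTop hF (hGs hw) h 1).sub hs'
  · subst h
    obtain ⟨rk, E, k1, k2, k3, k4, k5⟩ := h3 o w (hGs hw)
    exact ⟨rk, E, k1, k3, fun h => by omega, k5.sub hs⟩

end Pool.PKG
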