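import Pool.Agent.H3.D2G.CelQ
import Pool.Agent.H3.D2G.WnG
import Pool.Agent.H56.ASM.Sk13

/-!
# The record with the whole chain, the rate of the last coordinate and a set of windows

`RecG`: as `RecQ`, with all the coordinates of the order (`RecT`: each one is a target at the same
windows), their kinds `Kg`, the rate of the last one, all windows in a set `G` and near `g`.
`WnG.recG`: it exists near almost every window of `G`. `CelG`, `VoidG`: class theorems with the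
conclusions: no drop at the place `i`; contradiction. `RecG.recQ`: the record of one target.
-/

set_option autoImplicit false

namespace Pool.PKG

open MeasureTheory Set Filter Topology
open Pool.Agent.H49.Ent Pool.Agent.H32.Dense Pool.STK Pool.KA Pool.KSAT Pool.K2S Pool.PB
open Pool.GEN Pool.S6C Pool.STAT Pool.CHT Pool.GRW Pool.ONE Pool.STA
open Pool.LBT (LSys ThrOf)
open Pool.LEV (Law)
open Pool.ALL (RateOf)
open Pool.TOP (TopS)
open Pool.STR (ThinAt SteepAt StaAt sta_of_pairs)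
open Pool.ISO (PtD lvN WinD)

/-- The kinds of the coordinates of a record. -/
inductive Kg
  | one
  | thin
  | sta
  | stp
  | any

/-- A kind of the list. -/
def ofKd : Kd → Kg
  | .one => .one
  | .thin => .thin
  | .sta => .sta

/-- **The kind of a coordinate** at a window. -/
def KgAt {n : ℕ} (hn : 2 ≤ n) (P : ℝ → ℝ → ℝ) (P' PB : ℕ → List (Fin n) × Fin n → ℝ → ℝ → ℝ)
    (o : Od n) (l : ℕ) (g : ℝ) : Kg → Prop
  | .one => deriv (fun a => LvL hn P P' o l a a) g = 1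
  | .thin => 1 < deriv (fun a => LvL hn P P' o l a a) g ∧
      ThinAt (LvL hn P P' o l) (LvT hn PB o l) g
  | .sta => 2 ≤ deriv (fun a => LvL hn P P' o l a a) g ∧ StaAt (LvL hn P P' o l) g
  | .stp => 2 < deriv (fun a => LvL hn P P' o l a a) g ∧ SteepAt 2 (LvT hn PB o l) g
  | .any => True

/-- **The numbers of a kind** in the box of radius `K q` around `t`. -/
def KgQ (k : Kg) (L T : ℝ → ℝ → ℝ) (s t K q ε : ℝ) : Prop :=
  match k with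
  | .one => s = 1
  | .thin => 1 < s ∧ ∀ a w : ℝ, t - K * q ≤ w → w ≤ a → a ≤ t + K * q →
      L a w ≤ T w w + (a - w) + ε * q
  | .sta => 2 ≤ s ∧ ∀ a w : ℝ, t - K * q ≤ w → w ≤ a → a ≤ t + K * q → L a a ≤ L a w + ε * q
  | .stp => 2 < s ∧ ∀ a w : ℝ, t - K * q ≤ w → w ≤ a → a ≤ t + K * q →
      T w w + 2 * (a - w) ≤ T a w + ε * q
  | .any => True

theorem KdAt.kg {n : ℕ} {hn : 2 ≤ n} {P : ℝ → ℝ → ℝ}
    {P' PB : ℕ → List (Fin n) × Fin n → ℝ → ℝ → ℝ} {o : Od n} {l : ℕ} {g : ℝ} {k : Kd}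
    (h : KdAt hn P P' PB o l g k) : KgAt hn P P' PB o l g (ofKd k) := by
  cases k <;> exact h

theorem KgQ.kd {k : Kd} {L T : ℝ → ℝ → ℝ} {s t K q ε : ℝ} (h : KgQ (ofKd k) L T s t K q ε) :
    KdQ k L T s t K q ε := by
  cases k <;> exact h

/-- **The record of one target**, at the place `l`: `P₂` is a second threshold structure, with the
exponent `e₂` above the exponent `Eb` of the path data. -/
structure RecT {m : ℕ} (S : PCl m) (P P₂ : List (Fin m) × Fin m → ℝ → ℝ → ℝ) (θ θ₂ : ℝ)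
    (c : ℕ → Fin m) (l : ℕ) (L : ℕ → ℝ → ℝ → ℝ) (S₀ N : ℕ) (A V : ℕ → ℝ) (S₂ N' : ℕ)
    (V' : ℕ → ℝ) (Eb e₂ K q t : ℝ) : Prop where
  thr₂ : ThrOf (chsys m θ₂) S P₂
  th₂0 : 0 < θ₂
  Eb0 : 0 < Eb
  Ebe : Eb + 3 * K * q < e₂
  eθ : ∀ x : ℝ, |x - t| ≤ K * q → e₂ < θ₂ * x
  room : ∀ j ≤ l, ∀ x : ℝ, |x - t| ≤ K * q → L j x x + Eb + 3 * K * q < 1
  pt : ∀ k < N, PtI S P θ c l (L l) S₂ Eb (t + A k * q) (t + V k * q) ∧
    PtI S P θ c l (L l) S₂ Eb (t + V k * q) (t + V k * q)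
  rat : ∀ k < N, ∀ e : ℝ, 0 < e → ∃ d : ℝ, 0 < d ∧ ∀ a' w' : ℝ, t + A k * q ≤ a' →
    a' ≤ t + A k * q + d → t + V k * q ≤ w' → w' ≤ t + V k * q + d → w' ≤ a' →
    bet P₂ c l a' w' ≤ L l (t + A k * q) (t + V k * q) + e ∧
    (∀ j ≤ l, bet P₂ c j w' w' ≤ L j (t + V k * q) (t + V k * q) + e) ∧
    ∀ j ≤ l, bet P₂ c j a' a' ≤ L j (t + A k * q) (t + A k * q) + e
  ptc : ∀ k < N', PtI S P θ c l (L l) S₀ Eb (t + V' k * q) (t + V' k * q)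
  ratc : ∀ k < N', ∀ e : ℝ, 0 < e → ∃ d : ℝ, 0 < d ∧ ∀ w' : ℝ, t + V' k * q ≤ w' →
    w' ≤ t + V' k * q + d → ∀ j ≤ l, bet P₂ c j w' w' ≤
      L j (t + V' k * q) (t + V' k * q) + e

/-- **The record of the windows** `t + A k q`, `t + V k q`, `k < N`, and of the chain `t + V' k q`,
`k < N'`, for all the coordinates `c 0, …, c (m - 1)`: the last one is the target, with the law `Pt`
and the rate `r`, the first one is the active coordinate; `L l` are the levels, `T l` the levels of the fattest boxes, `Sl l` the slopes,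
`κ l` the kinds. All windows are in `G`, and `t` is near `g`. -/
structure RecG {m : ℕ} (S : PCl m) (al : ℝ) (g₀ : ℝ → ℝ)
    (P : List (Fin m) × Fin m → ℝ → ℝ → ℝ) (θ : ℝ)
    (P₂ : ℕ → List (Fin m) × Fin m → ℝ → ℝ → ℝ) (θ₂ Eb e₂ : ℕ → ℝ)
    (c : ℕ → Fin m) (Pt : ℝ → ℝ → ℝ) (r : ℝ → ℝ) (h K₀ g : ℝ) (L T : ℕ → ℝ → ℝ → ℝ)
    (Sl : ℕ → ℝ) (κ : ℕ → Kg) (G : Set ℝ) (S₀ N : ℕ) (A V : ℕ → ℝ) (S₂ N' : ℕ) (V' : ℕ → ℝ)
    (K ε q t : ℝ) : Prop where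
  ne : S.Ne
  al0 : 0 < al
  g₀pos : ∀ ε : ℝ, 0 < ε → 0 < g₀ ε
  clx : ∃ (s : Fin m → ℝ) (d : ℕ → ℝ) (e : ℝ) (K₀ : ℕ) (N₁ : ℚ → ℚ → ℝ),
    ClX s d al g₀ e K₀ N₁ S
  thr : ThrOf (chsys m θ) S P
  th0 : 0 < θ
  tgs : ThrOf (tgs (c (m - 1))) S (fun _ => Pt)
  rate : RateOf S (c (m - 1)) r
  inj : Set.InjOn c (Set.Iio m)
  c0 : ((c 0 : Fin m) : ℕ) = 0
  law : Law Pt
  lv : ∀ l < m, L l = lvN P c (m - 1) Pt l
  lawL : ∀ l < m, Law (L l)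
  q0 : 0 < q
  t0 : 0 < t - K * q
  t1 : t + K * q < 1
  near : |t - g| ≤ K₀ * q
  memG : (∀ k < N, t + A k * q ∈ G ∧ t + V k * q ∈ G) ∧ ∀ k < N', t + V' k * q ∈ G
  TL : ∀ k < N, ∀ l < m, T l (t + A k * q) (t + V k * q) ≤ L l (t + A k * q) (t + V k * q) ∧
    T l (t + V k * q) (t + V k * q) ≤ L l (t + V k * q) (t + V k * q)
  TLc : ∀ k < N', ∀ l < m,
    T l (t + V' k * q) (t + V' k * q) ≤ L l (t + V' k * q) (t + V' k * q)
  dL : ∀ l < m, ∀ x : ℝ, |x - t| ≤ K * q → |L l x x - L l t t - Sl l * (x - t)| ≤ ε * q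
  dT : ∀ l < m, ∀ x : ℝ, |x - t| ≤ K * q → |T l x x - L l t t - Sl l * (x - t)| ≤ ε * q
  s0 : Sl 0 = 1
  l0 : ∀ x : ℝ, |x - t| ≤ K * q → |L 0 x x - x| ≤ ε * q
  kd : ∀ l < m, KgQ (κ l) (L l) (T l) (Sl l) t K q ε
  row : ∀ x y : ℝ, |x - L (m - 1) t t| ≤ K * q → |y - L (m - 1) t t| ≤ K * q → x ≤ y →
    r y - r x ≤ (1 - h) * (y - x) + ε * q
  tg : ∀ l, 1 ≤ l → l < m → RecT S P (P₂ l) θ (θ₂ l) c l L S₀ N A V S₂ N' V' (Eb l) (e₂ l) K q t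
  tgl : ∀ l, 1 ≤ l → l + 1 < m → P₂ l = P ∧ θ₂ l = θ

section

variable {m : ℕ} {S : PCl m} {al : ℝ} {g₀ : ℝ → ℝ} {P : List (Fin m) × Fin m → ℝ → ℝ → ℝ}
  {θ : ℝ} {P₂ : ℕ → List (Fin m) × Fin m → ℝ → ℝ → ℝ} {θ₂ Eb e₂ : ℕ → ℝ}
  {c : ℕ → Fin m} {Pt : ℝ → ℝ → ℝ} {r : ℝ → ℝ} {h K₀ g : ℝ} {L T : ℕ → ℝ → ℝ → ℝ}
  {Sl : ℕ → ℝ} {κ : ℕ → Kg} {G : Set ℝ} {S₀ N : ℕ} {A V : ℕ → ℝ} {S₂ N' : ℕ} {V' : ℕ → ℝ}
  {K ε q t : ℝ}
  (R : RecG S al g₀ P θ P₂ θ₂ Eb e₂ c Pt r h K₀ g L T Sl κ G S₀ N A V S₂ N' V' K ε q t)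
include R

theorem RecG.tmc : TmC S 6 := by
  obtain ⟨s, d, e, K₀, N, h⟩ := R.clx
  exact Pool.GEN.N83.clx_tmc h

theorem RecG.tmh : TmH S := tmH_of_tmC (by norm_num) R.tmc

theorem RecG.pos (τ : ℝ) (J : ℕ) (F : Fam m J) (A : F.Ω → Prop) (h : S.St τ J F A) :
    0 < Pe F.p A := by
  obtain ⟨s, d, e, K₀, N, hC⟩ := R.clx
  exact hC.pos τ J F A h

/-- The families of the class are rounded. -/
theorem RecG.gd (τ : ℝ) (J : ℕ) (F : Fam m J) (A : F.Ω → Prop) (h : S.St τ J F A) : Gd F := by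
  obtain ⟨s, d, e, K₀, N, hC⟩ := R.clx
  exact (hC.mem τ J F A h).2.2.2.2.1

/-- The side information has no atoms. -/
theorem RecG.zc (τ : ℝ) (J : ℕ) (F : Fam m J) (A : F.Ω → Prop) (h : S.St τ J F A) :
    Zc F := by
  obtain ⟨s, d, e, K₀, N, hC⟩ := R.clx
  exact (hC.mem τ J F A h).2.2.2.2.2.2

/-- The levels of the list. -/
theorem RecG.lv_lt {l : ℕ} (hl : l + 1 < m) : L l = bet P c l := by
  rw [R.lv l (by omega)]
  funext a w
  exact if_pos (by omega)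

/-- The level of the last coordinate. -/
theorem RecG.lv_last (hm : 0 < m) : L (m - 1) = Pt := by
  rw [R.lv (m - 1) (by omega)]
  funext a w
  exact if_neg (lt_irrefl _)

/-- The levels for the target at the place `i`. -/
theorem RecG.lv_at {i l : ℕ} (hi : i < m) (hl : l ≤ i) : L l = lvN P c i (L i) l := by
  funext a w
  unfold lvN
  split_ifs with h1
  · rw [R.lv_lt (by omega)]
  · have : l = i := by omega
    rw [this]

/-- **The record of one target.** -/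
theorem RecG.recQ {i : ℕ} (hi1 : 1 ≤ i) (hi : i < m) (hκi : κ i = .stp) {κ' : ℕ → Kd}
    (hκ : ∀ l < i, κ l = ofKd (κ' l)) :
    RecQ S P (P₂ i) θ (θ₂ i) c i (L i) L T Sl κ' S₀ N A V S₂ N' V' (Eb i) (e₂ i) K ε q t := by
  have W := R.tg i hi1 hi
  have hk := R.kd i hi
  rw [hκi] at hk
  refine ⟨R.ne, R.thr, R.th0, W.thr₂, W.th₂0, R.tmh, R.inj.mono fun x hx => ?_,
    R.lawL i hi, fun l hl => R.lv_at hi hl, fun l hl => R.lawL l (by omega), W.Eb0, R.q0, R.t0,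
    R.t1, W.pt, fun k hk l hl => R.TL k hk l (by omega), fun l hl => R.dL l (by omega),
    fun l hl => R.dT l (by omega), W.room, W.eθ, W.Ebe, fun l hl => ?_, hk.1, hk.2, W.rat, W.ptc,
    fun k hk l hl => R.TLc k hk l (by omega), W.ratc, fun l hl1 hl => ?_, ?_⟩
  · rw [Set.mem_Iio] at hx ⊢
    omega
  · have h1 := R.kd l (by omega)
    rw [hκ l hl] at h1
    exact h1.kd
  · have W' := R.tg l hl1 (by omega)
    obtain ⟨h1, h2⟩ := R.tgl l hl1 (by omega)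
    rw [h1, h2] at W'
    have e1 := R.lv_lt (l := l) (by omega)
    have hpt := W'.pt
    have hptc := W'.ptc
    rw [e1] at hpt hptc
    exact ⟨Eb l, e₂ l, W'.Eb0, W'.Ebe, W'.eθ, W'.room, hpt, fun k hk e he => by
      obtain ⟨d, hd, h3⟩ := W'.rat k hk e he
      exact ⟨d, hd, fun a' w' k1 k2 k3 k4 k5 => (h3 a' w' k1 k2 k3 k4 k5).1⟩, W'.rat, hptc,
      W'.ratc⟩
  · obtain ⟨s, d, e, K₁, N₁, hC⟩ := R.clx
    exact ⟨al, g₀, s, d, e, K₁, N₁, R.al0, R.g₀pos, hC⟩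

/-- **The data of a window** of the target at the place `i`, from the record. -/
theorem RecG.winD {i : ℕ} (hi1 : 1 ≤ i) (hi : i < m) {k : ℕ} (hk : k < N)
    (hVK : -K ≤ V k) (hAV : V k < A k) (hAK : A k ≤ K) {ε' : ℝ} (hε' : 3 * ε * q ≤ ε')
    (hε : 0 ≤ ε) {Rg : ℕ → Prop} (hR : ∀ l < i, Rg l → κ l = .one ∨ κ l = .thin) :
    WinD S P θ c i (L i) (t + A k * q) (t + V k * q) S₂ (Eb i) ε' Rg := by
  have W := R.tg i hi1 hi
  have hq := R.q0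
  have hVA : V k * q < A k * q := mul_lt_mul_of_pos_right hAV hq
  have hV1 : -(K * q) ≤ V k * q := by
    have := mul_le_mul_of_nonneg_right hVK hq.le
    linarith
  have hA1 : A k * q ≤ K * q := mul_le_mul_of_nonneg_right hAK hq.le
  have hεq : 0 ≤ ε * q := mul_nonneg hε hq.le
  have hbx : |t + V k * q - t| ≤ K * q := by
    rw [abs_le]
    constructor <;> linarith
  have hbx' : |t + A k * q - t| ≤ K * q := by
    rw [abs_le]
    constructor <;> linarith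
  have h3 : 3 * (ε * q) ≤ ε' := by linarith
  refine winD_of (by linarith) (W.pt k hk).1 (W.pt k hk).2 (by linarith) (fun l hl hRl => ?_)
    (fun l hl => ?_)
  · rw [← R.lv_lt (l := l) (by omega)]
    have h4 := R.kd l (by omega)
    have h5 := abs_le.1 (R.dL l (by omega) _ hbx)
    have h6 := abs_le.1 (R.dL l (by omega) _ hbx')
    rcases hR l hl hRl with h | h
    · rw [h] at h4
      have h7 : Sl l = 1 := h4
      rw [h7] at h5 h6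
      have h8 := (R.lawL l (by omega)).mono_w (t + A k * q) (t + V k * q) (t + A k * q)
        (by linarith [R.t0]) (by linarith) le_rfl (by linarith [R.t1])
      linarith
    · rw [h] at h4
      have h8 := h4.2 (t + A k * q) (t + V k * q) (by linarith) (by linarith) (by linarith)
      have h9 := abs_le.1 (R.dT l (by omega) _ hbx)
      linarith
  · rw [← R.lv_at hi hl]
    have := W.room l hl _ hbx
    linarith

end

/-- The numbers of the second threshold structure at the pairs. -/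
theorem RecT.ratN {m : ℕ} {S : PCl m} {P P₂ : List (Fin m) × Fin m → ℝ → ℝ → ℝ} {θ θ₂ : ℝ}
    {c : ℕ → Fin m} {l : ℕ} {L : ℕ → ℝ → ℝ → ℝ} {S₀ N : ℕ} {A V : ℕ → ℝ} {S₂ N' : ℕ}
    {V' : ℕ → ℝ} {Eb e₂ K q t : ℝ}
    (W : RecT S P P₂ θ θ₂ c l L S₀ N A V S₂ N' V' Eb e₂ K q t) {k : ℕ} (hk : k < N) (e : ℝ)
    (he : 0 < e) : ∃ d : ℝ, 0 < d ∧ ∀ a' w' : ℝ, t + A k * q ≤ a' → a' ≤ t + A k * q + d →
      t + V k * q ≤ w' → w' ≤ t + V k * q + d → w' ≤ a' →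
      bet P₂ c l a' w' ≤ L l (t + A k * q) (t + V k * q) + e := by
  obtain ⟨d, hd, h3⟩ := W.rat k hk e he
  exact ⟨d, hd, fun a' w' k1 k2 k3 k4 k5 => (h3 a' w' k1 k2 k3 k4 k5).1⟩

/-- **The class theorem of a cell**, with the rate: slopes `Sl`, kinds `κ`, target at the place
`i`, deficit `h`. The radius `K'` of the record is chosen after the constant `S₂` of the pairs. -/
def CelG (n i : ℕ) (h : ℝ) (Sl : ℕ → ℝ) (κ : ℕ → Kg) : Prop :=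
  ∀ al : ℝ, 0 < al → ∀ K₀ : ℝ, 0 < K₀ → ∀ del : ℝ, 0 < del → ∀ S₀ : ℕ, 1 ≤ S₀ →
    ∃ (K : ℝ) (N : ℕ) (A V : ℕ → ℝ), 1 ≤ K ∧ (∀ k < N, -K ≤ V k ∧ V k ≤ A k ∧ A k ≤ K) ∧
    ∀ S₂ : ℕ, S₀ ≤ S₂ → ∃ (K' : ℝ) (N' : ℕ) (V' : ℕ → ℝ), K ≤ K' ∧
      (∀ k < N', -K' ≤ V' k ∧ V' k ≤ K') ∧
      ∃ ε : ℝ, 0 < ε ∧ ∀ (S : PCl n) (g₀ : ℝ → ℝ) (P : List (Fin n) × Fin n → ℝ → ℝ → ℝ)
      (θ : ℝ) (P₂ : ℕ → List (Fin n) × Fin n → ℝ → ℝ → ℝ) (θ₂ Eb e₂ : ℕ → ℝ) (c : ℕ → Fin n)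
      (Pt : ℝ → ℝ → ℝ) (r : ℝ → ℝ) (L T : ℕ → ℝ → ℝ → ℝ) (G : Set ℝ) (g : ℝ),
      ∃ q₁ : ℝ, 0 < q₁ ∧ ∀ q t : ℝ, q < q₁ →
      RecG S al g₀ P θ P₂ θ₂ Eb e₂ c Pt r h K₀ g L T Sl κ G S₀ N A V S₂ N' V' K' ε q t →
      L i (t + q) (t + q) ≤ L i (t + q) t + del * q

/-- **The class theorem of a void kind of windows**: slopes `Sl`, kinds `κ`, deficit `h`. -/
def VoidG (n : ℕ) (h : ℝ) (Sl : ℕ → ℝ) (κ : ℕ → Kg) : Prop :=
  ∀ al : ℝ, 0 < al → ∀ K₀ : ℝ, 0 < K₀ → ∀ S₀ : ℕ, 1 ≤ S₀ →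
    ∃ (K : ℝ) (N : ℕ) (A V : ℕ → ℝ), 1 ≤ K ∧ (∀ k < N, -K ≤ V k ∧ V k ≤ A k ∧ A k ≤ K) ∧
    ∀ S₂ : ℕ, S₀ ≤ S₂ → ∃ (K' : ℝ) (N' : ℕ) (V' : ℕ → ℝ), K ≤ K' ∧
      (∀ k < N', -K' ≤ V' k ∧ V' k ≤ K') ∧
      ∃ ε : ℝ, 0 < ε ∧ ∀ (S : PCl n) (g₀ : ℝ → ℝ) (P : List (Fin n) × Fin n → ℝ → ℝ → ℝ)
      (θ : ℝ) (P₂ : ℕ → List (Fin n) × Fin n → ℝ → ℝ → ℝ) (θ₂ Eb e₂ : ℕ → ℝ) (c : ℕ → Fin n)
      (Pt : ℝ → ℝ → ℝ) (r : ℝ → ℝ) (L T : ℕ → ℝ → ℝ → ℝ) (G : Set ℝ) (g : ℝ),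
      ∃ q₁ : ℝ, 0 < q₁ ∧ ∀ q t : ℝ, q < q₁ →
      RecG S al g₀ P θ P₂ θ₂ Eb e₂ c Pt r h K₀ g L T Sl κ G S₀ N A V S₂ N' V' K' ε q t → False

/-- The rate near a point where its derivative is less than `1 - h`. -/
theorem row_near {r : ℝ → ℝ} {p h : ℝ} (hr : DifferentiableAt ℝ r p) (hd : deriv r p < 1 - h)
    {C ε : ℝ} (hC : 0 < C) (hε : 0 < ε) : ∃ q₁ : ℝ, 0 < q₁ ∧ ∀ q : ℝ, 0 < q → q < q₁ →
      ∀ x y : ℝ, |x - p| ≤ C * q → |y - p| ≤ C * q → x ≤ y →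
        r y - r x ≤ (1 - h) * (y - x) + ε * q := by
  have h3 := hr.hasDerivAt.isLittleO.def (show 0 < ε / (2 * C) by positivity)
  obtain ⟨η, hη, h4⟩ := Metric.eventually_nhds_iff.1 h3
  refine ⟨η / (2 * C), by positivity, fun q hq hq' x y hx hy hxy => ?_⟩
  rw [lt_div_iff₀ (by positivity)] at hq'
  have hCq : 0 < C * q := mul_pos hC hq
  have k1 : ∀ z : ℝ, |z - p| ≤ C * q → |r z - r p - (z - p) * deriv r p| ≤ ε / 2 * q := by
    intro z hz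
    have h5 := h4 (y := z) (by rw [Real.dist_eq]; linarith)
    rw [Real.norm_eq_abs, Real.norm_eq_abs, smul_eq_mul] at h5
    refine h5.trans ((mul_le_mul_of_nonneg_left hz (by positivity)).trans (le_of_eq ?_))
    field_simp
  have k2 := abs_le.1 (k1 x hx)
  have k3 := abs_le.1 (k1 y hy)
  have k4 : (y - x) * deriv r p ≤ (y - x) * (1 - h) :=
    mul_le_mul_of_nonneg_left hd.le (by linarith)
  linarith [k2.1, k3.2]

variable {n : ℕ} {hn : 2 ≤ n} {S : PCl n} {P : ℝ → ℝ → ℝ} {r : ℝ → ℝ}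
  {P' : ℕ → List (Fin n) × Fin n → ℝ → ℝ → ℝ} {Λ : Finset (Fin n) → Fin n → ℝ → ℝ → ℝ}
  {PB : ℕ → List (Fin n) × Fin n → ℝ → ℝ → ℝ} {PQ : ℚ → List (Fin n) × Fin n → ℝ → ℝ → ℝ}

/-- **The record near a window of** `G`. -/
theorem WnG.recG (H : PkT hn S P r P' Λ PB) {o : Od n} {G : Set ℝ} {g : ℝ}
    (W : WnG hn S P P' PB o G g) {κ : ℕ → Kg} (hκ : ∀ l < n, KgAt hn P P' PB o l g (κ l))
    (hSl : ∀ l < n, SlL hn P P' o g l = deriv (fun a => LvL hn P P' o l a a) g)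
    (hs0 : SlL hn P P' o g 0 = 1) (hl0 : LvL hn P P' o 0 g g = g)
    {h : ℝ} (hr : DifferentiableAt ℝ r (P g g)) (hh : deriv r (P g g) < 1 - h)
    {al : ℝ} {g₀ : ℝ → ℝ} (hal : 0 < al) (hg₀ : ∀ ε : ℝ, 0 < ε → 0 < g₀ ε)
    (hC : ∃ (s : Fin n → ℝ) (d : ℕ → ℝ) (e : ℝ) (K₀ : ℕ) (N₁ : ℚ → ℚ → ℝ),
      ClX s d al g₀ e K₀ N₁ S) :
    ∃ (P₂ : ℕ → List (Fin n) × Fin n → ℝ → ℝ → ℝ) (θ₂ Eb e₂ : ℕ → ℝ) (S₀ : ℕ), 1 ≤ S₀ ∧
      ∀ (K₀ K : ℝ) (N : ℕ) (A V : ℕ → ℝ), 0 < K₀ → 1 ≤ K →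
      (∀ k < N, -K ≤ V k ∧ V k ≤ A k ∧ A k ≤ K) →
      ∀ th : ℝ, 0 < th → ∃ S₂ : ℕ, S₀ ≤ S₂ ∧ ∀ (K' : ℝ) (N' : ℕ) (V' : ℕ → ℝ), K ≤ K' →
        (∀ k < N', -K' ≤ V' k ∧ V' k ≤ K') → ∀ ε : ℝ, 0 < ε → ∃ q₁ : ℝ, 0 < q₁ ∧
        ∀ q u : ℝ, 0 < q → q < q₁ → |u - g| ≤ K₀ * q → ∃ t : ℝ, u ≤ t ∧ t ≤ u + th * q ∧
          RecG S al g₀ (P' o.2) (tht o.2) P₂ θ₂ Eb e₂ (cc hn o.1.1) P r h (K₀ + th) g
            (LvL hn P P' o) (LvT hn PB o) (SlL hn P P' o g) κ G S₀ N A V S₂ N' V' K' ε q t := by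
  obtain ⟨θ₂, e₂, Eb, P₂, S₀, hT, hL, hS₀, W⟩ := W
  refine ⟨P₂, θ₂, Eb, e₂, S₀, hS₀, ?_⟩
  intro K₀' K₁ N A V hK₀' hK1 hAV th hth
  -- the radii: `K₁` for the pairs, `K` for the record, `R` for all
  obtain ⟨K₀, hK₀⟩ : ∃ K₀, K₀ = max K₀' K₁ := ⟨_, rfl⟩
  have hKK₁ : K₁ ≤ K₀ := by rw [hK₀]; exact le_max_right _ _
  have hKK' : K₀' ≤ K₀ := by rw [hK₀]; exact le_max_left _ _
  obtain ⟨S₁, hS₁, W⟩ := W (K₀ + 1) N A V (by linarith) (fun k hk => by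
    obtain ⟨h1, h2, h3⟩ := hAV k hk
    exact ⟨by linarith, h2, by linarith⟩) (min th K₀) (lt_min hth (by linarith))
  refine ⟨max S₀ S₁, le_max_left _ _, fun K N' V' hK₁K hV' ε hε => ?_⟩
  have hK0 : 0 < K := by linarith
  obtain ⟨R, hR⟩ : ∃ R, R = max K₀ K := ⟨_, rfl⟩
  have hR1 : K₀ ≤ R := by rw [hR]; exact le_max_left _ _
  have hR2 : K ≤ R := by rw [hR]; exact le_max_right _ _
  have hR0 : 0 < R := by linarith
  obtain ⟨q₁, hq₁, W⟩ := W (R + 1) N' V' (by linarith) (fun k hk => by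
    obtain ⟨h1, h2⟩ := hV' k hk
    exact ⟨by linarith, by linarith⟩) (ε / 4) (by linarith)
  obtain ⟨sN, hsN⟩ : ∃ sN, sN = |SlL hn P P' o g (n - 1)| := ⟨_, rfl⟩
  have hsN0 : 0 ≤ sN := by rw [hsN]; exact abs_nonneg _
  obtain ⟨q₂, hq₂, hrow⟩ := row_near hr hh (C := K + sN * (2 * R) + ε) (ε := ε)
    (by positivity) hε
  refine ⟨min q₁ q₂, lt_min hq₁ hq₂, fun q u hq hqm hu => ?_⟩
  have hq' := hqm.trans_le (min_le_left _ _)
  have hrow := hrow q hq (hqm.trans_le (min_le_right _ _))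
  have hK₀q : K₀' * q ≤ K₀ * q := mul_le_mul_of_nonneg_right hKK' hq.le
  have hR1q : K₀ * q ≤ R * q := mul_le_mul_of_nonneg_right hR1 hq.le
  have eq1 : 3 * (R + 1) * q = 3 * (R * q) + 3 * q := by ring
  have eq2 : (K₀ + 1) * q = K₀ * q + q := by ring
  have eq3 : 6 * (R + 1) * q = 6 * (R * q) + 6 * q := by ring
  obtain ⟨a1, a2, hnb, hls, W⟩ := W q u hq hq' (by
    rw [eq2]
    linarith)
  rw [eq1] at a1 a2
  have hls' : ∀ l, 1 ≤ l → l ≤ n - 1 → e₂ l < θ₂ l * (g - (3 * (R * q) + 3 * q)) ∧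
      Eb l + (3 * (R * q) + 3 * q) < e₂ l ∧ ∀ j ≤ l, ∀ x : ℝ,
        |x - g| ≤ 3 * (R * q) + 3 * q → LvL hn P P' o j x x + Eb l + (6 * (R * q) + 6 * q) <
          1 := by
    intro l h1 h2
    have := hls l h1 h2
    rwa [eq1, eq3] at this
  obtain ⟨t, -, ht1, ht2, W, Wc⟩ := W ∅ measure_empty
  have hKq : K * q ≤ R * q := mul_le_mul_of_nonneg_right hR2 hq.le
  have hKq0 : 0 < K * q := mul_pos hK0 hq
  have m1 : min th K₀ * q ≤ th * q := mul_le_mul_of_nonneg_right (min_le_left _ _) hq.le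
  have m2 : min th K₀ * q ≤ K₀ * q := mul_le_mul_of_nonneg_right (min_le_right _ _) hq.le
  have hu' := abs_le.1 hu
  have htg : |t - g| ≤ 2 * (R * q) := by
    rw [abs_le]
    constructor <;> linarith
  have htg' := abs_le.1 htg
  have hbx : ∀ x : ℝ, |x - t| ≤ K * q → |x - g| ≤ 3 * (R * q) + 3 * q := fun x hx => by
    have := abs_le.1 hx
    rw [abs_le]
    constructor <;> linarith
  have hbx2 : ∀ x : ℝ, |x - t| ≤ K * q → |x - g| ≤ 3 * (R + 1) * q := fun x hx => by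
    rw [eq1]
    exact hbx x hx
  have hεq : 0 < ε * q := mul_pos hε hq
  have htt : |t - t| ≤ K * q := by
    rw [sub_self, abs_zero]
    exact hKq0.le
  have hN : 0 < n := by omega
  have hlast : cc hn o.1.1 (n - 1) = lst hn := cc_ge hn _ le_rfl
  refine ⟨t, ht1, by linarith, H.toPk.ne, hal, hg₀, hC, H.cht o.2, tht_pos _, ?_, ?_,
    cc_inj hn o.1.1, ?_, H.tgs.law (), fun l hl => ?_, fun l _ => H.lawL o l, hq, by linarith,
    by linarith, ?_, ⟨fun k hk => (W k hk).2.1, fun k hk => (Wc k hk).2.1⟩,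
    fun k hk l hl => (W k hk).1 l (by omega), fun k hk l hl => (Wc k hk).1 l (by omega),
    fun l hl x hx => ?_, fun l hl x hx => ?_, hs0, fun x hx => ?_, fun l hl => ?_,
    fun x y hx hy hxy => ?_,
    fun l hl1 hl => ?_, fun l hl1 hl => hL l hl1 (by omega)⟩
  · rw [hlast]
    exact H.tgs
  · rw [hlast]
    exact H.rate
  · rw [cc_lt hn o.1.1 (show 0 < n - 1 by omega)]
    exact o.1.2 ⟨0, by omega⟩ rfl
  · have h9 := lvN_lvL (hn := hn) (P := P) (P' := P') o (le_refl (n - 1))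
      (show l ≤ n - 1 by omega)
    rw [lvL_last o] at h9
    exact h9.symm
  · have : (K₀' + th) * q = K₀' * q + th * q := by ring
    rw [abs_le, this]
    constructor <;> linarith [mul_pos hth hq]
  · have h3 := abs_le.1 (hnb.dL l (by omega) x (hbx2 x hx))
    have h4 := abs_le.1 (hnb.dL l (by omega) t (hbx2 t htt))
    rw [abs_le]
    constructor <;> linarith
  · have h3 := abs_le.1 (hnb.dT l (by omega) x (hbx2 x hx))
    have h4 := abs_le.1 (hnb.dL l (by omega) t (hbx2 t htt))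
    rw [abs_le]
    constructor <;> linarith
  · have h3 := abs_le.1 (hnb.dL 0 (by omega) x (hbx2 x hx))
    rw [hs0, hl0] at h3
    rw [abs_le]
    constructor <;> linarith
  · have h3 := hκ l hl
    have h4 := hSl l hl
    unfold KgQ
    cases h5 : κ l with
    | one =>
      rw [h5] at h3
      rw [h4]
      exact h3
    | thin =>
      rw [h5] at h3
      refine ⟨by rw [h4]; exact h3.1, fun a w h6 h7 h8 => ?_⟩
      have := hnb.thin l (by omega) h3.2 a w (by linarith) h7 (by linarith)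
      linarith
    | sta =>
      rw [h5] at h3
      refine ⟨by rw [h4]; exact h3.1, fun a w h6 h7 h8 => ?_⟩
      have := hnb.sta l (by omega) h3.2 a w (by linarith) h7 (by linarith)
      linarith
    | stp =>
      rw [h5] at h3
      refine ⟨by rw [h4]; exact h3.1, fun a w h6 h7 h8 => ?_⟩
      have := hnb.stp l (by omega) h3.2 a w (by linarith) h7 (by linarith)
      linarith
    | any => trivial
  · -- the rate
    have h3 := abs_le.1 (hnb.dL (n - 1) le_rfl t (hbx2 t htt))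
    rw [lvL_last (P' := P') (hn := hn) o] at h3 hx hy
    have h4 : |SlL hn P P' o g (n - 1) * (t - g)| ≤ sN * (2 * (R * q)) := by
      rw [abs_mul, ← hsN]
      exact mul_le_mul_of_nonneg_left htg hsN0
    have h5 := abs_le.1 h4
    have h6 : (K + sN * (2 * R) + ε) * q = K * q + sN * (2 * (R * q)) + ε * q := by ring
    have hx' := abs_le.1 hx
    have hy' := abs_le.1 hy
    refine hrow x y ?_ ?_ hxy
    · rw [h6, abs_le]
      constructor <;> linarith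
    · rw [h6, abs_le]
      constructor <;> linarith
  · -- the targets
    obtain ⟨hθ₂, hEl, hP₂⟩ := hT l hl1 (by omega)
    obtain ⟨b1, b2, b3⟩ := hls' l hl1 (by omega)
    refine ⟨hP₂, hθ₂, hEl, by linarith, fun x hx => ?_, fun j hj x hx => ?_, fun k hk => ?_,
      fun k hk => ((W k hk).2.2 l hl1 (by omega)).2.2,
      fun k hk => ((Wc k hk).2.2 l hl1 (by omega)).1,
      fun k hk => ((Wc k hk).2.2 l hl1 (by omega)).2⟩
    · have h3 := abs_le.1 hx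
      exact b1.trans_le (mul_le_mul_of_nonneg_left (by linarith) hθ₂.le)
    · have h3 := b3 j hj x (hbx x hx)
      linarith
    · exact ⟨((W k hk).2.2 l hl1 (by omega)).1.mono (le_max_right _ _),
        ((W k hk).2.2 l hl1 (by omega)).2.1.mono (le_max_left _ _)⟩

end Pool.PKG
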