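import Pool.Agent.H3.D2G.RecG

/-!
# The joints of the class theorems over `RecG`

`PropG`: an additional property of a class at a window of a closed set, with parameters and a
threshold for the scales; `AePG`: it holds at almost every window, in a subclass. `CelQG`, `VoidQG`:
class theorems which use this property at points near the window. `cell_of_gq`, `void_of_gq`,
`lCellA_of_gq`, `lCellA_of_g`, `lVo_of_gq`, `lVo_of_g`: the cells and the void kinds of windows from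
the class theorems.
-/

set_option autoImplicit false

namespace Pool.PKG

open MeasureTheory Set Filter Topology
open Pool.Agent.H49.Ent Pool.Agent.H32.Dense Pool.STK Pool.KA Pool.KSAT Pool.K2S Pool.PB
open Pool.GEN Pool.S6C Pool.STAT Pool.CHT Pool.GRW Pool.ONE Pool.STA
open Pool.LBT (LSys ThrOf)
open Pool.LEV (Law)
open Pool.ALL (RateOf)
open Pool.TOP (TopS)
open Pool.STR (ThinAt SteepAt StaAt sta_of_pairs)
open Pool.ISO (PtD lvN WinD)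

/-- A property of the windows of the closed subsets of a set holds at almost every window. -/
theorem ae_of_closed {M : Set ℝ} (hM : MeasurableSet M) (hfin : volume M ≠ ⊤) {X : ℝ → Prop}
    (h : ∀ G : Set ℝ, IsClosed G → G ⊆ M → ∀ᵐ g : ℝ, g ∈ G → X g) : ∀ᵐ g : ℝ, g ∈ M → X g := by
  have h1 : ∀ k : ℕ, ∃ F : Set ℝ, F ⊆ M ∧ IsClosed F ∧
      volume (M \ F) < ENNReal.ofReal (1 / (k + 1)) := fun k =>
    hM.exists_isClosed_sdiff_lt hfin (by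
      rw [Ne, ENNReal.ofReal_eq_zero, not_le]
      positivity)
  choose F hF1 hF2 hF3 using h1
  have h2 : ∀ᵐ g : ℝ, g ∉ ⋂ k, M \ F k := by
    refine measure_eq_zero_iff_ae_notMem.1 ?_
    refine le_antisymm (ENNReal.le_of_forall_pos_le_add fun ε hε _ => ?_) zero_le
    obtain ⟨k, hk⟩ := exists_nat_one_div_lt (show (0 : ℝ) < ε by exact_mod_cast hε)
    rw [zero_add]
    refine (measure_mono (Set.iInter_subset _ k)).trans ((hF3 k).le.trans ?_)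
    refine (ENNReal.ofReal_le_ofReal hk.le).trans (le_of_eq ?_)
    rw [ENNReal.ofReal_coe_nnreal]
  have h3 : ∀ᵐ g : ℝ, ∀ k, g ∈ F k → X g := ae_all_iff.2 fun k => h (F k) (hF2 k) (hF1 k)
  filter_upwards [h2, h3] with g k1 k2 hg
  by_contra hcon
  refine k1 (Set.mem_iInter.2 fun k => ⟨hg, fun hk => hcon (k2 k hk)⟩)

/-- **Almost every point of any set** has points of the set near all places, at all small
scales. -/
theorem pt_near (E : Set ℝ) : ∀ᵐ g : ℝ, g ∈ E → ∀ C τ : ℝ, 0 < C → 0 < τ → ∃ q₁ : ℝ, 0 < q₁ ∧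
    ∀ q y : ℝ, 0 < q → q < q₁ → |y - g| ≤ C * q → ∃ x ∈ E, y ≤ x ∧ x ≤ y + τ * q := by
  filter_upwards [dens_ev (measurableSet_toMeasurable volume E)] with g h1 hg C τ hC hτ
  obtain ⟨s₁, hs₁, h2⟩ := h1 (subset_toMeasurable _ _ hg) (C + τ) (τ / 2) (by linarith)
    (half_pos hτ)
  refine ⟨s₁, hs₁, fun q y hq hq' hy => ?_⟩
  by_contra hcon
  push Not at hcon
  have h3 := h2 q 0 hq hq' le_rfl hq.le
  simp only [add_zero] at h3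
  have hτq : 0 < τ * q := mul_pos hτ hq
  have h4 : volume (toMeasurable volume E ∩ Set.Icc y (y + τ * q)) = 0 := by
    rw [Measure.measure_toMeasurable_inter_of_sFinite measurableSet_Icc]
    have h5 : E ∩ Set.Icc y (y + τ * q) = ∅ := by
      ext x
      simp only [Set.mem_inter_iff, Set.mem_Icc, Set.mem_empty_iff_false, iff_false, not_and]
      exact fun hx k1 k2 => absurd k2 (not_le.2 (hcon x hx k1))
    rw [h5, measure_empty]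
  have h6 : Set.Icc y (y + τ * q) ⊆ (toMeasurable volume E ∩ Set.Icc y (y + τ * q)) ∪
      {w : ℝ | |w - g| ≤ (C + τ) * q ∧ w ∉ toMeasurable volume E} := by
    intro w hw
    by_cases h7 : w ∈ toMeasurable volume E
    · exact Or.inl ⟨h7, hw⟩
    · refine Or.inr ⟨?_, h7⟩
      have h8 := abs_le.1 hy
      have h9 : (C + τ) * q = C * q + τ * q := by ring
      rw [h9, abs_le]
      constructor <;> linarith [hw.1, hw.2]
  have h10 := (measure_mono h6).trans ((measure_union_le _ _).trans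
    (add_le_add h4.le h3))
  rw [Real.volume_Icc, zero_add, add_sub_cancel_left,
    ENNReal.ofReal_le_ofReal_iff (by positivity)] at h10
  linarith

/-- **An additional property** of the letters `S P θ c Pt r L T κ G x` of a record at a point `x`,
with parameters `p` and a threshold `k₀` for the scales. -/
abbrev PropG (n : ℕ) (ι : Type) : Type _ :=
  ι → ℕ → PCl n → (List (Fin n) × Fin n → ℝ → ℝ → ℝ) → ℝ → (ℕ → Fin n) → (ℝ → ℝ → ℝ) →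
    (ℝ → ℝ) → (ℕ → ℝ → ℝ → ℝ) → (ℕ → ℝ → ℝ → ℝ) → (ℕ → Kg) → Set ℝ → ℝ → Prop

/-- **The class theorem of a cell**, with the rate and a property at points `x j` near `t`. -/
def CelQG {ι : Type} (n i : ℕ) (h : ℝ) (Sl : ℕ → ℝ) (κ : ℕ → Kg) (Q : PropG n ι) : Prop :=
  ∀ al : ℝ, 0 < al → ∀ K₀ : ℝ, 0 < K₀ → ∀ del : ℝ, 0 < del → ∀ S₀ : ℕ, 1 ≤ S₀ →
    ∃ (K : ℝ) (N : ℕ) (A V : ℕ → ℝ), 1 ≤ K ∧ (∀ k < N, -K ≤ V k ∧ V k ≤ A k ∧ A k ≤ K) ∧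
    ∀ S₂ : ℕ, S₀ ≤ S₂ → ∃ (K' : ℝ) (N' : ℕ) (V' : ℕ → ℝ), K ≤ K' ∧
      (∀ k < N', -K' ≤ V' k ∧ V' k ≤ K') ∧
      ∃ ε : ℝ, 0 < ε ∧ ∀ (S : PCl n) (g₀ : ℝ → ℝ) (P : List (Fin n) × Fin n → ℝ → ℝ → ℝ)
      (θ : ℝ) (P₂ : ℕ → List (Fin n) × Fin n → ℝ → ℝ → ℝ) (θ₂ Eb e₂ : ℕ → ℝ) (c : ℕ → Fin n)
      (Pt : ℝ → ℝ → ℝ) (r : ℝ → ℝ) (L T : ℕ → ℝ → ℝ → ℝ) (G : Set ℝ) (g : ℝ),
      IsClosed G → g ∈ G → ∃ (p : ℕ → ι) (M : ℕ) (B₀ B₁ : ℕ → ℝ),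
      (∀ j < M, B₀ j < B₁ j) ∧ ∀ k₀ : ℕ → ℕ, ∃ q₁ : ℝ, 0 < q₁ ∧ ∀ (q t : ℝ) (x : ℕ → ℝ),
      q < q₁ → (∀ j < M, x j ∈ G ∧ t + B₀ j * q ≤ x j ∧ x j ≤ t + B₁ j * q ∧
        Q (p j) (k₀ j) S P θ c Pt r L T κ G (x j)) →
      RecG S al g₀ P θ P₂ θ₂ Eb e₂ c Pt r h K₀ g L T Sl κ G S₀ N A V S₂ N' V' K' ε q t →
      L i (t + q) (t + q) ≤ L i (t + q) t + del * q

/-- **The class theorem of a void kind of windows**, with a property at points near `t`. -/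
def VoidQG {ι : Type} (n : ℕ) (h : ℝ) (Sl : ℕ → ℝ) (κ : ℕ → Kg) (Q : PropG n ι) : Prop :=
  ∀ al : ℝ, 0 < al → ∀ K₀ : ℝ, 0 < K₀ → ∀ S₀ : ℕ, 1 ≤ S₀ →
    ∃ (K : ℝ) (N : ℕ) (A V : ℕ → ℝ), 1 ≤ K ∧ (∀ k < N, -K ≤ V k ∧ V k ≤ A k ∧ A k ≤ K) ∧
    ∀ S₂ : ℕ, S₀ ≤ S₂ → ∃ (K' : ℝ) (N' : ℕ) (V' : ℕ → ℝ), K ≤ K' ∧
      (∀ k < N', -K' ≤ V' k ∧ V' k ≤ K') ∧
      ∃ ε : ℝ, 0 < ε ∧ ∀ (S : PCl n) (g₀ : ℝ → ℝ) (P : List (Fin n) × Fin n → ℝ → ℝ → ℝ)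
      (θ : ℝ) (P₂ : ℕ → List (Fin n) × Fin n → ℝ → ℝ → ℝ) (θ₂ Eb e₂ : ℕ → ℝ) (c : ℕ → Fin n)
      (Pt : ℝ → ℝ → ℝ) (r : ℝ → ℝ) (L T : ℕ → ℝ → ℝ → ℝ) (G : Set ℝ) (g : ℝ),
      IsClosed G → g ∈ G → ∃ (p : ℕ → ι) (M : ℕ) (B₀ B₁ : ℕ → ℝ),
      (∀ j < M, B₀ j < B₁ j) ∧ ∀ k₀ : ℕ → ℕ, ∃ q₁ : ℝ, 0 < q₁ ∧ ∀ (q t : ℝ) (x : ℕ → ℝ),
      q < q₁ → (∀ j < M, x j ∈ G ∧ t + B₀ j * q ≤ x j ∧ x j ≤ t + B₁ j * q ∧
        Q (p j) (k₀ j) S P θ c Pt r L T κ G (x j)) →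
      RecG S al g₀ P θ P₂ θ₂ Eb e₂ c Pt r h K₀ g L T Sl κ G S₀ N A V S₂ N' V' K' ε q t → False

theorem CelG.q {ι : Type} [Nonempty ι] {n i : ℕ} {h : ℝ} {Sl : ℕ → ℝ} {κ : ℕ → Kg}
    (H : CelG n i h Sl κ) (Q : PropG n ι) : CelQG n i h Sl κ Q := by
  intro al hal K₀ hK₀ del hdel S₀ hS₀
  obtain ⟨K, N, A, V, h1, h2, H⟩ := H al hal K₀ hK₀ del hdel S₀ hS₀
  refine ⟨K, N, A, V, h1, h2, fun S₂ hS₂ => ?_⟩
  obtain ⟨K', N', V', h3, h4, ε, hε, H⟩ := H S₂ hS₂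
  refine ⟨K', N', V', h3, h4, ε, hε, fun S g₀ P θ P₂ θ₂ Eb e₂ c Pt r L T G g _ _ => ⟨fun _ =>
    Classical.arbitrary ι, 0, fun _ => 0, fun _ => 1, fun j hj => absurd hj (Nat.not_lt_zero j),
    fun _ => ?_⟩⟩
  obtain ⟨q₁, hq₁, H⟩ := H S g₀ P θ P₂ θ₂ Eb e₂ c Pt r L T G g
  exact ⟨q₁, hq₁, fun q t _ hq _ hR => H q t hq hR⟩

theorem VoidG.q {ι : Type} [Nonempty ι] {n : ℕ} {h : ℝ} {Sl : ℕ → ℝ} {κ : ℕ → Kg}
    (H : VoidG n h Sl κ) (Q : PropG n ι) : VoidQG n h Sl κ Q := by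
  intro al hal K₀ hK₀ S₀ hS₀
  obtain ⟨K, N, A, V, h1, h2, H⟩ := H al hal K₀ hK₀ S₀ hS₀
  refine ⟨K, N, A, V, h1, h2, fun S₂ hS₂ => ?_⟩
  obtain ⟨K', N', V', h3, h4, ε, hε, H⟩ := H S₂ hS₂
  refine ⟨K', N', V', h3, h4, ε, hε, fun S g₀ P θ P₂ θ₂ Eb e₂ c Pt r L T G g _ _ => ⟨fun _ =>
    Classical.arbitrary ι, 0, fun _ => 0, fun _ => 1, fun j hj => absurd hj (Nat.not_lt_zero j),
    fun _ => ?_⟩⟩
  obtain ⟨q₁, hq₁, H⟩ := H S g₀ P θ P₂ θ₂ Eb e₂ c Pt r L T G g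
  exact ⟨q₁, hq₁, fun q t _ hq _ hR => H q t hq hR⟩

/-- **The class theorem of a cell** over `RecQ`: as `CellQ`, the radius `K'` of the record is chosen
after the constant `S₂` of the pairs, and the scales are small after the class. -/
def CellQK (n i : ℕ) (Sl : ℕ → ℝ) (κ : ℕ → Kd) : Prop :=
  ∀ del : ℝ, 0 < del → ∀ S₀ : ℕ, 1 ≤ S₀ → ∃ (K : ℝ) (N : ℕ) (A V : ℕ → ℝ), 1 ≤ K ∧
    (∀ k < N, -K ≤ V k ∧ V k ≤ A k ∧ A k ≤ K) ∧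
    ∀ S₂ : ℕ, S₀ ≤ S₂ → ∃ (K' : ℝ) (N' : ℕ) (V' : ℕ → ℝ), K ≤ K' ∧
      (∀ k < N', -K' ≤ V' k ∧ V' k ≤ K') ∧
      ∃ ε : ℝ, 0 < ε ∧ ∀ (S : PCl n)
      (P P₂ : List (Fin n) × Fin n → ℝ → ℝ → ℝ) (θ θ₂ : ℝ) (c : ℕ → Fin n) (Pt : ℝ → ℝ → ℝ)
      (L T : ℕ → ℝ → ℝ → ℝ) (Eb e₂ : ℝ), ∃ q₁ : ℝ, 0 < q₁ ∧ ∀ q t : ℝ, q < q₁ →
      RecQ S P P₂ θ θ₂ c i Pt L T Sl κ S₀ N A V S₂ N' V' Eb e₂ K' ε q t →
      L i (t + q) (t + q) ≤ L i (t + q) t + del * q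

theorem CellQ.k {n i : ℕ} {Sl : ℕ → ℝ} {κ : ℕ → Kd} (H : CellQ n i Sl κ) :
    CellQK n i Sl κ := by
  intro del hdel S₀ hS₀
  obtain ⟨K, N, A, V, h1, h2, H⟩ := H del hdel S₀ hS₀
  refine ⟨K, N, A, V, h1, h2, fun S₂ hS₂ => ?_⟩
  obtain ⟨N', V', h3, ε, hε, H⟩ := H S₂ hS₂
  exact ⟨K, N', V', le_rfl, h3, ε, hε, fun S P P₂ θ θ₂ c Pt L T Eb e₂ => ⟨1, one_pos,
    fun q t _ hR => H S P P₂ θ θ₂ c Pt L T Eb e₂ q t hR⟩⟩

theorem CellQK.g {n i : ℕ} {Sl : ℕ → ℝ} {κ' : ℕ → Kd} (H : CellQK n i Sl κ') (hi1 : 1 ≤ i)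
    (hi : i < n) {h : ℝ} {κ : ℕ → Kg} (hκi : κ i = .stp) (hκ : ∀ l < i, κ l = ofKd (κ' l)) :
    CelG n i h Sl κ := by
  intro al hal K₀ hK₀ del hdel S₀ hS₀
  obtain ⟨K, N, A, V, h1, h2, H⟩ := H del hdel S₀ hS₀
  refine ⟨K, N, A, V, h1, h2, fun S₂ hS₂ => ?_⟩
  obtain ⟨K', N', V', h3, h4, ε, hε, H⟩ := H S₂ hS₂
  refine ⟨K', N', V', h3, h4, ε, hε, fun S g₀ P θ P₂ θ₂ Eb e₂ c Pt r L T G g => ?_⟩
  obtain ⟨q₁, hq₁, H⟩ := H S P (P₂ i) θ (θ₂ i) c (L i) L T (Eb i) (e₂ i)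
  exact ⟨q₁, hq₁, fun q t hq hR => H q t hq (hR.recQ hi1 hi hκi hκ)⟩

/-- **The property holds at almost every window** of each closed set of good windows, in a
subclass. -/
def AePG (n : ℕ) {ι : Type} (Q : PropG n ι) : Prop :=
  ∀ (hn : 2 ≤ n) (S : PCl n) (P : ℝ → ℝ → ℝ) (r : ℝ → ℝ)
    (P' : ℕ → List (Fin n) × Fin n → ℝ → ℝ → ℝ) (Λ : Finset (Fin n) → Fin n → ℝ → ℝ → ℝ)
    (PB : ℕ → List (Fin n) × Fin n → ℝ → ℝ → ℝ) (PQ : ℚ → List (Fin n) × Fin n → ℝ → ℝ → ℝ),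
    PkB hn S P r P' Λ PB PQ → TopS n → FZX (n - 1) → ∀ (o : Od n) (G : Set ℝ), IsClosed G →
      G ⊆ Gs P r P' Λ o → ∃ S' : PCl n, S'.Ne ∧
        (∀ (τ : ℝ) (J : ℕ) (F : Fam n J) (A : F.Ω → Prop), S'.St τ J F A → S.St τ J F A) ∧
        ∀ᵐ g : ℝ, g ∈ G → ∀ κ : ℕ → Kg, (∀ l < n, KgAt hn P P' PB o l g (κ l)) → ∀ p : ι,
          ∃ k₀ : ℕ, Q p k₀ S' (P' o.2) (tht o.2) (cc hn o.1.1) P r (LvL hn P P' o)
            (LvT hn PB o) κ G g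

theorem aePG_true (n : ℕ) (ι : Type) :
    AePG n (fun _ _ _ _ _ _ _ _ _ _ _ _ _ => True : PropG n ι) :=
  fun _ S _ _ _ _ _ _ H _ _ _ _ _ _ => ⟨S, H.toPk.ne, fun _ _ _ _ h => h,
    Eventually.of_forall fun _ _ _ _ _ => ⟨0, trivial⟩⟩

variable {n : ℕ} {hn : 2 ≤ n} {S : PCl n} {P : ℝ → ℝ → ℝ} {r : ℝ → ℝ}
  {P' : ℕ → List (Fin n) × Fin n → ℝ → ℝ → ℝ} {Λ : Finset (Fin n) → Fin n → ℝ → ℝ → ℝ}
  {PB : ℕ → List (Fin n) × Fin n → ℝ → ℝ → ℝ} {PQ : ℚ → List (Fin n) × Fin n → ℝ → ℝ → ℝ}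

/-- **The package of a subclass.** -/
theorem PkB.sub (H : PkB hn S P r P' Λ PB PQ) {S' : PCl n} (hne : S'.Ne)
    (hs : ∀ (τ : ℝ) (J : ℕ) (F : Fam n J) (A : F.Ω → Prop), S'.St τ J F A → S.St τ J F A) :
    PkB hn S' P r P' Λ PB PQ := by
  obtain ⟨al, g₀, s, d, e, K₀, N, hal, hg₀, hC⟩ := H.cl
  exact { cl := ⟨al, g₀, s, d, e, K₀, N, hal, hg₀, hC.sub hne hs⟩
          tgs := H.tgs.sub hs
          rate := H.rate.sub hs
          cht := fun j => (H.cht j).sub hs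
          reg := H.reg
          lam := H.lam.sub hs
          thb := fun j => (H.thb j).sub hs
          regb := H.regb
          thq := fun p => (H.thq p).sub hs
          regq := H.regq }

/-- **The record and the property** at almost every good window, in a subclass. -/
theorem joint_ae {ι : Type} [Countable ι] {Q : PropG n ι} (hQ : AePG n Q)
    (H : PkT hn S P r P' Λ PB) (hTop : TopS n) (hF : FZX (n - 1)) (o : Od n) (κ : ℕ → Kg) :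
    ∀ᵐ g : ℝ, g ∈ Gs P r P' Λ o → (∀ l < n, KgAt hn P P' PB o l g (κ l)) →
      ∃ (S' : PCl n) (G : Set ℝ), PkT hn S' P r P' Λ PB ∧ IsClosed G ∧ g ∈ G ∧
        WnG hn S' P P' PB o G g ∧ ∀ p : ι, ∃ k₀ : ℕ, ∀ C τ : ℝ, 0 < C → 0 < τ →
          ∃ q₁ : ℝ, 0 < q₁ ∧ ∀ q y : ℝ, 0 < q → q < q₁ → |y - g| ≤ C * q →
            ∃ x : ℝ, x ∈ G ∧ y ≤ x ∧ x ≤ y + τ * q ∧ Q p k₀ S' (P' o.2) (tht o.2)
              (cc hn o.1.1) P r (LvL hn P P' o) (LvT hn PB o) κ G x := by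
  refine ae_of_closed (H.toPk.gs_meas o) (ne_top_of_le_ne_top (by
    rw [Real.volume_Ioo]
    exact ENNReal.ofReal_ne_top) (measure_mono (show Gs P r P' Λ o ⊆ Set.Ioo 0 1 from
      fun g hg => ⟨hg.1.1.1, hg.1.1.2.1⟩))) fun G hG hGs => ?_
  obtain ⟨S₁, PQ, -, HB⟩ := pkB_ex H
  obtain ⟨S', hne, hs, hae⟩ := hQ hn S₁ P r P' Λ PB PQ HB hTop hF o G hG hGs
  have HB' := HB.sub hne hs
  have hall : ∀ᵐ g : ℝ, ∀ j : ι × ℕ, g ∈ {x : ℝ | x ∈ G ∧ Q j.1 j.2 S' (P' o.2) (tht o.2)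
      (cc hn o.1.1) P r (LvL hn P P' o) (LvT hn PB o) κ G x} → ∀ C τ : ℝ, 0 < C → 0 < τ →
      ∃ q₁ : ℝ, 0 < q₁ ∧ ∀ q y : ℝ, 0 < q → q < q₁ → |y - g| ≤ C * q →
        ∃ x ∈ {x : ℝ | x ∈ G ∧ Q j.1 j.2 S' (P' o.2) (tht o.2)
          (cc hn o.1.1) P r (LvL hn P P' o) (LvT hn PB o) κ G x}, y ≤ x ∧ x ≤ y + τ * q :=
    ae_all_iff.2 fun j => pt_near _
  filter_upwards [HB'.wnG_ae hTop hF hG.measurableSet hGs, hae, hall] with g h1 h2 h3 hg hk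
  refine ⟨S', G, HB'.toPkT, hG, hg, h1 hg, fun p => ?_⟩
  obtain ⟨k₀, hk₀⟩ := h2 hg κ hk p
  refine ⟨k₀, fun C τ hC hτ => ?_⟩
  obtain ⟨q₁, hq₁, h4⟩ := h3 (p, k₀) ⟨hg, hk₀⟩ C τ hC hτ
  refine ⟨q₁, hq₁, fun q y hq hq' hy => ?_⟩
  obtain ⟨x, hx, h5, h6⟩ := h4 q y hq hq' hy
  exact ⟨x, hx.1, h5, h6, hx.2⟩

/-- The points near `t` from the points near `g`. -/
theorem pts_near {ι : Type} {D : ι → ℕ → ℝ → Prop} {G : Set ℝ} {g R : ℝ} (hR : 0 < R)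
    (h : ∀ p : ι, ∃ k₀ : ℕ, ∀ C τ : ℝ, 0 < C → 0 < τ →
      ∃ q₁ : ℝ, 0 < q₁ ∧ ∀ q y : ℝ, 0 < q → q < q₁ → |y - g| ≤ C * q →
        ∃ x : ℝ, x ∈ G ∧ y ≤ x ∧ x ≤ y + τ * q ∧ D p k₀ x) (p : ℕ → ι) (M : ℕ)
    (B₀ B₁ : ℕ → ℝ) (hB : ∀ j < M, B₀ j < B₁ j) : ∃ k₀ : ℕ → ℕ, ∃ q₁ : ℝ, 0 < q₁ ∧
      ∀ q t : ℝ, 0 < q → q < q₁ → |t - g| ≤ R * q → ∃ x : ℕ → ℝ, ∀ j < M, x j ∈ G ∧
        t + B₀ j * q ≤ x j ∧ x j ≤ t + B₁ j * q ∧ D (p j) (k₀ j) (x j) := by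
  choose k₀ hk₀ using h
  have h1 : ∀ j, ∃ q₁ : ℝ, 0 < q₁ ∧ (j < M → ∀ q y : ℝ, 0 < q → q < q₁ →
      |y - g| ≤ (R + |B₀ j|) * q → ∃ x : ℝ, x ∈ G ∧ y ≤ x ∧ x ≤ y + (B₁ j - B₀ j) * q ∧
        D (p j) (k₀ (p j)) x) := by
    intro j
    by_cases hj : j < M
    · obtain ⟨q₁, h2, h3⟩ := hk₀ (p j) (R + |B₀ j|) (B₁ j - B₀ j)
        (by linarith [abs_nonneg (B₀ j)]) (by linarith [hB j hj])
      exact ⟨q₁, h2, fun _ => h3⟩
    · exact ⟨1, one_pos, fun h => absurd h hj⟩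
  choose q' hq' h1 using h1
  obtain ⟨q₁, hq₁, hq₁l⟩ := fin_pos M (f := q') fun j _ => hq' j
  refine ⟨fun j => k₀ (p j), q₁, hq₁, fun q t hq hqq ht => ?_⟩
  have h2 : ∀ j, ∃ x : ℝ, j < M → x ∈ G ∧ t + B₀ j * q ≤ x ∧ x ≤ t + B₁ j * q ∧
      D (p j) (k₀ (p j)) x := by
    intro j
    by_cases hj : j < M
    · obtain ⟨x, h3, h4, h5, h6⟩ := h1 j hj q (t + B₀ j * q) hq
        (hqq.trans_le (hq₁l j hj)) (by
          have e1 : t + B₀ j * q - g = (t - g) + B₀ j * q := by ring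
          have e2 : |B₀ j * q| = |B₀ j| * q := by rw [abs_mul, abs_of_pos hq]
          rw [e1]
          refine (abs_add_le _ _).trans ?_
          rw [e2]
          linarith)
      exact ⟨x, fun _ => ⟨h3, h4, by linarith, h6⟩⟩
    · exact ⟨0, fun h => absurd h hj⟩
  choose x hx using h2
  exact ⟨x, fun j hj => hx j hj⟩

/-- The kinds of a cell: the target after the list, nothing about the others. -/
def kgL (κ : List Kd) (l : ℕ) : Kg :=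
  if l < κ.length then ofKd (κ.getD l .one) else if l = κ.length then .stp else .any

theorem kgL_lt {κ : List Kd} {l : ℕ} (hl : l < κ.length) : kgL κ l = ofKd κ[l] := by
  unfold kgL
  rw [if_pos hl, List.getD_eq_getElem _ _ hl]

theorem kgL_len (κ : List Kd) : kgL κ κ.length = .stp := by
  unfold kgL
  rw [if_neg (lt_irrefl _), if_pos rfl]

/-- The slopes of the coordinates are at least one. -/
theorem sl_one (H : PkT hn S P r P' Λ PB) (hTop : TopS n) (hF : FZX (n - 1)) :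
    ∀ᵐ g : ℝ, ∀ o : Od n, g ∈ Gs P r P' Λ o → ∀ l < n, 1 ≤ SlL hn P P' o g l := by
  filter_upwards [H.dia_all H.pble hTop hF] with g h3 o ho l hl
  obtain ⟨α, Q, c', F⟩ := H.toPk.fac hTop hF ho
  obtain ⟨d1, d2, d3⟩ := h3 o ho l (by omega)
  have hlt : LvL hn P P' o l g g < 1 := by
    obtain ⟨E, hE, h4, -⟩ := F.ptD H.toPk
    have h5 := h4 l (by omega)
    have h6 : LvL hn P P' o l g g = Pool.ISO.lvN (P' o.2) (cc hn o.1.1) (n - 1) P l g g := rfl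
    rw [h6]
    linarith
  exact one_le_slope (H.lawL o l) F.g0 F.g1 hlt d1

/-- **A cell from its class theorem**, with the rate and a property. -/
theorem cell_of_gq {ι : Type} [Countable ι] {Q : PropG n ι} (hQ : AePG n Q)
    (H : PkT hn S P r P' Λ PB) (hTop : TopS n)
    (hF : FZX (n - 1)) (h : ℝ) {κ : List Kd} (hκn : κ.length ≤ n - 1)
    (hcls : ∀ Sl : ℕ → ℝ, (∀ (l : ℕ) (hl : l < κ.length), 
      (κ[l] = .one → Sl l = 1) ∧ (κ[l] = .thin → 1 < Sl l) ∧ (κ[l] = .sta → 2 ≤ Sl l)) →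
      2 < Sl κ.length → (∀ l < n, 1 ≤ Sl l) → CelQG n κ.length h Sl (kgL κ) Q) :
    Cell H hTop hF h κ := by
  intro o
  filter_upwards [joint_ae hQ H hTop hF o (kgL κ), H.dia_all H.pble hTop hF,
    sl_one H hTop hF, one_zero H hTop hF o] with g h1 hdia h1s h0 R _ hk hs hst
  have ho := R.rwd.mem
  obtain ⟨α, Q₁, c', F⟩ := H.toPk.fac hTop hF ho
  have hg0 := F.g0
  have hg1 := F.g1
  have hkg : ∀ l < n, KgAt hn P P' PB o l g (kgL κ l) := fun l hl => by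
    rcases lt_trichotomy l κ.length with h5 | h5 | h5
    · rw [kgL_lt h5]
      exact (hk l h5).kg
    · rw [h5, kgL_len]
      exact ⟨hs, hst⟩
    · unfold kgL
      rw [if_neg (by omega), if_neg (by omega)]
      trivial
  obtain ⟨S', G, HT, hG, hgG, W, hQg⟩ := h1 ho hkg
  obtain ⟨al, g₀, s', d', e', K₁, N₁, hal, hg₀, hC⟩ := HT.cl
  have hl0 : LvL hn P P' o 0 g g = g := by
    rw [Pool.Z4.lvL_eq o (by omega)]
    exact H.toPk.act_diag hTop hF ho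
  refine sta_of_pairs (H.lawL o κ.length) hg0 hg1 (hdia o ho κ.length hκn).1
    fun K₀ del hK₀ hdel => ?_
  obtain ⟨P₂, θ₂, Eb, e₂, S₀, hS₀, W⟩ := W.recG HT hkg (fun l _ => rfl) (h0 ho) hl0 R.rwd.rdif R.defi hal hg₀
    ⟨s', d', e', K₁, N₁, hC⟩
  obtain ⟨K, N, A, V, hK, hAV, hc⟩ := hcls (SlL hn P P' o g) (fun l hl => by
    have h3 := hk l hl
    refine ⟨fun h4 => ?_, fun h4 => ?_, fun h4 => ?_⟩
    · rw [h4] at h3
      exact h3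
    · rw [h4] at h3
      exact h3.1
    · rw [h4] at h3
      exact h3.1) hs (h1s o ho) al hal (K₀ + del) (by linarith) del hdel S₀ hS₀
  obtain ⟨S₂, hS₂, W⟩ := W K₀ K N A V (by linarith) hK hAV del hdel
  obtain ⟨K', N', V', hKK, hV', ε, hε, hc⟩ := hc S₂ hS₂
  obtain ⟨q₁, hq₁, W⟩ := W K' N' V' hKK hV' ε hε
  obtain ⟨p, M, B₀, B₁, hB, hc⟩ := hc S' g₀ (P' o.2) (tht o.2) P₂ θ₂ Eb e₂ (cc hn o.1.1) P r
    (LvL hn P P' o) (LvT hn PB o) G g hG hgG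
  obtain ⟨k₀, q₂, hq₂, hx⟩ := pts_near (R := K₀ + del) (by linarith) hQg p M B₀ B₁ hB
  obtain ⟨q₃, hq₃, hc⟩ := hc k₀
  refine ⟨min q₁ (min q₂ q₃), lt_min hq₁ (lt_min hq₂ hq₃), fun q u hq hq' hu => ?_⟩
  obtain ⟨t, ht1, ht2, hR⟩ := W q u hq (hq'.trans_le (min_le_left _ _)) hu
  obtain ⟨x, hx⟩ := hx q t hq (hq'.trans_le ((min_le_right _ _).trans (min_le_left _ _)))
    hR.near
  exact ⟨t, ht1, ht2, hc q t x (hq'.trans_le ((min_le_right _ _).trans (min_le_right _ _)))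
    hx hR⟩

/-- **A void kind of windows from its class theorem**, with the rate and a property. -/
theorem void_of_gq {ι : Type} [Countable ι] {Q : PropG n ι} (hQ : AePG n Q)
    (H : PkT hn S P r P' Λ PB) (hTop : TopS n)
    (hF : FZX (n - 1)) (h : ℝ) {κ : ℕ → Kg}
    (hcls : ∀ Sl : ℕ → ℝ, (∀ l < n, (κ l = .one → Sl l = 1) ∧ (κ l = .thin → 1 < Sl l) ∧
      (κ l = .sta → 2 ≤ Sl l) ∧ (κ l = .stp → 2 < Sl l)) → (∀ l < n, 1 ≤ Sl l) →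
      VoidQG n h Sl κ Q) (o : Od n) :
    ∀ᵐ g : ℝ, RwH H hTop hF h o g → (∀ l < n, KgAt hn P P' PB o l g (κ l)) → False := by
  filter_upwards [joint_ae hQ H hTop hF o κ, sl_one H hTop hF, one_zero H hTop hF o]
    with g h1 h1s h0 R hkg
  have ho := R.rwd.mem
  obtain ⟨S', G, HT, hG, hgG, W, hQg⟩ := h1 ho hkg
  obtain ⟨al, g₀, s', d', e', K₁, N₁, hal, hg₀, hC⟩ := HT.cl
  have hl0 : LvL hn P P' o 0 g g = g := by
    rw [Pool.Z4.lvL_eq o (by omega)]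
    exact H.toPk.act_diag hTop hF ho
  obtain ⟨P₂, θ₂, Eb, e₂, S₀, hS₀, W⟩ := W.recG HT hkg (fun l _ => rfl) (h0 ho) hl0 R.rwd.rdif R.defi hal hg₀
    ⟨s', d', e', K₁, N₁, hC⟩
  obtain ⟨K, N, A, V, hK, hAV, hc⟩ := hcls (SlL hn P P' o g) (fun l hl => by
    have h3 := hkg l hl
    refine ⟨fun h4 => ?_, fun h4 => ?_, fun h4 => ?_, fun h4 => ?_⟩
    · rw [h4] at h3
      exact h3
    · rw [h4] at h3
      exact h3.1
    · rw [h4] at h3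
      exact h3.1
    · rw [h4] at h3
      exact h3.1) (h1s o ho) al hal (1 + 1) (by norm_num) S₀ hS₀
  obtain ⟨S₂, hS₂, W⟩ := W 1 K N A V one_pos hK hAV 1 one_pos
  obtain ⟨K', N', V', hKK, hV', ε, hε, hc⟩ := hc S₂ hS₂
  obtain ⟨q₁, hq₁, W⟩ := W K' N' V' hKK hV' ε hε
  obtain ⟨p, M, B₀, B₁, hB, hc⟩ := hc S' g₀ (P' o.2) (tht o.2) P₂ θ₂ Eb e₂ (cc hn o.1.1) P r
    (LvL hn P P' o) (LvT hn PB o) G g hG hgG
  obtain ⟨k₀, q₂, hq₂, hx⟩ := pts_near (R := 1 + 1) (by norm_num) hQg p M B₀ B₁ hB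
  obtain ⟨q₃, hq₃, hc⟩ := hc k₀
  obtain ⟨q, hq⟩ : ∃ q, q = min q₁ (min q₂ q₃) / 2 := ⟨_, rfl⟩
  have hm : 0 < min q₁ (min q₂ q₃) := lt_min hq₁ (lt_min hq₂ hq₃)
  have hq0 : 0 < q := by rw [hq]; linarith
  have hqm : q < min q₁ (min q₂ q₃) := by rw [hq]; linarith
  obtain ⟨t, ht1, ht2, hR⟩ := W q g hq0 (hqm.trans_le (min_le_left _ _)) (by
    rw [sub_self, abs_zero]
    linarith)
  obtain ⟨x, hx⟩ := hx q t hq0 (hqm.trans_le ((min_le_right _ _).trans (min_le_left _ _)))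
    hR.near
  exact hc q t x (hqm.trans_le ((min_le_right _ _).trans (min_le_right _ _))) hx hR

end Pool.PKG

namespace Pool.ASM

open MeasureTheory Set Filter Topology
open Pool.GEN Pool.PKG Pool.SW
open Pool.ONE (Ext0 Ext)
open Pool.MIC6

/-- **A cell for all classes from its class theorem**, with the rate and a property. -/
theorem lCellA_of_gq {n : ℕ} {ι : Type} [Countable ι] {Q : PropG n ι} (hQ : AePG n Q)
    {κ : List Kd} (hκn : κ.length ≤ n - 1)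
    (hcls : ∀ h : ℝ, 0 < h → h ≤ 1 → ∀ Sl : ℕ → ℝ, (∀ (l : ℕ) (hl : l < κ.length), 
      (κ[l] = .one → Sl l = 1) ∧ (κ[l] = .thin → 1 < Sl l) ∧ (κ[l] = .sta → 2 ≤ Sl l)) →
      2 < Sl κ.length → (∀ l < n, 1 ≤ Sl l) → CelQG n κ.length h Sl (kgL κ) Q) :
    LCellA n κ := fun _ => by
  refine (Tol.le (1 / 2) (by norm_num)).mono fun η hη => ?_
  intro hn _ hF hTop D hD hD1 _ S P r P' Λ PB H
  have h1 := hη D hD
  exact cell_of_gq hQ H hTop hF _ hκn (hcls _ (mul_pos (by linarith) hD) (by nlinarith))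

/-- **A cell for all classes from its class theorem**, with the rate. -/
theorem lCellA_of_g {n : ℕ} {κ : List Kd} (hκn : κ.length ≤ n - 1)
    (hcls : ∀ h : ℝ, 0 < h → h ≤ 1 → ∀ Sl : ℕ → ℝ, (∀ (l : ℕ) (hl : l < κ.length), 
      (κ[l] = .one → Sl l = 1) ∧ (κ[l] = .thin → 1 < Sl l) ∧ (κ[l] = .sta → 2 ≤ Sl l)) →
      2 < Sl κ.length → (∀ l < n, 1 ≤ Sl l) → CelG n κ.length h Sl (kgL κ)) :
    LCellA n κ :=
  lCellA_of_gq (aePG_true n Unit) hκn fun h h0 h1 Sl k1 k2 k3 =>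
    (hcls h h0 h1 Sl k1 k2 k3).q _

/-- **A cell for all classes from the class theorem over `RecQ`**, the radius after the constant
of the pairs. -/
theorem lCellA_of_qk {n : ℕ} {κ : List Kd} (hκ1 : 1 ≤ κ.length) (hκn : κ.length ≤ n - 1)
    (hcls : ∀ Sl : ℕ → ℝ, (∀ (l : ℕ) (hl : l < κ.length), 
      (κ[l] = .one → Sl l = 1) ∧ (κ[l] = .thin → 1 < Sl l) ∧ (κ[l] = .sta → 2 ≤ Sl l)) →
      2 < Sl κ.length → (∀ l < n, 1 ≤ Sl l) →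
      CellQK n κ.length Sl (fun l => κ.getD l .one)) : LCellA n κ :=
  lCellA_of_g hκn fun h _ _ Sl k1 k2 k3 => by
    have hn : κ.length < n := by
      by_contra hcon
      have : n = 0 := by omega
      subst this
      omega
    refine (hcls Sl k1 k2 k3).g hκ1 hn (kgL_len κ) fun l hl => ?_
    rw [kgL_lt hl, List.getD_eq_getElem _ _ hl]

/-- The kinds of `LVo`: all coordinates of the base have the slope one, the target is thin. -/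
def kgV (n l : ℕ) : Kg := if l < n - 1 then .one else .thin

/-- **`LVo` from its class theorem**, with a property. -/
theorem lVo_of_gq {n : ℕ} {ι : Type} [Countable ι] {Q : PropG n ι} (hQ : AePG n Q)
    (hcls : ∀ h : ℝ, 0 < h → h ≤ 1 → ∀ Sl : ℕ → ℝ, (∀ l < n - 1, Sl l = 1) →
      1 < Sl (n - 1) → VoidQG n h Sl (kgV n) Q) : LVo n := fun _ => by
  refine (Tol.le (1 / 2) (by norm_num)).mono fun η hη => ?_
  intro hn _ hF hTop D hD hD1 _ S P r P' Λ PB H o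
  have h1 := hη D hD
  filter_upwards [void_of_gq (κ := kgV n) hQ H hTop hF ((1 - η D) * D) (fun Sl k1 k2 =>
    hcls _ (mul_pos (by linarith) hD) (by nlinarith) Sl (fun l hl => (k1 l (by omega)).1 (by
      unfold kgV
      rw [if_pos hl])) ((k1 (n - 1) (by omega)).2.1 (by
      unfold kgV
      rw [if_neg (lt_irrefl _)]))) o] with g h2 R hT hs
  refine h2 R fun l hl => ?_
  unfold kgV
  split_ifs with h3
  · have h4 := hs ⟨l, h3⟩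
    rw [slo_slN, slN_lvl o (by omega)] at h4
    exact h4
  · have h4 : l = n - 1 := by omega
    have h5 : LvL hn P P' o (n - 1) = P := lvL_last o
    subst h4
    obtain ⟨h6, h7⟩ := hT
    rw [slN_tar] at h6
    refine ⟨?_, ?_⟩
    · rw [h5]
      exact h6
    · rw [h5, LvT_top]
      exact h7

/-- **`LVo` from its class theorem.** -/
theorem lVo_of_g {n : ℕ} (hcls : ∀ h : ℝ, 0 < h → h ≤ 1 → ∀ Sl : ℕ → ℝ,
    (∀ l < n - 1, Sl l = 1) → 1 < Sl (n - 1) → VoidG n h Sl (kgV n)) : LVo n :=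
  lVo_of_gq (aePG_true n Unit) fun h h0 h1 Sl k1 k2 => (hcls h h0 h1 Sl k1 k2).q _

end Pool.ASM
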