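import Pool.Agent.H18.D2G.Gch
import Pool.Agent.H91.FR.QpG

/-!
# The chain over the first place, and the levels, at the good windows

`gs_chn1`: at a good window the places `1 ≤ l < i` are a chain over the place `0`, with natural
labels; the place `0` is full. `lev_mono`: the level minus the window is monotone on the good
windows. `rnum_sh`: the numbers of the records at the rational windows, shifted.
-/

set_option autoImplicit false

namespace Pool.PKG

open Finset
open Pool.Agent.H49.Ent Pool.Agent.H32.Dense Pool.STK Pool.KA Pool.KSAT Pool.K2S Pool.PB Pool.GEN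
open Pool.S6C Pool.GRW Pool.RCD
open Pool.TOP (TopS)
open Pool.CHT
open Pool.OWN72 (epo cc_epo cc_inj3 gs_exa gs_vs vse_one)
open Pool.LA91 (Chn ChG Att Ful FulC)

variable {n : ℕ} {hn : 2 ≤ n} {S : PCl n} {P : ℝ → ℝ → ℝ} {rr : ℝ → ℝ}
  {P' : ℕ → List (Fin n) × Fin n → ℝ → ℝ → ℝ} {Λ : Finset (Fin n) → Fin n → ℝ → ℝ → ℝ}

/-- The levels of the list are smaller than one. -/
theorem lev_lt (H : Pk hn S P rr P' Λ) (hTop : TopS n) (hF : FZX (n - 1)) {o : Od n} {w : ℝ}
    (hw : w ∈ Gs P rr P' Λ o) {l : ℕ} (hl : l < n - 1) : LvL hn P P' o l w w < 1 := by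
  obtain ⟨α, Q, c, F⟩ := H.fac hTop hF hw
  rw [LvL_lt o hl]
  have h1 := F.le l hl w w F.g0 le_rfl F.gα
  have h2 := F.thc
  have h3 := tht_pos o.2
  linarith

/-- **The chain over the first place** at a good window. -/
theorem gs_chn1 (H : Pk hn S P rr P' Λ) (hTop : TopS n) (hF : FZX (n - 1)) {o : Od n} {w : ℝ}
    (hw : w ∈ Gs P rr P' Λ o) {i : ℕ} (hi0 : 1 ≤ i) (hi : i ≤ n - 1) :
    ∃ (u₁ : ℝ) (rd : ℕ → ℝ), (∀ l < i, 0 ≤ rd l) ∧
      Chn S (cc hn o.1.1) 1 i w w u₁ (fun l => LvL hn P P' o l w w) rd := by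
  obtain ⟨u₁, rd, h0, h⟩ := gs_chn H hTop hF hw hi
  have hw0 : 0 < w := hw.1.1.1
  have hw1 : w < 1 := hw.1.1.2.1
  have h1 : vs Λ (epo hn o) w 1 = w := vse_one H o hw0.le hw1
  refine ⟨u₁, rd, h0, ?_⟩
  exact
    { hr := hi0
      inj := h.inj
      w0 := h.w0
      wu0 := h.wu0
      u0 := h.u0
      wu1 := h.wu1
      u1 := h.u1
      s0 := fun l _ hl => h.s0 l (Nat.zero_le _) hl
      r1 := fun l _ hl => h.r1 l (Nat.zero_le _) hl
      att := fun l _ hl => h.att l (Nat.zero_le _) hl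
      base := fun u hu _ => Pool.JMP45.ful_of H.tmc H.lam (cc_epo (hn := hn) o) hw.1.1
        (gs_exa H hF hw) (hi0.trans hi) (h1.trans_le hu.le)
      pre := fun k _ hk => h.pre k (Nat.zero_le _) hk
      ful := fun ρ hρ => Bas.mono 0 (h.ful ρ hρ) fun J _ F A hA V z z' hz l _ hl =>
        hA V z z' hz l (Nat.zero_le _) hl }

/-- **The level minus the window is monotone** up to a window with a level less than one. -/
theorem law_gap {L : ℝ → ℝ → ℝ} (hL : Pool.LEV.Law L) {v o : ℝ} (hv : 0 ≤ v) (hvo : v ≤ o)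
    (ho : o ≤ 1) (h1 : L o o < 1) : L v v - v ≤ L o o - o := by
  have e1 := hL.slope v v (o - v) hv le_rfl (by linarith) (by linarith)
  rw [show v + (o - v) = o by ring] at e1
  have e2 := hL.mono_w o v o hv hvo le_rfl ho
  rcases le_total (1 : ℝ) (L v v + (o - v)) with h2 | h2
  · rw [min_eq_left h2] at e1
    linarith
  · rw [min_eq_right h2] at e1
    linarith

/-- **The numbers of the records** at the rational windows, shifted. -/
theorem rnum_sh {m : ℕ} {S : PCl m} (hS : S.Ne)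
    (hpos : ∀ (τ : ℝ) (J : ℕ) (F : Fam m J) (A : F.Ω → Prop), S.St τ J F A → 0 < Pe F.p A)
    {M : ℝ} (hM : Bas S (fun J F A => (cnt F.p (ptr F J) A : ℝ) ≤ Real.exp (M * J))) (s : ℝ) :
    ∃ S' : PCl m, S'.Ne ∧
      (∀ (τ : ℝ) (J : ℕ) (F : Fam m J) (A : F.Ω → Prop), S'.St τ J F A → S.St τ J F A) ∧
      ∃ η : ℚ → ℝ, ∀ w : ℚ, RNum S' (fun J F => ptr F J) (vg ((w : ℝ) + s)) (η w) := by
  classical
  obtain ⟨e, he⟩ := exists_surjective_nat ℚ
  obtain ⟨S', h1, h2, h3⟩ := ext_rec hS hpos (fun _ _ F => PtT F) (fun _ _ F => LnT F)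
    (fun _ J F => ptr F J) (fun i => vg (((e i : ℚ) : ℝ) + s)) (fun _ => M) (fun _ => hM)
  choose η hη using h3
  have key : ∀ w : ℚ, ∃ y : ℝ, RNum S' (fun J F => ptr F J) (vg ((w : ℝ) + s)) y := by
    intro w
    obtain ⟨i, hi⟩ := he w
    refine ⟨η i, ?_⟩
    have := hη i
    rw [hi] at this
    exact this
  choose y hy using key
  exact ⟨S', h1, h2, y, hy⟩

end Pool.PKG
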