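import Pool.Agent.H3.D2G.RecJ

/-!
# The class theorems of the joints, with the slopes and the property at the window itself

`CelQH`, `VoidQH`: as `CelQG`, `VoidQG`, with two hypotheses more: the slopes of the levels at the
window `g`, and the property at `g` itself (for the same parameters and thresholds as at the points
near the window). `cell_of_gh`, `void_of_gh`, `lCellA_of_gh`, `lVo_of_gh`: the joints.
-/

set_option autoImplicit false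

namespace Pool.PKG

open MeasureTheory Set Filter Topology
open Pool.Agent.H49.Ent Pool.Agent.H32.Dense Pool.STK Pool.KA Pool.KSAT Pool.K2S Pool.PB
open Pool.GEN Pool.S6C Pool.STAT Pool.CHT Pool.GRW Pool.ONE Pool.STA
open Pool.LBT (LSys ThrOf)
open Pool.LEV (Law)
open Pool.ALL (RateOf)
open Pool.TOP (TopS)
open Pool.STR (ThinAt SteepAt StaAt sta_of_pairs)
open Pool.ISO (PtD lvN WinD)

/-- **The class theorem of a cell**, with the slopes at the window and a property at the window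
itself and at points near it. -/
def CelQH {ι : Type} (n i : ℕ) (h : ℝ) (Sl : ℕ → ℝ) (κ : ℕ → Kg) (Q : PropG n ι) : Prop :=
  ∀ al : ℝ, 0 < al → ∀ K₀ : ℝ, 0 < K₀ → ∀ del : ℝ, 0 < del → ∀ S₀ : ℕ, 1 ≤ S₀ →
    ∃ (K : ℝ) (N : ℕ) (A V : ℕ → ℝ), 1 ≤ K ∧ (∀ k < N, -K ≤ V k ∧ V k ≤ A k ∧ A k ≤ K) ∧
    ∀ S₂ : ℕ, S₀ ≤ S₂ → ∃ (K' : ℝ) (N' : ℕ) (V' : ℕ → ℝ), K ≤ K' ∧
      (∀ k < N', -K' ≤ V' k ∧ V' k ≤ K') ∧
      ∃ ε : ℝ, 0 < ε ∧ ∀ (S : PCl n) (g₀ : ℝ → ℝ) (P : List (Fin n) × Fin n → ℝ → ℝ → ℝ)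
      (θ : ℝ) (P₂ : ℕ → List (Fin n) × Fin n → ℝ → ℝ → ℝ) (θ₂ Eb e₂ : ℕ → ℝ) (c : ℕ → Fin n)
      (Pt : ℝ → ℝ → ℝ) (r : ℝ → ℝ) (L T : ℕ → ℝ → ℝ → ℝ) (G : Set ℝ) (g : ℝ),
      IsClosed G → g ∈ G → (∀ l < n, HasDerivAt (fun x => L l x x) (Sl l) g) →
      ∃ (p : ℕ → ι) (M : ℕ) (B₀ B₁ : ℕ → ℝ),
      (∀ j < M, B₀ j < B₁ j) ∧ ∀ k₀ : ℕ → ℕ,
      (∀ j < M, Q (p j) (k₀ j) S P θ c Pt r L T κ G g) →
      ∃ q₁ : ℝ, 0 < q₁ ∧ ∀ (q t : ℝ) (x : ℕ → ℝ),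
      q < q₁ → (∀ j < M, x j ∈ G ∧ t + B₀ j * q ≤ x j ∧ x j ≤ t + B₁ j * q ∧
        Q (p j) (k₀ j) S P θ c Pt r L T κ G (x j)) →
      RecG S al g₀ P θ P₂ θ₂ Eb e₂ c Pt r h K₀ g L T Sl κ G S₀ N A V S₂ N' V' K' ε q t →
      L i (t + q) (t + q) ≤ L i (t + q) t + del * q

/-- **The class theorem of a void kind of windows**, with the slopes at the window and a property
at the window itself and at points near it. -/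
def VoidQH {ι : Type} (n : ℕ) (h : ℝ) (Sl : ℕ → ℝ) (κ : ℕ → Kg) (Q : PropG n ι) : Prop :=
  ∀ al : ℝ, 0 < al → ∀ K₀ : ℝ, 0 < K₀ → ∀ S₀ : ℕ, 1 ≤ S₀ →
    ∃ (K : ℝ) (N : ℕ) (A V : ℕ → ℝ), 1 ≤ K ∧ (∀ k < N, -K ≤ V k ∧ V k ≤ A k ∧ A k ≤ K) ∧
    ∀ S₂ : ℕ, S₀ ≤ S₂ → ∃ (K' : ℝ) (N' : ℕ) (V' : ℕ → ℝ), K ≤ K' ∧
      (∀ k < N', -K' ≤ V' k ∧ V' k ≤ K') ∧
      ∃ ε : ℝ, 0 < ε ∧ ∀ (S : PCl n) (g₀ : ℝ → ℝ) (P : List (Fin n) × Fin n → ℝ → ℝ → ℝ)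
      (θ : ℝ) (P₂ : ℕ → List (Fin n) × Fin n → ℝ → ℝ → ℝ) (θ₂ Eb e₂ : ℕ → ℝ) (c : ℕ → Fin n)
      (Pt : ℝ → ℝ → ℝ) (r : ℝ → ℝ) (L T : ℕ → ℝ → ℝ → ℝ) (G : Set ℝ) (g : ℝ),
      IsClosed G → g ∈ G → (∀ l < n, HasDerivAt (fun x => L l x x) (Sl l) g) →
      ∃ (p : ℕ → ι) (M : ℕ) (B₀ B₁ : ℕ → ℝ),
      (∀ j < M, B₀ j < B₁ j) ∧ ∀ k₀ : ℕ → ℕ,
      (∀ j < M, Q (p j) (k₀ j) S P θ c Pt r L T κ G g) →
      ∃ q₁ : ℝ, 0 < q₁ ∧ ∀ (q t : ℝ) (x : ℕ → ℝ),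
      q < q₁ → (∀ j < M, x j ∈ G ∧ t + B₀ j * q ≤ x j ∧ x j ≤ t + B₁ j * q ∧
        Q (p j) (k₀ j) S P θ c Pt r L T κ G (x j)) →
      RecG S al g₀ P θ P₂ θ₂ Eb e₂ c Pt r h K₀ g L T Sl κ G S₀ N A V S₂ N' V' K' ε q t → False

theorem CelQG.h {ι : Type} {n i : ℕ} {h : ℝ} {Sl : ℕ → ℝ} {κ : ℕ → Kg} {Q : PropG n ι}
    (H : CelQG n i h Sl κ Q) : CelQH n i h Sl κ Q := by
  intro al hal K₀ hK₀ del hdel S₀ hS₀
  obtain ⟨K, N, A, V, h1, h2, H⟩ := H al hal K₀ hK₀ del hdel S₀ hS₀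
  refine ⟨K, N, A, V, h1, h2, fun S₂ hS₂ => ?_⟩
  obtain ⟨K', N', V', h3, h4, ε, hε, H⟩ := H S₂ hS₂
  refine ⟨K', N', V', h3, h4, ε, hε, fun S g₀ P θ P₂ θ₂ Eb e₂ c Pt r L T G g hG hg _ => ?_⟩
  obtain ⟨p, M, B₀, B₁, h5, H⟩ := H S g₀ P θ P₂ θ₂ Eb e₂ c Pt r L T G g hG hg
  exact ⟨p, M, B₀, B₁, h5, fun k₀ _ => H k₀⟩

theorem VoidQG.h {ι : Type} {n : ℕ} {h : ℝ} {Sl : ℕ → ℝ} {κ : ℕ → Kg} {Q : PropG n ι}
    (H : VoidQG n h Sl κ Q) : VoidQH n h Sl κ Q := by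
  intro al hal K₀ hK₀ S₀ hS₀
  obtain ⟨K, N, A, V, h1, h2, H⟩ := H al hal K₀ hK₀ S₀ hS₀
  refine ⟨K, N, A, V, h1, h2, fun S₂ hS₂ => ?_⟩
  obtain ⟨K', N', V', h3, h4, ε, hε, H⟩ := H S₂ hS₂
  refine ⟨K', N', V', h3, h4, ε, hε, fun S g₀ P θ P₂ θ₂ Eb e₂ c Pt r L T G g hG hg _ => ?_⟩
  obtain ⟨p, M, B₀, B₁, h5, H⟩ := H S g₀ P θ P₂ θ₂ Eb e₂ c Pt r L T G g hG hg
  exact ⟨p, M, B₀, B₁, h5, fun k₀ _ => H k₀⟩

variable {n : ℕ} {hn : 2 ≤ n} {S : PCl n} {P : ℝ → ℝ → ℝ} {r : ℝ → ℝ}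
  {P' : ℕ → List (Fin n) × Fin n → ℝ → ℝ → ℝ} {Λ : Finset (Fin n) → Fin n → ℝ → ℝ → ℝ}
  {PB : ℕ → List (Fin n) × Fin n → ℝ → ℝ → ℝ} {PQ : ℚ → List (Fin n) × Fin n → ℝ → ℝ → ℝ}

/-- **The record and the property** at almost every good window and near it, in a subclass. -/
theorem joint_aeH {ι : Type} [Countable ι] {Q : PropG n ι} (hQ : AePG n Q)
    (H : PkT hn S P r P' Λ PB) (hTop : TopS n) (hF : FZX (n - 1)) (o : Od n) (κ : ℕ → Kg) :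
    ∀ᵐ g : ℝ, g ∈ Gs P r P' Λ o → (∀ l < n, KgAt hn P P' PB o l g (κ l)) →
      ∃ (S' : PCl n) (G : Set ℝ), PkT hn S' P r P' Λ PB ∧ IsClosed G ∧ g ∈ G ∧
        WnG hn S' P P' PB o G g ∧ ∀ p : ι, ∃ k₀ : ℕ, Q p k₀ S' (P' o.2) (tht o.2)
          (cc hn o.1.1) P r (LvL hn P P' o) (LvT hn PB o) κ G g ∧ ∀ C τ : ℝ, 0 < C → 0 < τ →
          ∃ q₁ : ℝ, 0 < q₁ ∧ ∀ q y : ℝ, 0 < q → q < q₁ → |y - g| ≤ C * q →
            ∃ x : ℝ, x ∈ G ∧ y ≤ x ∧ x ≤ y + τ * q ∧ Q p k₀ S' (P' o.2) (tht o.2)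
              (cc hn o.1.1) P r (LvL hn P P' o) (LvT hn PB o) κ G x := by
  refine ae_of_closed (H.toPk.gs_meas o) (ne_top_of_le_ne_top (by
    rw [Real.volume_Ioo]
    exact ENNReal.ofReal_ne_top) (measure_mono (show Gs P r P' Λ o ⊆ Set.Ioo 0 1 from
      fun g hg => ⟨hg.1.1.1, hg.1.1.2.1⟩))) fun G hG hGs => ?_
  obtain ⟨S₁, PQ, -, HB⟩ := pkB_ex H
  obtain ⟨S', hne, hs, hae⟩ := hQ hn S₁ P r P' Λ PB PQ HB hTop hF o G hG hGs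
  have HB' := HB.sub hne hs
  have hall : ∀ᵐ g : ℝ, ∀ j : ι × ℕ, g ∈ {x : ℝ | x ∈ G ∧ Q j.1 j.2 S' (P' o.2) (tht o.2)
      (cc hn o.1.1) P r (LvL hn P P' o) (LvT hn PB o) κ G x} → ∀ C τ : ℝ, 0 < C → 0 < τ →
      ∃ q₁ : ℝ, 0 < q₁ ∧ ∀ q y : ℝ, 0 < q → q < q₁ → |y - g| ≤ C * q →
        ∃ x ∈ {x : ℝ | x ∈ G ∧ Q j.1 j.2 S' (P' o.2) (tht o.2)
          (cc hn o.1.1) P r (LvL hn P P' o) (LvT hn PB o) κ G x}, y ≤ x ∧ x ≤ y + τ * q :=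
    ae_all_iff.2 fun j => pt_near _
  filter_upwards [HB'.wnG_ae hTop hF hG.measurableSet hGs, hae, hall] with g h1 h2 h3 hg hk
  refine ⟨S', G, HB'.toPkT, hG, hg, h1 hg, fun p => ?_⟩
  obtain ⟨k₀, hk₀⟩ := h2 hg κ hk p
  refine ⟨k₀, hk₀, fun C τ hC hτ => ?_⟩
  obtain ⟨q₁, hq₁, h4⟩ := h3 (p, k₀) ⟨hg, hk₀⟩ C τ hC hτ
  refine ⟨q₁, hq₁, fun q y hq hq' hy => ?_⟩
  obtain ⟨x, hx, h5, h6⟩ := h4 q y hq hq' hy
  exact ⟨x, hx.1, h5, h6, hx.2⟩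

/-- The points near `t` from the points near `g`, with the property at `g`. -/
theorem pts_nearH {ι : Type} {D : ι → ℕ → ℝ → Prop} {G : Set ℝ} {g R : ℝ} (hR : 0 < R)
    (h : ∀ p : ι, ∃ k₀ : ℕ, D p k₀ g ∧ ∀ C τ : ℝ, 0 < C → 0 < τ →
      ∃ q₁ : ℝ, 0 < q₁ ∧ ∀ q y : ℝ, 0 < q → q < q₁ → |y - g| ≤ C * q →
        ∃ x : ℝ, x ∈ G ∧ y ≤ x ∧ x ≤ y + τ * q ∧ D p k₀ x) (p : ℕ → ι) (M : ℕ)
    (B₀ B₁ : ℕ → ℝ) (hB : ∀ j < M, B₀ j < B₁ j) : ∃ k₀ : ℕ → ℕ,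
      (∀ j < M, D (p j) (k₀ j) g) ∧ ∃ q₁ : ℝ, 0 < q₁ ∧
      ∀ q t : ℝ, 0 < q → q < q₁ → |t - g| ≤ R * q → ∃ x : ℕ → ℝ, ∀ j < M, x j ∈ G ∧
        t + B₀ j * q ≤ x j ∧ x j ≤ t + B₁ j * q ∧ D (p j) (k₀ j) (x j) := by
  obtain ⟨k₀, q₁, hq₁, hx⟩ := pts_near (D := fun p k x => D p k g ∧ D p k x) hR (fun p => by
    obtain ⟨k, h1, h2⟩ := h p
    refine ⟨k, fun C τ hC hτ => ?_⟩
    obtain ⟨q₁, hq₁, h3⟩ := h2 C τ hC hτ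
    refine ⟨q₁, hq₁, fun q y hq hq' hy => ?_⟩
    obtain ⟨x, h4, h5, h6, h7⟩ := h3 q y hq hq' hy
    exact ⟨x, h4, h5, h6, h1, h7⟩) p M B₀ B₁ hB
  refine ⟨k₀, fun j hj => ?_, q₁, hq₁, fun q t hq hq' ht => ?_⟩
  · obtain ⟨x, h1⟩ := hx (q₁ / 2) g (by linarith) (by linarith) (by
      rw [sub_self, abs_zero]
      exact mul_nonneg hR.le (by linarith))
    exact (h1 j hj).2.2.2.1
  · obtain ⟨x, h1⟩ := hx q t hq hq' ht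
    exact ⟨x, fun j hj => ⟨(h1 j hj).1, (h1 j hj).2.1, (h1 j hj).2.2.1, (h1 j hj).2.2.2.2⟩⟩

/-- **A cell from its class theorem**, with the rate, the slopes and a property at the window
itself and at points near it. -/
theorem cell_of_gh {ι : Type} [Countable ι] {Q : PropG n ι} (hQ : AePG n Q)
    (H : PkT hn S P r P' Λ PB) (hTop : TopS n)
    (hF : FZX (n - 1)) (h : ℝ) {κ : List Kd} (hκn : κ.length ≤ n - 1)
    (hcls : ∀ Sl : ℕ → ℝ, (∀ (l : ℕ) (hl : l < κ.length), 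
      (κ[l] = .one → Sl l = 1) ∧ (κ[l] = .thin → 1 < Sl l) ∧ (κ[l] = .sta → 2 ≤ Sl l)) →
      2 < Sl κ.length → (∀ l < n, 1 ≤ Sl l) → CelQH n κ.length h Sl (kgL κ) Q) :
    Cell H hTop hF h κ := by
  intro o
  filter_upwards [joint_aeH hQ H hTop hF o (kgL κ), H.dia_all H.pble hTop hF,
    sl_one H hTop hF, one_zero H hTop hF o] with g h1 hdia h1s h0 R _ hk hs hst
  have ho := R.rwd.mem
  obtain ⟨α, Q₁, c', F⟩ := H.toPk.fac hTop hF ho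
  have hg0 := F.g0
  have hg1 := F.g1
  have hkg : ∀ l < n, KgAt hn P P' PB o l g (kgL κ l) := fun l hl => by
    rcases lt_trichotomy l κ.length with h5 | h5 | h5
    · rw [kgL_lt h5]
      exact (hk l h5).kg
    · rw [h5, kgL_len]
      exact ⟨hs, hst⟩
    · unfold kgL
      rw [if_neg (by omega), if_neg (by omega)]
      trivial
  obtain ⟨S', G, HT, hG, hgG, W, hQg⟩ := h1 ho hkg
  obtain ⟨al, g₀, s', d', e', K₁, N₁, hal, hg₀, hC⟩ := HT.cl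
  have hl0 : LvL hn P P' o 0 g g = g := by
    rw [Pool.Z4.lvL_eq o (by omega)]
    exact H.toPk.act_diag hTop hF ho
  refine sta_of_pairs (H.lawL o κ.length) hg0 hg1 (hdia o ho κ.length hκn).1
    fun K₀ del hK₀ hdel => ?_
  obtain ⟨P₂, θ₂, Eb, e₂, S₀, hS₀, W⟩ := W.recG HT hkg (fun l _ => rfl) (h0 ho) hl0 R.rwd.rdif R.defi hal hg₀
    ⟨s', d', e', K₁, N₁, hC⟩
  obtain ⟨K, N, A, V, hK, hAV, hc⟩ := hcls (SlL hn P P' o g) (fun l hl => by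
    have h3 := hk l hl
    refine ⟨fun h4 => ?_, fun h4 => ?_, fun h4 => ?_⟩
    · rw [h4] at h3
      exact h3
    · rw [h4] at h3
      exact h3.1
    · rw [h4] at h3
      exact h3.1) hs (h1s o ho) al hal (K₀ + del) (by linarith) del hdel S₀ hS₀
  obtain ⟨S₂, hS₂, W⟩ := W K₀ K N A V (by linarith) hK hAV del hdel
  obtain ⟨K', N', V', hKK, hV', ε, hε, hc⟩ := hc S₂ hS₂
  obtain ⟨q₁, hq₁, W⟩ := W K' N' V' hKK hV' ε hε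
  obtain ⟨p, M, B₀, B₁, hB, hc⟩ := hc S' g₀ (P' o.2) (tht o.2) P₂ θ₂ Eb e₂ (cc hn o.1.1) P r
    (LvL hn P P' o) (LvT hn PB o) G g hG hgG (fun l hl => (hdia o ho l (by omega)).1.hasDerivAt)
  obtain ⟨k₀, hg₀k, q₂, hq₂, hx⟩ := pts_nearH (R := K₀ + del) (by linarith) hQg p M B₀ B₁ hB
  obtain ⟨q₃, hq₃, hc⟩ := hc k₀ hg₀k
  refine ⟨min q₁ (min q₂ q₃), lt_min hq₁ (lt_min hq₂ hq₃), fun q u hq hq' hu => ?_⟩
  obtain ⟨t, ht1, ht2, hR⟩ := W q u hq (hq'.trans_le (min_le_left _ _)) hu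
  obtain ⟨x, hx⟩ := hx q t hq (hq'.trans_le ((min_le_right _ _).trans (min_le_left _ _)))
    hR.near
  exact ⟨t, ht1, ht2, hc q t x (hq'.trans_le ((min_le_right _ _).trans (min_le_right _ _)))
    hx hR⟩

/-- **A void kind of windows from its class theorem**, with the rate, the slopes and a property at
the window itself and at points near it. -/
theorem void_of_gh {ι : Type} [Countable ι] {Q : PropG n ι} (hQ : AePG n Q)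
    (H : PkT hn S P r P' Λ PB) (hTop : TopS n)
    (hF : FZX (n - 1)) (h : ℝ) {κ : ℕ → Kg}
    (hcls : ∀ Sl : ℕ → ℝ, (∀ l < n, (κ l = .one → Sl l = 1) ∧ (κ l = .thin → 1 < Sl l) ∧
      (κ l = .sta → 2 ≤ Sl l) ∧ (κ l = .stp → 2 < Sl l)) → (∀ l < n, 1 ≤ Sl l) →
      VoidQH n h Sl κ Q) (o : Od n) :
    ∀ᵐ g : ℝ, RwH H hTop hF h o g → (∀ l < n, KgAt hn P P' PB o l g (κ l)) → False := by
  filter_upwards [joint_aeH hQ H hTop hF o κ, H.dia_all H.pble hTop hF, sl_one H hTop hF, one_zero H hTop hF o]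
    with g h1 hdia h1s h0 R hkg
  have ho := R.rwd.mem
  obtain ⟨S', G, HT, hG, hgG, W, hQg⟩ := h1 ho hkg
  obtain ⟨al, g₀, s', d', e', K₁, N₁, hal, hg₀, hC⟩ := HT.cl
  have hl0 : LvL hn P P' o 0 g g = g := by
    rw [Pool.Z4.lvL_eq o (by omega)]
    exact H.toPk.act_diag hTop hF ho
  obtain ⟨P₂, θ₂, Eb, e₂, S₀, hS₀, W⟩ := W.recG HT hkg (fun l _ => rfl) (h0 ho) hl0 R.rwd.rdif R.defi hal hg₀
    ⟨s', d', e', K₁, N₁, hC⟩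
  obtain ⟨K, N, A, V, hK, hAV, hc⟩ := hcls (SlL hn P P' o g) (fun l hl => by
    have h3 := hkg l hl
    refine ⟨fun h4 => ?_, fun h4 => ?_, fun h4 => ?_, fun h4 => ?_⟩
    · rw [h4] at h3
      exact h3
    · rw [h4] at h3
      exact h3.1
    · rw [h4] at h3
      exact h3.1
    · rw [h4] at h3
      exact h3.1) (h1s o ho) al hal (1 + 1) (by norm_num) S₀ hS₀
  obtain ⟨S₂, hS₂, W⟩ := W 1 K N A V one_pos hK hAV 1 one_pos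
  obtain ⟨K', N', V', hKK, hV', ε, hε, hc⟩ := hc S₂ hS₂
  obtain ⟨q₁, hq₁, W⟩ := W K' N' V' hKK hV' ε hε
  obtain ⟨p, M, B₀, B₁, hB, hc⟩ := hc S' g₀ (P' o.2) (tht o.2) P₂ θ₂ Eb e₂ (cc hn o.1.1) P r
    (LvL hn P P' o) (LvT hn PB o) G g hG hgG (fun l hl => (hdia o ho l (by omega)).1.hasDerivAt)
  obtain ⟨k₀, hg₀k, q₂, hq₂, hx⟩ := pts_nearH (R := 1 + 1) (by norm_num) hQg p M B₀ B₁ hB
  obtain ⟨q₃, hq₃, hc⟩ := hc k₀ hg₀k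
  obtain ⟨q, hq⟩ : ∃ q, q = min q₁ (min q₂ q₃) / 2 := ⟨_, rfl⟩
  have hm : 0 < min q₁ (min q₂ q₃) := lt_min hq₁ (lt_min hq₂ hq₃)
  have hq0 : 0 < q := by rw [hq]; linarith
  have hqm : q < min q₁ (min q₂ q₃) := by rw [hq]; linarith
  obtain ⟨t, ht1, ht2, hR⟩ := W q g hq0 (hqm.trans_le (min_le_left _ _)) (by
    rw [sub_self, abs_zero]
    linarith)
  obtain ⟨x, hx⟩ := hx q t hq0 (hqm.trans_le ((min_le_right _ _).trans (min_le_left _ _)))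
    hR.near
  exact hc q t x (hqm.trans_le ((min_le_right _ _).trans (min_le_right _ _))) hx hR

end Pool.PKG

namespace Pool.ASM

open MeasureTheory Set Filter Topology
open Pool.GEN Pool.PKG Pool.SW
open Pool.ONE (Ext0 Ext)
open Pool.MIC6

/-- **A cell for all classes from its class theorem**, with the rate and a property. -/
theorem lCellA_of_gh {n : ℕ} {ι : Type} [Countable ι] {Q : PropG n ι} (hQ : AePG n Q)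
    {κ : List Kd} (hκn : κ.length ≤ n - 1)
    (hcls : ∀ h : ℝ, 0 < h → h ≤ 1 → ∀ Sl : ℕ → ℝ, (∀ (l : ℕ) (hl : l < κ.length), 
      (κ[l] = .one → Sl l = 1) ∧ (κ[l] = .thin → 1 < Sl l) ∧ (κ[l] = .sta → 2 ≤ Sl l)) →
      2 < Sl κ.length → (∀ l < n, 1 ≤ Sl l) → CelQH n κ.length h Sl (kgL κ) Q) :
    LCellA n κ := fun _ => by
  refine (Tol.le (1 / 2) (by norm_num)).mono fun η hη => ?_
  intro hn _ hF hTop D hD hD1 _ S P r P' Λ PB H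
  have h1 := hη D hD
  exact cell_of_gh hQ H hTop hF _ hκn (hcls _ (mul_pos (by linarith) hD) (by nlinarith))

/-- **`LVo` from its class theorem**, with a property. -/
theorem lVo_of_gh {n : ℕ} {ι : Type} [Countable ι] {Q : PropG n ι} (hQ : AePG n Q)
    (hcls : ∀ h : ℝ, 0 < h → h ≤ 1 → ∀ Sl : ℕ → ℝ, (∀ l < n - 1, Sl l = 1) →
      1 < Sl (n - 1) → VoidQH n h Sl (kgV n) Q) : LVo n := fun _ => by
  refine (Tol.le (1 / 2) (by norm_num)).mono fun η hη => ?_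
  intro hn _ hF hTop D hD hD1 _ S P r P' Λ PB H o
  have h1 := hη D hD
  filter_upwards [void_of_gh (κ := kgV n) hQ H hTop hF ((1 - η D) * D) (fun Sl k1 k2 =>
    hcls _ (mul_pos (by linarith) hD) (by nlinarith) Sl (fun l hl => (k1 l (by omega)).1 (by
      unfold kgV
      rw [if_pos hl])) ((k1 (n - 1) (by omega)).2.1 (by
      unfold kgV
      rw [if_neg (lt_irrefl _)]))) o] with g h2 R hT hs
  refine h2 R fun l hl => ?_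
  unfold kgV
  split_ifs with h3
  · have h4 := hs ⟨l, h3⟩
    rw [slo_slN, slN_lvl o (by omega)] at h4
    exact h4
  · have h4 : l = n - 1 := by omega
    have h5 : LvL hn P P' o (n - 1) = P := lvL_last o
    subst h4
    obtain ⟨h6, h7⟩ := hT
    rw [slN_tar] at h6
    refine ⟨?_, ?_⟩
    · rw [h5]
      exact h6
    · rw [h5, LvT_top]
      exact h7

end Pool.ASM
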