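import Pool.Agent.H3.D2G.WinJ

/-!
# The windows near a good window, for all targets of a list at once

`WinK`: as `WinJ`, for all the coordinates `1 ≤ l ≤ i` as targets at the same windows: for `l < i`
the coordinate `l` is a target of the list, with a small exponent. `winK_ae`: it holds at almost
every good window, for every place `1 ≤ i ≤ n - 1`.
-/

set_option autoImplicit false

namespace Pool.PKG

open MeasureTheory Set Filter Topology
open Pool.Agent.H49.Ent Pool.Agent.H32.Dense Pool.STK Pool.KA Pool.KSAT Pool.K2S Pool.PB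
open Pool.GEN Pool.S6C Pool.STAT Pool.CHT Pool.GRW Pool.ONE Pool.STA
open Pool.LBT (LSys ThrOf)
open Pool.LEV (Law)
open Pool.TOP (TopS)
open Pool.ISO (PtD lvN WinD)

variable {n : ℕ}

/-- **The record of a good window** `g`, for the targets at the places `1 ≤ l ≤ i` of the order
`o`. -/
def WinK (hn : 2 ≤ n) (S : PCl n) (P : ℝ → ℝ → ℝ) (r : ℝ → ℝ)
    (P' : ℕ → List (Fin n) × Fin n → ℝ → ℝ → ℝ) (Λ : Finset (Fin n) → Fin n → ℝ → ℝ → ℝ)
    (PB : ℕ → List (Fin n) × Fin n → ℝ → ℝ → ℝ) (o : Od n) (i : ℕ) (g : ℝ) : Prop :=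
  ∃ (θ₂ e₂ Eb : ℕ → ℝ) (P₂ : ℕ → List (Fin n) × Fin n → ℝ → ℝ → ℝ) (S₀ : ℕ),
    (∀ l, 1 ≤ l → l ≤ i → 0 < θ₂ l ∧ 0 < Eb l ∧ ThrOf (chsys n (θ₂ l)) S (P₂ l)) ∧
    (∀ l, 1 ≤ l → l < i → P₂ l = P' o.2 ∧ θ₂ l = tht o.2) ∧ 1 ≤ S₀ ∧
      ∀ (K : ℝ) (N : ℕ) (A V : ℕ → ℝ), 1 ≤ K → (∀ k < N, -K ≤ V k ∧ V k ≤ A k ∧ A k ≤ K) →
        ∀ th : ℝ, 0 < th → ∃ S₁ : ℕ, 1 ≤ S₁ ∧ ∀ (N' : ℕ) (V' : ℕ → ℝ),
          (∀ k < N', -K ≤ V' k ∧ V' k ≤ K) → ∀ η : ℝ, 0 < η → ∃ q₁ : ℝ, 0 < q₁ ∧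
          ∀ q u : ℝ, 0 < q → q < q₁ → |u - g| ≤ K * q →
            3 * K * q ≤ g / 2 ∧ 3 * K * q ≤ 1 - g ∧
            Nbx (LvL hn P P' o) (LvT hn PB o) (SlL hn P P' o g) (n - 1) g η (3 * K) q ∧
            (∀ l, 1 ≤ l → l ≤ i → e₂ l < θ₂ l * (g - 3 * K * q) ∧ Eb l + 3 * K * q < e₂ l ∧
              ∀ j ≤ l, ∀ x : ℝ, |x - g| ≤ 3 * K * q →
                LvL hn P P' o j x x + Eb l + 6 * K * q < 1) ∧
            ∀ Z : Set ℝ, volume Z = 0 → ∃ t : ℝ, t ∉ Z ∧ u ≤ t ∧ t ≤ u + th * q ∧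
              (∀ k < N,
                (∀ l ≤ n - 1, LvT hn PB o l (t + A k * q) (t + V k * q) ≤
                    LvL hn P P' o l (t + A k * q) (t + V k * q) ∧
                  LvT hn PB o l (t + V k * q) (t + V k * q) ≤
                    LvL hn P P' o l (t + V k * q) (t + V k * q)) ∧
                (t + A k * q ∈ Gs P r P' Λ o ∧ t + V k * q ∈ Gs P r P' Λ o) ∧
                ∀ l, 1 ≤ l → l ≤ i →
                  PtI S (P' o.2) (tht o.2) (cc hn o.1.1) l (LvL hn P P' o l) S₁ (Eb l)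
                    (t + A k * q) (t + V k * q) ∧
                  PtI S (P' o.2) (tht o.2) (cc hn o.1.1) l (LvL hn P P' o l) S₀ (Eb l)
                    (t + V k * q) (t + V k * q) ∧
                  ∀ e : ℝ, 0 < e → ∃ d : ℝ, 0 < d ∧ ∀ a' w' : ℝ, t + A k * q ≤ a' →
                    a' ≤ t + A k * q + d → t + V k * q ≤ w' → w' ≤ t + V k * q + d → w' ≤ a' →
                    bet (P₂ l) (cc hn o.1.1) l a' w' ≤
                      LvL hn P P' o l (t + A k * q) (t + V k * q) + e ∧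
                    (∀ j ≤ l, bet (P₂ l) (cc hn o.1.1) j w' w' ≤
                      LvL hn P P' o j (t + V k * q) (t + V k * q) + e) ∧
                    ∀ j ≤ l, bet (P₂ l) (cc hn o.1.1) j a' a' ≤
                      LvL hn P P' o j (t + A k * q) (t + A k * q) + e) ∧
              ∀ k < N',
                (∀ l ≤ n - 1, LvT hn PB o l (t + V' k * q) (t + V' k * q) ≤
                  LvL hn P P' o l (t + V' k * q) (t + V' k * q)) ∧
                t + V' k * q ∈ Gs P r P' Λ o ∧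
                ∀ l, 1 ≤ l → l ≤ i →
                  PtI S (P' o.2) (tht o.2) (cc hn o.1.1) l (LvL hn P P' o l) S₀ (Eb l)
                    (t + V' k * q) (t + V' k * q) ∧
                  ∀ e : ℝ, 0 < e → ∃ d : ℝ, 0 < d ∧ ∀ w' : ℝ, t + V' k * q ≤ w' →
                    w' ≤ t + V' k * q + d → ∀ j ≤ l, bet (P₂ l) (cc hn o.1.1) j w' w' ≤
                      LvL hn P P' o j (t + V' k * q) (t + V' k * q) + e

variable {hn : 2 ≤ n} {S : PCl n} {P : ℝ → ℝ → ℝ} {r : ℝ → ℝ}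
  {P' : ℕ → List (Fin n) × Fin n → ℝ → ℝ → ℝ} {Λ : Finset (Fin n) → Fin n → ℝ → ℝ → ℝ}
  {PB : ℕ → List (Fin n) × Fin n → ℝ → ℝ → ℝ} {PQ : ℚ → List (Fin n) × Fin n → ℝ → ℝ → ℝ}

/-- **The second threshold structure of one target.** -/
structure TgtE (hn : 2 ≤ n) (S : PCl n) (P : ℝ → ℝ → ℝ) (r : ℝ → ℝ)
    (P' : ℕ → List (Fin n) × Fin n → ℝ → ℝ → ℝ) (Λ : Finset (Fin n) → Fin n → ℝ → ℝ → ℝ)
    (o : Od n) (E cE g : ℝ) (l : ℕ) (θ₂ e₂ Eb e' ζ : ℝ)
    (P₂ : List (Fin n) × Fin n → ℝ → ℝ → ℝ) : Prop where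
  lst : l < n - 1 → P₂ = P' o.2 ∧ θ₂ = tht o.2
  θ₂0 : 0 < θ₂
  thr : ThrOf (chsys n θ₂) S P₂
  Eb0 : 0 < Eb
  EbE : Eb ≤ E
  Ebe : Eb < e₂
  eθ : e₂ < θ₂ * g
  e0 : 0 < e'
  ζ0 : 0 < ζ
  pt : ∀ (vs e : ℝ) (S₀ : ℕ) (a w : ℝ), 0 < e → e ≤ e' → PtC hn S P P' o vs e E cE S₀ a w →
    PtI S (P' o.2) (tht o.2) (cc hn o.1.1) l (LvL hn P P' o l) S₀ Eb a w
  le : ∀ a w : ℝ, 0 < w → w ≤ a → a ≤ 1 → bet P₂ (cc hn o.1.1) l a w ≤ LvL hn P P' o l a w
  num : ∀ x ∈ Gs P r P' Λ o, |x - g| ≤ ζ → ∀ j < l,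
    bet P₂ (cc hn o.1.1) j x x ≤ LvL hn P P' o j x x

/-- The record from the record of the window and the structures of the targets. -/
theorem winK_aux (H : PkT hn S P r P' Λ PB) {o : Od n} {g E cE : ℝ} (hg0 : 0 < g) (hg1 : g < 1)
    (W : ∀ e' : ℝ, 0 < e' → ∃ (vs e : ℝ) (S₀ : ℕ), 0 < e ∧ e ≤ e' ∧ 1 ≤ S₀ ∧
      ∀ (K : ℝ) (N : ℕ) (A V : ℕ → ℝ), 1 ≤ K → (∀ k < N, -K ≤ V k ∧ V k ≤ A k ∧ A k ≤ K) →
        ∀ th : ℝ, 0 < th → ∃ S₁ : ℕ, 1 ≤ S₁ ∧ ∀ (N' : ℕ) (V' : ℕ → ℝ),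
          (∀ k < N', -K ≤ V' k ∧ V' k ≤ K) → ∀ η : ℝ, 0 < η → ∃ q₁ : ℝ, 0 < q₁ ∧
          ∀ q u : ℝ, 0 < q → q < q₁ → |u - g| ≤ K * q →
            3 * K * q ≤ g / 2 ∧ 3 * K * q ≤ 1 - g ∧
            Nbx (LvL hn P P' o) (LvT hn PB o) (SlL hn P P' o g) (n - 1) g η (3 * K) q ∧
            (∀ l ≤ n - 1, ∀ x : ℝ, |x - g| ≤ 3 * K * q →
              LvL hn P P' o l x x + E + 6 * K * q < 1) ∧
            ∀ Z : Set ℝ, volume Z = 0 → ∃ t : ℝ, t ∉ Z ∧ u ≤ t ∧ t ≤ u + th * q ∧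
              (∀ k < N, PtC hn S P P' o vs e E cE S₁ (t + A k * q) (t + V k * q) ∧
                PtC hn S P P' o vs e E cE S₀ (t + V k * q) (t + V k * q)) ∧
              (∀ k < N, ∀ l ≤ n - 1,
                LvT hn PB o l (t + A k * q) (t + V k * q) ≤
                  LvL hn P P' o l (t + A k * q) (t + V k * q) ∧
                LvT hn PB o l (t + V k * q) (t + V k * q) ≤
                  LvL hn P P' o l (t + V k * q) (t + V k * q)) ∧
              (∀ k < N, t + A k * q ∈ Gs P r P' Λ o ∧ t + V k * q ∈ Gs P r P' Λ o) ∧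
              ∀ k < N', PtC hn S P P' o vs e E cE S₀ (t + V' k * q) (t + V' k * q) ∧
                (∀ l ≤ n - 1, LvT hn PB o l (t + V' k * q) (t + V' k * q) ≤
                  LvL hn P P' o l (t + V' k * q) (t + V' k * q)) ∧
                t + V' k * q ∈ Gs P r P' Λ o)
    {i : ℕ} (hi : i ≤ n - 1) {θ₂ e₂ Eb e' ζ : ℕ → ℝ}
    {P₂ : ℕ → List (Fin n) × Fin n → ℝ → ℝ → ℝ}
    (hT : ∀ l ≤ i, TgtE hn S P r P' Λ o E cE g l (θ₂ l) (e₂ l) (Eb l) (e' l) (ζ l) (P₂ l)) :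
    WinK hn S P r P' Λ PB o i g := by
  obtain ⟨em, hem, heml⟩ := fin_pos (i + 1) (f := e') fun l hl => (hT l (by omega)).e0
  obtain ⟨vs, e, S₀, he, hee, hS₀, W⟩ := W em hem
  refine ⟨θ₂, e₂, Eb, P₂, S₀, fun l _ hl => ⟨(hT l hl).θ₂0, (hT l hl).Eb0, (hT l hl).thr⟩,
    fun l _ hl => (hT l hl.le).lst (by omega), hS₀, fun K N A V hK hAV th hth => ?_⟩
  have hK0 : 0 < K := by linarith
  obtain ⟨S₁, hS₁, W⟩ := W K N A V hK hAV (min th K) (lt_min hth hK0)
  refine ⟨S₁, hS₁, fun N' V' hV' η hη => ?_⟩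
  obtain ⟨q₁, hq₁, W⟩ := W N' V' hV' η hη
  obtain ⟨q₂, hq₂0, hq₂⟩ := fin_pos (i + 1) (f := fun l => min (ζ l / (3 * K))
    (min ((θ₂ l * g - e₂ l) / (2 * (3 * K * θ₂ l))) ((e₂ l - Eb l) / (2 * (3 * K)))))
    fun l hl => by
      have T := hT l (by omega)
      have k1 := T.ζ0
      have k2 := T.θ₂0
      have k3 := T.eθ
      have k4 := T.Ebe
      exact lt_min (by positivity) (lt_min (div_pos (by linarith) (by positivity))
        (div_pos (by linarith) (by positivity)))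
  refine ⟨min q₁ q₂, lt_min hq₁ hq₂0, fun q u hq hqm hu => ?_⟩
  have hKq : 0 < K * q := mul_pos hK0 hq
  have hsm : ∀ l ≤ i, 3 * K * q ≤ ζ l ∧ e₂ l < θ₂ l * (g - 3 * K * q) ∧
      Eb l + 3 * K * q < e₂ l := by
    intro l hl
    have T := hT l hl
    have hqq := (hqm.trans_le (min_le_right _ _)).trans_le (hq₂ l (by omega))
    have k1 := hqq.trans_le (min_le_left _ _)
    have k2 := hqq.trans_le ((min_le_right _ _).trans (min_le_left _ _))
    have k3 := hqq.trans_le ((min_le_right _ _).trans (min_le_right _ _))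
    have h0 := T.θ₂0
    have h1 := T.eθ
    have h2 := T.Ebe
    rw [lt_div_iff₀ (by positivity)] at k1 k2 k3
    have hθq : 0 < θ₂ l * (K * q) := mul_pos h0 hKq
    exact ⟨by linarith, by nlinarith, by linarith⟩
  obtain ⟨a1, a2, a3, a4, W⟩ := W q u hq (hqm.trans_le (min_le_left _ _)) hu
  refine ⟨a1, a2, a3, fun l _ hl => ⟨(hsm l hl).2.1, (hsm l hl).2.2, fun j hj x hx => by
    linarith [a4 j (by omega) x hx, (hT l hl).EbE]⟩, fun Z hZ => ?_⟩
  have hn1 : ∀ l, ∃ Z : Set ℝ, volume Z = 0 ∧ (l ≤ i → ∀ t ∉ Z, ∀ k < N, 0 < t + V k * q →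
      t + A k * q < 1 →
      (∀ j < l, bet (P₂ l) (cc hn o.1.1) j (t + V k * q) (t + V k * q) ≤
        LvL hn P P' o j (t + V k * q) (t + V k * q)) →
      (∀ j < l, bet (P₂ l) (cc hn o.1.1) j (t + A k * q) (t + A k * q) ≤
        LvL hn P P' o j (t + A k * q) (t + A k * q)) →
      ∀ e : ℝ, 0 < e → ∃ d : ℝ, 0 < d ∧ ∀ a' w' : ℝ, t + A k * q ≤ a' →
        a' ≤ t + A k * q + d → t + V k * q ≤ w' → w' ≤ t + V k * q + d → w' ≤ a' →
        bet (P₂ l) (cc hn o.1.1) l a' w' ≤ LvL hn P P' o l (t + A k * q) (t + V k * q) + e ∧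
        (∀ j ≤ l, bet (P₂ l) (cc hn o.1.1) j w' w' ≤
          LvL hn P P' o j (t + V k * q) (t + V k * q) + e) ∧
        ∀ j ≤ l, bet (P₂ l) (cc hn o.1.1) j a' a' ≤
          LvL hn P P' o j (t + A k * q) (t + A k * q) + e) := by
    intro l
    by_cases hl : l ≤ i
    · obtain ⟨Z, h1, h2⟩ := near_num (o := o) H (hT l hl).thr N A V
        (fun k hk => (hAV k hk).2.1) hq.le (hT l hl).le
      exact ⟨Z, h1, fun _ => h2⟩
    · exact ⟨∅, measure_empty, fun h => absurd h hl⟩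
  have hn2 : ∀ l, ∃ Z : Set ℝ, volume Z = 0 ∧ (l ≤ i → ∀ t ∉ Z, ∀ k < N', 0 < t + V' k * q →
      t + V' k * q < 1 →
      (∀ j < l, bet (P₂ l) (cc hn o.1.1) j (t + V' k * q) (t + V' k * q) ≤
        LvL hn P P' o j (t + V' k * q) (t + V' k * q)) →
      (∀ j < l, bet (P₂ l) (cc hn o.1.1) j (t + V' k * q) (t + V' k * q) ≤
        LvL hn P P' o j (t + V' k * q) (t + V' k * q)) →
      ∀ e : ℝ, 0 < e → ∃ d : ℝ, 0 < d ∧ ∀ a' w' : ℝ, t + V' k * q ≤ a' →
        a' ≤ t + V' k * q + d → t + V' k * q ≤ w' → w' ≤ t + V' k * q + d → w' ≤ a' →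
        bet (P₂ l) (cc hn o.1.1) l a' w' ≤ LvL hn P P' o l (t + V' k * q) (t + V' k * q) + e ∧
        (∀ j ≤ l, bet (P₂ l) (cc hn o.1.1) j w' w' ≤
          LvL hn P P' o j (t + V' k * q) (t + V' k * q) + e) ∧
        ∀ j ≤ l, bet (P₂ l) (cc hn o.1.1) j a' a' ≤
          LvL hn P P' o j (t + V' k * q) (t + V' k * q) + e) := by
    intro l
    by_cases hl : l ≤ i
    · obtain ⟨Z, h1, h2⟩ := near_num (o := o) H (hT l hl).thr N' V' V'
        (fun k _ => le_rfl) hq.le (hT l hl).le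
      exact ⟨Z, h1, fun _ => h2⟩
    · exact ⟨∅, measure_empty, fun h => absurd h hl⟩
  choose Z₁ hZ₁ hnear using hn1
  choose Z₂ hZ₂ hnearc using hn2
  obtain ⟨t, ht, ht1, ht2, b1, b2, b3, b4⟩ := W (Z ∪ ⋃ l, (Z₁ l ∪ Z₂ l))
    (measure_union_null hZ (measure_iUnion_null fun l => measure_union_null (hZ₁ l) (hZ₂ l)))
  rw [mem_union, not_or, mem_iUnion, not_exists] at ht
  obtain ⟨htZ, ht⟩ := ht
  have ht' : ∀ l, t ∉ Z₁ l ∧ t ∉ Z₂ l := fun l => by
    have := ht l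
    rwa [mem_union, not_or] at this
  have hthK : min th K * q ≤ th * q := mul_le_mul_of_nonneg_right (min_le_left _ _) hq.le
  have hthK' : min th K * q ≤ K * q := mul_le_mul_of_nonneg_right (min_le_right _ _) hq.le
  have hu' := abs_le.1 hu
  refine ⟨t, htZ, ht1, by linarith, fun k hk => ⟨fun l hl => b2 k hk l hl, b3 k hk,
    fun l _ hl => ?_⟩, fun k hk => ⟨fun l hl => (b4 k hk).2.1 l hl, (b4 k hk).2.2,
      fun l _ hl => ?_⟩⟩
  · have T := hT l hl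
    have hel := hee.trans (heml l (by omega))
    have hζl := (hsm l hl).1
    refine ⟨T.pt _ _ _ _ _ he hel (b1 k hk).1, T.pt _ _ _ _ _ he hel (b1 k hk).2, ?_⟩
    obtain ⟨c1, c2, c3⟩ := hAV k hk
    have d1 : -K * q ≤ V k * q := mul_le_mul_of_nonneg_right c1 hq.le
    have d2 : V k * q ≤ A k * q := mul_le_mul_of_nonneg_right c2 hq.le
    have d3 : A k * q ≤ K * q := mul_le_mul_of_nonneg_right c3 hq.le
    obtain ⟨ρ, Q', f1⟩ := (b1 k hk).1
    refine hnear l hl t (ht' l).1 k hk (f1.w0) f1.a1 (T.num _ (b3 k hk).2 ?_)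
      (T.num _ (b3 k hk).1 ?_)
    · rw [abs_le]
      constructor <;> linarith
    · rw [abs_le]
      constructor <;> linarith
  · have T := hT l hl
    have hel := hee.trans (heml l (by omega))
    have hζl := (hsm l hl).1
    refine ⟨T.pt _ _ _ _ _ he hel (b4 k hk).1, fun e he => ?_⟩
    obtain ⟨c1, c2⟩ := hV' k hk
    have d1 : -K * q ≤ V' k * q := mul_le_mul_of_nonneg_right c1 hq.le
    have d2 : V' k * q ≤ K * q := mul_le_mul_of_nonneg_right c2 hq.le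
    obtain ⟨ρ, Q', f1⟩ := (b4 k hk).1
    have hx : |t + V' k * q - g| ≤ ζ l := by
      rw [abs_le]
      constructor <;> linarith
    obtain ⟨d, hd, hd1⟩ := hnearc l hl t (ht' l).2 k hk (f1.w0) f1.a1
      (T.num _ (b4 k hk).2.2 hx) (T.num _ (b4 k hk).2.2 hx) e he
    exact ⟨d, hd, fun w' h1 h2 j hj => (hd1 w' w' h1 h2 h1 h2 le_rfl).2.1 j hj⟩

/-- **The record at almost every good window**, for all targets. -/
theorem PkB.winK_ae (H : PkB hn S P r P' Λ PB PQ) (hTop : TopS n) (hF : FZX (n - 1)) :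
    ∀ᵐ g : ℝ, ∀ o : Od n, g ∈ Gs P r P' Λ o → ∀ i, 1 ≤ i → i ≤ n - 1 →
      WinK hn S P r P' Λ PB o i g := by
  filter_upwards [H.toPkT.win3_ae hTop hF, H.sl_ae hTop hF] with g hW hsl o ho i hi1 hi
  obtain ⟨α, Q, c', F⟩ := H.toPk.fac hTop hF ho
  have hg0 := F.g0
  have hg1 := F.g1
  have hsl := hsl o ho
  obtain ⟨E, cE, hE, hroom, W⟩ := hW o ho
  have hth := tht_pos o.2
  have hT : ∀ l, ∃ (θ₂ e₂ Eb e' ζ : ℝ) (P₂ : List (Fin n) × Fin n → ℝ → ℝ → ℝ), l ≤ i →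
      TgtE hn S P r P' Λ o E cE g l θ₂ e₂ Eb e' ζ P₂ := by
    intro l
    rcases Nat.lt_or_ge l (n - 1) with hin | hin
    · -- a coordinate of the list
      obtain ⟨Eb, hEb⟩ : ∃ Eb, Eb = min E (tht o.2 * g / 4) := ⟨_, rfl⟩
      have hEb0 : 0 < Eb := by rw [hEb]; exact lt_min hE (by positivity)
      have hEb1 : Eb ≤ E := by rw [hEb]; exact min_le_left _ _
      have hEb2 : Eb ≤ tht o.2 * g / 4 := by rw [hEb]; exact min_le_right _ _
      have htg : 0 < tht o.2 * g := mul_pos hth hg0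
      refine ⟨tht o.2, tht o.2 * g / 2, Eb, Eb / (4 * (l + 1)), 1, P' o.2, fun hl =>
        ⟨fun _ => ⟨rfl, rfl⟩, hth, H.cht o.2, hEb0, hEb1, by linarith, by linarith,
          by positivity, one_pos, fun vs e S₀ a w he hee h => ?_,
          fun a w _ _ _ => (LvL_lt o hin a w).ge,
          fun x _ _ j hj => (LvL_lt o (by omega) x x).ge⟩⟩
      have h1 : 2 * e * (l + 1) < Eb := by
        rw [le_div_iff₀ (by positivity)] at hee
        linarith
      have hi0 : (0 : ℝ) ≤ l := Nat.cast_nonneg l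
      obtain ⟨ρ, sg, Q', h2⟩ := H.toPkT.coo h hin (E' := Eb) h1
      exact ⟨ρ, _, _, _, _, sg, Q', h2, le_rfl, by nlinarith⟩
    · -- the target
      by_cases hli : l ≤ i
      · have hin' : l = n - 1 := by omega
        obtain ⟨δ, hδ, hδl⟩ := fin_pos n (f := fun l => 1 - (LvL hn P P' o l g g + E))
          fun l hl => by linarith [hroom l (by omega)]
        obtain ⟨p, hp1, hp2⟩ := exists_rat_btwn (show E / g < (E + δ / 2) / g from
          div_lt_div_of_pos_right (by linarith) hg0)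
        rw [div_lt_iff₀ hg0] at hp1
        rw [lt_div_iff₀ hg0] at hp2
        have hp0 : (0 : ℝ) < p := by
          by_contra hcon
          have : (p : ℝ) * g ≤ 0 := mul_nonpos_of_nonpos_of_nonneg (not_lt.1 hcon) hg0.le
          linarith
        -- the scale at which the numbers of the list are small
        have hcont : ∀ᶠ x in 𝓝 g, ∀ l ∈ Finset.range (n - 1),
            LvL hn P P' o l x x + p * x < 1 := by
          rw [Finset.eventually_all]
          intro l hl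
          rw [Finset.mem_range] at hl
          have h1 : ContinuousAt (fun x => LvL hn P P' o l x x + p * x) g :=
            (hsl l (by omega)).2.1.1.continuousAt.add (by fun_prop)
          refine h1.eventually_lt_const ?_
          have := hδl l (by omega)
          linarith
        obtain ⟨ζ, hζ, hnum⟩ := Metric.eventually_nhds_iff.1 hcont
        refine ⟨p, (E + p * g) / 2, E, E, ζ / 2, PQ p, fun _ =>
          ⟨fun h => absurd h (by omega), hp0, H.thq p, hE, le_rfl, by linarith, by linarith,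
            hE, by positivity, fun vs e S₀ a w he hee h => ?_, fun a w h1 h2 h3 => ?_,
            fun x hx hxg j hj => ?_⟩⟩
        · obtain ⟨ρ, Q', h1⟩ := h
          rw [hin', lvL_last]
          exact ⟨ρ, _, _, _, _, _, Q', h1, le_rfl, hee⟩
        · rw [hin', lvL_last]
          exact H.tgt o p h1 h2 h3
        · have hj' : j < n - 1 := by omega
          have h1 := @hnum x (by rw [Real.dist_eq]; linarith) j (Finset.mem_range.2 hj')
          have h2 := LvL_lt (P := P) (P' := P') (hn := hn) o hj' x x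
          have h3 : LvL hn P P' o j x x = bet (P' o.2) (cc hn o.1.1) j x x := h2
          rw [h3] at h1 ⊢
          exact H.num hF hx (by exact_mod_cast hp0) hj' (by linarith)
      · exact ⟨0, 0, 0, 0, 0, fun _ _ _ => 0, fun h => absurd h hli⟩
  choose θ₂ e₂ Eb e' ζ P₂ hT using hT
  exact winK_aux H.toPkT hg0 hg1 W hi hT

end Pool.PKG
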