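import Pool.Agent.H3.D2G.C1e
import Pool.Agent.H3.D2G.WinK
import Pool.Agent.H56.ASM.Sk8
import Pool.Agent.H74.D2G.Sta

/-!
# The cells from class theorems

`RecQ`: the record of the windows near a good window, in class letters: path data, thresholds,
levels up to `ε q`, the kinds of the coordinates before the target, the numbers of a second
threshold structure at nearby rational points; `RecL`: the same for a coordinate of the list as a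
target. `WinK.recQ`: it exists near almost every good window, at all scales and places.
`CellQ n i Sl κ`: the class theorem. `cell_of_q`, `lCellA_of_q`: the cell `κ` from the class
theorems.
-/

set_option autoImplicit false

namespace Pool.PKG

open MeasureTheory Set Filter Topology
open Pool.Agent.H49.Ent Pool.Agent.H32.Dense Pool.STK Pool.KA Pool.KSAT Pool.K2S Pool.PB
open Pool.GEN Pool.S6C Pool.STAT Pool.CHT Pool.GRW Pool.ONE Pool.STA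
open Pool.LBT (LSys ThrOf)
open Pool.LEV (Law)
open Pool.TOP (TopS)
open Pool.STR (ThinAt SteepAt StaAt sta_of_pairs)
open Pool.ISO (PtD lvN WinD)

/-- The numbers of a kind in the box of radius `K q` around `t`. -/
def KdQ (k : Kd) (L T : ℝ → ℝ → ℝ) (s t K q ε : ℝ) : Prop :=
  match k with
  | .one => s = 1
  | .thin => 1 < s ∧ ∀ a w : ℝ, t - K * q ≤ w → w ≤ a → a ≤ t + K * q →
      L a w ≤ T w w + (a - w) + ε * q
  | .sta => 2 ≤ s ∧ ∀ a w : ℝ, t - K * q ≤ w → w ≤ a → a ≤ t + K * q → L a a ≤ L a w + ε * q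

/-- **The record of the windows for the coordinate** `l` **of the list as a target**, with an
exponent `Eb'` below the thresholds: the numbers of `P` at nearby points, the path data. -/
structure RecL {m : ℕ} (S : PCl m) (P : List (Fin m) × Fin m → ℝ → ℝ → ℝ) (θ : ℝ)
    (c : ℕ → Fin m) (l : ℕ) (L : ℕ → ℝ → ℝ → ℝ) (S₀ N : ℕ) (A V : ℕ → ℝ) (S₂ N' : ℕ)
    (V' : ℕ → ℝ) (Eb' e' K q t : ℝ) : Prop where
  Eb0 : 0 < Eb'
  Ebe : Eb' + 3 * K * q < e'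
  eθ : ∀ x : ℝ, |x - t| ≤ K * q → e' < θ * x
  room : ∀ j ≤ l, ∀ x : ℝ, |x - t| ≤ K * q → L j x x + Eb' + 3 * K * q < 1
  pt : ∀ k < N, PtI S P θ c l (bet P c l) S₂ Eb' (t + A k * q) (t + V k * q) ∧
    PtI S P θ c l (bet P c l) S₂ Eb' (t + V k * q) (t + V k * q)
  rat : ∀ k < N, ∀ e : ℝ, 0 < e → ∃ d : ℝ, 0 < d ∧ ∀ a' w' : ℝ, t + A k * q ≤ a' →
    a' ≤ t + A k * q + d → t + V k * q ≤ w' → w' ≤ t + V k * q + d → w' ≤ a' →
    bet P c l a' w' ≤ L l (t + A k * q) (t + V k * q) + e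
  rat3 : ∀ k < N, ∀ e : ℝ, 0 < e → ∃ d : ℝ, 0 < d ∧ ∀ a' w' : ℝ, t + A k * q ≤ a' →
    a' ≤ t + A k * q + d → t + V k * q ≤ w' → w' ≤ t + V k * q + d → w' ≤ a' →
    bet P c l a' w' ≤ L l (t + A k * q) (t + V k * q) + e ∧
    (∀ j ≤ l, bet P c j w' w' ≤ L j (t + V k * q) (t + V k * q) + e) ∧
    ∀ j ≤ l, bet P c j a' a' ≤ L j (t + A k * q) (t + A k * q) + e
  ptc : ∀ k < N', PtI S P θ c l (bet P c l) S₀ Eb' (t + V' k * q) (t + V' k * q)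
  ratc : ∀ k < N', ∀ e : ℝ, 0 < e → ∃ d : ℝ, 0 < d ∧ ∀ w' : ℝ, t + V' k * q ≤ w' →
    w' ≤ t + V' k * q + d → ∀ j ≤ l, bet P c j w' w' ≤
      L j (t + V' k * q) (t + V' k * q) + e

/-- **The record of the windows** `t + A k q`, `t + V k q`, `k < N`, of the target at the place `i`:
`Pt` is the law of the target, `L l` the levels (`lvN P c i Pt l`), `T l` the levels of the fattest
boxes, `Sl l` the slopes. The chain of balls: the windows `t + V' k q`, `k < N'`, with the constant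
`S₀`; it is chosen after the constant `S₂` of the pairs. -/
structure RecQ {m : ℕ} (S : PCl m) (P P₂ : List (Fin m) × Fin m → ℝ → ℝ → ℝ) (θ θ₂ : ℝ)
    (c : ℕ → Fin m) (i : ℕ) (Pt : ℝ → ℝ → ℝ) (L T : ℕ → ℝ → ℝ → ℝ) (Sl : ℕ → ℝ) (κ : ℕ → Kd)
    (S₀ N : ℕ) (A V : ℕ → ℝ) (S₂ N' : ℕ) (V' : ℕ → ℝ) (Eb e₂ K ε q t : ℝ) : Prop where
  ne : S.Ne
  thr : ThrOf (chsys m θ) S P
  th0 : 0 < θ
  thr₂ : ThrOf (chsys m θ₂) S P₂
  th₂0 : 0 < θ₂
  tmh : TmH S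
  inj : Set.InjOn c (Set.Iio (i + 1))
  law : Law Pt
  lv : ∀ l ≤ i, L l = lvN P c i Pt l
  lawL : ∀ l ≤ i, Law (L l)
  Eb0 : 0 < Eb
  q0 : 0 < q
  t0 : 0 < t - K * q
  t1 : t + K * q < 1
  pt : ∀ k < N, PtI S P θ c i Pt S₂ Eb (t + A k * q) (t + V k * q) ∧
    PtI S P θ c i Pt S₂ Eb (t + V k * q) (t + V k * q)
  TL : ∀ k < N, ∀ l ≤ i, T l (t + A k * q) (t + V k * q) ≤ L l (t + A k * q) (t + V k * q) ∧
    T l (t + V k * q) (t + V k * q) ≤ L l (t + V k * q) (t + V k * q)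
  dL : ∀ l ≤ i, ∀ x : ℝ, |x - t| ≤ K * q → |L l x x - L l t t - Sl l * (x - t)| ≤ ε * q
  dT : ∀ l ≤ i, ∀ x : ℝ, |x - t| ≤ K * q → |T l x x - L l t t - Sl l * (x - t)| ≤ ε * q
  room : ∀ l ≤ i, ∀ x : ℝ, |x - t| ≤ K * q → L l x x + Eb + 3 * K * q < 1
  e₂θ : ∀ x : ℝ, |x - t| ≤ K * q → e₂ < θ₂ * x
  Ebe : Eb + 3 * K * q < e₂
  kd : ∀ l < i, KdQ (κ l) (L l) (T l) (Sl l) t K q ε
  s2 : 2 < Sl i
  stp : ∀ a w : ℝ, t - K * q ≤ w → w ≤ a → a ≤ t + K * q → T i w w + 2 * (a - w) ≤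
    T i a w + ε * q
  rat : ∀ k < N, ∀ e : ℝ, 0 < e → ∃ d : ℝ, 0 < d ∧ ∀ a' w' : ℝ, t + A k * q ≤ a' →
    a' ≤ t + A k * q + d → t + V k * q ≤ w' → w' ≤ t + V k * q + d → w' ≤ a' →
    bet P₂ c i a' w' ≤ L i (t + A k * q) (t + V k * q) + e ∧
    (∀ l ≤ i, bet P₂ c l w' w' ≤ L l (t + V k * q) (t + V k * q) + e) ∧
    ∀ l ≤ i, bet P₂ c l a' a' ≤ L l (t + A k * q) (t + A k * q) + e
  ptc : ∀ k < N', PtI S P θ c i Pt S₀ Eb (t + V' k * q) (t + V' k * q)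
  TLc : ∀ k < N', ∀ l ≤ i,
    T l (t + V' k * q) (t + V' k * q) ≤ L l (t + V' k * q) (t + V' k * q)
  ratc : ∀ k < N', ∀ e : ℝ, 0 < e → ∃ d : ℝ, 0 < d ∧ ∀ w' : ℝ, t + V' k * q ≤ w' →
    w' ≤ t + V' k * q + d → ∀ l ≤ i, bet P₂ c l w' w' ≤
      L l (t + V' k * q) (t + V' k * q) + e
  lst : ∀ l, 1 ≤ l → l < i → ∃ Eb' e' : ℝ, RecL S P θ c l L S₀ N A V S₂ N' V' Eb' e' K q t
  clx : ∃ (al : ℝ) (g₀ : ℝ → ℝ) (s : Fin m → ℝ) (d : ℕ → ℝ) (e : ℝ) (K₀ : ℕ) (N₁ : ℚ → ℚ → ℝ),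
    0 < al ∧ (∀ ε : ℝ, 0 < ε → 0 < g₀ ε) ∧ ClX s d al g₀ e K₀ N₁ S

/-- **The class theorem of a cell**, slopes `Sl`, kinds `κ`, target at the place `i`. -/
def CellQ (n i : ℕ) (Sl : ℕ → ℝ) (κ : ℕ → Kd) : Prop :=
  ∀ del : ℝ, 0 < del → ∀ S₀ : ℕ, 1 ≤ S₀ → ∃ (K : ℝ) (N : ℕ) (A V : ℕ → ℝ), 1 ≤ K ∧
    (∀ k < N, -K ≤ V k ∧ V k ≤ A k ∧ A k ≤ K) ∧
    ∀ S₂ : ℕ, S₀ ≤ S₂ → ∃ (N' : ℕ) (V' : ℕ → ℝ), (∀ k < N', -K ≤ V' k ∧ V' k ≤ K) ∧
      ∃ ε : ℝ, 0 < ε ∧ ∀ (S : PCl n)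
      (P P₂ : List (Fin n) × Fin n → ℝ → ℝ → ℝ) (θ θ₂ : ℝ) (c : ℕ → Fin n) (Pt : ℝ → ℝ → ℝ)
      (L T : ℕ → ℝ → ℝ → ℝ) (Eb e₂ q t : ℝ),
      RecQ S P P₂ θ θ₂ c i Pt L T Sl κ S₀ N A V S₂ N' V' Eb e₂ K ε q t →
      L i (t + q) (t + q) ≤ L i (t + q) t + del * q

section

variable {m : ℕ} {S : PCl m} {P P₂ : List (Fin m) × Fin m → ℝ → ℝ → ℝ} {θ θ₂ : ℝ}
    {c : ℕ → Fin m} {i : ℕ} {Pt : ℝ → ℝ → ℝ} {L T : ℕ → ℝ → ℝ → ℝ} {Sl : ℕ → ℝ} {κ : ℕ → Kd}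
    {S₀ N : ℕ} {A V : ℕ → ℝ} {S₂ N' : ℕ} {V' : ℕ → ℝ} {Eb e₂ K ε q t : ℝ}
    (R : RecQ S P P₂ θ θ₂ c i Pt L T Sl κ S₀ N A V S₂ N' V' Eb e₂ K ε q t)
include R

theorem RecQ.tmc : TmC S 6 := by
  obtain ⟨al, g₀, s, d, e, K₀, N, -, -, h⟩ := R.clx
  exact Pool.GEN.N83.clx_tmc h

theorem RecQ.pos (τ : ℝ) (J : ℕ) (F : Fam m J) (A : F.Ω → Prop) (h : S.St τ J F A) :
    0 < Pe F.p A := by
  obtain ⟨al, g₀, s, d, e, K₀, N, -, -, hC⟩ := R.clx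
  exact hC.pos τ J F A h

/-- The families of the class are rounded. -/
theorem RecQ.gd (τ : ℝ) (J : ℕ) (F : Fam m J) (A : F.Ω → Prop) (h : S.St τ J F A) : Gd F := by
  obtain ⟨al, g₀, s, d, e, K₀, N, -, -, hC⟩ := R.clx
  exact (hC.mem τ J F A h).2.2.2.2.1

/-- The side information has no atoms. -/
theorem RecQ.zc (τ : ℝ) (J : ℕ) (F : Fam m J) (A : F.Ω → Prop) (h : S.St τ J F A) :
    Zc F := by
  obtain ⟨al, g₀, s, d, e, K₀, N, -, -, hC⟩ := R.clx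
  exact (hC.mem τ J F A h).2.2.2.2.2.2

end

/-- The data of a window from the record. -/
theorem RecQ.winD {m : ℕ} {S : PCl m} {P P₂ : List (Fin m) × Fin m → ℝ → ℝ → ℝ} {θ θ₂ : ℝ}
    {c : ℕ → Fin m} {i : ℕ} {Pt : ℝ → ℝ → ℝ} {L T : ℕ → ℝ → ℝ → ℝ} {Sl : ℕ → ℝ} {κ : ℕ → Kd}
    {S₀ N : ℕ} {A V : ℕ → ℝ} {S₂ N' : ℕ} {V' : ℕ → ℝ} {Eb e₂ K ε q t : ℝ}
    (R : RecQ S P P₂ θ θ₂ c i Pt L T Sl κ S₀ N A V S₂ N' V' Eb e₂ K ε q t) {k : ℕ} (hk : k < N)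
    (hVK : -K ≤ V k) (hAV : V k < A k) (hAK : A k ≤ K) {ε' : ℝ} (hε' : 3 * ε * q ≤ ε')
    (hε : 0 ≤ ε) {Rg : ℕ → Prop} (hR : ∀ l < i, Rg l → κ l = .one ∨ κ l = .thin) :
    WinD S P θ c i Pt (t + A k * q) (t + V k * q) S₂ Eb ε' Rg := by
  have hq := R.q0
  have hVA : V k * q < A k * q := mul_lt_mul_of_pos_right hAV hq
  have hV1 : -(K * q) ≤ V k * q := by
    have := mul_le_mul_of_nonneg_right hVK hq.le
    linarith
  have hA1 : A k * q ≤ K * q := mul_le_mul_of_nonneg_right hAK hq.le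
  have hεq : 0 ≤ ε * q := mul_nonneg hε hq.le
  have hbx : |t + V k * q - t| ≤ K * q := by
    rw [abs_le]
    constructor <;> linarith
  have hbx' : |t + A k * q - t| ≤ K * q := by
    rw [abs_le]
    constructor <;> linarith
  have h3 : 3 * (ε * q) ≤ ε' := by linarith
  refine winD_of (by linarith) (R.pt k hk).1 (R.pt k hk).2 (by linarith) (fun l hl hRl => ?_)
    (fun l hl => ?_)
  · have e1 : bet P c l = L l := by
      rw [R.lv l hl.le]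
      funext a w
      unfold lvN
      rw [if_pos hl]
    rw [e1]
    have h4 := R.kd l hl
    have h5 := abs_le.1 (R.dL l hl.le _ hbx)
    have h6 := abs_le.1 (R.dL l hl.le _ hbx')
    rcases hR l hl hRl with h | h
    · rw [h] at h4
      have h7 : Sl l = 1 := h4
      rw [h7] at h5 h6
      have h8 := (R.lawL l hl.le).mono_w (t + A k * q) (t + V k * q) (t + A k * q)
        (by linarith [R.t0]) (by linarith) le_rfl (by linarith [R.t1])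
      linarith
    · rw [h] at h4
      have h8 := h4.2 (t + A k * q) (t + V k * q) (by linarith) (by linarith) (by linarith)
      have h9 := abs_le.1 (R.dT l hl.le _ hbx)
      linarith
  · rw [← R.lv l hl]
    have := R.room l hl _ hbx
    linarith

variable {n : ℕ} {hn : 2 ≤ n} {S : PCl n} {P : ℝ → ℝ → ℝ} {r : ℝ → ℝ}
  {P' : ℕ → List (Fin n) × Fin n → ℝ → ℝ → ℝ} {Λ : Finset (Fin n) → Fin n → ℝ → ℝ → ℝ}
  {PB : ℕ → List (Fin n) × Fin n → ℝ → ℝ → ℝ} {PQ : ℚ → List (Fin n) × Fin n → ℝ → ℝ → ℝ}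

/-- **The record near a good window.** -/
theorem WinK.recQ (H : PkT hn S P r P' Λ PB) {o : Od n} {g : ℝ} {i : ℕ} (hi1 : 1 ≤ i)
    (hi : i ≤ n - 1) (W : WinK hn S P r P' Λ PB o i g) {κ : ℕ → Kd}
    (hκ : ∀ l < i, KdAt hn P P' PB o l g (κ l)) (h2 : 2 < SlL hn P P' o g i)
    (hst : SteepAt 2 (LvT hn PB o i) g)
    (hSl : ∀ l ≤ i, SlL hn P P' o g l = deriv (fun a => LvL hn P P' o l a a) g) :
    ∃ S₀ : ℕ, 1 ≤ S₀ ∧ ∀ (K₀ K : ℝ) (N : ℕ) (A V : ℕ → ℝ), 1 ≤ K → K ≤ K₀ →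
      (∀ k < N, -K ≤ V k ∧ V k ≤ A k ∧ A k ≤ K) →
      ∀ th : ℝ, 0 < th → ∃ S₂ : ℕ, S₀ ≤ S₂ ∧ ∀ (N' : ℕ) (V' : ℕ → ℝ),
        (∀ k < N', -K ≤ V' k ∧ V' k ≤ K) → ∀ ε : ℝ, 0 < ε → ∃ q₁ : ℝ, 0 < q₁ ∧
        ∀ q u : ℝ, 0 < q → q < q₁ → |u - g| ≤ K₀ * q → ∃ (P₂ : List (Fin n) × Fin n → ℝ → ℝ → ℝ)
          (θ₂ Eb e₂ t : ℝ), u ≤ t ∧ t ≤ u + th * q ∧
          RecQ S (P' o.2) P₂ (tht o.2) θ₂ (cc hn o.1.1) i (LvL hn P P' o i) (LvL hn P P' o)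
            (LvT hn PB o) (SlL hn P P' o g) κ S₀ N A V S₂ N' V' Eb e₂ K ε q t := by
  obtain ⟨θ₂, e₂, Eb, P₂, S₀, hT, hL, hS₀, W⟩ := W
  obtain ⟨hθ₂, hEb, hP₂⟩ := hT i hi1 le_rfl
  refine ⟨S₀, hS₀, ?_⟩
  intro K₀ K N A V hK1 hKK hAV th hth
  have hK0 : 0 < K := by linarith
  obtain ⟨S₁, hS₁, W⟩ := W (K₀ + 1) N A V (by linarith) (fun k hk => by
    obtain ⟨h1, h2, h3⟩ := hAV k hk
    exact ⟨by linarith, h2, by linarith⟩) (min th K₀) (lt_min hth (by linarith))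
  refine ⟨max S₀ S₁, le_max_left _ _, fun N' V' hV' ε hε => ?_⟩
  obtain ⟨q₁, hq₁, W⟩ := W N' V' (fun k hk => by
    obtain ⟨h1, h2⟩ := hV' k hk
    exact ⟨by linarith, by linarith⟩) (ε / 4) (by linarith)
  refine ⟨q₁, hq₁, fun q u hq hq' hu => ?_⟩
  have eq1 : 3 * (K₀ + 1) * q = 3 * (K₀ * q) + 3 * q := by ring
  have eq2 : (K₀ + 1) * q = K₀ * q + q := by ring
  have eq3 : 6 * (K₀ + 1) * q = 6 * (K₀ * q) + 6 * q := by ring
  obtain ⟨a1, a2, hnb, hls, W⟩ := W q u hq hq' (by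
    rw [eq2]
    linarith)
  rw [eq1] at a1 a2
  have hls' : ∀ l, 1 ≤ l → l ≤ i → e₂ l < θ₂ l * (g - (3 * (K₀ * q) + 3 * q)) ∧
      Eb l + (3 * (K₀ * q) + 3 * q) < e₂ l ∧ ∀ j ≤ l, ∀ x : ℝ,
        |x - g| ≤ 3 * (K₀ * q) + 3 * q → LvL hn P P' o j x x + Eb l + (6 * (K₀ * q) + 6 * q) <
          1 := by
    intro l h1 h2
    have := hls l h1 h2
    rwa [eq1, eq3] at this
  obtain ⟨t, -, ht1, ht2, W, Wc⟩ := W ∅ measure_empty
  have hKq : K * q ≤ K₀ * q := mul_le_mul_of_nonneg_right hKK hq.le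
  have hKq0 : 0 < K * q := mul_pos hK0 hq
  have m1 : min th K₀ * q ≤ th * q := mul_le_mul_of_nonneg_right (min_le_left _ _) hq.le
  have m2 : min th K₀ * q ≤ K₀ * q := mul_le_mul_of_nonneg_right (min_le_right _ _) hq.le
  have hu' := abs_le.1 hu
  have htg : |t - g| ≤ 2 * (K₀ * q) := by
    rw [abs_le]
    constructor <;> linarith
  have htg' := abs_le.1 htg
  have hbx : ∀ x : ℝ, |x - t| ≤ K * q → |x - g| ≤ 3 * (K₀ * q) + 3 * q := fun x hx => by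
    have := abs_le.1 hx
    rw [abs_le]
    constructor <;> linarith
  have hbx2 : ∀ x : ℝ, |x - t| ≤ K * q → |x - g| ≤ 3 * (K₀ + 1) * q := fun x hx => by
    rw [eq1]
    exact hbx x hx
  have hεq : 0 < ε * q := mul_pos hε hq
  have htt : |t - t| ≤ K * q := by
    rw [sub_self, abs_zero]
    exact hKq0.le
  refine ⟨P₂ i, θ₂ i, Eb i, e₂ i, t, ht1, by linarith, H.toPk.ne, H.cht o.2, tht_pos _, hP₂, hθ₂,
    H.toPk.tmh, (cc_inj hn o.1.1).mono fun x hx => by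
      rw [Set.mem_Iio] at hx ⊢
      omega, H.lawL o i, fun l hl => (lvN_lvL o hi hl).symm, fun l _ => H.lawL o l, hEb, hq,
    by linarith, by linarith, fun k hk => ?_, fun k hk l hl => ?_, fun l hl x hx => ?_,
    fun l hl x hx => ?_, fun l hl x hx => ?_, fun x hx => ?_, by linarith [(hls' i hi1 le_rfl).2.1],
    fun l hl => ?_, h2,
    fun a w h3 h4 h5 => ?_, fun k hk => ((W k hk).2.2 i hi1 le_rfl).2.2,
    fun k hk => ((Wc k hk).2.2 i hi1 le_rfl).1,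
    fun k hk l hl => (Wc k hk).1 l (by omega), fun k hk => ((Wc k hk).2.2 i hi1 le_rfl).2,
    fun l hl1 hl => ⟨Eb l, e₂ l, ?_⟩, H.toPk.cl⟩
  · exact ⟨((W k hk).2.2 i hi1 le_rfl).1.mono (le_max_right _ _),
      ((W k hk).2.2 i hi1 le_rfl).2.1.mono (le_max_left _ _)⟩
  · exact (W k hk).1 l (by omega)
  · have h3 := abs_le.1 (hnb.dL l (by omega) x (hbx2 x hx))
    have h4 := abs_le.1 (hnb.dL l (by omega) t (hbx2 t htt))
    rw [abs_le]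
    constructor <;> linarith
  · have h3 := abs_le.1 (hnb.dT l (by omega) x (hbx2 x hx))
    have h4 := abs_le.1 (hnb.dL l (by omega) t (hbx2 t htt))
    rw [abs_le]
    constructor <;> linarith
  · have h3 := (hls' i hi1 le_rfl).2.2 l hl x (hbx x hx)
    linarith
  · have h3 := abs_le.1 hx
    exact (hls' i hi1 le_rfl).1.trans_le (mul_le_mul_of_nonneg_left (by linarith) hθ₂.le)
  · have h3 := hκ l hl
    have h4 := hSl l hl.le
    unfold KdQ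
    cases h5 : κ l with
    | one =>
      rw [h5] at h3
      rw [h4]
      exact h3
    | thin =>
      rw [h5] at h3
      refine ⟨by rw [h4]; exact h3.1, fun a w h6 h7 h8 => ?_⟩
      have := hnb.thin l (by omega) h3.2 a w (by linarith) h7 (by linarith)
      linarith
    | sta =>
      rw [h5] at h3
      refine ⟨by rw [h4]; exact h3.1, fun a w h6 h7 h8 => ?_⟩
      have := hnb.sta l (by omega) h3.2 a w (by linarith) h7 (by linarith)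
      linarith
  · have := hnb.stp i hi hst a w (by linarith) h4 (by linarith)
    linarith
  · -- the list
    obtain ⟨e1, e2⟩ := hL l hl1 hl
    obtain ⟨-, hEl, -⟩ := hT l hl1 hl.le
    have e3 : LvL hn P P' o l = bet (P' o.2) (cc hn o.1.1) l := by
      funext a w
      exact LvL_lt o (by omega) a w
    obtain ⟨b1, b2, b3⟩ := hls' l hl1 hl.le
    rw [e2] at b1
    have hW : ∀ k < N, _ := fun k hk => (W k hk).2.2 l hl1 hl.le
    have hWc : ∀ k < N', _ := fun k hk => (Wc k hk).2.2 l hl1 hl.le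
    rw [e1] at hW hWc
    refine ⟨hEl, by linarith, fun x hx => ?_, fun j hj x hx => ?_, fun k hk => ?_,
      fun k hk e he => ?_, fun k hk => (hW k hk).2.2, fun k hk => ?_, fun k hk => (hWc k hk).2⟩
    · have h3 := abs_le.1 hx
      exact b1.trans_le (mul_le_mul_of_nonneg_left (by linarith) (tht_pos _).le)
    · have h3 := b3 j hj x (hbx x hx)
      linarith
    · rw [← e3]
      exact ⟨(hW k hk).1.mono (le_max_right _ _), (hW k hk).2.1.mono (le_max_left _ _)⟩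
    · obtain ⟨d, hd, h3⟩ := (hW k hk).2.2 e he
      exact ⟨d, hd, fun a' w' k1 k2 k3 k4 k5 => (h3 a' w' k1 k2 k3 k4 k5).1⟩
    · rw [← e3]
      exact (hWc k hk).1

/-- **A cell from its class theorem.** -/
theorem cell_of_q (H : PkT hn S P r P' Λ PB) (hTop : TopS n) (hF : FZX (n - 1)) (h : ℝ)
    {κ : List Kd} (hκ1 : 1 ≤ κ.length) (hκn : κ.length ≤ n - 1)
    (hcls : ∀ Sl : ℕ → ℝ, (∀ (l : ℕ) (hl : l < κ.length), 
      (κ[l] = .one → Sl l = 1) ∧ (κ[l] = .thin → 1 < Sl l) ∧ (κ[l] = .sta → 2 ≤ Sl l)) →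
      2 < Sl κ.length → CellQ n κ.length Sl (fun l => κ.getD l .one)) :
    Cell H hTop hF h κ := by
  intro o
  obtain ⟨S', PQ, -, HB⟩ := pkB_ex H
  filter_upwards [HB.winK_ae hTop hF, H.dia_all H.pble hTop hF] with g h1 hdia R _ hk hs hst
  have ho := R.rwd.mem
  obtain ⟨α, Q, c', F⟩ := H.toPk.fac hTop hF ho
  have hg0 := F.g0
  have hg1 := F.g1
  have W := h1 o ho κ.length hκ1 hκn
  have hget : ∀ (l : ℕ) (hl : l < κ.length), κ.getD l .one = κ[l] := fun l hl => by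
    rw [List.getD_eq_getElem _ _ hl]
  have hSl : ∀ l ≤ κ.length, SlL hn P P' o g l = deriv (fun a => LvL hn P P' o l a a) g :=
    fun l _ => rfl
  refine sta_of_pairs (H.lawL o κ.length) hg0 hg1 (hdia o ho κ.length hκn).1
    fun K₀ del hK₀ hdel => ?_
  obtain ⟨S₀, hS₀, W⟩ := W.recQ HB.toPkT hκ1 hκn (κ := fun l => κ.getD l .one) (fun l hl => by
    rw [hget l hl]
    exact hk l hl) hs hst hSl
  obtain ⟨K, N, A, V, hK, hAV, hc⟩ := hcls (SlL hn P P' o g) (fun l hl => by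
    have h3 := hk l hl
    refine ⟨fun h4 => ?_, fun h4 => ?_, fun h4 => ?_⟩
    · rw [h4] at h3
      exact h3
    · rw [h4] at h3
      exact h3.1
    · rw [h4] at h3
      exact h3.1) hs del hdel S₀ hS₀
  obtain ⟨S₂, hS₂, W⟩ := W (max K₀ K) K N A V hK (le_max_right _ _) hAV del hdel
  obtain ⟨N', V', hV', ε, hε, hc⟩ := hc S₂ hS₂
  obtain ⟨q₁, hq₁, W⟩ := W N' V' hV' ε hε
  refine ⟨q₁, hq₁, fun q u hq hq' hu => ?_⟩
  obtain ⟨P₂, θ₂, Eb, e₂, t, ht1, ht2, hR⟩ := W q u hq hq' (hu.trans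
    (mul_le_mul_of_nonneg_right (le_max_left _ _) hq.le))
  exact ⟨t, ht1, ht2, hc _ _ _ _ _ _ _ _ _ _ _ _ _ hR⟩

end Pool.PKG

namespace Pool.ASM

open Pool.PKG

/-- **A cell for all classes from its class theorem.** -/
theorem lCellA_of_q {n : ℕ} {κ : List Kd} (hκ1 : 1 ≤ κ.length) (hκn : κ.length ≤ n - 1)
    (hcls : ∀ Sl : ℕ → ℝ, (∀ (l : ℕ) (hl : l < κ.length), 
      (κ[l] = .one → Sl l = 1) ∧ (κ[l] = .thin → 1 < Sl l) ∧ (κ[l] = .sta → 2 ≤ Sl l)) →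
      2 < Sl κ.length → CellQ n κ.length Sl (fun l => κ.getD l .one)) : LCellA n κ := fun _ =>
  Tol.of_all fun _ _ _ => fun _ _ hF hTop _ _ _ _ _ _ _ _ _ _ H =>
    cell_of_q H hTop hF _ hκ1 hκn hcls

end Pool.ASM
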