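import Pool.Agent.H71.CDX.Cdm
import Pool.Agent.H3.D2G.Chn1
import Pool.Agent.H3.D2G.RecJ
import Pool.Agent.H21.KEC.Cov
import Pool.Agent.H72.KE.Lbs

/-!
# The numbers of the places one and two at the good windows

`lev_one`, `lev_one0`: the level of the place one is the number of the unit ball. `lev_two`: the
level of the place two is the number of the unit ball, at the good windows where the numbers are
continuous and which have later windows with a larger gap. `afG_big`: affine labels at the windows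
of a dense part of `G` give affine labels at all windows of `G`.
-/

set_option autoImplicit false

namespace Pool.PKG

open Finset
open Pool.Agent.H49.Ent Pool.Agent.H32.Dense Pool.STK Pool.KA Pool.KSAT Pool.K2S Pool.PB Pool.GEN
open Pool.S6C Pool.GRW Pool.RCD
open Pool.TOP (TopS)
open Pool.CHT
open Pool.OWN72 (epo cc_epo cc_inj3 gs_exa gs_vs vse_one vs_img img_one img_two img Ctw Dsc
  gs_act)
open Pool.AVG96 (SlpG)
open Pool.CDX (AfG AffL)

variable {n : ℕ} {hn : 2 ≤ n} {S : PCl n} {P : ℝ → ℝ → ℝ} {rr : ℝ → ℝ}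
  {P' : ℕ → List (Fin n) × Fin n → ℝ → ℝ → ℝ} {Λ : Finset (Fin n) → Fin n → ℝ → ℝ → ℝ}

/-- The level of the place one. -/
theorem lev_one (H : Pk hn S P rr P' Λ) (hTop : TopS n) (hF : FZX (n - 1)) {o : Od n} {w : ℝ}
    (hw : w ∈ Gs P rr P' Λ o) (h1 : 1 < n - 1) :
    LvL hn P P' o 1 w w = Λ {cc hn o.1.1 0} (cc hn o.1.1 1) w w := by
  have hw0 : 0 < w := hw.1.1.1
  have hw1 : w < 1 := hw.1.1.2.1
  rw [gs_lvl H hTop hF hw h1, vs_img o w h1, vse_one H o hw0.le hw1, img_one]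

/-- The level of the place one is the number of the unit ball. -/
theorem lev_one0 (H : Pk hn S P rr P' Λ) (hTop : TopS n) (hF : FZX (n - 1)) {o : Od n} {w : ℝ}
    (hw : w ∈ Gs P rr P' Λ o) (h1 : 1 < n - 1) :
    LvL hn P P' o 1 w w = Λ {cc hn o.1.1 0} (cc hn o.1.1 1) w 0 := by
  have hw0 : 0 < w := hw.1.1.1
  have hw1 : w < 1 := hw.1.1.2.1
  refine le_antisymm ?_ ?_
  · have hcont : ContinuousAt (fun v => vs Λ (epo hn o) v 2) w := by
      have h3 := hw.1.1.2.2.2 (⟨1, h1⟩ : Fin (n - 1)) (epo hn o ⟨1, h1⟩)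
      refine h3.congr (Filter.Eventually.of_forall fun v => ?_)
      exact (vs_succ Λ (epo hn o) v ⟨1, h1⟩).symm
    rw [gs_lvl H hTop hF hw h1]
    refine le_of_forall_pos_le_add fun ε hε => ?_
    obtain ⟨W', hW0, hW1, hW2⟩ := Pool.PRV.lc_of hw0 hcont ε hε
    refine hW2.trans (add_le_add ?_ le_rfl)
    have h3 : vs Λ (epo hn o) W' 2 = Λ {cc hn o.1.1 0} (cc hn o.1.1 1) W' W' := by
      have := vs_img (Λ := Λ) (hn := hn) o W' (l := 1) h1
      rw [vse_one H o hW0 (hW1.trans hw1), img_one] at this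
      exact this
    rw [h3]
    exact Pool.MIC6.ng_diag H.ne (by norm_num) H.tmc H.lam (gs_act H o) hW0 hW1
  · rw [lev_one H hTop hF hw h1]
    exact H.lam.mono _ _ _ _ _ _ _ (Finset.Subset.refl _) le_rfl hw0.le

/-- **The level of the place two** is the number of the unit ball. -/
theorem lev_two (H : Pk hn S P rr P' Λ) (hTop : TopS n) (hF : FZX (n - 1)) {o : Od n} {w : ℝ}
    (hw : w ∈ Gs P rr P' Λ o) (h2 : 2 < n - 1) (hC : w ∈ Ctw Λ)
    (hlo : w < LvL hn P P' o 1 w w) {a₀ a : ℝ} (ha0 : 0 ≤ a₀) (ha : a₀ < a)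
    (hg : LvL hn P P' o 1 w w - w < Λ {cc hn o.1.1 0} (cc hn o.1.1 1) a₀ a₀ - a) :
    LvL hn P P' o 2 w w = Λ {cc hn o.1.1 0, cc hn o.1.1 1} (cc hn o.1.1 2) w w := by
  have hw0 : 0 < w := hw.1.1.1
  have hw1 : w < 1 := hw.1.1.2.1
  have h1 : 1 < n - 1 := by omega
  have e1 := lev_one0 H hTop hF hw h1
  have hlt := lev_lt H hTop hF hw h1
  rw [e1] at hlo hg hlt
  have e2 : ∀ v : ℝ, vs Λ (epo hn o) v 3 =
      Λ {cc hn o.1.1 0, cc hn o.1.1 1} (cc hn o.1.1 2) v (vs Λ (epo hn o) v 2) := fun v => by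
    have := vs_img (Λ := Λ) (hn := hn) o v (l := 2) h2
    rwa [img_two] at this
  have hcont : ContinuousAt (fun v => vs Λ (epo hn o) v 3) w := by
    have h3 := hw.1.1.2.2.2 (⟨2, h2⟩ : Fin (n - 1)) (epo hn o ⟨2, h2⟩)
    refine h3.congr (Filter.Eventually.of_forall fun v => ?_)
    exact (vs_succ Λ (epo hn o) v ⟨2, h2⟩).symm
  rw [gs_lvl H hTop hF hw h2]
  refine le_antisymm ?_ ?_
  · refine le_of_forall_pos_le_add fun ε hε => ?_
    obtain ⟨W', hW0, hW1, hW2⟩ := Pool.PRV.lc_of hw0 hcont ε hε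
    refine hW2.trans (add_le_add ?_ le_rfl)
    rw [e2 W']
    refine (Pool.MIC6.ng_id2 H.ne (by norm_num) H.tmc H.lam (fun h => by
      have := cc_inj' hn o.1.1 (i := 0) (j := 1) (by omega) (by omega) h
      omega) (gs_act H o) hW1 hw0 (hC _ _) hlo hlt ha0 ha hg).trans ?_
    exact H.lam.mono _ _ _ _ _ _ _ (Finset.Subset.refl _) le_rfl hw0.le
  · show Λ {cc hn o.1.1 0, cc hn o.1.1 1} (cc hn o.1.1 2) w w ≤ vs Λ (epo hn o) w 3
    rw [e2 w]
    exact H.lam.mono _ _ _ _ _ _ _ (Finset.Subset.refl _) le_rfl (le_vs H.lam _ hw1.le _)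

/-- **Affine labels at the windows of a dense part** of `G` give affine labels at all windows. -/
theorem afG_big {m : ℕ} {S : PCl m} {c : ℕ → Fin m} {sn : ℝ → ℕ → ℝ} {G G' : Set ℝ} {g : ℝ}
    {i r₀ r : ℕ} {Sl : ℕ → ℝ} (h : AfG S c sn G' g i) (hS : SlpG sn r₀ r G g Sl)
    (h0 : r₀ ≤ i) (hi : i ≤ r) (hsub : G' ⊆ G)
    (hgap : ∀ η : ℝ, 0 < η → ∃ ρ : ℝ, 0 < ρ ∧ ∀ t : ℝ, 0 < t → t < ρ → ∀ x : ℝ, g - t ≤ x →
      x ≤ g + t → ∃ u ∈ G', x - η * t ≤ u ∧ u ≤ x) : AfG S c sn G g i := by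
  intro κ hκ
  have hS0 := hS.nn i h0 hi
  obtain ⟨η, hη⟩ : ∃ η : ℝ, η = min (κ / (4 * (Sl i + 1))) 1 := ⟨_, rfl⟩
  have k0 : 0 < η := by rw [hη]; positivity
  have k1 : η ≤ 1 := by rw [hη]; exact min_le_right _ _
  have k2 : Sl i * η ≤ κ / 4 := by
    have h1 : η ≤ κ / (4 * (Sl i + 1)) := by rw [hη]; exact min_le_left _ _
    calc Sl i * η ≤ (Sl i + 1) * η := mul_le_mul_of_nonneg_right (by linarith) k0.le
      _ ≤ (Sl i + 1) * (κ / (4 * (Sl i + 1))) := mul_le_mul_of_nonneg_left h1 (by linarith)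
      _ = κ / 4 := by field_simp
  obtain ⟨ρ₁, hρ₁, H1⟩ := hgap η k0
  obtain ⟨ρ₂, hρ₂, H2⟩ := hS.sl i h0 hi (κ / 8) (by positivity)
  obtain ⟨ρ₃, hρ₃, H3⟩ := h (κ / 8) (by positivity)
  refine ⟨min ρ₁ (min (ρ₂ / 2) (ρ₃ / 2)), by positivity, fun R hR hRρ w hw w1 w2 => ?_⟩
  have r1 : R < ρ₁ := hRρ.trans_le (min_le_left _ _)
  have r2 : R < ρ₂ / 2 := hRρ.trans_le ((min_le_right _ _).trans (min_le_left _ _))
  have r3 : R < ρ₃ / 2 := hRρ.trans_le ((min_le_right _ _).trans (min_le_right _ _))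
  obtain ⟨u, hu, u1, u2⟩ := H1 R hR r1 w w1 w2
  have hηR : η * R ≤ 1 * R := mul_le_mul_of_nonneg_right k1 hR.le
  obtain ⟨b, p, b1, b2, b3⟩ := H3 (2 * R) (by linarith) (by linarith) u hu (by linarith)
    (by linarith)
  refine ⟨b, p, b1.trans u2, ?_, b3⟩
  have h4 := (abs_le.1 (H2 (2 * R) (by linarith) (by linarith) u (hsub hu) w hw (by linarith) u2
    (by linarith))).2
  have h5 : Sl i * (w - u) ≤ Sl i * (η * R) := mul_le_mul_of_nonneg_left (by linarith) hS0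
  have h6 : Sl i * (η * R) = Sl i * η * R := by ring
  have h7 := mul_le_mul_of_nonneg_right k2 hR.le
  have h8 := mul_pos hκ hR
  linarith

/-- A set which is dense near a point has small gaps. -/
theorem gap_dsc {G : Set ℝ} {g : ℝ} (h : Dsc G g) : ∀ η : ℝ, 0 < η → ∃ ρ : ℝ, 0 < ρ ∧
    ∀ t : ℝ, 0 < t → t < ρ → ∀ x : ℝ, g - t ≤ x → x ≤ g + t →
      ∃ u ∈ G, x - η * t ≤ u ∧ u ≤ x := by
  intro η hη
  obtain ⟨η', hη'⟩ : ∃ η', η' = min η 1 := ⟨_, rfl⟩
  have e0 : 0 < η' := by rw [hη']; exact lt_min hη one_pos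
  have e1 : η' ≤ 1 := by rw [hη']; exact min_le_right _ _
  have e2 : η' ≤ η := by rw [hη']; exact min_le_left _ _
  obtain ⟨r₀, hr₀, H⟩ := h (η' / 2) (by positivity)
  refine ⟨r₀ / 2, by positivity, fun t ht htr x x1 x2 => ?_⟩
  have h1 : η' * t ≤ 1 * t := mul_le_mul_of_nonneg_right e1 ht.le
  have h2 : η' * t ≤ η * t := mul_le_mul_of_nonneg_right e2 ht.le
  obtain ⟨a, ha, a1, a2⟩ := H (2 * t) (by linarith) (by linarith) (x - η' * t) x (by linarith)
    (le_of_eq (by ring)) (by linarith)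
  exact ⟨a, ha, by linarith, a2.le⟩

end Pool.PKG
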