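import Pool.Agent.H3.D2G.Win
import Pool.Agent.H74.D2G.Unf2

/-!
# The windows near a good window, two stages

`WinH`: as `WinG`. The constant `S₀` of the diagonal pairs does not depend on the offsets, all the
windows are good windows of the same order, and the last choice avoids any null set.
-/

set_option autoImplicit false

namespace Pool.PKG

open MeasureTheory Set Filter Topology
open Pool.Agent.H49.Ent Pool.Agent.H32.Dense Pool.STK Pool.KA Pool.KSAT Pool.K2S Pool.PB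
open Pool.GEN Pool.S6C Pool.STAT Pool.CHT Pool.GRW Pool.ONE Pool.STA
open Pool.LBT (LSys ThrOf)
open Pool.LEV (Law)
open Pool.TOP (TopS)
open Pool.QNT (affB_of)
open Pool.STR (ThinAt SteepAt StaAt StaD)
open Pool.ISO (PtD lvN WinD ex_good dens_compl)
open Pool.NMS (dia_le slope_eq)

/-- Almost every point of a measurable set is a point of density, at shifted points. -/
theorem dens_ev {E : Set ℝ} (hE : MeasurableSet E) : ∀ᵐ g : ℝ, g ∈ E → ∀ c τ : ℝ, 0 ≤ c → 0 < τ →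
    ∃ s₁ : ℝ, 0 < s₁ ∧ ∀ s y : ℝ, 0 < s → s < s₁ → 0 ≤ y → y ≤ s →
      volume {w : ℝ | |w - g| ≤ c * s ∧ w + y ∉ E} ≤ ENNReal.ofReal (τ * s) := by
  filter_upwards [(ae_restrict_iff' hE).1 (Besicovitch.ae_tendsto_measure_inter_div volume E)]
    with g hg hgE c τ hc hτ
  obtain ⟨r₀, hr₀, h1⟩ := dens_compl hE (hg hgE) (θ := τ / (2 * (c + 1))) (by positivity)
  refine ⟨r₀ / (c + 1), by positivity, fun s y hs hs1 hy hys => ?_⟩
  have h2 : (c + 1) * s < r₀ := by
    rw [lt_div_iff₀ (by positivity)] at hs1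
    linarith
  have h3 := h1 ((c + 1) * s) (by positivity) h2
  have e1 : τ / (2 * (c + 1)) * (2 * ((c + 1) * s)) = τ * s := by
    field_simp
  rw [e1] at h3
  have h4 : {w : ℝ | |w - g| ≤ c * s ∧ w + y ∉ E} ⊆
      (fun w => w + y) ⁻¹' (Metric.closedBall g ((c + 1) * s) \ E) := by
    rintro w ⟨k1, k2⟩
    refine ⟨?_, k2⟩
    show w + y ∈ Metric.closedBall g ((c + 1) * s)
    rw [Metric.mem_closedBall, Real.dist_eq]
    have k3 := abs_le.1 k1
    rw [abs_le]
    constructor <;> linarith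
  refine (measure_mono h4).trans ?_
  rw [measure_preimage_add_right]
  exact h3

variable {n : ℕ}

/-- **The record of a good window** `g`: the windows near `g`, in units of a small `q`. The
offsets `(A k, V k)` are chosen after the constant `S₀` of the diagonal pairs and before the
constant `S₁` of the other pairs, and the error `η` after both. All windows are in `Gs`, and the
window `t` avoids any null set `Z`. -/
def WinH (hn : 2 ≤ n) (S : PCl n) (P : ℝ → ℝ → ℝ) (r : ℝ → ℝ)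
    (P' : ℕ → List (Fin n) × Fin n → ℝ → ℝ → ℝ) (Λ : Finset (Fin n) → Fin n → ℝ → ℝ → ℝ)
    (PB : ℕ → List (Fin n) × Fin n → ℝ → ℝ → ℝ) (o : Od n) (g : ℝ) : Prop :=
  ∃ E cE : ℝ, 0 < E ∧ (∀ l ≤ n - 1, LvL hn P P' o l g g + E < 1) ∧
    ∀ e' : ℝ, 0 < e' → ∃ (vs e : ℝ) (S₀ : ℕ), 0 < e ∧ e ≤ e' ∧ 1 ≤ S₀ ∧
      ∀ (K : ℝ) (N : ℕ) (A V : ℕ → ℝ), 1 ≤ K → (∀ k < N, -K ≤ V k ∧ V k ≤ A k ∧ A k ≤ K) →
        ∀ th : ℝ, 0 < th → ∃ S₁ : ℕ, 1 ≤ S₁ ∧ ∀ η : ℝ, 0 < η → ∃ q₁ : ℝ, 0 < q₁ ∧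
          ∀ q u : ℝ, 0 < q → q < q₁ → |u - g| ≤ K * q →
            3 * K * q ≤ g / 2 ∧ 3 * K * q ≤ 1 - g ∧
            Nbx (LvL hn P P' o) (LvT hn PB o) (SlL hn P P' o g) (n - 1) g η (3 * K) q ∧
            (∀ l ≤ n - 1, ∀ x : ℝ, |x - g| ≤ 3 * K * q →
              LvL hn P P' o l x x + E + 6 * K * q < 1) ∧
            ∀ Z : Set ℝ, volume Z = 0 → ∃ t : ℝ, t ∉ Z ∧ u ≤ t ∧ t ≤ u + th * q ∧
              (∀ k < N, PtC hn S P P' o vs e E cE S₁ (t + A k * q) (t + V k * q) ∧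
                PtC hn S P P' o vs e E cE S₀ (t + V k * q) (t + V k * q)) ∧
              (∀ k < N, ∀ l ≤ n - 1,
                LvT hn PB o l (t + A k * q) (t + V k * q) ≤
                  LvL hn P P' o l (t + A k * q) (t + V k * q) ∧
                LvT hn PB o l (t + V k * q) (t + V k * q) ≤
                  LvL hn P P' o l (t + V k * q) (t + V k * q)) ∧
              ∀ k < N, t + A k * q ∈ Gs P r P' Λ o ∧ t + V k * q ∈ Gs P r P' Λ o

variable {hn : 2 ≤ n} {S : PCl n} {P : ℝ → ℝ → ℝ} {r : ℝ → ℝ}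
  {P' : ℕ → List (Fin n) × Fin n → ℝ → ℝ → ℝ} {Λ : Finset (Fin n) → Fin n → ℝ → ℝ → ℝ}
  {PB : ℕ → List (Fin n) × Fin n → ℝ → ℝ → ℝ}

namespace PkT

variable (H : PkT hn S P r P' Λ PB)
include H

/-- **The windows near almost every good window, two stages.** -/
theorem win2_ae (hTop : TopS n) (hF : FZX (n - 1)) :
    ∀ᵐ g : ℝ, ∀ o : Od n, g ∈ Gs P r P' Λ o → WinH hn S P r P' Λ PB o g := by
  classical
  have hde : ∀ᵐ g : ℝ, ∀ o : Od n, g ∈ Gs P r P' Λ o → ∀ c τ : ℝ, 0 ≤ c → 0 < τ →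
      ∃ s₁ : ℝ, 0 < s₁ ∧ ∀ s y : ℝ, 0 < s → s < s₁ → 0 ≤ y → y ≤ s →
        volume {w : ℝ | |w - g| ≤ c * s ∧ w + y ∉ Gs P r P' Λ o} ≤ ENNReal.ofReal (τ * s) :=
    ae_all_iff.2 fun o => dens_ev (H.toPk.gs_meas o)
  filter_upwards [H.toPk.unif2_ae hTop hF, H.sl_ae hTop hF, hde] with g hun hsl hde o ho
  obtain ⟨α, Q, c', F⟩ := H.toPk.fac hTop hF ho
  have hg0 := F.g0
  have hg1 := F.g1
  have hsl := hsl o ho
  have hde := hde o ho
  obtain ⟨E, cE, hE, hroom, hun⟩ := hun o ho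
  refine ⟨E, cE, hE, hroom, fun e' he' => ?_⟩
  obtain ⟨vs, e, he, hee, S₀, hS₀, hun⟩ := hun (min e' (tht o.2 * (g / 2)))
    (lt_min he' (mul_pos (tht_pos _) (by linarith)))
  have hee' : e ≤ e' := hee.trans (min_le_left _ _)
  have heg : e ≤ tht o.2 * (g / 2) := hee.trans (min_le_right _ _)
  refine ⟨vs, e, S₀, he, hee', hS₀, fun K N A V hK hAV th hth => ?_⟩
  have hK0 : 0 < K := by linarith
  obtain ⟨θ₂, hθ₂⟩ : ∃ θ₂ : ℝ, θ₂ = min th 1 := ⟨_, rfl⟩
  have hθ20 : 0 < θ₂ := by rw [hθ₂]; exact lt_min hth one_pos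
  have hθ21 : θ₂ ≤ 1 := by rw [hθ₂]; exact min_le_right _ _
  have hθ22 : θ₂ ≤ th := by rw [hθ₂]; exact min_le_left _ _
  obtain ⟨M, hM⟩ : ∃ M : ℕ, M = 4 * N + 1 := ⟨_, rfl⟩
  have hM0 : (0 : ℝ) < M := by
    rw [hM]
    positivity
  obtain ⟨τ, hτ⟩ : ∃ τ : ℝ, τ = θ₂ / (2 * M) / (2 * K) := ⟨_, rfl⟩
  have hτ0 : 0 < τ := by rw [hτ]; positivity
  have hMτ : ∀ q : ℝ, M * (τ * (2 * K * q)) = θ₂ / 2 * q := fun q => by
    rw [hτ]
    field_simp
  obtain ⟨S₁, s₁, hS₁, hs₁, hun0, hun1⟩ := hun 2 τ (by norm_num) hτ0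
  obtain ⟨s₂, hs₂, hde⟩ := hde 2 τ (by norm_num) hτ0
  refine ⟨S₁, hS₁, fun η hη => ?_⟩
  -- the scales
  have hnb : ∀ᶠ q in 𝓝[>] (0 : ℝ),
      Nbx (LvL hn P P' o) (LvT hn PB o) (SlL hn P P' o g) (n - 1) g η (3 * K) q :=
    nbx_ev (fun l hl => (hsl l hl).2.1) (fun l hl => (hsl l hl).2.2) hη (by positivity)
  have hnb1 : ∀ᶠ q in 𝓝[>] (0 : ℝ),
      Nbx (LvL hn P P' o) (LvT hn PB o) (SlL hn P P' o g) (n - 1) g 1 (3 * K) q :=
    nbx_ev (fun l hl => (hsl l hl).2.1) (fun l hl => (hsl l hl).2.2) one_pos (by positivity)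
  have hrm : ∀ᶠ q in 𝓝[>] (0 : ℝ), ∀ l ∈ Finset.range n,
      E + LvL hn P P' o l g g + (3 * K * |SlL hn P P' o g l| + 1 + 6 * K) * q < 1 := by
    rw [Finset.eventually_all]
    intro l hl
    rw [Finset.mem_range] at hl
    have h1 : LvL hn P P' o l g g + E < 1 := hroom l (by omega)
    have h2 : Tendsto (fun q : ℝ => E + LvL hn P P' o l g g +
        (3 * K * |SlL hn P P' o g l| + 1 + 6 * K) * q) (𝓝[>] 0)
        (𝓝 (E + LvL hn P P' o l g g + (3 * K * |SlL hn P P' o g l| + 1 + 6 * K) * 0)) :=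
      (Continuous.tendsto (by fun_prop) _).mono_left nhdsWithin_le_nhds
    rw [mul_zero, add_zero] at h2
    exact h2.eventually_lt_const (by linarith)
  have hqs : ∀ᶠ q in 𝓝[>] (0 : ℝ), 2 * K * q < min s₁ s₂ ∧ 3 * K * q ≤ g / 2 ∧
      3 * K * q ≤ 1 - g := by
    filter_upwards [Ioo_mem_nhdsGT (show 0 < min (min s₁ s₂) (min (g / 2) (1 - g)) / (3 * K) from
      div_pos (lt_min (lt_min hs₁ hs₂) (lt_min (by linarith) (by linarith))) (by positivity))]
      with q hq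
    have h1 := hq.2
    rw [lt_div_iff₀ (by positivity)] at h1
    have h2 := min_le_left (min s₁ s₂) (min (g / 2) (1 - g))
    have h3 := (min_le_right (min s₁ s₂) (min (g / 2) (1 - g))).trans (min_le_left _ _)
    have h4 := (min_le_right (min s₁ s₂) (min (g / 2) (1 - g))).trans (min_le_right _ _)
    have h5 : 0 < K * q := mul_pos hK0 hq.1
    refine ⟨by linarith, by linarith, by linarith⟩
  obtain ⟨q₁, hq₁, hall⟩ := pos_ev ((hnb.and hnb1).and (hrm.and hqs))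
  refine ⟨q₁, hq₁, fun q u hq hqm hu => ?_⟩
  obtain ⟨⟨hnb, hnb1⟩, hrm, hqs, hqg, hqg1⟩ := hall q hq hqm
  have hqs1 := hqs.trans_le (min_le_left _ _)
  have hqs2 := hqs.trans_le (min_le_right _ _)
  have hu' := abs_le.1 hu
  have hKq : 0 < K * q := mul_pos hK0 hq
  refine ⟨hqg, hqg1, hnb, fun l hl x hx => ?_, fun Z hZ => ?_⟩
  · have h1 := hrm l (Finset.mem_range.2 (by omega))
    have h2 := (abs_le.1 (hnb1.dL l hl x hx)).2
    have h3 : SlL hn P P' o g l * (x - g) ≤ |SlL hn P P' o g l| * (3 * K * q) := by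
      calc SlL hn P P' o g l * (x - g) ≤ |SlL hn P P' o g l * (x - g)| := le_abs_self _
        _ = |SlL hn P P' o g l| * |x - g| := abs_mul _ _
        _ ≤ |SlL hn P P' o g l| * (3 * K * q) := mul_le_mul_of_nonneg_left hx (abs_nonneg _)
    linarith
  -- the window
  have hZ0 : volume {x : ℝ | x + K * q ∈ Z} = 0 := by
    have h1 : {x : ℝ | x + K * q ∈ Z} = (fun x => x + K * q) ⁻¹' Z := rfl
    rw [h1, measure_preimage_add_right]
    exact hZ
  obtain ⟨Bad, hBad⟩ : ∃ Bad : ℕ → Set ℝ, Bad = fun k => if k < N then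
      {w : ℝ | |w - g| ≤ 2 * (2 * K * q) ∧ ¬ PtC hn S P P' o vs e E cE S₁
        (w + (A k + K) * q) (w + (V k + K) * q)}
      else if k < 2 * N then
      {w : ℝ | |w - g| ≤ 2 * (2 * K * q) ∧ ¬ PtC hn S P P' o vs e E cE S₀
        (w + (V (k - N) + K) * q) (w + (V (k - N) + K) * q)}
      else if k < 3 * N then
      {w : ℝ | |w - g| ≤ 2 * (2 * K * q) ∧ w + (A (k - 2 * N) + K) * q ∉ Gs P r P' Λ o}
      else if k < 4 * N then
      {w : ℝ | |w - g| ≤ 2 * (2 * K * q) ∧ w + (V (k - 3 * N) + K) * q ∉ Gs P r P' Λ o}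
      else {x : ℝ | x + K * q ∈ Z} := ⟨_, rfl⟩
  have hBadm : ∀ k < M, volume (Bad k) ≤ ENNReal.ofReal (τ * (2 * K * q)) := by
    intro k hk
    rw [hBad]
    simp only
    split_ifs with h1 h2 h3 h4
    · obtain ⟨k1, k2, k3⟩ := hAV k h1
      exact hun1 (2 * K * q) ((V k + K) * q) ((A k + K) * q) (by positivity) hqs1
        (mul_nonneg (by linarith) hq.le) (mul_le_mul_of_nonneg_right (by linarith) hq.le)
        (mul_le_mul_of_nonneg_right (by linarith) hq.le)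
    · obtain ⟨k1, k2, k3⟩ := hAV (k - N) (by omega)
      exact hun0 (2 * K * q) ((V (k - N) + K) * q) (by positivity) hqs1
        (mul_nonneg (by linarith) hq.le) (mul_le_mul_of_nonneg_right (by linarith) hq.le)
    · obtain ⟨k1, k2, k3⟩ := hAV (k - 2 * N) (by omega)
      exact hde (2 * K * q) ((A (k - 2 * N) + K) * q) (by positivity) hqs2
        (mul_nonneg (by linarith) hq.le) (mul_le_mul_of_nonneg_right (by linarith) hq.le)
    · obtain ⟨k1, k2, k3⟩ := hAV (k - 3 * N) (by omega)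
      exact hde (2 * K * q) ((V (k - 3 * N) + K) * q) (by positivity) hqs2
        (mul_nonneg (by linarith) hq.le) (mul_le_mul_of_nonneg_right (by linarith) hq.le)
    · rw [hZ0]
      exact bot_le
  obtain ⟨x, hx, hxB⟩ := ex_good (A := Icc (u - K * q) (u - K * q + θ₂ * q)) (n := M)
    (t := τ * (2 * K * q)) Bad (by
    rw [Real.volume_Icc, add_sub_cancel_left, hMτ]
    refine ENNReal.ofReal_lt_ofReal_iff_of_nonneg (by positivity) |>.2 ?_
    have : 0 < θ₂ * q := by positivity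
    linarith) hBadm
  obtain ⟨t, ht⟩ : ∃ t : ℝ, t = x + K * q := ⟨_, rfl⟩
  have hθq : θ₂ * q ≤ 1 * q := mul_le_mul_of_nonneg_right hθ21 hq.le
  have hqK : 1 * q ≤ K * q := mul_le_mul_of_nonneg_right hK hq.le
  have hxg : |x - g| ≤ 2 * (2 * K * q) := by
    rw [abs_le]
    constructor <;> linarith [hx.1, hx.2]
  have e1 : ∀ y : ℝ, x + (y + K) * q = t + y * q := fun y => by rw [ht]; ring
  have hpt : ∀ k < N, PtC hn S P P' o vs e E cE S₁ (t + A k * q) (t + V k * q) ∧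
      PtC hn S P P' o vs e E cE S₀ (t + V k * q) (t + V k * q) := by
    intro k hk
    constructor
    · have h1 := hxB k (by omega)
      rw [hBad] at h1
      simp only [if_pos hk, mem_ofPred_eq, not_and, not_not] at h1
      have h2 := h1 hxg
      rwa [e1, e1] at h2
    · have h1 := hxB (k + N) (by omega)
      rw [hBad] at h1
      simp only [if_neg (show ¬ k + N < N by omega), if_pos (show k + N < 2 * N by omega),
        mem_ofPred_eq, not_and, not_not, Nat.add_sub_cancel] at h1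
      have h2 := h1 hxg
      rwa [e1] at h2
  have hGs : ∀ k < N, t + A k * q ∈ Gs P r P' Λ o ∧ t + V k * q ∈ Gs P r P' Λ o := by
    intro k hk
    constructor
    · have h1 := hxB (k + 2 * N) (by omega)
      rw [hBad] at h1
      simp only [if_neg (show ¬ k + 2 * N < N by omega),
        if_neg (show ¬ k + 2 * N < 2 * N by omega), if_pos (show k + 2 * N < 3 * N by omega),
        mem_ofPred_eq, not_and, not_not, Nat.add_sub_cancel] at h1
      have h2 := h1 hxg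
      rwa [e1] at h2
    · have h1 := hxB (k + 3 * N) (by omega)
      rw [hBad] at h1
      simp only [if_neg (show ¬ k + 3 * N < N by omega),
        if_neg (show ¬ k + 3 * N < 2 * N by omega), if_neg (show ¬ k + 3 * N < 3 * N by omega),
        if_pos (show k + 3 * N < 4 * N by omega),
        mem_ofPred_eq, not_and, not_not, Nat.add_sub_cancel] at h1
      have h2 := h1 hxg
      rwa [e1] at h2
  have hlow : ∀ k < N, g / 2 ≤ t + V k * q := by
    intro k hk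
    obtain ⟨k1, k2, k3⟩ := hAV k hk
    have h1 : -K * q ≤ V k * q := mul_le_mul_of_nonneg_right k1 hq.le
    have h2 := hx.1
    rw [ht]
    linarith
  have hle : ∀ l ≤ n - 1, ∀ {a w : ℝ} {S₂ : ℕ}, g / 2 ≤ w → PtC hn S P P' o vs e E cE S₂ a w →
      LvT hn PB o l a w ≤ LvL hn P P' o l a w := by
    intro l hl a w S₂ hw h1
    obtain ⟨ρ, Q', h1⟩ := h1
    exact H.ttle H.pble hl h1 (heg.trans (mul_le_mul_of_nonneg_left hw (tht_pos _).le))
  have hθt : θ₂ * q ≤ th * q := mul_le_mul_of_nonneg_right hθ22 hq.le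
  refine ⟨t, ?_, by rw [ht]; linarith [hx.1], by rw [ht]; linarith [hx.2], hpt, fun k hk l hl =>
    ⟨hle l hl (hlow k hk) (hpt k hk).1, hle l hl (hlow k hk) (hpt k hk).2⟩, hGs⟩
  have h1 := hxB (4 * N) (by omega)
  rw [hBad] at h1
  simp only [if_neg (show ¬ 4 * N < N by omega), if_neg (show ¬ 4 * N < 2 * N by omega),
    if_neg (show ¬ 4 * N < 3 * N by omega), lt_irrefl, if_false] at h1
  rw [mem_ofPred_eq] at h1
  rw [ht]
  exact h1

end PkT

end Pool.PKG
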