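import Pool.Agent.H3.D2G.Coo
import Pool.Agent.H3.D2G.Win2

/-!
# Labels with large gradients

`PkB`: the package with the thresholds `PQ p` of the chains with gradients at most `2 ^ (p w J)`,
for all rational `p`. It exists in a subclass (`pkB_ex`). `PkB.num`: at the good windows the
thresholds `PQ p` of the coordinates of the list are at most those of the package, if they are
smaller than `1 - p w`; `PkB.tgt`: the thresholds of the target are at most `P`.
`rat_of`: nearby (rational) points.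
-/

set_option autoImplicit false

namespace Pool.PKG

open MeasureTheory Set Filter Topology
open Pool.Agent.H49.Ent Pool.Agent.H32.Dense Pool.STK Pool.KA Pool.KSAT Pool.K2S Pool.PB
open Pool.GEN Pool.S6C Pool.STAT Pool.CHT Pool.GRW Pool.ONE Pool.STA
open Pool.LBT (LSys ThrOf)
open Pool.LBN (cof)
open Pool.LEV (Law)
open Pool.TOP (TopS)

/-- **Nearby points**: at almost every `t` the functions of a countable family do not jump at
`(t + x, t + y)` upwards. -/
theorem rat_of {ι : Type*} [Countable ι] {f : ι → ℝ → ℝ → ℝ} (hf : ∀ i, Law (f i)) {x y : ℝ}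
    (hyx : y ≤ x) : ∃ Z : Set ℝ, volume Z = 0 ∧ ∀ t ∉ Z, 0 < t + y → t + x < 1 → ∀ i, ∀ e : ℝ,
      0 < e → ∃ d : ℝ, 0 < d ∧ ∀ a' w' : ℝ, t + x ≤ a' → a' ≤ t + x + d → t + y ≤ w' →
        w' ≤ t + y + d → w' ≤ a' → f i a' w' ≤ f i (t + x) (t + y) + e := by
  obtain ⟨D, hD⟩ : ∃ D : ι → ℝ → ℝ, D = fun i t => f i (max 0 (min 1 (t + x)))
      (max 0 (min 1 (t + y))) := ⟨_, rfl⟩
  have hmon : ∀ i, Monotone (D i) := by
    intro i s t hst
    rw [hD]
    have h1 : ∀ z : ℝ, max 0 (min 1 (s + z)) ≤ max 0 (min 1 (t + z)) := fun z =>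
      max_le_max le_rfl (min_le_min le_rfl (by linarith))
    exact (hf i).mono (le_max_left _ _) (max_le_max le_rfl (min_le_min le_rfl (by linarith)))
      (h1 x) (h1 y) (max_le_max le_rfl (min_le_min le_rfl (by linarith)))
      (max_le zero_le_one (min_le_left _ _))
  have hval : ∀ i t, 0 ≤ t + y → t + x ≤ 1 → D i t = f i (t + x) (t + y) := by
    intro i t h0 h1
    rw [hD]
    show f i (max 0 (min 1 (t + x))) (max 0 (min 1 (t + y))) = f i (t + x) (t + y)
    rw [min_eq_right h1, min_eq_right (by linarith), max_eq_right h0, max_eq_right (by linarith)]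
  refine ⟨⋃ i, {t | ¬ ContinuousAt (D i) t}, ?_, fun t ht h0 h1 i e he => ?_⟩
  · rw [measure_iUnion_null_iff]
    exact fun i => (hmon i).countable_not_continuousAt.measure_zero _
  · have h2 : ContinuousAt (D i) t := by
      by_contra hcon
      exact ht (mem_iUnion.2 ⟨i, hcon⟩)
    rw [Metric.continuousAt_iff] at h2
    obtain ⟨δ, hδ, h3⟩ := h2 e he
    obtain ⟨d, hd⟩ : ∃ d, d = min (δ / 2) (1 - (t + x)) := ⟨_, rfl⟩
    have hd0 : 0 < d := by rw [hd]; exact lt_min (by linarith) (by linarith)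
    have hd1 : d ≤ δ / 2 := by rw [hd]; exact min_le_left _ _
    have hd2 : d ≤ 1 - (t + x) := by rw [hd]; exact min_le_right _ _
    refine ⟨d, hd0, fun a' w' k1 k2 k3 k4 k5 => ?_⟩
    have h4 := @h3 (t + d) (by
      rw [Real.dist_eq, add_sub_cancel_left, abs_of_pos hd0]
      linarith)
    rw [Real.dist_eq, hval i t h0.le h1.le, hval i (t + d) (by linarith) (by linarith)] at h4
    have h5 := (abs_lt.1 h4).2
    have h6 : f i a' w' ≤ f i (t + d + x) (t + d + y) :=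
      (hf i).mono (by linarith) k5 (by linarith) (by linarith) (by linarith) (by linarith)
    linarith

variable {n : ℕ}

/-- **The package with the thresholds for large gradients.** -/
structure PkB (hn : 2 ≤ n) (S : PCl n) (P : ℝ → ℝ → ℝ) (r : ℝ → ℝ)
    (P' : ℕ → List (Fin n) × Fin n → ℝ → ℝ → ℝ)
    (Λ : Finset (Fin n) → Fin n → ℝ → ℝ → ℝ)
    (PB : ℕ → List (Fin n) × Fin n → ℝ → ℝ → ℝ)
    (PQ : ℚ → List (Fin n) × Fin n → ℝ → ℝ → ℝ) : Prop extends PkT hn S P r P' Λ PB where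
  thq : ∀ p : ℚ, ThrOf (chsys n (p : ℝ)) S (PQ p)
  regq : ∀ p i, Pool.LBT.Reg (PQ p i)

variable {hn : 2 ≤ n} {S : PCl n} {P : ℝ → ℝ → ℝ} {r : ℝ → ℝ}
  {P' : ℕ → List (Fin n) × Fin n → ℝ → ℝ → ℝ} {Λ : Finset (Fin n) → Fin n → ℝ → ℝ → ℝ}
  {PB : ℕ → List (Fin n) × Fin n → ℝ → ℝ → ℝ} {PQ : ℚ → List (Fin n) × Fin n → ℝ → ℝ → ℝ}

/-- **The package exists in a subclass**, with the same numbers. -/
theorem pkB_ex (H : PkT hn S P r P' Λ PB) :
    ∃ (S' : PCl n) (PQ : ℚ → List (Fin n) × Fin n → ℝ → ℝ → ℝ),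
      (∀ (τ : ℝ) (J : ℕ) (F : Fam n J) (A : F.Ω → Prop), S'.St τ J F A → S.St τ J F A) ∧
      PkB hn S' P r P' Λ PB PQ := by
  obtain ⟨al, g₀, s, d, e, K₀, N, hal, hg₀, hC⟩ := H.cl
  obtain ⟨S₁, Q, h1, h2, h3⟩ := Pool.LBT.thr (LSys.sig fun p : ℚ => chsys n (p : ℝ)) S
    hC.ne (Pool.LBT.slo_sig fun p : ℚ => slo_chsys (p : ℝ) S)
    (Pool.LBT.tri_sig fun p : ℚ => tri_chsys (p : ℝ) S)
  obtain ⟨Q', h4, h5, -⟩ := h3.reg
  exact ⟨S₁, fun p i => Q' ⟨p, i⟩, h2,
    { cl := ⟨al, g₀, s, d, e, K₀, N, hal, hg₀, hC.sub h1 h2⟩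
      tgs := H.tgs.sub h2
      rate := H.rate.sub h2
      cht := fun j => (H.cht j).sub h2
      reg := H.reg
      lam := H.lam.sub h2
      thb := fun j => (H.thb j).sub h2
      regb := H.regb
      thq := fun p => h4.of_sig p
      regq := fun p i => h5 ⟨p, i⟩ }⟩

namespace PkB

variable (H : PkB hn S P r P' Λ PB PQ)
include H

/-- **The list**: the thresholds for large gradients on the diagonal of a good window. -/
theorem num (hF : FZX (n - 1)) {o : Od n} {w : ℝ} (hw : w ∈ Gs P r P' Λ o) {p : ℚ} (hp : 0 < p)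
    {j : ℕ} (hj : j < n - 1) (hlt : bet (P' o.2) (cc hn o.1.1) j w w < 1 - p * w) :
    bet (PQ p) (cc hn o.1.1) j w w ≤ bet (P' o.2) (cc hn o.1.1) j w w := by
  obtain ⟨al, g₀, s, d, e, K₀, N, hal, hg₀, hC⟩ := H.cl
  obtain ⟨hW, -, -⟩ := hw
  have hg0 := hW.1.1
  have hg1 := hW.1.2.1
  have hcε : ∀ i : Fin (n - 1), cc hn o.1.1 i = bse (o.1.1 i) := fun i => cc_lt hn _ i.2
  have htm := H.toPk.tmc
  have hex : VExa S Λ (fun i => bse (o.1.1 i)) w := by
    intro ρ hρ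
    refine vst_exa hF hC.ne (C₀ := 6) (by norm_num) htm H.lam hal hg₀ hC.actm H.toPk.pos
      (bse_inj.comp o.1.1.injective) (fun k hk => hC.actb _ ?_) hg0 hg1 hW.1.2.2.1 hW.1.2.2.2 hρ
    exact o.1.2 k hk
  have h1 : vs Λ (fun i => bse (o.1.1 i)) w (j + 1) ≤ bet (P' o.2) (cc hn o.1.1) j w w :=
    vst_le_bet (tht_pos _) hC.ne htm ((tmc_bas htm one_pos).mono 0 fun _ _ _ _ h => h.1) H.lam
      (H.cht o.2) (bse_inj.comp o.1.1.injective) hcε hW hex le_rfl hj
  refine (bet_le_vst (θ := (p : ℝ)) (by exact_mod_cast hp) hC.ne (C₀ := 6) (by norm_num) htm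
    H.lam (H.thq p) (bse_inj.comp o.1.1.injective) hcε hW.1 hex hj (h1.trans_lt hlt)).trans h1

/-- **The target**: the thresholds for large gradients. -/
theorem tgt (o : Od n) (p : ℚ) {a w : ℝ} (h0 : 0 < w) (hwa : w ≤ a) (ha : a ≤ 1) :
    bet (PQ p) (cc hn o.1.1) (n - 1) a w ≤ P a w := by
  have h1 := Pool.CHB.le_tgs' H.toPk.ne (H.thq p) (i := (lis o.1.1, lst hn)) (lis_nodup _)
    (lst_lis hn _) (H.regq p _) H.tgs a w h0 hwa ha
  unfold bet
  rw [cc_ge hn _ le_rfl, map_cc]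
  exact h1

end PkB

end Pool.PKG
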