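import Pool.Agent.H88.D2.Rcv
import Pool.Agent.H60.D2.Vt
import Pool.Agent.H60.D2.Trf

/-!
# The coordinate after the active one: the gradient is closed and constant

For the coordinate `c 1` over `c 0`: two windows `W ≤ A` of one event, a row label of `c 1` which is
closed at `W`, and natural curvature at `A`. `c1_det`: on a large subevent the gradient of the ball
chart of `A` at the exact point is the same for any two samples of one line and window `W`, with a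
gain.
-/

set_option autoImplicit false

namespace Pool.C1

open Finset Real MvPolynomial
open Pool.Agent.H49.Ent Pool.Agent.H32.Dense Pool.STK Pool.KA Pool.KSAT Pool.K2S Pool.PB Pool.S6C
open Pool.GEN Pool.CHT Pool.CHX Pool.ISO Pool.D2R Pool.D2Z Pool.D2F Pool.RCV
open Pool.FLF (Fam.sub)
open Pool.PB.Trl (rt rt_mem t_rt)

variable {m J : ℕ}

/-- The direction of the first coordinate. -/
noncomputable def e0 (c : ℕ → Fin m) : Option (Fin m) → ℝ := Pi.single (some (c 0)) 1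

theorem e0_none (c : ℕ → Fin m) : e0 c none = 0 := by
  unfold e0
  rw [Pi.single_eq_of_ne (by simp)]

theorem e0_some (c : ℕ → Fin m) : e0 c (some (c 0)) = 1 := by
  unfold e0
  rw [Pi.single_eq_same]

theorem dd_zero (Q : MvPolynomial (Option (Fin m)) ℝ) (x : Option (Fin m) → ℝ) :
    dd Q x 0 = 0 := by
  unfold dd
  simp

theorem dd_e0 {c : ℕ → Fin m} {Q : MvPolynomial (Option (Fin m)) ℝ} (hQ : DepC c 0 Q)
    (x : Option (Fin m) → ℝ) : dd Q x (e0 c) = 0 := by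
  rw [dd_congr hQ x (V := 0) (by rw [e0_none]; rfl) fun l hl => absurd hl (Nat.not_lt_zero l),
    dd_zero]

/-- A chart over the time only. -/
theorem dd_time {c : ℕ → Fin m} {Q : MvPolynomial (Option (Fin m)) ℝ} (hQ : DepC c 0 Q)
    {x Y : Option (Fin m) → ℝ} (hY : Y none = 1) (V : Option (Fin m) → ℝ) :
    dd Q x V = V none * dd Q x Y := by
  rw [← dd_smul]
  refine dd_congr hQ x ?_ fun l hl => absurd hl (Nat.not_lt_zero l)
  rw [Pi.smul_apply, hY, smul_eq_mul, mul_one]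

/-- A chart over the time and the first coordinate. -/
theorem dd_split {c : ℕ → Fin m} {Q : MvPolynomial (Option (Fin m)) ℝ} (hQ : DepC c 1 Q)
    {x Y : Option (Fin m) → ℝ} (hY : Y none = 1) (V : Option (Fin m) → ℝ) :
    dd Q x V = V none * dd Q x Y +
      (V (some (c 0)) - V none * Y (some (c 0))) * dd Q x (e0 c) := by
  rw [← dd_smul, ← dd_smul, ← dd_add]
  refine dd_congr hQ x ?_ fun l hl => ?_
  · rw [Pi.add_apply, Pi.smul_apply, Pi.smul_apply, hY, e0_none, smul_eq_mul, smul_eq_mul,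
      mul_one, mul_zero, add_zero]
  · rw [Nat.lt_one_iff.1 hl, Pi.add_apply, Pi.smul_apply, Pi.smul_apply, e0_some, smul_eq_mul,
      smul_eq_mul, mul_one]
    ring

theorem hs_e0 (c : ℕ → Fin m) (R : MvPolynomial (Option (Fin m)) ℝ) (x W : Option (Fin m) → ℝ) :
    hs R x W (e0 c) = dd (pderiv (some (c 0)) R) x W := by
  classical
  unfold hs
  rw [Finset.sum_eq_single (some (c 0))]
  · rw [e0_some, mul_one]
  · intro o _ ho
    unfold e0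
    rw [Pi.single_eq_of_ne ho, mul_zero]
  · intro h
    exact absurd (Finset.mem_univ _) h

theorem ddp_e0 (c : ℕ → Fin m) (R : MvPolynomial (Option (Fin m)) ℝ) (x : Option (Fin m) → ℝ) :
    dd R x (e0 c) = eval x (pderiv (some (c 0)) R) := by
  classical
  unfold dd
  rw [Finset.sum_eq_single (some (c 0))]
  · rw [e0_some, mul_one]
  · intro o _ ho
    unfold e0
    rw [Pi.single_eq_of_ne ho, mul_zero]
  · intro h
    exact absurd (Finset.mem_univ _) h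

theorem nrm_one (c : ℕ → Fin m) (ψ : ℕ → MvPolynomial (Option (Fin m)) ℝ) (g : ℕ → ℕ) (a : ℕ)
    (x V : Option (Fin m) → ℝ) :
    nrm c ψ g a 1 x V = 2 ^ a * |V none| + 2 ^ g 0 * |V (some (c 0)) - dd (ψ 0) x V| := by
  unfold nrm
  rw [Finset.sum_range_one]

theorem nrm_e0 {c : ℕ → Fin m} {ψ : ℕ → MvPolynomial (Option (Fin m)) ℝ} (h : DepC c 0 (ψ 0))
    (g : ℕ → ℕ) (a : ℕ) (x : Option (Fin m) → ℝ) : nrm c ψ g a 1 x (e0 c) = 2 ^ g 0 := by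
  rw [nrm_one, dd_e0 h, e0_none, e0_some, abs_zero, mul_zero, sub_zero, abs_one, mul_one, zero_add]

/-- **The growth of the norms** between two windows. -/
theorem nrm_gr {c : ℕ → Fin m} {W A z : ℕ} {g₀ g₁ : ℕ → ℕ} {U : ℝ}
    {G₀ G₁ : ℕ → MvPolynomial (Option (Fin m)) ℝ} {x Y : Option (Fin m) → ℝ}
    (hd0 : DepC c 0 (G₀ 0)) (hd1 : DepC c 0 (G₁ 0)) (hY : Y none = 1)
    (h0 : |Y (some (c 0)) - dd (G₀ 0) x Y| ≤ U * 2 ^ W / 2 ^ g₀ 0)
    (h1 : |Y (some (c 0)) - dd (G₁ 0) x Y| ≤ U * 2 ^ A / 2 ^ g₁ 0) (hU : 0 ≤ U)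
    (hA : A ≤ W + z) (hg : g₁ 0 ≤ g₀ 0 + z) (V : Option (Fin m) → ℝ) :
    nrm c G₁ g₁ A 1 x V ≤ (1 + 2 * U) * 2 ^ z * nrm c G₀ g₀ W 1 x V := by
  rw [nrm_one, nrm_one]
  obtain ⟨n, hn⟩ : ∃ n, n = |V none| := ⟨_, rfl⟩
  obtain ⟨b, hb⟩ : ∃ b, b = |V (some (c 0)) - dd (G₀ 0) x V| := ⟨_, rfl⟩
  have hn0 : 0 ≤ n := by rw [hn]; exact abs_nonneg _
  have hb0 : 0 ≤ b := by rw [hb]; exact abs_nonneg _
  rw [← hn, ← hb]
  have k1 : |V (some (c 0)) - dd (G₁ 0) x V| ≤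
      b + n * (U * 2 ^ W / 2 ^ g₀ 0 + U * 2 ^ A / 2 ^ g₁ 0) := by
    have e1 : V (some (c 0)) - dd (G₁ 0) x V = (V (some (c 0)) - dd (G₀ 0) x V) +
        V none * ((Y (some (c 0)) - dd (G₁ 0) x Y) - (Y (some (c 0)) - dd (G₀ 0) x Y)) := by
      rw [dd_time hd1 hY V, dd_time hd0 hY V]
      ring
    rw [e1]
    refine (abs_add_le _ _).trans ?_
    rw [← hb, abs_mul, ← hn]
    refine add_le_add le_rfl (mul_le_mul_of_nonneg_left ?_ hn0)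
    refine (abs_sub _ _).trans ?_
    linarith
  have p0 : (0 : ℝ) < 2 ^ g₀ 0 := by positivity
  have p1 : (0 : ℝ) < 2 ^ g₁ 0 := by positivity
  have k2 : (2 : ℝ) ^ g₁ 0 ≤ 2 ^ g₀ 0 * 2 ^ z := by
    rw [← pow_add]
    exact pow_le_pow_right₀ (by norm_num) hg
  have k3 : (2 : ℝ) ^ A ≤ 2 ^ W * 2 ^ z := by
    rw [← pow_add]
    exact pow_le_pow_right₀ (by norm_num) hA
  have k4 : 2 ^ g₁ 0 * (U * 2 ^ W / 2 ^ g₀ 0) ≤ U * 2 ^ W * 2 ^ z := by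
    rw [← mul_div_assoc, div_le_iff₀ p0]
    calc 2 ^ g₁ 0 * (U * 2 ^ W) ≤ 2 ^ g₀ 0 * 2 ^ z * (U * 2 ^ W) :=
          mul_le_mul_of_nonneg_right k2 (by positivity)
      _ = _ := by ring
  have k5 : 2 ^ g₁ 0 * (U * 2 ^ A / 2 ^ g₁ 0) = U * 2 ^ A := by field_simp
  have k6 : 2 ^ g₁ 0 * |V (some (c 0)) - dd (G₁ 0) x V| ≤
      2 ^ z * (2 ^ g₀ 0 * b) + n * (2 * U * (2 ^ W * 2 ^ z)) := by
    refine (mul_le_mul_of_nonneg_left k1 p1.le).trans ?_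
    have e2 : 2 ^ g₁ 0 * (b + n * (U * 2 ^ W / 2 ^ g₀ 0 + U * 2 ^ A / 2 ^ g₁ 0)) =
        2 ^ g₁ 0 * b + n * (2 ^ g₁ 0 * (U * 2 ^ W / 2 ^ g₀ 0) +
          2 ^ g₁ 0 * (U * 2 ^ A / 2 ^ g₁ 0)) := by ring
    rw [e2, k5]
    have k7 : 2 ^ g₁ 0 * b ≤ 2 ^ z * (2 ^ g₀ 0 * b) := by
      calc 2 ^ g₁ 0 * b ≤ 2 ^ g₀ 0 * 2 ^ z * b := mul_le_mul_of_nonneg_right k2 hb0
        _ = _ := by ring
    have k8 : U * 2 ^ A ≤ U * (2 ^ W * 2 ^ z) := mul_le_mul_of_nonneg_left k3 hU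
    have k9 : n * (2 ^ g₁ 0 * (U * 2 ^ W / 2 ^ g₀ 0) + U * 2 ^ A) ≤
        n * (2 * U * (2 ^ W * 2 ^ z)) := by
      refine mul_le_mul_of_nonneg_left ?_ hn0
      linarith
    linarith
  have k10 : 2 ^ A * n ≤ 2 ^ W * 2 ^ z * n := mul_le_mul_of_nonneg_right k3 hn0
  have k11 : 0 ≤ 2 * U * 2 ^ z * (2 ^ g₀ 0 * b) := by positivity
  have e3 : (1 + 2 * U) * 2 ^ z * (2 ^ W * n + 2 ^ g₀ 0 * b) = 2 ^ W * 2 ^ z * n +
      n * (2 * U * (2 ^ W * 2 ^ z)) + 2 ^ z * (2 ^ g₀ 0 * b) + 2 * U * 2 ^ z * (2 ^ g₀ 0 * b) := by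
    ring
  rw [e3]
  linarith

/-- The components of a vector. -/
theorem comp_le {c : ℕ → Fin m} {W : ℕ} {g₀ : ℕ → ℕ} {U : ℝ}
    {G₀ : ℕ → MvPolynomial (Option (Fin m)) ℝ} {x Y : Option (Fin m) → ℝ}
    (hd0 : DepC c 0 (G₀ 0)) (hY : Y none = 1)
    (h0 : |Y (some (c 0)) - dd (G₀ 0) x Y| ≤ U * 2 ^ W / 2 ^ g₀ 0) (V : Option (Fin m) → ℝ) :
    |V none| ≤ nrm c G₀ g₀ W 1 x V / 2 ^ W ∧
      |V (some (c 0)) - V none * Y (some (c 0))| ≤
        (1 + U) * (nrm c G₀ g₀ W 1 x V / 2 ^ g₀ 0) := by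
  have h1 := nrm_none c G₀ g₀ W 1 x V
  have h2 := nrm_comp c G₀ g₀ W 1 x V (l := 0) one_pos
  refine ⟨h1, ?_⟩
  have e1 : V (some (c 0)) - V none * Y (some (c 0)) = (V (some (c 0)) - dd (G₀ 0) x V) -
      V none * (Y (some (c 0)) - dd (G₀ 0) x Y) := by
    rw [dd_time hd0 hY V]
    ring
  rw [e1]
  refine (abs_sub _ _).trans ?_
  rw [abs_mul]
  have hN := nrm_nonneg c G₀ g₀ W 1 x V
  have h3 : |V none| * |Y (some (c 0)) - dd (G₀ 0) x Y| ≤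
      nrm c G₀ g₀ W 1 x V / 2 ^ W * (U * 2 ^ W / 2 ^ g₀ 0) :=
    mul_le_mul h1 h0 (abs_nonneg _) (by positivity)
  have e2 : nrm c G₀ g₀ W 1 x V / 2 ^ W * (U * 2 ^ W / 2 ^ g₀ 0) =
      U * (nrm c G₀ g₀ W 1 x V / 2 ^ g₀ 0) := by
    field_simp
  rw [e2] at h3
  linarith

end Pool.C1
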