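import Pool.Agent.H3.D2G.C1a

/-!
# The closed gradient, at two windows

`c1_det`: the deterministic part of the cell with one coordinate before the target.
-/

set_option autoImplicit false

namespace Pool.C1

open Finset Real MvPolynomial
open Pool.Agent.H49.Ent Pool.Agent.H32.Dense Pool.STK Pool.KA Pool.KSAT Pool.K2S Pool.PB Pool.S6C
open Pool.GEN Pool.CHT Pool.CHX Pool.ISO Pool.D2R Pool.D2Z Pool.D2F Pool.RCV
open Pool.FLF (Fam.sub)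
open Pool.PB.Trl (rt rt_mem t_rt)

variable {m J : ℕ}

/-- The mean value theorem for a polynomial on the unit interval. -/
theorem pol_mv (h : Polynomial ℝ) {M : ℝ}
    (hM : ∀ τ ∈ Set.Icc (0 : ℝ) 1, |h.derivative.eval τ| ≤ M) {x y : ℝ}
    (hx : x ∈ Set.Icc (0 : ℝ) 1) (hy : y ∈ Set.Icc (0 : ℝ) 1) : |h.eval x - h.eval y| ≤ M := by
  have hM0 : 0 ≤ M := (abs_nonneg _).trans (hM x hx)
  have h1 := (convex_Icc (0 : ℝ) 1).norm_image_sub_le_of_norm_hasDerivWithin_le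
    (f := fun t => h.eval t) (f' := fun t => h.derivative.eval t) (C := M)
    (fun t _ => (h.hasDerivAt t).hasDerivWithinAt) (fun t ht => by
      rw [Real.norm_eq_abs]
      exact hM t ht) hy hx
  rw [Real.norm_eq_abs, Real.norm_eq_abs] at h1
  have h2 : |x - y| ≤ 1 := by
    rw [abs_le]
    constructor <;> linarith [hx.1, hx.2, hy.1, hy.2]
  refine h1.trans ?_
  calc M * |x - y| ≤ M * 1 := mul_le_mul_of_nonneg_left h2 hM0
    _ = M := mul_one M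

/-- **The row label against the ball chart**, in the norm of the ball. -/
theorem rel_nat {F : Fam m J} {c : ℕ → Fin m} {w a v p u : ℕ} {g gT : ℕ → ℕ} {U : ℝ}
    {B : F.Ω → Prop} {G₀ : PtT F → ℕ → MvPolynomial (Option (Fin m)) ℝ}
    {H₀ : LnT F → ℕ → MvPolynomial (Option (Fin m)) ℝ}
    {T : PtT F → ℕ → MvPolynomial (Option (Fin m)) ℝ}
    {TH : LnT F → ℕ → MvPolynomial (Option (Fin m)) ℝ}
    {Ht : LnT F → MvPolynomial (Option (Fin m)) ℝ}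
    (h : ROut1 F c 1 w a v g gT p U B G₀ H₀ T TH Ht) (ha : a ≤ J) (hU : 0 ≤ U) (hv : v ≤ u)
    (hg : gT 0 ≤ g 0 + u) (hT : ∀ s, TH s 0 = Hno (c 0) (fun s => H₀ s 0) s) {ω : F.Ω} (hω : B ω)
    (V : Option (Fin m) → ℝ) :
    |dd (Ht (slam F w ω)) (bt F ω) V - dd (G₀ (ptr F J ω) 1) (bt F ω) V| ≤
      (U * (1 + U) * (2 ^ u / 2 ^ p) + U / 2 ^ g 1) *
        nrm c (G₀ (ptr F J ω)) g a 1 (bt F ω) V := by
  have h1 := rel1 h ha hω V
  have h2 := nrm_thin h hU hv (fun l hl => by rw [Nat.lt_one_iff.1 hl]; exact hg)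
    (fun s l hl => by rw [Nat.lt_one_iff.1 hl]; exact hT s) hω V
  rw [pow_one] at h2
  have h3 : U / 2 ^ p * nrm c (TH (slam F a ω)) gT (a + v) 1 (bt F ω) V ≤
      U / 2 ^ p * ((1 + U) * 2 ^ u * nrm c (G₀ (ptr F J ω)) g a 1 (bt F ω) V) :=
    mul_le_mul_of_nonneg_left h2 (by positivity)
  refine h1.trans ((add_le_add h3 le_rfl).trans (le_of_eq ?_))
  ring

/-- Powers of two. -/
theorem two_frac {a b c d : ℕ} (h : a + d ≤ c + b) :
    (2 : ℝ) ^ a / 2 ^ b ≤ 2 ^ c / 2 ^ d := by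
  rw [div_le_div_iff₀ (by positivity) (by positivity), ← pow_add, ← pow_add]
  exact pow_le_pow_right₀ (by norm_num) h

/-- **The gradient of the deep ball chart is the same along the lines, with a gain.** -/
theorem c1_det (m D : ℕ) : ∃ C : ℕ, 1 ≤ C ∧ ∀ {J : ℕ} {F : Fam m J} {c : ℕ → Fin m}
    {W A v₀ v₁ u₀ u₁ p₀ p z t k e : ℕ} {g₀ g₁ k₀ k₁ : ℕ → ℕ} {U θ : ℝ} {B : F.Ω → Prop}
    {G₀ : PtT F → ℕ → MvPolynomial (Option (Fin m)) ℝ}
    {H₀ : LnT F → ℕ → MvPolynomial (Option (Fin m)) ℝ}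
    {T₀ : PtT F → ℕ → MvPolynomial (Option (Fin m)) ℝ}
    {TH₀ : LnT F → ℕ → MvPolynomial (Option (Fin m)) ℝ}
    {G₁ : PtT F → ℕ → MvPolynomial (Option (Fin m)) ℝ}
    {H₁ : LnT F → ℕ → MvPolynomial (Option (Fin m)) ℝ}
    {T₁ : PtT F → ℕ → MvPolynomial (Option (Fin m)) ℝ}
    {TH₁ : LnT F → ℕ → MvPolynomial (Option (Fin m)) ℝ}
    {Ht : LnT F → MvPolynomial (Option (Fin m)) ℝ} (hB : 0 < Pe F.p B),
    Set.InjOn c (Set.Iio 2) → W ≤ J → A ≤ J → (∀ s, (Ht s).totalDegree ≤ D) →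
    (∀ s, DepC c 1 (Ht s)) → (∀ y l, DepC c l (G₀ y l)) →
    ChOK F c 2 (fun _ => D) A A e g₁ B G₁ H₁ →
    ROut1 F c 1 W W v₀ g₀ k₀ p₀ U B G₀ H₀ T₀ TH₀ Ht →
    ROut1 F c 1 W A v₁ g₁ k₁ p U B G₁ H₁ T₁ TH₁ Ht → 0 ≤ U → U ≤ 2 ^ k →
    (∀ l ≤ 1, CurP F c A g₁ B G₁ (2 ^ k) l) →
    (∀ s, TH₀ s 0 = Hno (c 0) (fun s => H₀ s 0) s) →
    (∀ s, TH₁ s 0 = Hno (c 0) (fun s => H₁ s 0) s) →
    v₀ ≤ u₀ → k₀ 0 ≤ g₀ 0 + u₀ → v₁ ≤ u₁ → k₁ 0 ≤ g₁ 0 + u₁ → A ≤ W + z → g₁ 0 ≤ g₀ 0 + z →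
    g₀ 1 + u₀ ≤ p₀ + k → g₀ 1 + t + 2 * z + u₁ ≤ p → g₀ 1 + t + 2 * z ≤ g₁ 1 →
    (∀ l < 2, e + g₁ l + C ≤ J) → 0 ≤ θ → (Fam.sub F B hB).Tm θ →
    C * (θ + 1) ≤ ((J : ℝ) - W) * Real.log 2 → Real.exp (C * (θ + 1)) ≤ 2 ^ k →
    ∃ B' : F.Ω → Prop, Sub B' B ∧ Pe F.p B ≤ 2 * Pe F.p B' ∧
      (∀ ω, B' ω → ∀ V : Option (Fin m) → ℝ,
        |cv (gpt F G₁ (ptr F J ω) 1) V - dd (G₀ (ptr F J ω) 1) (bt F ω) V| ≤
          2 ^ (C * (k + 1)) / 2 ^ g₀ 1 * nrm c (G₀ (ptr F J ω)) g₀ W 1 (bt F ω) V) ∧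
      (∀ ω, B' ω → |bd F ω (some (c 1)) - cv (gpt F G₁ (ptr F J ω) 1) (bd F ω)| ≤
        2 ^ (C * (k + 1)) * 2 ^ W / 2 ^ (g₀ 1 + t)) ∧
      (∀ ω ω', B' ω → B' ω' → slam F W ω = slam F W ω' → ∀ V : Option (Fin m) → ℝ,
        |cv (gpt F G₁ (ptr F J ω') 1) V - cv (gpt F G₁ (ptr F J ω) 1) V| ≤
          2 ^ (C * (k + 1)) / 2 ^ (g₀ 1 + t) *
            (nrm c (G₀ (ptr F J ω)) g₀ W 1 (bt F ω) V +
              nrm c (G₀ (ptr F J ω')) g₀ W 1 (bt F ω') V)) := by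
  classical
  obtain ⟨C₁, hC₁, hgpt⟩ := gpt_near D 2
  obtain ⟨C₂, hC₂, hrem⟩ := rem_fam m D 1
  obtain ⟨N, hN⟩ := exists_nat_ge C₂
  obtain ⟨C, hC⟩ : ∃ C : ℕ, C = C₁ + N + 9 := ⟨_, rfl⟩
  have hCR : C₂ ≤ C := by
    rw [hC]
    push_cast
    have : (0 : ℝ) ≤ C₁ := Nat.cast_nonneg _
    linarith
  refine ⟨C, by omega, ?_⟩
  intro J F c W A v₀ v₁ u₀ u₁ p₀ p z t k e g₀ g₁ k₀ k₁ U θ B G₀ H₀ T₀ TH₀ G₁ H₁ T₁ TH₁ Ht hB hc hWJ
    hAJ hdH hpH hpG hch r0 r1 hU hUk hcur hT₀ hT₁ hv₀ hk₀ hv₁ hk₁ hAz hgz hp0 hp1 hg1 hJ hθ hTm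
    hJW hexp
  obtain ⟨Y, hY⟩ : ∃ Y : ℝ, Y = 2 ^ k := ⟨_, rfl⟩
  have hY1 : 1 ≤ Y := by rw [hY]; exact one_le_pow₀ (by norm_num)
  have hY0 : 0 ≤ Y := by linarith
  rw [← hY] at hUk
  -- the unit
  obtain ⟨ε, hε⟩ : ∃ ε : ℝ, ε = 1 / 2 ^ (g₀ 1 + t) := ⟨_, rfl⟩
  have hε0 : 0 < ε := by rw [hε]; positivity
  have f1 : (2 : ℝ) ^ z * (2 ^ u₁ / 2 ^ p) ≤ ε := by
    rw [← mul_div_assoc, ← pow_add, hε, ← pow_zero (2 : ℝ)]
    exact two_frac (by omega)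
  have f2 : (2 : ℝ) ^ z * (1 / 2 ^ g₁ 1) ≤ ε := by
    rw [mul_one_div, hε, ← pow_zero (2 : ℝ)]
    exact two_frac (by omega)
  have f3 : (2 : ℝ) ^ A ≤ 2 ^ W * 2 ^ z := by
    rw [← pow_add]
    exact pow_le_pow_right₀ (by norm_num) hAz
  have f4 : (2 : ℝ) ^ A * (2 ^ u₁ / 2 ^ p) ≤ 2 ^ W * ε := by
    calc (2 : ℝ) ^ A * (2 ^ u₁ / 2 ^ p) ≤ 2 ^ W * 2 ^ z * (2 ^ u₁ / 2 ^ p) :=
          mul_le_mul_of_nonneg_right f3 (by positivity)
      _ = 2 ^ W * (2 ^ z * (2 ^ u₁ / 2 ^ p)) := by ring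
      _ ≤ _ := mul_le_mul_of_nonneg_left f1 (by positivity)
  have f5 : (2 : ℝ) ^ A * (1 / 2 ^ g₁ 1) ≤ 2 ^ W * ε := by
    calc (2 : ℝ) ^ A * (1 / 2 ^ g₁ 1) ≤ 2 ^ W * 2 ^ z * (1 / 2 ^ g₁ 1) :=
          mul_le_mul_of_nonneg_right f3 (by positivity)
      _ = 2 ^ W * (2 ^ z * (1 / 2 ^ g₁ 1)) := by ring
      _ ≤ _ := mul_le_mul_of_nonneg_left f2 (by positivity)
  -- the norms
  have hgr : ∀ ω, B ω → ∀ V : Option (Fin m) → ℝ,
      nrm c (G₁ (ptr F J ω)) g₁ A 1 (bt F ω) V ≤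
        (1 + 2 * U) * 2 ^ z * nrm c (G₀ (ptr F J ω)) g₀ W 1 (bt F ω) V := fun ω hω V =>
    nrm_gr (Y := bd F ω) (hpG _ 0) (hch.depG _ 0) rfl (r0.vel ω ω hω hω rfl 0 (by omega))
      (r1.vel ω ω hω hω rfl 0 (by omega)) hU hAz hgz V
  have hN0 : ∀ (ω : F.Ω) (V : Option (Fin m) → ℝ),
      0 ≤ nrm c (G₀ (ptr F J ω)) g₀ W 1 (bt F ω) V := fun ω V => nrm_nonneg _ _ _ _ _ _ _
  -- the row label against the rounded gradient
  have hround : ∀ ω, B ω → ∀ V : Option (Fin m) → ℝ,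
      |cv (gpt F G₁ (ptr F J ω) 1) V - dd (G₁ (ptr F J ω) 1) (bt F ω) V| ≤
        1 / 2 ^ g₁ 1 * nrm c (G₁ (ptr F J ω)) g₁ A 1 (bt F ω) V := by
    intro ω hω V
    have h1 := hgpt (r := 2) hc le_rfl hch (fun l hl => by
      have := hJ l hl
      omega) ω hω 1 (by omega) V
    rwa [cv_subl, cv_grd, ← nrm_en] at h1
  have hrel : ∀ ω, B ω → ∀ V : Option (Fin m) → ℝ,
      |cv (gpt F G₁ (ptr F J ω) 1) V - dd (Ht (slam F W ω)) (bt F ω) V| ≤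
        12 * Y ^ 3 * ε * nrm c (G₀ (ptr F J ω)) g₀ W 1 (bt F ω) V := by
    intro ω hω V
    have h1 := hround ω hω V
    have h2 := rel_nat r1 hAJ hU hv₁ hk₁ hT₁ hω V
    have h3 := hgr ω hω V
    have h4 := hN0 ω V
    obtain ⟨n, hn⟩ : ∃ n, n = nrm c (G₀ (ptr F J ω)) g₀ W 1 (bt F ω) V := ⟨_, rfl⟩
    obtain ⟨n₁, hn₁⟩ : ∃ n₁, n₁ = nrm c (G₁ (ptr F J ω)) g₁ A 1 (bt F ω) V := ⟨_, rfl⟩
    rw [← hn, ← hn₁] at h3
    rw [← hn₁] at h1 h2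
    rw [← hn] at h4 ⊢
    have e1 : cv (gpt F G₁ (ptr F J ω) 1) V - dd (Ht (slam F W ω)) (bt F ω) V =
        (cv (gpt F G₁ (ptr F J ω) 1) V - dd (G₁ (ptr F J ω) 1) (bt F ω) V) -
        (dd (Ht (slam F W ω)) (bt F ω) V - dd (G₁ (ptr F J ω) 1) (bt F ω) V) := by ring
    rw [e1]
    refine (abs_sub _ _).trans ((add_le_add h1 h2).trans ?_)
    have h5 : 1 / 2 ^ g₁ 1 * n₁ + (U * (1 + U) * (2 ^ u₁ / 2 ^ p) + U / 2 ^ g₁ 1) * n₁ ≤
        (1 / 2 ^ g₁ 1 + (U * (1 + U) * (2 ^ u₁ / 2 ^ p) + U / 2 ^ g₁ 1)) *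
          ((1 + 2 * U) * 2 ^ z * n) := by
      rw [← add_mul]
      exact mul_le_mul_of_nonneg_left h3 (by positivity)
    refine h5.trans ?_
    have h6 : (1 / 2 ^ g₁ 1 + (U * (1 + U) * (2 ^ u₁ / 2 ^ p) + U / 2 ^ g₁ 1)) *
        ((1 + 2 * U) * 2 ^ z * n) = (1 + 2 * U) * n * ((1 + U) * (2 ^ z * (1 / 2 ^ g₁ 1)) +
          U * (1 + U) * (2 ^ z * (2 ^ u₁ / 2 ^ p))) := by ring
    rw [h6]
    have h7 : (1 + U) * (2 ^ z * (1 / 2 ^ g₁ 1)) + U * (1 + U) * (2 ^ z * (2 ^ u₁ / 2 ^ p)) ≤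
        (1 + U) * ε + U * (1 + U) * ε :=
      add_le_add (mul_le_mul_of_nonneg_left f2 (by linarith))
        (mul_le_mul_of_nonneg_left f1 (by positivity))
    have h8 : (1 + U) * ε + U * (1 + U) * ε ≤ 4 * Y ^ 2 * ε := by
      have : (1 + U) * (1 + U) ≤ (2 * Y) * (2 * Y) :=
        mul_le_mul (by linarith) (by linarith) (by linarith) (by linarith)
      have e2 : (1 + U) * ε + U * (1 + U) * ε = (1 + U) * (1 + U) * ε := by ring
      rw [e2]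
      refine (mul_le_mul_of_nonneg_right this hε0.le).trans (le_of_eq ?_)
      ring
    calc (1 + 2 * U) * n * ((1 + U) * (2 ^ z * (1 / 2 ^ g₁ 1)) +
          U * (1 + U) * (2 ^ z * (2 ^ u₁ / 2 ^ p))) ≤ 3 * Y * n * (4 * Y ^ 2 * ε) := by
          refine mul_le_mul (mul_le_mul_of_nonneg_right (by linarith) h4) (h7.trans h8)
            (by positivity) (by positivity)
      _ = _ := by ring
  -- the velocity of the row label
  have hbd : ∀ ω, B ω → |dd (Ht (slam F W ω)) (bt F ω) (bd F ω) - bd F ω (some (c 1))| ≤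
      7 * Y ^ 3 * (2 ^ W * ε) := by
    intro ω hω
    have h1 := rel_nat r1 hAJ hU hv₁ hk₁ hT₁ hω (bd F ω)
    have h2 := nrm_bd r1 hω
    have h3 := r1.vel ω ω hω hω rfl 1 le_rfl
    rw [Nat.cast_one, one_mul] at h2
    have e1 : dd (Ht (slam F W ω)) (bt F ω) (bd F ω) - bd F ω (some (c 1)) =
        (dd (Ht (slam F W ω)) (bt F ω) (bd F ω) - dd (G₁ (ptr F J ω) 1) (bt F ω) (bd F ω)) -
        (bd F ω (some (c 1)) - dd (G₁ (ptr F J ω) 1) (bt F ω) (bd F ω)) := by ring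
    rw [e1]
    refine (abs_sub _ _).trans ((add_le_add (h1.trans (mul_le_mul_of_nonneg_left h2
      (by positivity))) h3).trans ?_)
    have e2 : (U * (1 + U) * (2 ^ u₁ / 2 ^ p) + U / 2 ^ g₁ 1) * ((1 + U) * 2 ^ A) +
        U * 2 ^ A / 2 ^ g₁ 1 = U * (1 + U) * (1 + U) * (2 ^ A * (2 ^ u₁ / 2 ^ p)) +
          (U * (1 + U) + U) * (2 ^ A * (1 / 2 ^ g₁ 1)) := by ring
    rw [e2]
    have h4 := mul_le_mul_of_nonneg_left f4 (show 0 ≤ U * (1 + U) * (1 + U) by positivity)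
    have h5 := mul_le_mul_of_nonneg_left f5 (show 0 ≤ U * (1 + U) + U by positivity)
    refine (add_le_add h4 h5).trans ?_
    rw [← add_mul]
    refine mul_le_mul_of_nonneg_right ?_ (by positivity)
    have h6 : U * (1 + U) * (1 + U) ≤ Y * (2 * Y) * (2 * Y) :=
      mul_le_mul (mul_le_mul hUk (by linarith) (by linarith) hY0) (by linarith) (by linarith)
        (by positivity)
    have h7 : U * (1 + U) ≤ Y * (2 * Y) := mul_le_mul hUk (by linarith) (by linarith) hY0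
    nlinarith [mul_nonneg hY0 hY0, mul_nonneg (mul_nonneg hY0 hY0) hY0,
      mul_nonneg hY0 (sub_nonneg.2 hY1), mul_nonneg (mul_nonneg hY0 hY0) (sub_nonneg.2 hY1)]
  -- the second derivative
  obtain ⟨M, hM⟩ : ∃ M : ℝ, M = 164 * Y ^ 5 * (2 ^ g₀ 0 * ε) := ⟨_, rfl⟩
  have hM0 : 0 < M := by
    rw [hM]
    have : 0 < Y := by linarith
    positivity
  obtain ⟨h, hh⟩ : ∃ h : LnT F → Polynomial ℝ, h = fun s =>
      MvPolynomial.aeval (lc W s) (pderiv (some (c 0)) (Ht s)) := ⟨_, rfl⟩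
  have hval : ∀ ω : F.Ω, (h (slam F W ω)).eval (rt F W ω) =
      dd (Ht (slam F W ω)) (bt F ω) (e0 c) := by
    intro ω
    rw [hh]
    show (MvPolynomial.aeval (lc W (slam F W ω)) (pderiv (some (c 0)) (Ht (slam F W ω)))).eval
      (rt F W ω) = _
    rw [aeval_lc, ptw_rt F hWJ ω, ddp_e0]
  have hder : ∀ ω, B ω → |(Polynomial.derivative (h (slam F W ω))).eval (rt F W ω)| ≤ M := by
    intro ω hω
    have h1 := cov_rough (K := Y) r1 hAJ hU hY0 hv₁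
      (fun l hl => by rw [Nat.lt_one_iff.1 hl]; exact hk₁)
      (fun s l hl => by rw [Nat.lt_one_iff.1 hl]; exact hT₁ s) hω (fun l hl V => by
        have h2 := (hcur l hl).own hω V
        rwa [← hY] at h2) (e0 c)
    rw [nrm_e0 (hch.depG _ 0), Nat.cast_one] at h1
    have e1 : (Polynomial.derivative (h (slam F W ω))).eval (rt F W ω) =
        1 / 2 ^ W * hs (Ht (slam F W ω)) (bt F ω) (bd F ω) (e0 c) := by
      rw [hh, hs_e0]
      exact dd_own hWJ ω _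
    rw [e1, abs_mul, abs_of_pos (by positivity : (0 : ℝ) < 1 / 2 ^ W)]
    refine (mul_le_mul_of_nonneg_left h1 (by positivity)).trans ?_
    have hkc : 3 * U * kc 1 U Y + U * (1 + 1 * U) + kc 1 U Y ≤ 82 * Y ^ 5 := by
      have hkc0 := kc_nonneg 1 hU hY0
      have hU2 : U * U ≤ Y * Y := mul_le_mul hUk hUk hU hY0
      have h3 : kc 1 U Y ≤ 20 * Y ^ 4 := by
        unfold kc
        rw [Nat.cast_one, pow_one]
        have h4 : Y + U * (1 + 1 * U) + U * (1 * Y) ≤ 4 * Y ^ 2 := by nlinarith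
        have h5 : 1 + U ≤ 2 * Y := by linarith
        have h6 : (Y + U * (1 + 1 * U) + U * (1 * Y)) * (1 + U) * (1 + U) ≤
            4 * Y ^ 2 * (2 * Y) * (2 * Y) :=
          mul_le_mul (mul_le_mul h4 h5 (by linarith) (by positivity)) h5 (by linarith)
            (by positivity)
        have h7 : Y ≤ Y ^ 4 := le_self_pow₀ hY1 (by norm_num)
        nlinarith
      have h8 : 3 * U * kc 1 U Y ≤ 3 * Y * (20 * Y ^ 4) :=
        mul_le_mul (by linarith) h3 hkc0 (by positivity)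
      have h9 : Y ^ 2 ≤ Y ^ 5 := pow_le_pow_right₀ hY1 (by norm_num)
      have h10 : Y ^ 4 ≤ Y ^ 5 := pow_le_pow_right₀ hY1 (by norm_num)
      have h11 : Y ≤ Y ^ 5 := le_self_pow₀ hY1 (by norm_num)
      nlinarith
    have hfr : (2 : ℝ) ^ (A + u₁) / 2 ^ p + 2 ^ A / 2 ^ g₁ 1 ≤
        2 * (2 ^ W / 2 ^ (g₀ 1 + t + z)) := by
      have k1 : (2 : ℝ) ^ (A + u₁) / 2 ^ p ≤ 2 ^ W / 2 ^ (g₀ 1 + t + z) := two_frac (by omega)
      have k2 : (2 : ℝ) ^ A / 2 ^ g₁ 1 ≤ 2 ^ W / 2 ^ (g₀ 1 + t + z) := two_frac (by omega)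
      linarith
    have hg1' : (2 : ℝ) ^ g₁ 0 ≤ 2 ^ g₀ 0 * 2 ^ z := by
      rw [← pow_add]
      exact pow_le_pow_right₀ (by norm_num) hgz
    have hK0 : 0 ≤ 3 * U * kc 1 U Y + U * (1 + 1 * U) + kc 1 U Y := by
      have := kc_nonneg 1 hU hY0
      positivity
    calc 1 / 2 ^ W * ((3 * U * kc 1 U Y + U * (1 + 1 * U) + kc 1 U Y) *
          (2 ^ (A + u₁) / 2 ^ p + 2 ^ A / 2 ^ g₁ 1) * 2 ^ g₁ 0)
        ≤ 1 / 2 ^ W * (82 * Y ^ 5 * (2 * (2 ^ W / 2 ^ (g₀ 1 + t + z))) * (2 ^ g₀ 0 * 2 ^ z)) := by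
          refine mul_le_mul_of_nonneg_left (mul_le_mul (mul_le_mul hkc hfr (by positivity)
            (by positivity)) hg1' (by positivity) (by positivity)) (by positivity)
      _ = M := by
          rw [hM, hε, pow_add 2 (g₀ 1 + t) z]
          field_simp
          ring
  have hdeg : ∀ s, (Polynomial.derivative (h s)).natDegree ≤ D := by
    intro s
    refine (Polynomial.natDegree_derivative_le _).trans ((Nat.sub_le _ _).trans ?_)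
    rw [hh]
    exact Pool.KBX.natDegree_aeval_le _ _ (natDegree_lc W s) (totalDegree_pdσ (hdH s) _)
  have hCθ : C₂ * (θ + 1) ≤ C * (θ + 1) := mul_le_mul_of_nonneg_right hCR (by linarith)
  obtain ⟨B', b1, b2, b3⟩ := hrem J F B hB W (fun _ s => Polynomial.derivative (h s))
    (fun _ => M) θ hWJ (fun _ _ s => hdeg s) (fun _ _ => hM0) hθ hTm (hCθ.trans hJW)
    (fun ω hω i _ => hder ω hω)
  have hM' : ∀ ω, B' ω → ∀ τ ∈ Set.Icc (0 : ℝ) 1,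
      |(Polynomial.derivative (h (slam F W ω))).eval τ| ≤ Y * M := by
    intro ω hω τ hτ
    refine (b3 ω hω 0 one_pos τ hτ).trans (mul_le_mul_of_nonneg_right ?_ hM0.le)
    rw [hY]
    exact (Real.exp_le_exp.2 hCθ).trans hexp
  -- the constant
  have hfin : 354 * Y ^ 7 ≤ 2 ^ (C * (k + 1)) := by
    have h1 : (354 : ℝ) * Y ^ 7 ≤ 2 ^ 9 * Y ^ 7 :=
      mul_le_mul_of_nonneg_right (by norm_num) (by positivity)
    refine h1.trans ?_
    rw [hY, ← pow_mul, ← pow_add]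
    refine pow_le_pow_right₀ (by norm_num) ?_
    rw [hC]
    nlinarith [Nat.zero_le (C₁ * (k + 1)), Nat.zero_le (N * (k + 1))]
  have hY37 : Y ^ 3 ≤ Y ^ 7 := pow_le_pow_right₀ hY1 (by norm_num)
  have hY27 : Y ^ 2 ≤ Y ^ 7 := pow_le_pow_right₀ hY1 (by norm_num)
  have hY17 : Y ≤ Y ^ 7 := le_self_pow₀ hY1 (by norm_num)
  have hY70 : 0 ≤ Y ^ 7 := by positivity
  have hpow : (0 : ℝ) < 2 ^ (C * (k + 1)) := by positivity
  refine ⟨B', b1, by linarith, fun ω hω V => ?_, fun ω hω => ?_, fun ω ω' hω hω' hs V => ?_⟩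
  · -- near
    have hωB := b1 ω hω
    have h1 := hrel ω hωB V
    have h2 := rel_nat r0 hWJ hU hv₀ hk₀ hT₀ hωB V
    have h3 := hN0 ω V
    obtain ⟨n, hn⟩ : ∃ n, n = nrm c (G₀ (ptr F J ω)) g₀ W 1 (bt F ω) V := ⟨_, rfl⟩
    rw [← hn] at h1 h2 h3 ⊢
    have e1 : cv (gpt F G₁ (ptr F J ω) 1) V - dd (G₀ (ptr F J ω) 1) (bt F ω) V =
        (cv (gpt F G₁ (ptr F J ω) 1) V - dd (Ht (slam F W ω)) (bt F ω) V) +
        (dd (Ht (slam F W ω)) (bt F ω) V - dd (G₀ (ptr F J ω) 1) (bt F ω) V) := by ring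
    rw [e1]
    refine (abs_add_le _ _).trans ((add_le_add h1 h2).trans ?_)
    rw [← add_mul]
    refine mul_le_mul_of_nonneg_right ?_ h3
    have h4 : ε ≤ 1 / 2 ^ g₀ 1 := by
      rw [hε]
      exact one_div_le_one_div_of_le (by positivity) (pow_le_pow_right₀ (by norm_num) (by omega))
    have h5 : (2 : ℝ) ^ u₀ / 2 ^ p₀ ≤ Y / 2 ^ g₀ 1 := by
      rw [hY]
      exact two_frac (by omega)
    have h6 : 12 * Y ^ 3 * ε + (U * (1 + U) * (2 ^ u₀ / 2 ^ p₀) + U / 2 ^ g₀ 1) ≤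
        (12 * Y ^ 3 + (U * (1 + U) * Y + U)) * (1 / 2 ^ g₀ 1) := by
      have k1 := mul_le_mul_of_nonneg_left h4 (show 0 ≤ 12 * Y ^ 3 by positivity)
      have k2 := mul_le_mul_of_nonneg_left h5 (show 0 ≤ U * (1 + U) by positivity)
      have e2 : (12 * Y ^ 3 + (U * (1 + U) * Y + U)) * (1 / 2 ^ g₀ 1) =
          12 * Y ^ 3 * (1 / 2 ^ g₀ 1) + U * (1 + U) * (Y / 2 ^ g₀ 1) + U / 2 ^ g₀ 1 := by ring
      rw [e2]
      linarith
    refine h6.trans ?_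
    rw [div_eq_mul_one_div ((2 : ℝ) ^ (C * (k + 1)))]
    refine mul_le_mul_of_nonneg_right (le_trans ?_ hfin) (by positivity)
    have h7 : U * (1 + U) * Y ≤ Y * (2 * Y) * Y :=
      mul_le_mul_of_nonneg_right (mul_le_mul hUk (by linarith) (by linarith) hY0) hY0
    nlinarith
  · -- vel
    have hωB := b1 ω hω
    have h1 := hround ω hωB (bd F ω)
    have h2 := nrm_bd r1 hωB
    have h3 := r1.vel ω ω hωB hωB rfl 1 le_rfl
    rw [Nat.cast_one, one_mul] at h2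
    have e1 : bd F ω (some (c 1)) - cv (gpt F G₁ (ptr F J ω) 1) (bd F ω) =
        (bd F ω (some (c 1)) - dd (G₁ (ptr F J ω) 1) (bt F ω) (bd F ω)) -
        (cv (gpt F G₁ (ptr F J ω) 1) (bd F ω) - dd (G₁ (ptr F J ω) 1) (bt F ω) (bd F ω)) := by
      ring
    rw [e1]
    refine (abs_sub _ _).trans ((add_le_add h3 (h1.trans (mul_le_mul_of_nonneg_left h2
      (by positivity)))).trans ?_)
    have e2 : U * 2 ^ A / 2 ^ g₁ 1 + 1 / 2 ^ g₁ 1 * ((1 + U) * 2 ^ A) =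
        (1 + 2 * U) * (2 ^ A * (1 / 2 ^ g₁ 1)) := by ring
    have e3 : (2 : ℝ) ^ (C * (k + 1)) * 2 ^ W / 2 ^ (g₀ 1 + t) =
        2 ^ (C * (k + 1)) * (2 ^ W * ε) := by
      rw [hε]
      ring
    rw [e2, e3]
    have h4 : (1 + 2 * U) * (2 ^ A * (1 / 2 ^ g₁ 1)) ≤ (1 + 2 * U) * (2 ^ W * ε) :=
      mul_le_mul_of_nonneg_left f5 (by linarith)
    refine h4.trans (mul_le_mul_of_nonneg_right (le_trans ?_ hfin) (by positivity))
    linarith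
  · -- same
    have hωB := b1 ω hω
    have hωB' := b1 ω' hω'
    have h1 := hrel ω hωB V
    have h2 := hrel ω' hωB' V
    have h3 := hN0 ω V
    have h4 := hN0 ω' V
    have hbb : bd F ω = bd F ω' := by rw [← wd_slam F W ω, ← wd_slam F W ω', hs]
    have h5 := hbd ω hωB
    have h6 := hbd ω' hωB'
    have h7 := pol_mv (h (slam F W ω)) (hM' ω hω) (rt_mem F W ω') (rt_mem F W ω)
    have h8 : (h (slam F W ω)).eval (rt F W ω') = dd (Ht (slam F W ω)) (bt F ω') (e0 c) := by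
      have := hval ω'
      rwa [← hs] at this
    rw [h8, hval ω] at h7
    rw [← hs, ← hbb] at h6
    rw [← hs] at h2
    obtain ⟨c1, c2⟩ := comp_le (Y := bd F ω) (hpG (ptr F J ω) 0) rfl
      (r0.vel ω ω hωB hωB rfl 0 (by omega)) V
    have hrow : |dd (Ht (slam F W ω)) (bt F ω') V - dd (Ht (slam F W ω)) (bt F ω) V| ≤
        (14 * Y ^ 3 + 328 * Y ^ 7) * ε * nrm c (G₀ (ptr F J ω)) g₀ W 1 (bt F ω) V := by
      rw [dd_split (hpH _) (Y := bd F ω) rfl V, dd_split (hpH _) (x := bt F ω) (Y := bd F ω) rfl V]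
      obtain ⟨n, hn⟩ : ∃ n, n = nrm c (G₀ (ptr F J ω)) g₀ W 1 (bt F ω) V := ⟨_, rfl⟩
      rw [← hn] at c1 c2 h3 ⊢
      obtain ⟨d₁, hd₁⟩ : ∃ d₁, d₁ = dd (Ht (slam F W ω)) (bt F ω') (bd F ω) -
        dd (Ht (slam F W ω)) (bt F ω) (bd F ω) := ⟨_, rfl⟩
      have k1 : |d₁| ≤ 14 * Y ^ 3 * (2 ^ W * ε) := by
        have e1 : d₁ = (dd (Ht (slam F W ω)) (bt F ω') (bd F ω) - bd F ω (some (c 1))) -
            (dd (Ht (slam F W ω)) (bt F ω) (bd F ω) - bd F ω (some (c 1))) := by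
          rw [hd₁]
          ring
        rw [e1]
        refine (abs_sub _ _).trans ?_
        linarith
      have e2 : V none * dd (Ht (slam F W ω)) (bt F ω') (bd F ω) +
          (V (some (c 0)) - V none * bd F ω (some (c 0))) *
            dd (Ht (slam F W ω)) (bt F ω') (e0 c) -
          (V none * dd (Ht (slam F W ω)) (bt F ω) (bd F ω) +
          (V (some (c 0)) - V none * bd F ω (some (c 0))) *
            dd (Ht (slam F W ω)) (bt F ω) (e0 c)) = V none * d₁ +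
          (V (some (c 0)) - V none * bd F ω (some (c 0))) *
            (dd (Ht (slam F W ω)) (bt F ω') (e0 c) - dd (Ht (slam F W ω)) (bt F ω) (e0 c)) := by
        rw [hd₁]
        ring
      rw [e2]
      refine (abs_add_le _ _).trans ?_
      rw [abs_mul, abs_mul]
      have k2 : |V none| * |d₁| ≤ n / 2 ^ W * (14 * Y ^ 3 * (2 ^ W * ε)) :=
        mul_le_mul c1 k1 (abs_nonneg _) (by positivity)
      have k3 : |V (some (c 0)) - V none * bd F ω (some (c 0))| *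
          |dd (Ht (slam F W ω)) (bt F ω') (e0 c) - dd (Ht (slam F W ω)) (bt F ω) (e0 c)| ≤
          (1 + U) * (n / 2 ^ g₀ 0) * (Y * M) :=
        mul_le_mul c2 h7 (abs_nonneg _) (by positivity)
      have e3 : n / 2 ^ W * (14 * Y ^ 3 * (2 ^ W * ε)) = 14 * Y ^ 3 * ε * n := by field_simp
      have e4 : (1 + U) * (n / 2 ^ g₀ 0) * (Y * M) = (1 + U) * (164 * Y ^ 6 * ε * n) := by
        rw [hM]
        field_simp
      have k4 : (1 + U) * (164 * Y ^ 6 * ε * n) ≤ 2 * Y * (164 * Y ^ 6 * ε * n) :=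
        mul_le_mul_of_nonneg_right (by linarith) (by positivity)
      rw [e3] at k2
      rw [e4] at k3
      refine (add_le_add k2 (k3.trans k4)).trans (le_of_eq ?_)
      ring
    have e5 : cv (gpt F G₁ (ptr F J ω') 1) V - cv (gpt F G₁ (ptr F J ω) 1) V =
        (cv (gpt F G₁ (ptr F J ω') 1) V - dd (Ht (slam F W ω)) (bt F ω') V) -
        (cv (gpt F G₁ (ptr F J ω) 1) V - dd (Ht (slam F W ω)) (bt F ω) V) +
        (dd (Ht (slam F W ω)) (bt F ω') V - dd (Ht (slam F W ω)) (bt F ω) V) := by ring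
    rw [e5]
    refine (abs_add_le _ _).trans ((add_le_add ((abs_sub _ _).trans (add_le_add h2 h1))
      hrow).trans ?_)
    obtain ⟨n, hn⟩ : ∃ n, n = nrm c (G₀ (ptr F J ω)) g₀ W 1 (bt F ω) V := ⟨_, rfl⟩
    obtain ⟨n', hn'⟩ : ∃ n', n' = nrm c (G₀ (ptr F J ω')) g₀ W 1 (bt F ω') V := ⟨_, rfl⟩
    rw [← hn] at h3
    rw [← hn'] at h4
    rw [← hn, ← hn']
    have e6 : (2 : ℝ) ^ (C * (k + 1)) / 2 ^ (g₀ 1 + t) = 2 ^ (C * (k + 1)) * ε := by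
      rw [hε]
      ring
    rw [e6]
    have k5 : 12 * Y ^ 3 * ε * n' + 12 * Y ^ 3 * ε * n + (14 * Y ^ 3 + 328 * Y ^ 7) * ε * n ≤
        354 * Y ^ 7 * ε * (n + n') := by
      have q1 : 0 ≤ ε * n := mul_nonneg hε0.le h3
      have q2 : 0 ≤ ε * n' := mul_nonneg hε0.le h4
      nlinarith [mul_nonneg (sub_nonneg.2 hY37) q1, mul_nonneg (sub_nonneg.2 hY37) q2,
        mul_nonneg hY70 q1, mul_nonneg hY70 q2]
    refine k5.trans ?_
    have k6 := mul_le_mul_of_nonneg_right hfin (show 0 ≤ ε * (n + n') from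
      mul_nonneg hε0.le (by linarith))
    calc 354 * Y ^ 7 * ε * (n + n') = 354 * Y ^ 7 * (ε * (n + n')) := by ring
      _ ≤ 2 ^ (C * (k + 1)) * (ε * (n + n')) := k6
      _ = _ := by ring

end Pool.C1
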