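import Pool.Agent.H3.D2G.C1b

/-!
# The cell with one coordinate before the target, in a class

`c1_cls`: in a class, at two windows `w`, `w + q / 2` with the common radius `w + q`: the growth of
the ball threshold is more than `2`, the row label has the precision `2 q` over the ball. Then there
is a ball label above the threshold `P₂`: a contradiction.
-/

set_option autoImplicit false

namespace Pool.C1

open Finset Real MvPolynomial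
open Pool.Agent.H49.Ent Pool.Agent.H32.Dense Pool.STK Pool.KA Pool.KSAT Pool.K2S Pool.PB Pool.S6C
open Pool.GEN Pool.CHT Pool.CHX Pool.ISO Pool.D2R Pool.D2Z Pool.D2F Pool.RCV
open Pool.LBT (LSys Slo Tri ThrOf fl_le' bas_false)
open Pool.LEV (Law)
open Pool.FLF (Fam.sub)
open Pool.PB.Trl (rt rt_mem t_rt)

variable {m : ℕ}

/-- The losses. -/
theorem num_k {Cr X : ℝ} {Cf Cd k s L k₃ : ℕ} (hCr : 1 ≤ Cr) (hCf : 1 ≤ Cf) (hX : 1 ≤ X)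
    (hk : k = ⌈(Cr + 6) * X⌉₊) (hs : s = ⌈3 * X⌉₊) (hL : L = Cf * (k + s + 1))
    (hk₃ : k₃ = Cd * (L + 1) + 2 * L + 6) :
    (Cr + 6) * X ≤ k ∧ 3 * X ≤ s ∧ (s : ℝ) ≤ 4 * X ∧ (Cr + 9) * X + 1 ≤ L ∧
      (L : ℝ) ≤ ((Cd + 2) * Cf * (Cr + 13) + 4) * X ∧
      (k₃ : ℝ) ≤ ((Cd + 2) * Cf * (Cr + 13) + 4) * X := by
  have h1 : (Cr + 6) * X ≤ k := by rw [hk]; exact Nat.le_ceil _
  have h2 : 3 * X ≤ s := by rw [hs]; exact Nat.le_ceil _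
  have h3 : (k : ℝ) < (Cr + 6) * X + 1 := by rw [hk]; exact Nat.ceil_lt_add_one (by positivity)
  have h4 : (s : ℝ) < 3 * X + 1 := by rw [hs]; exact Nat.ceil_lt_add_one (by positivity)
  have hCfR : (1 : ℝ) ≤ Cf := by exact_mod_cast hCf
  have hCd0 : (0 : ℝ) ≤ Cd := Nat.cast_nonneg _
  have eL : (L : ℝ) = Cf * (k + s + 1) := by rw [hL]; push_cast; ring
  have ek : (k₃ : ℝ) = (Cd + 2) * (L + 1) + 4 := by rw [hk₃]; push_cast; ring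
  have hks0 : (0 : ℝ) ≤ (k : ℝ) + s + 1 := by positivity
  have h5 : (k : ℝ) + s + 1 ≤ L := by
    rw [eL]
    exact le_mul_of_one_le_left hks0 hCfR
  have h6 : (L : ℝ) ≤ Cf * ((Cr + 12) * X) := by
    rw [eL]
    exact mul_le_mul_of_nonneg_left (by linarith) (by linarith)
  have h7 : (L : ℝ) + 1 ≤ Cf * (Cr + 13) * X := by
    have : 1 ≤ Cf * X := one_le_mul_of_one_le_of_one_le hCfR hX
    have e1 : Cf * (Cr + 13) * X = Cf * ((Cr + 12) * X) + Cf * X := by ring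
    linarith
  have h8 : (k₃ : ℝ) ≤ ((Cd + 2) * Cf * (Cr + 13) + 4) * X := by
    rw [ek]
    have h9 : (Cd + 2) * ((L : ℝ) + 1) ≤ (Cd + 2) * (Cf * (Cr + 13) * X) :=
      mul_le_mul_of_nonneg_left h7 (by linarith)
    have e1 : ((Cd + 2) * Cf * (Cr + 13) + 4) * X = (Cd + 2) * (Cf * (Cr + 13) * X) + 4 * X := by
      ring
    linarith
  refine ⟨h1, h2, by linarith, by linarith, ?_, h8⟩
  have h9 : (L : ℝ) ≤ k₃ := by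
    rw [ek]
    nlinarith
  linarith

/-- **The frames of the window** `W` against the deep covector. -/
theorem c1_end {J : ℕ} {F : Fam m J} {c : ℕ → Fin m} {W L L' e k₀ : ℕ} {g : ℕ → ℕ} {t : ℕ}
    {B : F.Ω → Prop} {G₀ G₁ : PtT F → ℕ → MvPolynomial (Option (Fin m)) ℝ}
    {ψ : PtT F → ℕ → Option (Fin m) → ℝ} {ψH : LnT F → ℕ → Option (Fin m) → ℝ}
    (hfr : FrOK F c 2 W k₀ e g B ψ ψH)
    (hgp : ∀ ω, B ω → Nc c g W 2 1 (fun j => grd (G₀ (ptr F J ω) j) (bt F ω))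
      (gpt F G₀ (ptr F J ω)))
    (hψ : ∀ ω, B ω → Nc c g W 2 (2 ^ L) (ψ (ptr F J ω)) (gpt F G₀ (ptr F J ω)))
    (hn : ∀ ω, B ω → ∀ V : Option (Fin m) → ℝ,
        |cv (gpt F G₁ (ptr F J ω) 1) V - dd (G₀ (ptr F J ω) 1) (bt F ω) V| ≤
          2 ^ L' / 2 ^ g 1 * nrm c (G₀ (ptr F J ω)) g W 1 (bt F ω) V)
    (hv : ∀ ω, B ω → |bd F ω (some (c 1)) - cv (gpt F G₁ (ptr F J ω) 1) (bd F ω)| ≤
        2 ^ L' * 2 ^ W / 2 ^ (g 1 + t))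
    (hs : ∀ ω ω', B ω → B ω' → slam F W ω = slam F W ω' → ∀ V : Option (Fin m) → ℝ,
        |cv (gpt F G₁ (ptr F J ω') 1) V - cv (gpt F G₁ (ptr F J ω) 1) V| ≤
          2 ^ L' / 2 ^ (g 1 + t) *
            (nrm c (G₀ (ptr F J ω)) g W 1 (bt F ω) V +
              nrm c (G₀ (ptr F J ω')) g W 1 (bt F ω') V)) :
    (∀ ω, B ω → ∀ V : Option (Fin m) → ℝ,
      |cv (gpt F G₁ (ptr F J ω) 1 - ψ (ptr F J ω) 1) V| ≤
        2 ^ (L' + 2 * L + 6) / 2 ^ g 1 * en c g W (ψ (ptr F J ω)) 1 V) ∧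
    (∀ ω, B ω → |bd F ω (some (c 1)) - cv (gpt F G₁ (ptr F J ω) 1) (bd F ω)| ≤
      2 ^ (L' + 2 * L + 6) / 2 ^ t * (2 ^ W / 2 ^ g 1)) ∧
    (∀ ω ω', B ω → B ω' → slam F W ω = slam F W ω' → ∀ V : Option (Fin m) → ℝ,
      |cv (gpt F G₁ (ptr F J ω') 1 - gpt F G₁ (ptr F J ω) 1) V| ≤
        2 ^ (L' + 2 * L + 6) / 2 ^ t / 2 ^ g 1 * en c g W (ψ (ptr F J ω)) 1 V) := by
  have hN : ∀ ω, B ω → ∀ V : Option (Fin m) → ℝ,
      nrm c (G₀ (ptr F J ω)) g W 1 (bt F ω) V ≤ 2 ^ (2 * L + 4) *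
        en c g W (ψ (ptr F J ω)) 1 V := by
    intro ω hω V
    rw [nrm_en]
    have h1 := (hgp ω hω).en_ge (by norm_num) (l := 1) (by omega) V
    have h2 := (hψ ω hω).en_le (by positivity) (l := 1) (by omega) V
    have h3 : (1 + 2 ^ L : ℝ) ^ 2 ≤ 2 ^ (2 * L + 2) := by
      have h4 : (1 : ℝ) ≤ 2 ^ L := one_le_pow₀ (by norm_num)
      calc (1 + 2 ^ L : ℝ) ^ 2 ≤ (2 ^ L * 2) ^ 2 := pow_le_pow_left₀ (by positivity) (by linarith) 2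
        _ = 2 ^ (2 * L + 2) := by ring
    have he := en_nonneg c g W (ψ (ptr F J ω)) 1 V
    calc en c g W (fun j => grd (G₀ (ptr F J ω) j) (bt F ω)) 1 V ≤
          (1 + 1) ^ 2 * en c g W (gpt F G₀ (ptr F J ω)) 1 V := h1
      _ ≤ (1 + 1) ^ 2 * ((1 + 2 ^ L) ^ 2 * en c g W (ψ (ptr F J ω)) 1 V) :=
          mul_le_mul_of_nonneg_left h2 (by norm_num)
      _ ≤ (1 + 1) ^ 2 * (2 ^ (2 * L + 2) * en c g W (ψ (ptr F J ω)) 1 V) :=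
          mul_le_mul_of_nonneg_left (mul_le_mul_of_nonneg_right h3 he) (by norm_num)
      _ = _ := by ring
  have hL'1 : (1 : ℝ) ≤ 2 ^ L' := one_le_pow₀ (by norm_num)
  have hL1 : (1 : ℝ) ≤ 2 ^ L := one_le_pow₀ (by norm_num)
  have hg0 : (0 : ℝ) < 2 ^ g 1 := by positivity
  refine ⟨fun ω hω V => ?_, fun ω hω => ?_, fun ω ω' hω hω' h V => ?_⟩
  · have h1 := hn ω hω V
    have h2 := hgp ω hω 1 (by omega) V
    have h3 := hψ ω hω 1 (by omega) V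
    have h4 := hN ω hω V
    have he := en_nonneg c g W (ψ (ptr F J ω)) 1 V
    rw [cv_subl, cv_grd, ← nrm_en] at h2
    rw [cv_subl] at h3
    obtain ⟨E, hE⟩ : ∃ E, E = en c g W (ψ (ptr F J ω)) 1 V := ⟨_, rfl⟩
    obtain ⟨n, hn'⟩ : ∃ n, n = nrm c (G₀ (ptr F J ω)) g W 1 (bt F ω) V := ⟨_, rfl⟩
    rw [← hE] at he h3 h4 ⊢
    rw [← hn'] at h1 h2 h4
    have e1 : cv (gpt F G₁ (ptr F J ω) 1 - ψ (ptr F J ω) 1) V =
        (cv (gpt F G₁ (ptr F J ω) 1) V - dd (G₀ (ptr F J ω) 1) (bt F ω) V) -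
        (cv (gpt F G₀ (ptr F J ω) 1) V - dd (G₀ (ptr F J ω) 1) (bt F ω) V) +
        (cv (gpt F G₀ (ptr F J ω) 1) V - cv (ψ (ptr F J ω) 1) V) := by
      rw [cv_subl]
      ring
    rw [e1]
    refine (abs_add_le _ _).trans ((add_le_add ((abs_sub _ _).trans (add_le_add h1 h2)) h3).trans
      ?_)
    have h5 : 2 ^ L' / 2 ^ g 1 * n + 1 / 2 ^ g 1 * n ≤
        (2 ^ L' + 1) / 2 ^ g 1 * (2 ^ (2 * L + 4) * E) := by
      have e2 : 2 ^ L' / 2 ^ g 1 * n + 1 / 2 ^ g 1 * n = (2 ^ L' + 1) / 2 ^ g 1 * n := by ring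
      rw [e2]
      exact mul_le_mul_of_nonneg_left h4 (by positivity)
    have h6 : (2 ^ L' + 1) / 2 ^ g 1 * (2 ^ (2 * L + 4) * E) + 2 ^ L / 2 ^ g 1 * E ≤
        2 ^ (L' + 2 * L + 6) / 2 ^ g 1 * E := by
      have e3 : (2 ^ L' + 1) / 2 ^ g 1 * (2 ^ (2 * L + 4) * E) + 2 ^ L / 2 ^ g 1 * E =
          ((2 ^ L' + 1) * 2 ^ (2 * L + 4) + 2 ^ L) / 2 ^ g 1 * E := by ring
      rw [e3]
      refine mul_le_mul_of_nonneg_right (div_le_div_of_nonneg_right ?_ hg0.le) he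
      have e4 : (2 : ℝ) ^ (L' + 2 * L + 6) = 4 * (2 ^ L' * 2 ^ (2 * L + 4)) := by ring
      have h7 : (2 : ℝ) ^ L ≤ 2 ^ (2 * L + 4) := pow_le_pow_right₀ (by norm_num) (by omega)
      have h8 : (2 : ℝ) ^ (2 * L + 4) ≤ 2 ^ L' * 2 ^ (2 * L + 4) :=
        le_mul_of_one_le_left (by positivity) hL'1
      rw [e4]
      linarith
    linarith
  · have e1 : (2 : ℝ) ^ L' * 2 ^ W / 2 ^ (g 1 + t) = 2 ^ L' / 2 ^ t * (2 ^ W / 2 ^ g 1) := by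
      rw [pow_add]
      field_simp
    refine (hv ω hω).trans ?_
    rw [e1]
    exact mul_le_mul_of_nonneg_right (div_le_div_of_nonneg_right
      (pow_le_pow_right₀ (by norm_num) (by omega)) (by positivity)) (by positivity)
  · have h1 := hs ω ω' hω hω' h V
    have h2 := hN ω hω V
    have h3 := hN ω' hω' V
    have he := en_nonneg c g W (ψ (ptr F J ω)) 1 V
    have e1 : ψ (ptr F J ω') = ψ (ptr F J ω) := by
      rw [hfr.cls ω' hω', hfr.cls ω hω, h]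
    rw [e1] at h3
    obtain ⟨E, hE⟩ : ∃ E, E = en c g W (ψ (ptr F J ω)) 1 V := ⟨_, rfl⟩
    rw [← hE] at he h2 h3 ⊢
    rw [cv_subl]
    refine h1.trans ?_
    calc 2 ^ L' / 2 ^ (g 1 + t) * (nrm c (G₀ (ptr F J ω)) g W 1 (bt F ω) V +
          nrm c (G₀ (ptr F J ω')) g W 1 (bt F ω') V) ≤
          2 ^ L' / 2 ^ (g 1 + t) * (2 ^ (2 * L + 4) * E + 2 ^ (2 * L + 4) * E) :=
          mul_le_mul_of_nonneg_left (add_le_add h2 h3) (by positivity)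
      _ = 2 ^ (L' + 2 * L + 5) / 2 ^ t / 2 ^ g 1 * E := by
          rw [pow_add 2 (g 1) t]
          field_simp
          ring
      _ ≤ _ := by
          refine mul_le_mul_of_nonneg_right (div_le_div_of_nonneg_right
            (div_le_div_of_nonneg_right (pow_le_pow_right₀ (by norm_num) (by omega))
            (by positivity)) (by positivity)) he

/-- The numbers. -/
theorem num_all {Cr K X Q G EJ wJ a0 a1 b0 b1 : ℝ} {J W A₀ R₀ s L k₃ e₀ g00 g01 g10 g11 gt0 gt1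
    p₀ p t z u₀ Cd C₁ : ℕ} (hX : (Cd : ℝ) + C₁ + 100 ≤ X) (hCX : X ≤ Cr * X)
    (hKX : (3 * (Cr + 13) + 4) * X ≤ K * X) (hG : G = 100 * (K * X)) (hGQ : G ≤ 1 / 2 * Q)
    (w2 : wJ < W + 1) (w3 : (A₀ : ℝ) ≤ wJ + Q / 2) (w4 : wJ + Q / 2 < A₀ + 1)
    (w5 : (R₀ : ℝ) ≤ wJ + Q) (w7 : Q ≤ wJ) (hWR : W ≤ R₀) (hAR : A₀ ≤ R₀)
    (hEJ : 0 ≤ EJ) (s10 : a0 + EJ + 3 * Q ≤ J) 
    (s20 : b0 + EJ + 3 * Q ≤ J) (s21 : b1 + EJ + 3 * Q ≤ J) (s3 : b0 ≤ a0 + Q / 2 + X / 4)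
    (s4 : a1 + Q + G ≤ b1) (s5 : wJ ≤ a0) (t10 : a0 - X ≤ g00) (t10' : (g00 : ℝ) ≤ a0)
    (t11 : a1 - X ≤ g01) (t11' : (g01 : ℝ) ≤ a1) (t20 : b0 - X ≤ g10) (t20' : (g10 : ℝ) ≤ b0)
    (t21 : b1 - X ≤ g11) (t21' : (g11 : ℝ) ≤ b1) (t3 : (gt0 : ℝ) ≤ a0 + ((R₀ - W : ℕ) : ℝ))
    (t4 : (gt1 : ℝ) ≤ b0 + ((R₀ - A₀ : ℕ) : ℝ)) (n2 : 3 * X ≤ s)
    (n3 : (s : ℝ) ≤ 4 * X) (n4 : (Cr + 9) * X + 1 ≤ L) (n5 : (L : ℝ) ≤ K * X)
    (n6 : (k₃ : ℝ) ≤ K * X) (y3 : a1 + Q - (Cr + 2) * X < p₀ + 1)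
    (y4 : a1 + 3 * Q / 2 + G - (Cr + 3) * X < p + 1) (he₀ : (e₀ : ℝ) ≤ EJ + 2 * X)
    (ht : t = ⌊G / 2⌋₊) (hz : z = ⌈Q / 2 + 2 * X⌉₊) (hu₀ : u₀ = ⌈Q + 2 * X⌉₊) :
    (((e₀ + L : ℕ) : ℝ) ≤ EJ + Q ∧
      ((e₀ + L + (k₃ + 1 + 1) + 2 * k₃ + s + 2 * (1 + 1) + 4 : ℕ) : ℝ) ≤ EJ + Q ∧
      e₀ + L + g10 + L ≤ J ∧ e₀ + L + g00 + L ≤ J) ∧
    (g10 + s ≤ J ∧ g00 + s ≤ J ∧ g01 + s ≤ J ∧ b0 + X / 4 + X ≤ ((g10 + s : ℕ) : ℝ) ∧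
      a0 + X / 4 + X ≤ ((g00 + s : ℕ) : ℝ) ∧ a1 + X / 4 + X ≤ ((g01 + s : ℕ) : ℝ)) ∧
    (R₀ - W ≤ u₀ ∧ gt0 ≤ g00 + u₀ ∧ R₀ - A₀ ≤ z ∧ gt1 ≤ g10 + z ∧ A₀ ≤ W + z ∧
      g10 ≤ g00 + z ∧ g01 + u₀ ≤ p₀ + L ∧ g01 + t + 2 * z + z ≤ p ∧ g01 + t + 2 * z ≤ g11) ∧
    (e₀ + g10 + Cd ≤ J ∧ e₀ + g11 + Cd ≤ J ∧ e₀ + g00 + C₁ ≤ J ∧ e₀ + g01 + C₁ ≤ J ∧
      e₀ + g10 + C₁ ≤ J ∧ e₀ + g11 + C₁ ≤ J) ∧
    (k₃ + 1 ≤ g00 ∧ e₀ + L + g00 + (2 * k₃ + s + 14) ≤ J ∧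
      e₀ + L + g01 + (2 * k₃ + s + 14) ≤ J ∧ k₃ + (3 * (1 + 1) + 2 * k₃ + 6 + s) ≤ t) := by
  have hCd : (0 : ℝ) ≤ Cd := Nat.cast_nonneg _
  have hC₁ : (0 : ℝ) ≤ C₁ := Nat.cast_nonneg _
  have hX100 : 100 ≤ X := by linarith
  have v0 : ((R₀ - W : ℕ) : ℝ) = R₀ - W := Nat.cast_sub hWR
  have v1 : ((R₀ - A₀ : ℕ) : ℝ) = R₀ - A₀ := Nat.cast_sub hAR
  have hG0 : 0 ≤ G := by linarith
  have q1 : (t : ℝ) ≤ G / 2 := by
    rw [ht]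
    exact Nat.floor_le (by linarith)
  have q2 : G / 2 < t + 1 := by
    rw [ht]
    exact Nat.lt_floor_add_one _
  have q3 : Q / 2 + 2 * X ≤ z := by
    rw [hz]
    exact Nat.le_ceil _
  have q4 : (z : ℝ) < Q / 2 + 2 * X + 1 := by
    rw [hz]
    exact Nat.ceil_lt_add_one (by linarith)
  have q5 : Q + 2 * X ≤ u₀ := by
    rw [hu₀]
    exact Nat.le_ceil _
  have q6 : (u₀ : ℝ) < Q + 2 * X + 1 := by
    rw [hu₀]
    exact Nat.ceil_lt_add_one (by linarith)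
  rw [v0] at t3
  rw [v1] at t4
  clear ht hz hu₀
  refine ⟨⟨?_, ?_, ?_, ?_⟩, ⟨?_, ?_, ?_, ?_, ?_, ?_⟩, ⟨?_, ?_, ?_, ?_, ?_, ?_, ?_, ?_, ?_⟩,
    ⟨?_, ?_, ?_, ?_, ?_, ?_⟩, ⟨?_, ?_, ?_, ?_⟩⟩
  · push_cast; linarith
  · push_cast; linarith
  · refine (Nat.cast_le (α := ℝ)).1 ?_; push_cast; linarith
  · refine (Nat.cast_le (α := ℝ)).1 ?_; push_cast; linarith
  · refine (Nat.cast_le (α := ℝ)).1 ?_; push_cast; linarith
  · refine (Nat.cast_le (α := ℝ)).1 ?_; push_cast; linarith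
  · refine (Nat.cast_le (α := ℝ)).1 ?_; push_cast; linarith
  · push_cast; linarith
  · push_cast; linarith
  · push_cast; linarith
  · refine (Nat.cast_le (α := ℝ)).1 ?_; rw [v0]; linarith
  · refine (Nat.cast_le (α := ℝ)).1 ?_; push_cast; linarith
  · refine (Nat.cast_le (α := ℝ)).1 ?_; rw [v1]; linarith
  · refine (Nat.cast_le (α := ℝ)).1 ?_; push_cast; linarith
  · refine (Nat.cast_le (α := ℝ)).1 ?_; push_cast; linarith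
  · refine (Nat.cast_le (α := ℝ)).1 ?_; push_cast; linarith
  · refine (Nat.cast_le (α := ℝ)).1 ?_; push_cast; linarith
  · refine (Nat.cast_le (α := ℝ)).1 ?_; push_cast; linarith
  · refine (Nat.cast_le (α := ℝ)).1 ?_; push_cast; linarith
  · refine (Nat.cast_le (α := ℝ)).1 ?_; push_cast; linarith
  · refine (Nat.cast_le (α := ℝ)).1 ?_; push_cast; linarith
  · refine (Nat.cast_le (α := ℝ)).1 ?_; push_cast; linarith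
  · refine (Nat.cast_le (α := ℝ)).1 ?_; push_cast; linarith
  · refine (Nat.cast_le (α := ℝ)).1 ?_; push_cast; linarith
  · refine (Nat.cast_le (α := ℝ)).1 ?_; push_cast; linarith
  · refine (Nat.cast_le (α := ℝ)).1 ?_; push_cast; linarith
  · refine (Nat.cast_le (α := ℝ)).1 ?_; push_cast; linarith
  · refine (Nat.cast_le (α := ℝ)).1 ?_; push_cast; linarith
  · refine (Nat.cast_le (α := ℝ)).1 ?_; push_cast; linarith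

end Pool.C1
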