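import Pool.Agent.H3.D2G.C1c

/-!
# The cell with one coordinate before the target, in a class

`c1_cls`: in a class, at two windows `w`, `w + q / 2` with the common radius `w + q`: the growth of
the ball threshold is more than `2`, the row label has the precision `2 q` over the ball. Then there
is a ball label above the threshold `P₂`: a contradiction.
-/

set_option autoImplicit false

namespace Pool.C1

open Finset Real MvPolynomial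
open Pool.Agent.H49.Ent Pool.Agent.H32.Dense Pool.STK Pool.KA Pool.KSAT Pool.K2S Pool.PB Pool.S6C
open Pool.GEN Pool.CHT Pool.CHX Pool.ISO Pool.D2R Pool.D2Z Pool.D2F Pool.RCV
open Pool.LBT (LSys Slo Tri ThrOf fl_le')
open Pool.LEV (Law)
open Pool.FLF (Fam.sub)

variable {m : ℕ}

/-- **The class form.** -/
theorem c1_cls (m S₀ : ℕ) (hS₀ : 1 ≤ S₀) (γ : ℝ) (hγ : 0 < γ) (hγ1 : γ ≤ 1 / 2) :
    ∃ ε₀ : ℝ, 0 < ε₀ ∧ ∀ {S : PCl m} {P P₂ : List (Fin m) × Fin m → ℝ → ℝ → ℝ} {θ θ₂ : ℝ}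
    {c : ℕ → Fin m} {Pt : ℝ → ℝ → ℝ} {w q Eb e : ℝ} {w' a' : ℚ}, S.Ne →
    ThrOf (chsys m θ) S P → 0 < θ → ThrOf (chsys m θ₂) S P₂ → TmH S →
    Set.InjOn c (Set.Iio 2) → Law Pt → 0 < q → q ≤ w →
    WinD S P θ c 1 Pt (w + q) w S₀ Eb (ε₀ * q) (fun _ => True) →
    WinD S P θ c 1 Pt (w + q) (w + q / 2) S₀ Eb (ε₀ * q) (fun _ => True) →
    (∀ l ≤ 1, lvN P c 1 Pt l w w + Eb + 3 * q ≤ 1) →
    (∀ l ≤ 1, lvN P c 1 Pt l (w + q / 2) (w + q / 2) + Eb + 3 * q ≤ 1) →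
    lvN P c 1 Pt 0 (w + q / 2) (w + q / 2) ≤ lvN P c 1 Pt 0 w w + q / 2 + ε₀ * q →
    lvN P c 1 Pt 1 w w + (1 + γ) * q ≤ lvN P c 1 Pt 1 (w + q / 2) (w + q / 2) →
    lvN P c 1 Pt 1 w w + 2 * q ≤ Pt (w + q) w + ε₀ * q →
    w < w' → (w' : ℝ) < 1 → w + q / 2 < a' → (a' : ℝ) < 1 →
    bet P₂ c 1 w' w' ≤ lvN P c 1 Pt 1 w w + ε₀ * q →
    bet P₂ c 0 w' w' ≤ lvN P c 1 Pt 0 w w + ε₀ * q →
    bet P₂ c 0 a' a' ≤ lvN P c 1 Pt 0 (w + q / 2) (w + q / 2) + ε₀ * q →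
    Eb + q ≤ e → e < θ₂ * w' → e < θ₂ * a' → False := by
  classical
  obtain ⟨D, hD, hrow⟩ := row_con m 1 S₀ le_rfl hS₀
  obtain ⟨Cr, hCr, hrow⟩ := hrow D le_rfl
  obtain ⟨Cf, hCf, hfr⟩ := frm_cls m D 1 2 hD (by norm_num) (by norm_num)
  obtain ⟨Cd, hCd, hdet⟩ := c1_det m D
  obtain ⟨C₁, hC₁, hgpt⟩ := gpt_near D 2
  have hCfR : (1 : ℝ) ≤ Cf := by exact_mod_cast hCf
  have hCdR : (1 : ℝ) ≤ Cd := by exact_mod_cast hCd
  obtain ⟨K, hK⟩ : ∃ K : ℝ, K = (Cd + 2) * Cf * (Cr + 13) + 4 := ⟨_, rfl⟩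
  have hK1 : 3 * (Cr + 13) + 4 ≤ K := by
    rw [hK]
    have h1 : (3 : ℝ) ≤ (Cd + 2) * Cf := by nlinarith
    have h2 := mul_le_mul_of_nonneg_right h1 (show (0 : ℝ) ≤ Cr + 13 by linarith)
    linarith
  have hK46 : 46 ≤ K := by linarith
  obtain ⟨h, hh⟩ : ∃ h : ℝ, h = γ / (100 * K) := ⟨_, rfl⟩
  have hh0 : 0 < h := by rw [hh]; exact div_pos hγ (by linarith)
  have hhK : 100 * (K * h) = γ := by
    rw [hh]
    field_simp
  have hh1 : 100 * (46 * h) ≤ γ := by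
    rw [← hhK]
    linarith [mul_le_mul_of_nonneg_right hK46 hh0.le]
  obtain ⟨ε₀, hε₀⟩ : ∃ ε₀ : ℝ, ε₀ = h / (2 * (Cr + 1)) := ⟨_, rfl⟩
  have hε0 : 0 < ε₀ := by rw [hε₀]; exact div_pos hh0 (by linarith)
  have hε1 : (Cr + 1) * ε₀ = h / 2 := by
    rw [hε₀]
    have : Cr + 1 ≠ 0 := by linarith
    field_simp
  have hε2 : ε₀ ≤ h / 4 := by
    have := mul_le_mul_of_nonneg_right (show 2 ≤ Cr + 1 by linarith) hε0.le
    linarith
  refine ⟨ε₀, hε0, ?_⟩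
  intro S P P₂ θ θ₂ c Pt w q Eb e w' a' hS hP hθ hP₂ hT hinj hPt hq hqw hW0 hW1 hr0 hr1 h01 h11 hPr
    hww hw1 haa ha1 hb1 hb0 hb0' hEe hew hea
  have hL2 : 0 < Real.log 2 := Real.log_pos (by norm_num)
  obtain ⟨Λ, hΛ⟩ : ∃ Λ : ℕ → ℝ → ℝ, Λ = fun l x => lvN P c 1 Pt l x x := ⟨_, rfl⟩
  have hEb : 0 ≤ Eb := by
    obtain ⟨ρ, vs, e, e₀, E, sg, Q, d1, d2⟩ := hW0.dw
    exact d1.E0.le.trans d2
  have hw0 : 0 < w := by linarith
  have hlow0 : ∀ l, w ≤ lvN P c 1 Pt l w w := fun l => by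
    obtain ⟨ρ, vs, e, e₀, E, sg, Q, d1, -⟩ := hW0.dw
    exact d1.low hP l
  have haq1 : w + q < 1 := by
    have h1 := hr0 0 (by norm_num)
    have h2 := hlow0 0
    linarith
  have hhq : 0 < h * q := mul_pos hh0 hq
  have hεq : 0 < ε₀ * q := mul_pos hε0 hq
  have hεhq : Cr * (ε₀ * q) + ε₀ * q = h * q / 2 := by
    have : Cr * (ε₀ * q) + ε₀ * q = (Cr + 1) * ε₀ * q := by ring
    rw [this, hε1]
    ring
  have hCrε : 0 ≤ Cr * (ε₀ * q) := by positivity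
  have hhq1 : 100 * (46 * (h * q)) ≤ γ * q := by
    have := mul_le_mul_of_nonneg_right hh1 hq.le
    linarith
  have hγq : γ * q ≤ 1 / 2 * q := mul_le_mul_of_nonneg_right hγ1 hq.le
  have hbw : bet P c 0 w w = lvN P c 1 Pt 0 w w := by
    unfold lvN
    rw [if_pos one_pos]
  have hbw' : bet P c 0 (w + q / 2) (w + q / 2) = lvN P c 1 Pt 0 (w + q / 2) (w + q / 2) := by
    unfold lvN
    rw [if_pos one_pos]
  have hlv1 : ∀ x, lvN P c 1 Pt 1 x x = Pt x x := fun x => by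
    unfold lvN
    rw [if_neg (lt_irrefl 1)]
  -- the data of the rows
  obtain ⟨o, ho⟩ : ∃ o : ℕ → ℝ, o = fun k => if k = 0 then w else w + q / 2 := ⟨_, rfl⟩
  have ho0 : o 0 = w := by rw [ho]; simp
  have ho1 : o 1 = w + q / 2 := by rw [ho]; simp
  obtain ⟨p', hp'⟩ : ∃ p' : ℕ → ℝ, p' = fun k => if k = 0 then
      lvN P c 1 Pt 1 w w + 2 * q - h * q else 0 := ⟨_, rfl⟩
  have hp0 : p' 0 = lvN P c 1 Pt 1 w w + 2 * q - h * q := by rw [hp']; simp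
  have hp1 : p' 1 = 0 := by rw [hp']; simp
  have hk2 : ∀ {φ : ℕ → Prop}, φ 0 → φ 1 → ∀ k ≤ 1, φ k := by
    intro φ h0 h1 k hk
    interval_cases k
    exacts [h0, h1]
  have hPa1 : w + q ≤ Pt (w + q) (w + q / 2) := by
    obtain ⟨ρ, vs, e, e₀, E, sg, Q, d1, -⟩ := hW1.da
    have := d1.low hP 1
    unfold lvN at this
    rwa [if_neg (lt_irrefl 1)] at this
  obtain ⟨K₁, μ, b, hK₁, hμ, hrow⟩ := hrow (S := S) (P := P) (θ := θ) (c := c) (Pt := Pt)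
    (R := fun _ => True) (a := w + q) (Eb := Eb) (o := o) (ε := fun _ => ε₀ * q) (p' := p')
    (η := fun _ => h * q) (σ := fun _ => h * q) (r₀ := fun _ => q / 4) 1 0 hP hθ hT hinj hPt
    (hk2 (by rw [ho0]; exact hW0) (by rw [ho1]; exact hW1))
    (hk2 ⟨by rw [ho0]; linarith, by linarith⟩ ⟨by rw [ho1]; linarith, by linarith⟩)
    (hk2 ⟨by rw [hp0]; linarith [hlow0 1], by rw [hp0, ho0]; linarith⟩
      ⟨by rw [hp1], by rw [hp1, ho1]; linarith⟩)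
    (hk2 ⟨hhq, by linarith, by linarith⟩ ⟨hhq, by linarith, by linarith⟩)
    (hk2 (fun l hl => by rw [ho0]; linarith [hr0 l hl])
      (fun l hl => by rw [ho1]; linarith [hr1 l hl]))
    (hk2 (fun l hl => by
      have h1 := hW0.rgh l hl trivial
      rw [Nat.lt_one_iff.1 hl] at h1 ⊢
      rw [ho0]
      linarith [hr0 0 (by norm_num)]) (fun l hl => by
      have h1 := hW1.rgh l hl trivial
      rw [Nat.lt_one_iff.1 hl] at h1 ⊢
      rw [ho1]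
      linarith [hr1 0 (by norm_num)]))
  have hrow := hrow 1 one_pos
  -- the frames, the time and the end
  have hw'1 : w' < 1 := by exact_mod_cast hw1
  have ha'1 : a' < 1 := by exact_mod_cast ha1
  have hw'0 : (0 : ℚ) ≤ w' := by
    have : (0 : ℝ) ≤ w' := by linarith
    exact_mod_cast this
  have ha'0 : (0 : ℚ) ≤ a' := by
    have : (0 : ℝ) ≤ a' := by linarith
    exact_mod_cast this
  have hf1 := hfr hP₂ hT c hinj a' e (h * q) (h * q) (1 / K₁) ha'0 ha'1 hea hhq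
    (by linarith [hr1 0 (by norm_num)]) hhq (by positivity)
  have hf0 := hfr hP₂ hT c hinj w' e (h * q) (h * q) (1 / (K₁ * Cf)) hw'0 hw'1 hew hhq
    (by linarith [hr0 0 (by norm_num)]) hhq (by positivity)
  obtain ⟨δ, hδ, hvis⟩ := vis_all hP₂ c 1 hinj w' e (h * q) hw'0 hw'1.le hew hhq
    (by linarith [hr0 1 le_rfl])
  obtain ⟨ε₁, hε₁⟩ : ∃ ε₁ : ℝ, ε₁ = h * q * Real.log 2 / (2 * Cd) := ⟨_, rfl⟩
  have hε₁0 : 0 < ε₁ := by rw [hε₁]; positivity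
  have hεC : Cd * ε₁ = h * q * Real.log 2 / 2 := by
    rw [hε₁]
    field_simp
  have htm := bas_ev (hT.2 ε₁ hε₁0) (κ := 1 / (K₁ * Cf * Cf)) (by positivity)
  have hpos : Bas S (fun _ F A => 0 < Pe F.p A) := ⟨1, one_pos, 0, fun J _ F A hA =>
    hT.1 1 J F A hA⟩
  obtain ⟨J₁, hJ₁⟩ := exists_nat_ge (((Cd : ℝ) + C₁ + 100) / (h * q * Real.log 2 / 2))
  obtain ⟨J₂, hJ₂⟩ := exists_nat_ge (Real.log (4 * (K₁ * Cf * Cf)) / δ)
  have key : Bas S (fun _ _ _ => False) := by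
    refine Bas.mono (max (max J₁ J₂) 1) ((((hrow.and hf1).and hf0).and (htm.and hpos)).and hvis) ?_
    rintro J hJ F A ⟨⟨⟨⟨hrow, hf1⟩, hf0⟩, htm, hA0⟩, hvis⟩
    have hpn := Pe_nonneg F.isLaw
    have hJ1 : (1 : ℝ) ≤ J := by exact_mod_cast (le_max_right _ _).trans hJ
    have hJ0 : (0 : ℝ) ≤ J := by linarith
    have hX1 : (Cd : ℝ) + C₁ + 100 ≤ h * q * J * Real.log 2 / 2 := by
      have h2 : (J₁ : ℝ) ≤ J := by exact_mod_cast ((le_max_left _ _).trans (le_max_left _ _)).trans hJ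
      have h3 := hJ₁.trans h2
      rw [div_le_iff₀ (by positivity)] at h3
      linarith
    have hJ2 : 4 * (K₁ * Cf * Cf) ≤ Real.exp (δ * J) := by
      have h2 : (J₂ : ℝ) ≤ J := by exact_mod_cast ((le_max_right _ _).trans (le_max_left _ _)).trans hJ
      have h3 := hJ₂.trans h2
      rw [div_le_iff₀ hδ] at h3
      have h4 := Real.exp_le_exp.2 h3
      rw [Real.exp_log (by positivity), mul_comm (J : ℝ)] at h4
      exact h4
    have hX := hX1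
    obtain ⟨X, hXd⟩ : ∃ X : ℝ, X = h * q * J := ⟨_, rfl⟩
    obtain ⟨Q, hQd⟩ : ∃ Q : ℝ, Q = q * J := ⟨_, rfl⟩
    have hl21 : Real.log 2 ≤ 1 := by
      have := Real.log_two_lt_d9
      linarith
    have hX2 : (Cd : ℝ) + C₁ + 100 ≤ X * Real.log 2 / 2 := by rw [hXd]; exact hX
    have hX0 : 0 < X := by rw [hXd]; positivity
    have hXC : (Cd : ℝ) + C₁ + 100 ≤ X := by
      have : X * Real.log 2 ≤ X * 1 := mul_le_mul_of_nonneg_left hl21 hX0.le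
      linarith
    have hCd0 : (0 : ℝ) ≤ Cd := Nat.cast_nonneg _
    have hC₁0 : (0 : ℝ) ≤ C₁ := Nat.cast_nonneg _
    have hX100 : 100 ≤ X := by linarith
    have hγQ : γ * Q = 100 * (K * X) := by
      rw [hQd, hXd, ← hhK]
      ring
    have hKX : (3 * (Cr + 13) + 4) * X ≤ K * X := mul_le_mul_of_nonneg_right hK1 hX0.le
    have hCrX : X ≤ Cr * X := le_mul_of_one_le_left hX0.le hCr
    have hQ0 : 0 < Q := by rw [hQd]; positivity
    have hγQ2 : γ * Q ≤ 1 / 2 * Q := mul_le_mul_of_nonneg_right hγ1 hQ0.le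
    have hεQ : ε₀ * q * J ≤ X / 4 := by
      have : ε₀ * (q * J) ≤ h / 4 * (q * J) := mul_le_mul_of_nonneg_right hε2 (by positivity)
      rw [hXd]
      linarith
    -- the losses
    obtain ⟨k, hk⟩ : ∃ k : ℕ, k = ⌈(Cr + 6) * X⌉₊ := ⟨_, rfl⟩
    obtain ⟨s, hs⟩ : ∃ s : ℕ, s = ⌈3 * X⌉₊ := ⟨_, rfl⟩
    obtain ⟨L, hL⟩ : ∃ L : ℕ, L = Cf * (k + s + 1) := ⟨_, rfl⟩
    obtain ⟨k₃, hk₃⟩ : ∃ k₃ : ℕ, k₃ = Cd * (L + 1) + 2 * L + 6 := ⟨_, rfl⟩
    obtain ⟨n1, n2, n3, n4, n5, n6⟩ := num_k hCr hCf (by linarith : (1 : ℝ) ≤ X) hk hs hL hk₃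
    rw [← hK] at n5 n6
    -- the windows
    obtain ⟨W, hW⟩ : ∃ W : ℕ, W = ⌊o 0 * J⌋₊ := ⟨_, rfl⟩
    obtain ⟨A₀, hA₀⟩ : ∃ A₀ : ℕ, A₀ = ⌊o 1 * J⌋₊ := ⟨_, rfl⟩
    obtain ⟨R₀, hR₀⟩ : ∃ R₀ : ℕ, R₀ = ⌊(w + q) * J⌋₊ := ⟨_, rfl⟩
    have w1 : (W : ℝ) ≤ w * J := by
      rw [hW, ho0]
      exact Nat.floor_le (by positivity)
    have w2 : w * J < W + 1 := by
      rw [hW, ho0]
      exact Nat.lt_floor_add_one _
    have w3 : (A₀ : ℝ) ≤ w * J + Q / 2 := by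
      have : (A₀ : ℝ) ≤ (w + q / 2) * J := by
        rw [hA₀, ho1]
        exact Nat.floor_le (by positivity)
      rw [hQd]
      linarith
    have w4 : w * J + Q / 2 < A₀ + 1 := by
      have : (w + q / 2) * J < A₀ + 1 := by
        rw [hA₀, ho1]
        exact Nat.lt_floor_add_one _
      rw [hQd]
      linarith
    have w5 : (R₀ : ℝ) ≤ w * J + Q := by
      have : (R₀ : ℝ) ≤ (w + q) * J := by
        rw [hR₀]
        exact Nat.floor_le (by positivity)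
      rw [hQd]
      linarith
    have w6 : w * J + Q < R₀ + 1 := by
      have : (w + q) * J < R₀ + 1 := by
        rw [hR₀]
        exact Nat.lt_floor_add_one _
      rw [hQd]
      linarith
    have w7 : Q ≤ w * J := by
      rw [hQd]
      exact mul_le_mul_of_nonneg_right hqw hJ0
    have w8 : w * J + Q ≤ J := by
      have : (w + q) * J ≤ 1 * J := mul_le_mul_of_nonneg_right haq1.le hJ0
      rw [hQd]
      linarith
    have hWA : W ≤ A₀ := by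
      rw [hW, hA₀, ho0, ho1]
      exact Nat.floor_le_floor (mul_le_mul_of_nonneg_right (by linarith) hJ0)
    have hAR : A₀ ≤ R₀ := by
      rw [hR₀, hA₀, ho1]
      exact Nat.floor_le_floor (mul_le_mul_of_nonneg_right (by linarith) hJ0)
    have hRJ : R₀ ≤ J := by
      have : (R₀ : ℝ) ≤ J := by linarith
      exact_mod_cast this
    -- the event
    obtain ⟨B, gc, gT, g₀, G, H, T, TH, Gt, Ht, hBA, hPB, hE, hR⟩ := hrow (fun k _ =>
      ⌊(w + q) * J⌋₊ - ⌊o k * J⌋₊) (hk2 (fun i _ => ⟨by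
        rw [← hW, ← hR₀, Nat.cast_sub (hWA.trans hAR)]
        have : q / 4 * J = Q / 4 := by rw [hQd]; ring
        rw [this]
        linarith, le_rfl⟩) (fun i _ => ⟨by
        rw [← hA₀, ← hR₀, Nat.cast_sub hAR]
        have : q / 4 * J = Q / 4 := by rw [hQd]; ring
        rw [this]
        linarith, le_rfl⟩))
    obtain ⟨hS0, hE0⟩ := hE 0 (by norm_num)
    obtain ⟨hS1, hE1⟩ := hE 1 le_rfl
    rw [← hW, ← hR₀] at hS0 hE0
    rw [← hA₀, ← hR₀] at hS1 hE1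
    -- the sides
    have l0 : ∀ l, lvN P c 1 Pt l (o 0) (o 0) = lvN P c 1 Pt l w w := fun l => by rw [ho0]
    have l1 : ∀ l, lvN P c 1 Pt l (o 1) (o 1) = lvN P c 1 Pt l (w + q / 2) (w + q / 2) :=
      fun l => by rw [ho1]
    obtain ⟨α, hα⟩ : ∃ α : ℕ → ℝ, α = fun l => lvN P c 1 Pt l w w * J := ⟨_, rfl⟩
    obtain ⟨β, hβ⟩ : ∃ β : ℕ → ℝ, β = fun l => lvN P c 1 Pt l (w + q / 2) (w + q / 2) * J :=
      ⟨_, rfl⟩
    obtain ⟨EJ, hEJ⟩ : ∃ EJ : ℝ, EJ = Eb * J := ⟨_, rfl⟩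
    have hEJ0 : 0 ≤ EJ := by rw [hEJ]; positivity
    have t1 : ∀ l ≤ 1, α l - X ≤ g₀ 0 l ∧ (g₀ 0 l : ℝ) ≤ α l := by
      intro l hl
      have h1 := hS0.b1 l hl
      have h2 := hS0.b2 l hl
      beta_reduce at h1 h2
      rw [l0] at h1 h2
      rw [hα, hXd]
      exact ⟨by linarith, h2⟩
    have t2 : ∀ l ≤ 1, β l - X ≤ g₀ 1 l ∧ (g₀ 1 l : ℝ) ≤ β l := by
      intro l hl
      have h1 := hS1.b1 l hl
      have h2 := hS1.b2 l hl
      beta_reduce at h1 h2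
      rw [l1] at h1 h2
      rw [hβ, hXd]
      exact ⟨by linarith, h2⟩
    have t3 : ∀ l ≤ 1, α l - X + ((R₀ - W : ℕ) : ℝ) ≤ gc 0 l ∧
        (gc 0 l : ℝ) ≤ α l + ((R₀ - W : ℕ) : ℝ) := by
      intro l hl
      have h1 := hS0.c1 l hl
      have h2 := hS0.c2 l hl
      beta_reduce at h1 h2
      rw [l0] at h1 h2
      rw [hα, hXd]
      have h3 : 0 ≤ ε₀ * q * J := by positivity
      exact ⟨by linarith, by linarith⟩
    have t4 : ∀ l ≤ 1, β l - X + ((R₀ - A₀ : ℕ) : ℝ) ≤ gc 1 l ∧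
        (gc 1 l : ℝ) ≤ β l + ((R₀ - A₀ : ℕ) : ℝ) := by
      intro l hl
      have h1 := hS1.c1 l hl
      have h2 := hS1.c2 l hl
      beta_reduce at h1 h2
      rw [l1] at h1 h2
      rw [hβ, hXd]
      have h3 : 0 ≤ ε₀ * q * J := by positivity
      exact ⟨by linarith, by linarith⟩
    have v0 : ((R₀ - W : ℕ) : ℝ) = R₀ - W := Nat.cast_sub (hWA.trans hAR)
    have v1 : ((R₀ - A₀ : ℕ) : ℝ) = R₀ - A₀ := Nat.cast_sub hAR
    have s1 : ∀ l ≤ 1, α l + EJ + 3 * Q ≤ J := by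
      intro l hl
      have := mul_le_mul_of_nonneg_right (hr0 l hl) hJ0
      rw [hα, hEJ, hQd]
      linarith
    have s2 : ∀ l ≤ 1, β l + EJ + 3 * Q ≤ J := by
      intro l hl
      have := mul_le_mul_of_nonneg_right (hr1 l hl) hJ0
      rw [hβ, hEJ, hQd]
      linarith
    have s3 : β 0 ≤ α 0 + Q / 2 + X / 4 := by
      have := mul_le_mul_of_nonneg_right h01 hJ0
      rw [hβ, hα, hQd]
      linarith
    have s4 : α 1 + Q + γ * Q ≤ β 1 := by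
      have := mul_le_mul_of_nonneg_right h11 hJ0
      rw [hβ, hα, hQd]
      linarith
    have s5 : ∀ l, w * J ≤ α l := fun l => by
      rw [hα]
      exact mul_le_mul_of_nonneg_right (hlow0 l) hJ0
    have s6 : p' 0 * J = α 1 + 2 * Q - X := by
      rw [hp0, hα, hQd, hXd]
      ring
    obtain ⟨p₀, hp₀⟩ : ∃ p₀ : ℕ, p₀ = ⌊α 1 + Q - (Cr + 2) * X⌋₊ := ⟨_, rfl⟩
    obtain ⟨p, hp⟩ : ∃ p : ℕ, p = ⌊α 1 + 3 * Q / 2 + γ * Q - (Cr + 3) * X⌋₊ := ⟨_, rfl⟩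
    have hα1 := s5 1
    have y1 : 0 ≤ α 1 + Q - (Cr + 2) * X := by linarith
    have y2 : 0 ≤ α 1 + 3 * Q / 2 + γ * Q - (Cr + 3) * X := by linarith
    have y3 : (p₀ : ℝ) ≤ α 1 + Q - (Cr + 2) * X ∧ α 1 + Q - (Cr + 2) * X < p₀ + 1 := by
      rw [hp₀]
      exact ⟨Nat.floor_le y1, Nat.lt_floor_add_one _⟩
    have y4 : (p : ℝ) ≤ α 1 + 3 * Q / 2 + γ * Q - (Cr + 3) * X ∧
        α 1 + 3 * Q / 2 + γ * Q - (Cr + 3) * X < p + 1 := by
      rw [hp]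
      exact ⟨Nat.floor_le y2, Nat.lt_floor_add_one _⟩
    have hCX : Cr * (h * q * J) = Cr * X := by rw [hXd]
    have r00 := hR 0 (by norm_num) 0 (by norm_num) le_rfl p₀ (by
      rw [hCX, s6]
      linarith [y3.1]) (by
      rw [hCX]
      linarith [y3.1, (t3 1 le_rfl).1])
    have r01 := hR 0 (by norm_num) 1 le_rfl (by rw [ho0, ho1]; linarith) p (by
      rw [hCX, s6]
      linarith [y4.1]) (by
      rw [hCX]
      linarith [y4.1, (t4 1 le_rfl).1])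
    rw [← hW, ← hR₀, hCX] at r00
    rw [← hW, ← hR₀, ← hA₀, hCX] at r01
    obtain ⟨U, hU⟩ : ∃ U : ℝ, U = 2 ^ ⌊Cr * X⌋₊ := ⟨_, rfl⟩
    rw [← hU] at r00 r01
    have hU0 : 0 ≤ U := by rw [hU]; positivity
    have hUk : U ≤ 2 ^ k := by
      rw [hU]
      refine pow_le_pow_right₀ (by norm_num) ?_
      rw [hk]
      exact (Nat.floor_mono (show Cr * X ≤ (Cr + 6) * X by linarith)).trans
        (Nat.floor_le_ceil _)
    have hkL : k + s + 1 ≤ L := by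
      rw [hL]
      exact Nat.le_mul_of_pos_left _ hCf
    have hUL : U ≤ 2 ^ L := hUk.trans (pow_le_pow_right₀ (by norm_num) (by omega))
    obtain ⟨e₀, he₀⟩ : ∃ e₀ : ℕ, e₀ = ⌊(Eb + h * q + h * q) * J⌋₊ := ⟨_, rfl⟩
    have he1 : (e₀ : ℝ) ≤ EJ + 2 * X := by
      have h1 : (e₀ : ℝ) ≤ (Eb + h * q + h * q) * J := by
        rw [he₀]
        exact Nat.floor_le (by positivity)
      rw [hEJ, hXd]
      linarith
    rw [← he₀] at hE0 hE1
    have heJ : ∀ x : ℕ, (x : ℝ) ≤ EJ + Q → x ≤ ⌊e * J⌋₊ := by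
      intro x hx
      refine Nat.le_floor (hx.trans ?_)
      have := mul_le_mul_of_nonneg_right hEe hJ0
      rw [hEJ, hQd]
      linarith
    obtain ⟨x1, -, x2⟩ := hE0.rgh 0 one_pos trivial
    obtain ⟨x3, -, x4⟩ := hE1.rgh 0 one_pos trivial
    have hle01 : (0 : ℕ) ≤ 1 := by norm_num
    obtain ⟨t, ht⟩ : ∃ t : ℕ, t = ⌊γ * Q / 2⌋₊ := ⟨_, rfl⟩
    obtain ⟨z, hz⟩ : ∃ z : ℕ, z = ⌈Q / 2 + 2 * X⌉₊ := ⟨_, rfl⟩
    obtain ⟨u₀, hu₀⟩ : ∃ u₀ : ℕ, u₀ = ⌈Q + 2 * X⌉₊ := ⟨_, rfl⟩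
    obtain ⟨⟨N1, N2, N3, N4⟩, ⟨N5, N6, N7, N8, N9, N10⟩,
      ⟨M1, M2, M3, M4, M5, M6, M7, M8, M9⟩, ⟨O1, O2, O3, O4, O5, O6⟩, ⟨V1, V2, V3, V4⟩⟩ :=
      num_all (Cr := Cr) (K := K) (X := X) (Q := Q) (G := γ * Q) (EJ := EJ) (wJ := w * J)
      (a0 := α 0) (a1 := α 1) (b0 := β 0) (b1 := β 1) (J := J) (W := W) (A₀ := A₀) (R₀ := R₀)
      (s := s) (L := L) (k₃ := k₃) (e₀ := e₀) (g00 := g₀ 0 0) (g01 := g₀ 0 1) (g10 := g₀ 1 0)
      (g11 := g₀ 1 1) (gt0 := gT 0 0) (gt1 := gT 1 0) (p₀ := p₀) (p := p) (Cd := Cd) (C₁ := C₁)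
      hXC hCrX hKX hγQ hγQ2 w2 w3 w4 w5 w7 (hWA.trans hAR) hAR hEJ0 (s1 0 hle01) (s2 0 hle01)
      (s2 1 le_rfl) s3 s4 (s5 0) (t1 0 hle01).1 (t1 0 hle01).2 (t1 1 le_rfl).1 (t1 1 le_rfl).2
      (t2 0 hle01).1 (t2 0 hle01).2 (t2 1 le_rfl).1 (t2 1 le_rfl).2
      (by rw [x1]; exact (t3 0 hle01).2) (by rw [x3]; exact (t4 0 hle01).2) n2 n3 n4 n5 n6
      y3.2 y4.2 he1 ht hz hu₀
    have hXk : h * q * J ≤ k := by
      rw [← hXd]
      linarith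
    have hWJ : W ≤ J := (hWA.trans hAR).trans hRJ
    have hAJ : A₀ ≤ J := hAR.trans hRJ
    have hWw : W ≤ ⌊(w' : ℝ) * J⌋₊ := by
      rw [hW, ho0]
      exact Nat.floor_le_floor (mul_le_mul_of_nonneg_right hww.le hJ0)
    have hAa : A₀ ≤ ⌊(a' : ℝ) * J⌋₊ := by
      rw [hA₀, ho1]
      exact Nat.floor_le_floor (mul_le_mul_of_nonneg_right haa.le hJ0)
    have hcv : ∀ (G₀ : PtT F → ℕ → MvPolynomial (Option (Fin m)) ℝ), (∀ y l, DepC c l (G₀ y l)) →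
        ∀ y l, CvC c l (gpt F G₀ y l) := fun G₀ hG₀ y l => cvc_grd (hG₀ y l) _
    have hlt2 : ∀ {φ : ℕ → Prop}, φ 0 → φ 1 → ∀ l < 2, φ l := fun h0 h1 l hl =>
      hk2 h0 h1 l (by omega)
    have hg1 := hgpt (r := 2) hinj le_rfl hE1.ball (hlt2 O5 O6)
    have hg0 := hgpt (r := 2) hinj le_rfl hE0.ball (hlt2 O3 O4)
    have h2k : (1 : ℝ) ≤ 2 ^ k := one_le_pow₀ (by norm_num)
    obtain ⟨B₁, ψ₁, ψH₁, c1, c2, -, -, c5⟩ := hf1 W A₀ (R₀ - A₀) e₀ k s L p (g₀ 1 0 + s) (g₀ 1)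
      (gT 1) U (G 1) (H 1) (T 1) (TH 1) (Ht 0) (gpt F (G 1)) B hAJ hAa hXk (by
        rw [← hL]
        exact heJ _ N1) (by rw [← hL]) (by rw [← hL]; exact N3) le_rfl N5 (by
        have k1 : ⌊(bet P₂ c 0 a' a' + h * q) * J⌋₊ ≤ g₀ 1 0 + s := by
          refine Nat.floor_le_of_le (le_trans ?_ N8)
          have := mul_le_mul_of_nonneg_right hb0' hJ0
          rw [hβ, hXd]
          rw [hXd] at hεQ
          linarith
        omega) hBA (by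
        rw [one_div, inv_mul_le_iff₀ hK₁]
        exact hPB) hE1.ball r01 hU0 hUk (fun l h1 h2 => absurd h1 (by omega))
      (hcv _ hE1.ball.depG) (fun ω hω => (hg1 ω hω).mono h2k)
    rw [← hL] at c5
    obtain ⟨B₂, ψ, ψH, d1, d2, d3, d4, -⟩ := hf0 W W (R₀ - W) e₀ k s L p₀ (g₀ 0 0 + s) (g₀ 0)
      (gT 0) U (G 0) (H 0) (T 0) (TH 0) (Ht 0) (gpt F (G 0)) B₁ hWJ hWw hXk (by
        rw [← hL]
        exact heJ _ N1) (by rw [← hL]) (by rw [← hL]; exact N4) le_rfl N6 (by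
        have k1 : ⌊(bet P₂ c 0 w' w' + h * q) * J⌋₊ ≤ g₀ 0 0 + s := by
          refine Nat.floor_le_of_le (le_trans ?_ N9)
          have := mul_le_mul_of_nonneg_right hb0 hJ0
          rw [hα, hXd]
          rw [hXd] at hεQ
          linarith
        omega) (fun ω hω => hBA ω (c1 ω hω)) (by
        rw [one_div, inv_mul_le_iff₀ (by positivity), mul_assoc]
        exact hPB.trans (mul_le_mul_of_nonneg_left c2 hK₁.le)) (hE0.ball.sub c1) (r00.sub c1) hU0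
      hUk (fun l h1 h2 => absurd h1 (by omega)) (hcv _ hE0.ball.depG)
      (fun ω hω => (hg0 ω (c1 ω hω)).mono h2k)
    rw [← hL] at d3 d4
    have hB₂B : Sub B₂ B := fun ω hω => c1 ω (d1 ω hω)
    have hPB₂ : Pe F.p A ≤ K₁ * Cf * Cf * Pe F.p B₂ := by
      calc Pe F.p A ≤ K₁ * Pe F.p B := hPB
        _ ≤ K₁ * (Cf * (Cf * Pe F.p B₂)) := mul_le_mul_of_nonneg_left (c2.trans
            (mul_le_mul_of_nonneg_left d2 (by linarith))) hK₁.le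
        _ = _ := by ring
    have hB₂0 : 0 < Pe F.p B₂ := by
      by_contra hcon
      have h3 : Pe F.p B₂ = 0 := le_antisymm (not_lt.1 hcon) (hpn _)
      rw [h3, mul_zero] at hPB₂
      linarith
    -- the time
    have hk2' : X * Real.log 2 ≤ L * Real.log 2 := mul_le_mul_of_nonneg_right (by linarith) hL2.le
    have hJW : X ≤ (J : ℝ) - W := by linarith
    have htime : Cd * (ε₁ * J + 1) ≤ X * Real.log 2 := by
      have h3 : Cd * (ε₁ * J) = X * Real.log 2 / 2 := by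
        rw [← mul_assoc, hεC, hXd]
        ring
      rw [mul_add, h3, mul_one]
      linarith
    obtain ⟨B₃, f1, f2, f3, f4, f5⟩ := hdet (J := J) (F := F) (c := c) (W := W) (A := A₀)
      (v₀ := R₀ - W) (v₁ := R₀ - A₀) (u₀ := u₀) (u₁ := z) (p₀ := p₀) (p := p) (z := z) (t := t)
      (k := L) (e := e₀) (U := U) (θ := ε₁ * J) (B := B₂) hB₂0 hinj hWJ hAJ (hE0.dH) hE0.pH
      hE0.ball.depG (hE1.ball.sub hB₂B) (r00.sub hB₂B) (r01.sub hB₂B) hU0 hUL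
      (fun l hl => (c5 l (by omega)).sub d1 le_rfl) x2 x4 M1 M2 M3 M4 M5 M6 M7 M8 M9
      (hlt2 O1 O2) (by positivity) (htm B₂ (fun ω hω => hBA ω (hB₂B ω hω)) (by
        rw [one_div, inv_mul_le_iff₀ (by positivity)]
        exact hPB₂) hB₂0) (htime.trans (mul_le_mul_of_nonneg_right hJW hL2.le)) (by
        have h3 := Real.exp_le_exp.2 (htime.trans hk2')
        rwa [mul_comm (L : ℝ), ← Real.rpow_def_of_pos (by norm_num), Real.rpow_natCast] at h3)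
    have hB₃B : Sub B₃ B := fun ω hω => hB₂B ω (f1 ω hω)
    obtain ⟨g1, g2, g3⟩ := c1_end (L' := Cd * (L + 1)) (frok_sub d3 f1)
      (fun ω hω => hg0 ω (hB₃B ω hω)) (fun ω hω => d4 ω (f1 ω hω)) f3 f4 f5
    rw [← hk₃] at g1 g2 g3
    have hend := hvis 2 W (e₀ + L) k₃ s (2 * k₃ + s + 14) (g₀ 0 1 + s) (g₀ 0) ψ (gpt F (G 1)) ψH
      (2 ^ k₃ / 2 ^ t) (by norm_num) hWJ hWw (heJ _ N2) (by omega) (fun j hj =>
        hk2 (φ := fun j => e₀ + L + g₀ 0 j + (2 * k₃ + s + 14) ≤ J) V2 V3 j hj)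
      (fun l hl => by rw [Nat.lt_one_iff.1 hl]; exact V1) le_rfl N7 (by
        have k1 : ⌊(bet P₂ c 1 w' w' + h * q) * J⌋₊ ≤ g₀ 0 1 + s := by
          refine Nat.floor_le_of_le (le_trans ?_ N10)
          have := mul_le_mul_of_nonneg_right hb1 hJ0
          rw [hα, hXd]
          rw [hXd] at hεQ
          linarith
        omega) (by positivity) (by
        rw [div_mul_eq_mul_div, div_le_one (by positivity), ← pow_add]
        exact pow_le_pow_right₀ (by norm_num) V4) B₃ (fun ω hω => hBA ω (hB₃B ω hω))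
      (frok_mono (frok_sub d3 f1) (by omega) le_rfl) (hcv _ hE1.ball.depG) g1 g2 g3
    have hfin : Pe F.p A ≤ 2 * (K₁ * Cf * Cf) * (Real.exp (-(δ * J)) * Pe F.p A) := by
      calc Pe F.p A ≤ K₁ * Cf * Cf * Pe F.p B₂ := hPB₂
        _ ≤ K₁ * Cf * Cf * (2 * Pe F.p B₃) := mul_le_mul_of_nonneg_left f2 (by positivity)
        _ ≤ K₁ * Cf * Cf * (2 * (Real.exp (-(δ * J)) * Pe F.p A)) :=
            mul_le_mul_of_nonneg_left (mul_le_mul_of_nonneg_left hend (by norm_num))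
              (by positivity)
        _ = _ := by ring
    have h4 : 2 * (K₁ * Cf * Cf) * Real.exp (-(δ * J)) ≤ 1 / 2 := by
      rw [Real.exp_neg, ← div_eq_mul_inv, div_le_iff₀ (Real.exp_pos _)]
      linarith
    have h5 := mul_le_mul_of_nonneg_right h4 hA0.le
    linarith
  obtain ⟨τ, hτ, J₃, h3⟩ := key
  obtain ⟨J, hJ, F, A, hA⟩ := hS τ hτ J₃
  exact h3 J hJ F A hA

end Pool.C1
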