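import Pool.Agent.H3.D2G.Big

/-!
# The windows near a good window, for the target at any place

`WinI … o i g`: the record of a good window for the target at the place `i`: data of the class
theorems (`PtI`, `WinD`), a second threshold structure `P₂` with gradients at most `2 ^ (θ₂ w J)`,
`Eb < e₂ < θ₂ w`, and its numbers at all nearby points. `winI_ae`: it holds at almost every good
window, for every place `1 ≤ i ≤ n - 1`.
-/

set_option autoImplicit false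

namespace Pool.PKG

open MeasureTheory Set Filter Topology
open Pool.Agent.H49.Ent Pool.Agent.H32.Dense Pool.STK Pool.KA Pool.KSAT Pool.K2S Pool.PB
open Pool.GEN Pool.S6C Pool.STAT Pool.CHT Pool.GRW Pool.ONE Pool.STA
open Pool.LBT (LSys ThrOf)
open Pool.LEV (Law)
open Pool.TOP (TopS)
open Pool.ISO (PtD lvN WinD)

/-- The path data of a pair, with a bound of the exponents. -/
def PtI {m : ℕ} (S : PCl m) (P : List (Fin m) × Fin m → ℝ → ℝ → ℝ) (θ : ℝ) (c : ℕ → Fin m)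
    (r : ℕ) (Pt : ℝ → ℝ → ℝ) (S₀ : ℕ) (Eb a w : ℝ) : Prop :=
  ∃ (ρ : ℝ) (vs e e₀ E sg : ℝ → ℝ) (Q : Set ℝ),
    PtD S P θ c r Pt a w ρ S₀ vs e e₀ E sg Q ∧ E 0 ≤ Eb ∧ e₀ 0 ≤ Eb

/-- The data of a window from the data of two pairs. -/
theorem winD_of {m : ℕ} {S : PCl m} {P : List (Fin m) × Fin m → ℝ → ℝ → ℝ} {θ : ℝ}
    {c : ℕ → Fin m} {r : ℕ} {Pt : ℝ → ℝ → ℝ} {S₀ : ℕ} {Eb a w ε : ℝ} {R : ℕ → Prop}
    (hwa : w < a) (h1 : PtI S P θ c r Pt S₀ Eb a w) (h2 : PtI S P θ c r Pt S₀ Eb w w)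
    (hε : 0 ≤ ε) (hR : ∀ l < r, R l → bet P c l a w ≤ bet P c l w w + (a - w) + ε)
    (ht : ∀ l ≤ r, lvN P c r Pt l w w + Eb + (a - w) < 1) :
    WinD S P θ c r Pt a w S₀ Eb ε R := by
  obtain ⟨ρ, vs, e, e₀, E, sg, Q, k1, k2, k3⟩ := h1
  obtain ⟨ρ', vs', e', e₀', E', sg', Q', l1, l2, -⟩ := h2
  exact ⟨hwa, ⟨ρ', vs', e', e₀', E', sg', Q', l1, l2⟩, ⟨ρ, vs, e, e₀, E, sg, Q, k1, k2, k3⟩, hε,
    hR, ht⟩

/-- A larger constant. -/
theorem PtI.mono {m : ℕ} {S : PCl m} {P : List (Fin m) × Fin m → ℝ → ℝ → ℝ} {θ : ℝ}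
    {c : ℕ → Fin m} {r : ℕ} {Pt : ℝ → ℝ → ℝ} {S₀ S₁ : ℕ} {Eb a w : ℝ}
    (h : PtI S P θ c r Pt S₀ Eb a w) (hS : S₀ ≤ S₁) : PtI S P θ c r Pt S₁ Eb a w := by
  obtain ⟨ρ, vs, e, e₀, E, sg, Q, k, k2, k3⟩ := h
  have hSR : (S₀ : ℝ) ≤ S₁ := by exact_mod_cast hS
  exact ⟨ρ, vs, e, e₀, E, sg, Q, ⟨k.ρ0, k.ρw, k.wa, k.a1, k.q0, k.den, k.pt,
    fun κ h1 h2 h3 l hl => (k.grw κ h1 h2 h3 l hl).trans (by
      have := mul_le_mul_of_nonneg_right hSR h2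
      linarith),
    k.sr.trans (mul_le_mul_of_nonneg_right hSR k.ρ0.le)⟩, k2, k3⟩

variable {n : ℕ}

/-- **The record of a good window** `g`, for the target at the place `i` of the order `o`. -/
def WinI (hn : 2 ≤ n) (S : PCl n) (P : ℝ → ℝ → ℝ) (r : ℝ → ℝ)
    (P' : ℕ → List (Fin n) × Fin n → ℝ → ℝ → ℝ) (Λ : Finset (Fin n) → Fin n → ℝ → ℝ → ℝ)
    (PB : ℕ → List (Fin n) × Fin n → ℝ → ℝ → ℝ) (o : Od n) (i : ℕ) (g : ℝ) : Prop :=
  ∃ (θ₂ e₂ Eb : ℝ) (P₂ : List (Fin n) × Fin n → ℝ → ℝ → ℝ) (S₀ : ℕ), 0 < Eb ∧ Eb < e₂ ∧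
    e₂ < θ₂ * g ∧ ThrOf (chsys n θ₂) S P₂ ∧ (∀ l ≤ i, LvL hn P P' o l g g + Eb < 1) ∧ 1 ≤ S₀ ∧
      ∀ (K : ℝ) (N : ℕ) (A V : ℕ → ℝ), 1 ≤ K → (∀ k < N, -K ≤ V k ∧ V k ≤ A k ∧ A k ≤ K) →
        ∀ th : ℝ, 0 < th → ∃ S₁ : ℕ, 1 ≤ S₁ ∧ ∀ η : ℝ, 0 < η → ∃ q₁ : ℝ, 0 < q₁ ∧
          ∀ q u : ℝ, 0 < q → q < q₁ → |u - g| ≤ K * q →
            3 * K * q ≤ g / 2 ∧ 3 * K * q ≤ 1 - g ∧ e₂ < θ₂ * (g - 3 * K * q) ∧
            Eb + 3 * K * q < e₂ ∧
            Nbx (LvL hn P P' o) (LvT hn PB o) (SlL hn P P' o g) (n - 1) g η (3 * K) q ∧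
            (∀ l ≤ i, ∀ x : ℝ, |x - g| ≤ 3 * K * q →
              LvL hn P P' o l x x + Eb + 6 * K * q < 1) ∧
            ∀ Z : Set ℝ, volume Z = 0 → ∃ t : ℝ, t ∉ Z ∧ u ≤ t ∧ t ≤ u + th * q ∧ ∀ k < N,
              PtI S (P' o.2) (tht o.2) (cc hn o.1.1) i (LvL hn P P' o i) S₁ Eb (t + A k * q)
                (t + V k * q) ∧
              PtI S (P' o.2) (tht o.2) (cc hn o.1.1) i (LvL hn P P' o i) S₀ Eb (t + V k * q)
                (t + V k * q) ∧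
              (∀ l ≤ n - 1, LvT hn PB o l (t + A k * q) (t + V k * q) ≤
                  LvL hn P P' o l (t + A k * q) (t + V k * q) ∧
                LvT hn PB o l (t + V k * q) (t + V k * q) ≤
                  LvL hn P P' o l (t + V k * q) (t + V k * q)) ∧
              (t + A k * q ∈ Gs P r P' Λ o ∧ t + V k * q ∈ Gs P r P' Λ o) ∧
              ∀ e : ℝ, 0 < e → ∃ d : ℝ, 0 < d ∧ ∀ a' w' : ℝ, t + A k * q ≤ a' →
                a' ≤ t + A k * q + d → t + V k * q ≤ w' → w' ≤ t + V k * q + d → w' ≤ a' →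
                bet P₂ (cc hn o.1.1) i a' w' ≤ LvL hn P P' o i (t + A k * q) (t + V k * q) + e ∧
                (∀ l ≤ i, bet P₂ (cc hn o.1.1) l w' w' ≤
                  LvL hn P P' o l (t + V k * q) (t + V k * q) + e) ∧
                ∀ l ≤ i, bet P₂ (cc hn o.1.1) l a' a' ≤
                  LvL hn P P' o l (t + A k * q) (t + A k * q) + e

variable {hn : 2 ≤ n} {S : PCl n} {P : ℝ → ℝ → ℝ} {r : ℝ → ℝ}
  {P' : ℕ → List (Fin n) × Fin n → ℝ → ℝ → ℝ} {Λ : Finset (Fin n) → Fin n → ℝ → ℝ → ℝ}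
  {PB : ℕ → List (Fin n) × Fin n → ℝ → ℝ → ℝ} {PQ : ℚ → List (Fin n) × Fin n → ℝ → ℝ → ℝ}

/-- The levels of the data at the place `i`. -/
theorem lvN_lvL (o : Od n) {i l : ℕ} (hi : i ≤ n - 1) (hl : l ≤ i) :
    lvN (P' o.2) (cc hn o.1.1) i (LvL hn P P' o i) l = LvL hn P P' o l := by
  funext a w
  unfold lvN
  split_ifs with h1
  · exact (LvL_lt o (by omega) a w).symm
  · have : l = i := by omega
    rw [this]

theorem lvL_last (o : Od n) : LvL hn P P' o (n - 1) = P := by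
  funext a w
  show lvN (P' o.2) (cc hn o.1.1) (n - 1) P (n - 1) a w = P a w
  unfold lvN
  rw [if_neg (lt_irrefl _)]

/-- **The numbers of a second threshold structure at nearby points.** -/
theorem near_num {o : Od n} (H : PkT hn S P r P' Λ PB)
    {P₂ : List (Fin n) × Fin n → ℝ → ℝ → ℝ} {θ₂ : ℝ} (h2 : ThrOf (chsys n θ₂) S P₂) {i : ℕ}
    (N : ℕ) (A V : ℕ → ℝ) (hAV : ∀ k < N, V k ≤ A k) {q : ℝ} (hq : 0 ≤ q)
    (hle : ∀ a w : ℝ, 0 < w → w ≤ a → a ≤ 1 → bet P₂ (cc hn o.1.1) i a w ≤ LvL hn P P' o i a w) :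
    ∃ Z : Set ℝ, volume Z = 0 ∧ ∀ t ∉ Z, ∀ k < N, 0 < t + V k * q → t + A k * q < 1 →
      (∀ l < i, bet P₂ (cc hn o.1.1) l (t + V k * q) (t + V k * q) ≤
        LvL hn P P' o l (t + V k * q) (t + V k * q)) →
      (∀ l < i, bet P₂ (cc hn o.1.1) l (t + A k * q) (t + A k * q) ≤
        LvL hn P P' o l (t + A k * q) (t + A k * q)) →
      ∀ e : ℝ, 0 < e → ∃ d : ℝ, 0 < d ∧ ∀ a' w' : ℝ, t + A k * q ≤ a' →
        a' ≤ t + A k * q + d → t + V k * q ≤ w' → w' ≤ t + V k * q + d → w' ≤ a' →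
        bet P₂ (cc hn o.1.1) i a' w' ≤ LvL hn P P' o i (t + A k * q) (t + V k * q) + e ∧
        (∀ l ≤ i, bet P₂ (cc hn o.1.1) l w' w' ≤
          LvL hn P P' o l (t + V k * q) (t + V k * q) + e) ∧
        ∀ l ≤ i, bet P₂ (cc hn o.1.1) l a' a' ≤
          LvL hn P P' o l (t + A k * q) (t + A k * q) + e := by
  classical
  have hf : ∀ l : ℕ, Law (if l = 0 then LvL hn P P' o i else bet P₂ (cc hn o.1.1) (l - 1)) := by
    intro l
    split_ifs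
    · exact H.lawL o i
    · exact h2.law _
  have hz : ∀ (x y : ℝ), y ≤ x → ∃ Z : Set ℝ, volume Z = 0 ∧ ∀ t ∉ Z, 0 < t + y → t + x < 1 →
      ∀ l : ℕ, ∀ e : ℝ, 0 < e → ∃ d : ℝ, 0 < d ∧ ∀ a' w' : ℝ, t + x ≤ a' → a' ≤ t + x + d →
        t + y ≤ w' → w' ≤ t + y + d → w' ≤ a' →
        (if l = 0 then LvL hn P P' o i else bet P₂ (cc hn o.1.1) (l - 1)) a' w' ≤
          (if l = 0 then LvL hn P P' o i else bet P₂ (cc hn o.1.1) (l - 1)) (t + x) (t + y) + e :=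
    fun x y hyx => rat_of hf hyx
  obtain ⟨Z₁, hZ₁⟩ : ∃ Z₁ : ℕ → Set ℝ, ∀ k < N, volume (Z₁ k) = 0 ∧ ∀ t ∉ Z₁ k,
      0 < t + V k * q → t + A k * q < 1 → ∀ l : ℕ, ∀ e : ℝ, 0 < e → ∃ d : ℝ, 0 < d ∧
        ∀ a' w' : ℝ, t + A k * q ≤ a' → a' ≤ t + A k * q + d → t + V k * q ≤ w' →
        w' ≤ t + V k * q + d → w' ≤ a' →
        (if l = 0 then LvL hn P P' o i else bet P₂ (cc hn o.1.1) (l - 1)) a' w' ≤
          (if l = 0 then LvL hn P P' o i else bet P₂ (cc hn o.1.1) (l - 1)) (t + A k * q)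
            (t + V k * q) + e := by
    have h3 : ∀ k, ∃ Z : Set ℝ, k < N → volume Z = 0 ∧ ∀ t ∉ Z,
      0 < t + V k * q → t + A k * q < 1 → ∀ l : ℕ, ∀ e : ℝ, 0 < e → ∃ d : ℝ, 0 < d ∧
        ∀ a' w' : ℝ, t + A k * q ≤ a' → a' ≤ t + A k * q + d → t + V k * q ≤ w' →
        w' ≤ t + V k * q + d → w' ≤ a' →
        (if l = 0 then LvL hn P P' o i else bet P₂ (cc hn o.1.1) (l - 1)) a' w' ≤
          (if l = 0 then LvL hn P P' o i else bet P₂ (cc hn o.1.1) (l - 1)) (t + A k * q)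
            (t + V k * q) + e := by
      intro k
      by_cases hk : k < N
      · obtain ⟨Z, k1, k2⟩ := hz (A k * q) (V k * q) (mul_le_mul_of_nonneg_right (hAV k hk) hq)
        exact ⟨Z, fun _ => ⟨k1, k2⟩⟩
      · exact ⟨∅, fun h => absurd h hk⟩
    choose Z₁ hZ₁ using h3
    exact ⟨Z₁, hZ₁⟩
  obtain ⟨Z₂, hZ₂⟩ : ∃ Z₂ : ℕ → Set ℝ, ∀ k, volume (Z₂ k) = 0 ∧ ∀ t ∉ Z₂ k,
      0 < t + V k * q → t + V k * q < 1 → ∀ l : ℕ, ∀ e : ℝ, 0 < e → ∃ d : ℝ, 0 < d ∧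
        ∀ a' w' : ℝ, t + V k * q ≤ a' → a' ≤ t + V k * q + d → t + V k * q ≤ w' →
        w' ≤ t + V k * q + d → w' ≤ a' →
        (if l = 0 then LvL hn P P' o i else bet P₂ (cc hn o.1.1) (l - 1)) a' w' ≤
          (if l = 0 then LvL hn P P' o i else bet P₂ (cc hn o.1.1) (l - 1)) (t + V k * q)
            (t + V k * q) + e := by
    choose Z₂ hZ₂ using fun k => hz (V k * q) (V k * q) le_rfl
    exact ⟨Z₂, hZ₂⟩
  obtain ⟨Z₃, hZ₃⟩ : ∃ Z₃ : ℕ → Set ℝ, ∀ k, volume (Z₃ k) = 0 ∧ ∀ t ∉ Z₃ k,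
      0 < t + A k * q → t + A k * q < 1 → ∀ l : ℕ, ∀ e : ℝ, 0 < e → ∃ d : ℝ, 0 < d ∧
        ∀ a' w' : ℝ, t + A k * q ≤ a' → a' ≤ t + A k * q + d → t + A k * q ≤ w' →
        w' ≤ t + A k * q + d → w' ≤ a' →
        (if l = 0 then LvL hn P P' o i else bet P₂ (cc hn o.1.1) (l - 1)) a' w' ≤
          (if l = 0 then LvL hn P P' o i else bet P₂ (cc hn o.1.1) (l - 1)) (t + A k * q)
            (t + A k * q) + e := by
    choose Z₃ hZ₃ using fun k => hz (A k * q) (A k * q) le_rfl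
    exact ⟨Z₃, hZ₃⟩
  refine ⟨⋃ k, ((if k < N then Z₁ k else ∅) ∪ (Z₂ k ∪ Z₃ k)), ?_, ?_⟩
  · rw [measure_iUnion_null_iff]
    intro k
    refine measure_union_null ?_ (measure_union_null (hZ₂ k).1 (hZ₃ k).1)
    split_ifs with hk
    · exact (hZ₁ k hk).1
    · exact measure_empty
  intro t ht k hk ht0 ht1 hv ha e he
  rw [mem_iUnion, not_exists] at ht
  have ht' := ht k
  rw [if_pos hk, mem_union, mem_union, not_or, not_or] at ht'
  obtain ⟨u1, u2, u3⟩ := ht'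
  have hVA : V k * q ≤ A k * q := mul_le_mul_of_nonneg_right (hAV k hk) hq
  -- the pair
  obtain ⟨d₁, hd₁, x1⟩ := (hZ₁ k hk).2 t u1 ht0 ht1 0 e he
  simp only [if_true] at x1
  -- the diagonals
  have hdv : ∀ l ≤ i, ∃ d : ℝ, 0 < d ∧ ∀ w' : ℝ, t + V k * q ≤ w' → w' ≤ t + V k * q + d →
      bet P₂ (cc hn o.1.1) l w' w' ≤ LvL hn P P' o l (t + V k * q) (t + V k * q) + e := by
    intro l hl
    obtain ⟨d, hd, x2⟩ := (hZ₂ k).2 t u2 ht0 (by linarith) (l + 1) e he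
    simp only [Nat.add_sub_cancel, if_neg (Nat.succ_ne_zero l)] at x2
    refine ⟨d, hd, fun w' y1 y2 => (x2 w' w' y1 y2 y1 y2 le_rfl).trans ?_⟩
    have : bet P₂ (cc hn o.1.1) l (t + V k * q) (t + V k * q) ≤
        LvL hn P P' o l (t + V k * q) (t + V k * q) := by
      rcases Nat.eq_or_lt_of_le hl with h5 | h5
      · rw [h5]
        exact hle _ _ ht0 le_rfl (by linarith)
      · exact hv l h5
    linarith
  have hda : ∀ l ≤ i, ∃ d : ℝ, 0 < d ∧ ∀ w' : ℝ, t + A k * q ≤ w' → w' ≤ t + A k * q + d →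
      bet P₂ (cc hn o.1.1) l w' w' ≤ LvL hn P P' o l (t + A k * q) (t + A k * q) + e := by
    intro l hl
    obtain ⟨d, hd, x2⟩ := (hZ₃ k).2 t u3 (by linarith) ht1 (l + 1) e he
    simp only [Nat.add_sub_cancel, if_neg (Nat.succ_ne_zero l)] at x2
    refine ⟨d, hd, fun w' y1 y2 => (x2 w' w' y1 y2 y1 y2 le_rfl).trans ?_⟩
    have : bet P₂ (cc hn o.1.1) l (t + A k * q) (t + A k * q) ≤
        LvL hn P P' o l (t + A k * q) (t + A k * q) := by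
      rcases Nat.eq_or_lt_of_le hl with h5 | h5
      · rw [h5]
        exact hle _ _ (by linarith) le_rfl ht1.le
      · exact ha l h5
    linarith
  choose! dv hdv0 hdv using hdv
  choose! da hda0 hda using hda
  obtain ⟨m₁, hm₁, hm₁l⟩ := fin_pos (i + 1) (f := dv) fun l hl => hdv0 l (by omega)
  obtain ⟨m₂, hm₂, hm₂l⟩ := fin_pos (i + 1) (f := da) fun l hl => hda0 l (by omega)
  obtain ⟨d, hd⟩ : ∃ d, d = min (min d₁ ((1 - (t + A k * q)) / 2)) (min m₁ m₂) := ⟨_, rfl⟩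
  have hd1 : d ≤ d₁ := by rw [hd]; exact (min_le_left _ _).trans (min_le_left _ _)
  have hd2 : d ≤ (1 - (t + A k * q)) / 2 := by
    rw [hd]
    exact (min_le_left _ _).trans (min_le_right _ _)
  have hd3 : d ≤ m₁ := by rw [hd]; exact (min_le_right _ _).trans (min_le_left _ _)
  have hd4 : d ≤ m₂ := by rw [hd]; exact (min_le_right _ _).trans (min_le_right _ _)
  refine ⟨d, by rw [hd]; exact lt_min (lt_min hd₁ (by linarith)) (lt_min hm₁ hm₂),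
    fun a' w' y1 y2 y3 y4 y5 => ⟨?_, fun l hl => ?_, fun l hl => ?_⟩⟩
  · exact (hle a' w' (by linarith) y5 (by linarith)).trans
      (x1 a' w' y1 (by linarith) y3 (by linarith) y5)
  · exact hdv l hl w' y3 (by linarith [hm₁l l (by omega)])
  · exact hda l hl a' y1 (by linarith [hm₂l l (by omega)])

/-- The record at the place `i` from the record of the window. -/
theorem winI_aux (H : PkT hn S P r P' Λ PB) {o : Od n} {g E cE : ℝ} (hg0 : 0 < g) (hg1 : g < 1)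
    (hroom : ∀ l ≤ n - 1, LvL hn P P' o l g g + E < 1)
    (W : ∀ e' : ℝ, 0 < e' → ∃ (vs e : ℝ) (S₀ : ℕ), 0 < e ∧ e ≤ e' ∧ 1 ≤ S₀ ∧
      ∀ (K : ℝ) (N : ℕ) (A V : ℕ → ℝ), 1 ≤ K → (∀ k < N, -K ≤ V k ∧ V k ≤ A k ∧ A k ≤ K) →
        ∀ th : ℝ, 0 < th → ∃ S₁ : ℕ, 1 ≤ S₁ ∧ ∀ η : ℝ, 0 < η → ∃ q₁ : ℝ, 0 < q₁ ∧
          ∀ q u : ℝ, 0 < q → q < q₁ → |u - g| ≤ K * q →
            3 * K * q ≤ g / 2 ∧ 3 * K * q ≤ 1 - g ∧
            Nbx (LvL hn P P' o) (LvT hn PB o) (SlL hn P P' o g) (n - 1) g η (3 * K) q ∧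
            (∀ l ≤ n - 1, ∀ x : ℝ, |x - g| ≤ 3 * K * q →
              LvL hn P P' o l x x + E + 6 * K * q < 1) ∧
            ∀ Z : Set ℝ, volume Z = 0 → ∃ t : ℝ, t ∉ Z ∧ u ≤ t ∧ t ≤ u + th * q ∧
              (∀ k < N, PtC hn S P P' o vs e E cE S₁ (t + A k * q) (t + V k * q) ∧
                PtC hn S P P' o vs e E cE S₀ (t + V k * q) (t + V k * q)) ∧
              (∀ k < N, ∀ l ≤ n - 1,
                LvT hn PB o l (t + A k * q) (t + V k * q) ≤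
                  LvL hn P P' o l (t + A k * q) (t + V k * q) ∧
                LvT hn PB o l (t + V k * q) (t + V k * q) ≤
                  LvL hn P P' o l (t + V k * q) (t + V k * q)) ∧
              ∀ k < N, t + A k * q ∈ Gs P r P' Λ o ∧ t + V k * q ∈ Gs P r P' Λ o)
    {i : ℕ} (hi : i ≤ n - 1) {θ₂ e₂ Eb e' ζ : ℝ} {P₂ : List (Fin n) × Fin n → ℝ → ℝ → ℝ}
    (h2 : ThrOf (chsys n θ₂) S P₂) (hEb : 0 < Eb) (hEE : Eb ≤ E) (hEe : Eb < e₂)
    (heθ : e₂ < θ₂ * g) (he' : 0 < e') (hζ : 0 < ζ)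
    (hpt : ∀ (vs e : ℝ) (S₀ : ℕ) (a w : ℝ), 0 < e → e ≤ e' →
      PtC hn S P P' o vs e E cE S₀ a w →
      PtI S (P' o.2) (tht o.2) (cc hn o.1.1) i (LvL hn P P' o i) S₀ Eb a w)
    (hle : ∀ a w : ℝ, 0 < w → w ≤ a → a ≤ 1 → bet P₂ (cc hn o.1.1) i a w ≤ LvL hn P P' o i a w)
    (hnum : ∀ x ∈ Gs P r P' Λ o, |x - g| ≤ ζ → ∀ l < i,
      bet P₂ (cc hn o.1.1) l x x ≤ LvL hn P P' o l x x) :
    WinI hn S P r P' Λ PB o i g := by
  obtain ⟨vs, e, S₀, he, hee, hS₀, W⟩ := W e' he'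
  have hθ₂ : 0 < θ₂ := by
    by_contra hcon
    have : θ₂ * g ≤ 0 := mul_nonpos_of_nonpos_of_nonneg (not_lt.1 hcon) hg0.le
    linarith
  refine ⟨θ₂, e₂, Eb, P₂, S₀, hEb, hEe, heθ, h2, fun l hl => by
    linarith [hroom l (by omega)], hS₀, fun K N A V hK hAV th hth => ?_⟩
  have hK0 : 0 < K := by linarith
  obtain ⟨S₁, hS₁, W⟩ := W K N A V hK hAV (min th K) (lt_min hth hK0)
  refine ⟨S₁, hS₁, fun η hη => ?_⟩
  obtain ⟨q₁, hq₁, W⟩ := W η hη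
  obtain ⟨q₂, hq₂⟩ : ∃ q₂ : ℝ, q₂ = min (ζ / (3 * K))
    (min ((θ₂ * g - e₂) / (2 * (3 * K * θ₂))) ((e₂ - Eb) / (2 * (3 * K)))) := ⟨_, rfl⟩
  have hq₂0 : 0 < q₂ := by
    rw [hq₂]
    exact lt_min (by positivity) (lt_min (div_pos (by linarith) (by positivity))
      (div_pos (by linarith) (by positivity)))
  refine ⟨min q₁ q₂, lt_min hq₁ hq₂0, fun q u hq hqm hu => ?_⟩
  have hqq := hqm.trans_le (min_le_right _ _)
  rw [hq₂] at hqq
  have k1 := hqq.trans_le (min_le_left _ _)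
  have k2 := hqq.trans_le ((min_le_right _ _).trans (min_le_left _ _))
  have k3 := hqq.trans_le ((min_le_right _ _).trans (min_le_right _ _))
  rw [lt_div_iff₀ (by positivity)] at k1 k2 k3
  obtain ⟨a1, a2, a3, a4, W⟩ := W q u hq (hqm.trans_le (min_le_left _ _)) hu
  have hKq : 0 < K * q := mul_pos hK0 hq
  have hθq : 0 < θ₂ * (K * q) := mul_pos hθ₂ hKq
  refine ⟨a1, a2, by nlinarith, by linarith, a3, fun l hl x hx => by
    linarith [a4 l (by omega) x hx], fun Z hZ => ?_⟩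
  obtain ⟨Z', hZ', hnear⟩ := near_num (o := o) H h2 N A V (fun k hk => (hAV k hk).2.1) hq.le hle
  obtain ⟨t, ht, ht1, ht2, b1, b2, b3⟩ := W (Z ∪ Z') (measure_union_null hZ hZ')
  rw [mem_union, not_or] at ht
  have hthK : min th K * q ≤ th * q := mul_le_mul_of_nonneg_right (min_le_left _ _) hq.le
  have hthK' : min th K * q ≤ K * q := mul_le_mul_of_nonneg_right (min_le_right _ _) hq.le
  have hu' := abs_le.1 hu
  refine ⟨t, ht.1, ht1, by linarith, fun k hk => ⟨hpt _ _ _ _ _ he hee (b1 k hk).1,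
    hpt _ _ _ _ _ he hee (b1 k hk).2, fun l hl => b2 k hk l hl, b3 k hk, ?_⟩⟩
  obtain ⟨c1, c2, c3⟩ := hAV k hk
  have d1 : -K * q ≤ V k * q := mul_le_mul_of_nonneg_right c1 hq.le
  have d2 : V k * q ≤ A k * q := mul_le_mul_of_nonneg_right c2 hq.le
  have d3 : A k * q ≤ K * q := mul_le_mul_of_nonneg_right c3 hq.le
  obtain ⟨ρ, Q', f1⟩ := (b1 k hk).1
  refine hnear t ht.2 k hk (f1.w0) f1.a1 (hnum _ (b3 k hk).2 ?_) (hnum _ (b3 k hk).1 ?_)
  · rw [abs_le]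
    constructor <;> linarith
  · rw [abs_le]
    constructor <;> linarith

/-- **The record at almost every good window**, for the target at any place. -/
theorem PkB.winI_ae (H : PkB hn S P r P' Λ PB PQ) (hTop : TopS n) (hF : FZX (n - 1)) :
    ∀ᵐ g : ℝ, ∀ o : Od n, g ∈ Gs P r P' Λ o → ∀ i, 1 ≤ i → i ≤ n - 1 →
      WinI hn S P r P' Λ PB o i g := by
  filter_upwards [H.toPkT.win2_ae hTop hF, H.sl_ae hTop hF] with g hW hsl o ho i hi1 hi
  obtain ⟨α, Q, c', F⟩ := H.toPk.fac hTop hF ho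
  have hg0 := F.g0
  have hg1 := F.g1
  have hsl := hsl o ho
  obtain ⟨E, cE, hE, hroom, W⟩ := hW o ho
  have hth := tht_pos o.2
  rcases Nat.lt_or_ge i (n - 1) with hin | hin
  · -- a coordinate of the list
    obtain ⟨Eb, hEb⟩ : ∃ Eb, Eb = min E (tht o.2 * g / 4) := ⟨_, rfl⟩
    have hEb0 : 0 < Eb := by rw [hEb]; exact lt_min hE (by positivity)
    have hEb1 : Eb ≤ E := by rw [hEb]; exact min_le_left _ _
    have hEb2 : Eb ≤ tht o.2 * g / 4 := by rw [hEb]; exact min_le_right _ _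
    have htg : 0 < tht o.2 * g := mul_pos hth hg0
    refine winI_aux H.toPkT hg0 hg1 hroom W hi (θ₂ := tht o.2) (e₂ := tht o.2 * g / 2) (Eb := Eb)
      (e' := Eb / (4 * (i + 1))) (ζ := 1) (P₂ := P' o.2) (H.cht o.2) hEb0 hEb1 (by linarith)
      (by linarith) (by positivity) one_pos ?_ (fun a w _ _ _ => (LvL_lt o hin a w).ge)
      (fun x _ _ l hl => (LvL_lt o (by omega) x x).ge)
    intro vs e S₀ a w he hee h
    have h1 : 2 * e * (i + 1) < Eb := by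
      rw [le_div_iff₀ (by positivity)] at hee
      linarith
    have hi0 : (0 : ℝ) ≤ i := Nat.cast_nonneg i
    obtain ⟨ρ, sg, Q', h2⟩ := H.toPkT.coo h hin (E' := Eb) h1
    exact ⟨ρ, _, _, _, _, sg, Q', h2, le_rfl, by nlinarith⟩
  · -- the target
    have hin' : i = n - 1 := by omega
    subst hin'
    obtain ⟨δ, hδ, hδl⟩ := fin_pos n (f := fun l => 1 - (LvL hn P P' o l g g + E)) fun l hl => by
      linarith [hroom l (by omega)]
    obtain ⟨p, hp1, hp2⟩ := exists_rat_btwn (show E / g < (E + δ / 2) / g from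
      div_lt_div_of_pos_right (by linarith) hg0)
    rw [div_lt_iff₀ hg0] at hp1
    rw [lt_div_iff₀ hg0] at hp2
    have hp0 : (0 : ℝ) < p := by
      by_contra hcon
      have : (p : ℝ) * g ≤ 0 := mul_nonpos_of_nonpos_of_nonneg (not_lt.1 hcon) hg0.le
      linarith
    -- the scale at which the numbers of the list are small
    have hcont : ∀ᶠ x in 𝓝 g, ∀ l ∈ Finset.range (n - 1), LvL hn P P' o l x x + p * x < 1 := by
      rw [Finset.eventually_all]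
      intro l hl
      rw [Finset.mem_range] at hl
      have h1 : ContinuousAt (fun x => LvL hn P P' o l x x + p * x) g :=
        (hsl l (by omega)).2.1.1.continuousAt.add (by fun_prop)
      refine h1.eventually_lt_const ?_
      have := hδl l (by omega)
      linarith
    obtain ⟨ζ, hζ, hnum⟩ := Metric.eventually_nhds_iff.1 hcont
    refine winI_aux H.toPkT hg0 hg1 hroom W hi (θ₂ := (p : ℝ)) (e₂ := (E + p * g) / 2) (Eb := E)
      (e' := E) (ζ := ζ / 2) (P₂ := PQ p) (H.thq p) hE le_rfl (by linarith) (by linarith) hE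
      (by positivity) ?_ (fun a w h1 h2 h3 => ?_) (fun x hx hxg l hl => ?_)
    · intro vs e S₀ a w he hee h
      obtain ⟨ρ, Q', h1⟩ := h
      rw [lvL_last]
      exact ⟨ρ, _, _, _, _, _, Q', h1, le_rfl, hee⟩
    · rw [lvL_last]
      exact H.tgt o p h1 h2 h3
    · have h1 := @hnum x (by rw [Real.dist_eq]; linarith) l (Finset.mem_range.2 hl)
      have h2 := LvL_lt (P := P) (P' := P') (hn := hn) o hl x x
      have h3 : LvL hn P P' o l x x = bet (P' o.2) (cc hn o.1.1) l x x := h2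
      rw [h3] at h1 ⊢
      exact H.num hF hx (by exact_mod_cast hp0) hl (by linarith)

end Pool.PKG
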