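import Pool.Agent.H3.D2G.C1d
import Pool.Agent.H3.D2G.WinI
import Pool.Agent.H66.D2.Two

/-!
# The cell with one coordinate of slope one before the target

`one_false`: at almost every good window, if the first coordinate has the slope one, the slope of the
second one is more than two and its fat boxes are `2`-steep, there is a contradiction.
`cell_one`: the cell `[Kd.one]`.
-/

set_option autoImplicit false

namespace Pool.PKG

open MeasureTheory Set Filter Topology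
open Pool.Agent.H49.Ent Pool.Agent.H32.Dense Pool.STK Pool.KA Pool.KSAT Pool.K2S Pool.PB
open Pool.GEN Pool.S6C Pool.STAT Pool.CHT Pool.GRW Pool.ONE Pool.STA
open Pool.LBT (LSys ThrOf)
open Pool.LEV (Law)
open Pool.TOP (TopS)
open Pool.STR (ThinAt SteepAt StaAt)
open Pool.ISO (PtD lvN WinD)

variable {n : ℕ} {hn : 2 ≤ n} {S : PCl n} {P : ℝ → ℝ → ℝ} {r : ℝ → ℝ}
  {P' : ℕ → List (Fin n) × Fin n → ℝ → ℝ → ℝ} {Λ : Finset (Fin n) → Fin n → ℝ → ℝ → ℝ}
  {PB : ℕ → List (Fin n) × Fin n → ℝ → ℝ → ℝ} {PQ : ℚ → List (Fin n) × Fin n → ℝ → ℝ → ℝ}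

/-- The contradiction at one window. -/
theorem one_aux (H : PkT hn S P r P' Λ PB) {o : Od n} {g : ℝ}
    (hg0 : 0 < g) (W : WinI hn S P r P' Λ PB o 1 g) (h0 : SlL hn P P' o g 0 = 1)
    (h1 : 2 < SlL hn P P' o g 1) (hst : SteepAt 2 (LvT hn PB o 1) g) : False := by
  have hn1 : 1 ≤ n - 1 := by omega
  obtain ⟨θ₂, e₂, Eb, P₂, S₀, hEb, hEe, heθ, hP₂, hroom, hS₀, W⟩ := W
  obtain ⟨Sl, hSl⟩ : ∃ Sl, Sl = SlL hn P P' o g 1 := ⟨_, rfl⟩
  rw [← hSl] at h1
  obtain ⟨γ, hγ⟩ : ∃ γ, γ = min ((Sl - 2) / 4) (1 / 2) := ⟨_, rfl⟩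
  have hγ0 : 0 < γ := by rw [hγ]; exact lt_min (by linarith) (by norm_num)
  have hγ1 : γ ≤ 1 / 2 := by rw [hγ]; exact min_le_right _ _
  have hγ2 : 4 * γ ≤ Sl - 2 := by
    have : γ ≤ (Sl - 2) / 4 := by rw [hγ]; exact min_le_left _ _
    linarith
  obtain ⟨V, hV⟩ : ∃ V : ℕ → ℝ, V = fun k => if k = 0 then 0 else 1 / 2 := ⟨_, rfl⟩
  have hV0 : V 0 = 0 := by rw [hV]; simp
  have hV1 : V 1 = 1 / 2 := by rw [hV]; simp
  have hk2 : ∀ {φ : ℕ → Prop}, φ 0 → φ 1 → ∀ k < 2, φ k := by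
    intro φ h0 h1 k hk
    interval_cases k
    exacts [h0, h1]
  obtain ⟨S₁, hS₁, W⟩ := W 1 2 (fun _ => 1) V le_rfl
    (hk2 ⟨by rw [hV0]; norm_num, by rw [hV0]; norm_num, le_rfl⟩
      ⟨by rw [hV1]; norm_num, by rw [hV1]; norm_num, le_rfl⟩) 1 one_pos
  obtain ⟨S₂, hS₂⟩ : ∃ S₂, S₂ = max S₀ S₁ := ⟨_, rfl⟩
  obtain ⟨ε₀, hε₀, hcls⟩ := Pool.C1.c1_cls n S₂ (by rw [hS₂]; exact le_max_of_le_left hS₀) γ hγ0 hγ1
  obtain ⟨η, hη⟩ : ∃ η, η = min (ε₀ / 4) (γ / 4) := ⟨_, rfl⟩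
  have hη0 : 0 < η := by rw [hη]; exact lt_min (by linarith) (by linarith)
  have hη1 : 4 * η ≤ ε₀ := by
    have : η ≤ ε₀ / 4 := by rw [hη]; exact min_le_left _ _
    linarith
  have hη2 : 4 * η ≤ γ := by
    have : η ≤ γ / 4 := by rw [hη]; exact min_le_right _ _
    linarith
  obtain ⟨q₁, hq₁, W⟩ := W η hη0
  obtain ⟨q, hq⟩ : ∃ q, q = q₁ / 2 := ⟨_, rfl⟩
  have hq0 : 0 < q := by rw [hq]; linarith
  obtain ⟨a1, a2, a3, a4, hnb, hrm, W⟩ := W q g hq0 (by rw [hq]; linarith) (by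
    rw [sub_self, abs_zero]
    linarith)
  obtain ⟨t, -, ht1, ht2, W⟩ := W ∅ measure_empty
  obtain ⟨p1, p2, p3, -, p5⟩ := W 0 (by norm_num)
  obtain ⟨r1, r2, -, -, r5⟩ := W 1 (by norm_num)
  have e2 : (1 : ℝ) / 2 * q = q / 2 := by ring
  simp only [hV0, zero_mul, add_zero, one_mul] at p1 p2 p3 p5
  simp only [hV1, one_mul, e2] at r1 r2 r5
  simp only [one_mul] at ht2
  simp only [mul_one] at a1 a2 a3 a4 hnb hrm
  -- the numbers
  have hLN : ∀ l ≤ 1, ∀ a w, lvN (P' o.2) (cc hn o.1.1) 1 (LvL hn P P' o 1) l a w =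
      LvL hn P P' o l a w := fun l hl a w => by rw [lvN_lvL o hn1 hl]
  have hbx : ∀ x y : ℝ, g ≤ x → x ≤ g + 3 * q → |x - g| ≤ 3 * q := fun x _ k1 k2 => by
    rw [abs_le]
    constructor <;> linarith
  have hdL : ∀ l ≤ 1, ∀ x : ℝ, g ≤ x → x ≤ g + 3 * q →
      LvL hn P P' o l x x ≤ LvL hn P P' o l g g + SlL hn P P' o g l * (x - g) + η * q ∧
      LvL hn P P' o l g g + SlL hn P P' o g l * (x - g) - η * q ≤ LvL hn P P' o l x x := by
    intro l hl x k1 k2
    have k3 := abs_le.1 (hnb.dL l (by omega) x (hbx x x k1 k2))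
    constructor <;> linarith [k3.1, k3.2]
  have hdT : ∀ x : ℝ, g ≤ x → x ≤ g + 3 * q →
      LvL hn P P' o 1 g g + SlL hn P P' o g 1 * (x - g) - η * q ≤ LvT hn PB o 1 x x := by
    intro x k1 k2
    have k3 := abs_le.1 (hnb.dT 1 hn1 x (hbx x x k1 k2))
    linarith [k3.1, k3.2]
  have hηq : η * q ≤ ε₀ * q / 4 := by
    have := mul_le_mul_of_nonneg_right hη1 hq0.le
    linarith
  have hηq2 : η * q ≤ γ * q / 4 := by
    have := mul_le_mul_of_nonneg_right hη2 hq0.le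
    linarith
  have hηq0 : 0 < η * q := mul_pos hη0 hq0
  have w0 := hdL 0 (by norm_num) t ht1 (by linarith)
  have w0q := hdL 0 (by norm_num) (t + q) (by linarith) (by linarith)
  have w0h := hdL 0 (by norm_num) (t + q / 2) (by linarith) (by linarith)
  have w1 := hdL 1 le_rfl t ht1 (by linarith)
  have w1h := hdL 1 le_rfl (t + q / 2) (by linarith) (by linarith)
  have w1T := hdT t ht1 (by linarith)
  rw [h0, one_mul] at w0 w0q w0h
  rw [← hSl] at w1 w1h w1T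
  have hSq : (2 + 4 * γ) * (q / 2) ≤ Sl * (q / 2) :=
    mul_le_mul_of_nonneg_right (by linarith) (by linarith)
  have hstp := hnb.stp 1 hn1 hst (t + q) t (by linarith) (by linarith) (by linarith)
  have hlow0 : ∀ x : ℝ, t ≤ x → x ≤ t + q → LvL hn P P' o 0 (t + q) x ≤
      LvL hn P P' o 0 (t + q) (t + q) := fun x k1 k2 =>
    (H.lawL o 0).mono_w _ _ _ (by linarith) k2 le_rfl (by linarith)
  have e1 : ∀ a w, LvL hn P P' o 0 a w = bet (P' o.2) (cc hn o.1.1) 0 a w := fun a w =>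
    LvL_lt o (by omega) a w
  have hR0 : bet (P' o.2) (cc hn o.1.1) 0 (t + q) t ≤ bet (P' o.2) (cc hn o.1.1) 0 t t +
      (t + q - t) + ε₀ * q := by
    rw [← e1, ← e1]
    have := hlow0 t le_rfl (by linarith)
    linarith
  have hR1 : bet (P' o.2) (cc hn o.1.1) 0 (t + q) (t + q / 2) ≤
      bet (P' o.2) (cc hn o.1.1) 0 (t + q / 2) (t + q / 2) + (t + q - (t + q / 2)) + ε₀ * q := by
    rw [← e1, ← e1]
    have := hlow0 (t + q / 2) (by linarith) (by linarith)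
    linarith
  have hε₀q : 0 < ε₀ * q := mul_pos hε₀ hq0
  obtain ⟨d, hd, D1⟩ := p5 (ε₀ * q) hε₀q
  obtain ⟨d', hd', D2⟩ := r5 (ε₀ * q) hε₀q
  obtain ⟨w', hw1, hw2⟩ := exists_rat_btwn (show t < t + min d (q / 2) by
    have : 0 < min d (q / 2) := lt_min hd (by linarith)
    linarith)
  obtain ⟨a', ha1, ha2⟩ := exists_rat_btwn (show t + q / 2 < t + q / 2 + min d' (q / 2) by
    have : 0 < min d' (q / 2) := lt_min hd' (by linarith)
    linarith)
  have hm1 := min_le_left d (q / 2)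
  have hm2 := min_le_right d (q / 2)
  have hm3 := min_le_left d' (q / 2)
  have hm4 := min_le_right d' (q / 2)
  have hθ₂ : 0 < θ₂ := by
    by_contra hcon
    have : θ₂ * g ≤ 0 := mul_nonpos_of_nonpos_of_nonneg (not_lt.1 hcon) hg0.le
    linarith
  have heθw : ∀ x : ℝ, g ≤ x → e₂ < θ₂ * x := fun x hx =>
    a3.trans_le (mul_le_mul_of_nonneg_left (by linarith) hθ₂.le)
  obtain ⟨-, D1, -⟩ := D1 (t + q) w' le_rfl (by linarith) hw1.le (by linarith) (by linarith)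
  obtain ⟨-, D2, -⟩ := D2 (t + q) a' le_rfl (by linarith) ha1.le (by linarith) (by linarith)
  have hl01 : ∀ l < 1, l = 0 := fun l hl => by omega
  have hroomw : ∀ l ≤ 1, LvL hn P P' o l t t + Eb + 6 * q < 1 := fun l hl =>
    hrm l hl t (hbx t t ht1 (by linarith))
  have hroomh : ∀ l ≤ 1, LvL hn P P' o l (t + q / 2) (t + q / 2) + Eb + 6 * q < 1 := fun l hl =>
    hrm l hl _ (hbx _ t (by linarith) (by linarith))
  refine hcls (S := S) (P := P' o.2) (P₂ := P₂) (θ := tht o.2) (θ₂ := θ₂) (c := cc hn o.1.1)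
    (Pt := LvL hn P P' o 1) (w := t) (q := q) (Eb := Eb) (e := e₂) (w' := w') (a' := a')
    H.toPk.ne (H.cht o.2) (tht_pos _) hP₂ H.toPk.tmh ((cc_inj hn o.1.1).mono fun x hx => by
      rw [Set.mem_Iio] at hx ⊢
      omega) (H.lawL o 1) hq0 (by linarith)
    (winD_of (by linarith) (p1.mono (by rw [hS₂]; exact le_max_right _ _))
      (p2.mono (by rw [hS₂]; exact le_max_left _ _)) hε₀q.le (fun l hl _ => by
        rw [hl01 l hl]
        exact hR0) (fun l hl => by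
        rw [hLN l hl]
        linarith [hroomw l hl]))
    (winD_of (by linarith) (r1.mono (by rw [hS₂]; exact le_max_right _ _))
      (r2.mono (by rw [hS₂]; exact le_max_left _ _)) hε₀q.le (fun l hl _ => by
        rw [hl01 l hl]
        exact hR1) (fun l hl => by
        rw [hLN l hl]
        linarith [hroomh l hl]))
    (fun l hl => by rw [hLN l hl]; linarith [hroomw l hl])
    (fun l hl => by rw [hLN l hl]; linarith [hroomh l hl]) ?_ ?_ ?_ hw1 (by linarith) ha1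
    (by linarith) ?_ ?_ ?_ (by linarith) (heθw _ (by linarith)) (heθw _ (by linarith))
  · rw [hLN 0 (by norm_num), hLN 0 (by norm_num)]
    linarith
  · rw [hLN 1 le_rfl, hLN 1 le_rfl]
    linarith
  · rw [hLN 1 le_rfl]
    have := (p3 1 hn1).1
    linarith
  · rw [hLN 1 le_rfl]
    exact D1 1 le_rfl
  · rw [hLN 0 (by norm_num)]
    exact D1 0 (by norm_num)
  · rw [hLN 0 (by norm_num)]
    exact D2 0 (by norm_num)

/-- **The first coordinate has the slope one**: the fat boxes of the second one are not `2`-steep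
when its slope is more than two. -/
theorem one_false (H : PkT hn S P r P' Λ PB) (hTop : TopS n) (hF : FZX (n - 1)) :
    ∀ᵐ g : ℝ, ∀ o : Od n, g ∈ Gs P r P' Λ o → SlL hn P P' o g 0 = 1 →
      2 < SlL hn P P' o g 1 → SteepAt 2 (LvT hn PB o 1) g → False := by
  obtain ⟨S', PQ, -, HB⟩ := pkB_ex H
  filter_upwards [HB.winI_ae hTop hF] with g h o ho h0 h1 h2
  obtain ⟨α, Q, c', F⟩ := H.toPk.fac hTop hF ho
  exact one_aux HB.toPkT F.g0 (h o ho 1 le_rfl (by omega)) h0 h1 h2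

/-- **The cell** `[Kd.one]`. -/
theorem cell_one (H : PkT hn S P r P' Λ PB) (hTop : TopS n) (hF : FZX (n - 1)) (h : ℝ) :
    Cell H hTop hF h [Kd.one] := by
  intro o
  filter_upwards [one_false H hTop hF] with g k R _ hk hs hst
  have h0 : SlL hn P P' o g 0 = 1 := hk 0 (by norm_num)
  exact (k o R.rwd.mem h0 hs hst).elim

end Pool.PKG
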