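import Pool.Agent.H3.D2G.C1e
import Pool.Agent.H56.ASM.Sk8

/-!
# The cell `[Kd.one]` for all classes
-/

set_option autoImplicit false

namespace Pool.ASM

open Pool.PKG

/-- **The cell `[Kd.one]`**, all classes. -/
theorem lCellA_one (n : ℕ) : LCellA n [Kd.one] := fun _ =>
  Tol.of_all fun _ _ _ => fun _ _ hF hTop _ _ _ _ _ _ _ _ _ _ H => cell_one H hTop hF _

end Pool.ASM
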