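import Pool.Agent.H3.D2G.Win

/-!
# A coordinate of the list as a target

`PtD.coo`: the data of a path of points for the target `c r` give the data of the same path for the
target `c i`, `i < r`, with a small exponent. `PtC.coo`: the same in a package.
-/

set_option autoImplicit false

namespace Pool.ISO

open Finset Real MvPolynomial
open Pool.Agent.H49.Ent Pool.Agent.H32.Dense Pool.STK Pool.KA Pool.KSAT Pool.K2S Pool.PB Pool.S6C
open Pool.GEN Pool.CHT Pool.CHX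
open Pool.LBT (LSys Slo Tri ThrOf fl_le' bas_false)
open Pool.LEV (Law)
open Pool.JTN (TgP)

variable {m : ℕ} {S : PCl m} {P : List (Fin m) × Fin m → ℝ → ℝ → ℝ} {θ : ℝ} {c : ℕ → Fin m}

theorem csl_mono {r r' : ℕ} (h : r ≤ r') : ∀ i : ℕ, Csl r i ≤ Csl r' i := by
  intro i
  induction i with
  | zero => exact le_rfl
  | succ i ih =>
    show 1 + r * (Csl r i + 1) ≤ 1 + r' * (Csl r' i + 1)
    exact Nat.add_le_add_left (Nat.mul_le_mul h (Nat.add_le_add_right ih 1)) 1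

theorem csl_mono' {r : ℕ} (hr : 1 ≤ r) {i j : ℕ} (h : i ≤ j) : Csl r i ≤ Csl r j := by
  induction j, h using Nat.le_induction with
  | base => exact le_rfl
  | succ j _ ih =>
    refine ih.trans ?_
    show Csl r j ≤ 1 + r * (Csl r j + 1)
    have h1 : 1 * (Csl r j + 1) ≤ r * (Csl r j + 1) := Nat.mul_le_mul_right _ hr
    omega

theorem pts_pre {r i N : ℕ} (hi : i ≤ r) {a w : ℕ → ℝ} {vs e₀ : ℝ}
    (h : Pts S P θ c r N a w vs e₀) : Pts S P θ c i N a w vs e₀ where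
  pos := h.pos
  wa := h.wa
  lt := h.lt
  rc := fun k hk j hj => h.rc k hk j (by omega)
  vis := fun k hk j hj => h.vis k hk j (by omega)
  gre := fun k hk j hj => h.gre k hk j (by omega)
  srt := fun k hk j hj => h.srt k hk j (by omega)
  rel := fun k hk D η hη => by
    obtain ⟨φ, h1, h2⟩ := h.rel k hk D η hη
    exact ⟨φ, h1, fun j hj => h2 j (hj.trans hi)⟩

/-- A coordinate of the list has a label. -/
theorem tgP_coo (hP : ThrOf (chsys m θ) S P) (hθ : 0 < θ) (hS : TmH S) {r : ℕ}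
    (hc : Set.InjOn c (Set.Iio r)) {x y vs e₀ e : ℝ} (hvs : 0 ≤ vs)
    (h : Pts S P θ c r 1 (fun _ => x) (fun _ => y) vs e₀) {i : ℕ} (hi : i < r)
    (he : Csl r (i + 1) * vs < e) (he₀ : e ≤ e₀) :
    TgP S c i (bet P c i x y) x y (e + bet P c i x y + vs) := by
  intro ε hε
  obtain ⟨K, d, δ, K₁, hK₁, -, hd, -, hb⟩ := jatt hP hθ hS hc hvs h (i + 1) hi (fun _ _ => ε / 2)
    (fun _ _ => by positivity) e he he₀
  have hx1 : x < 1 := h.lt 0 one_pos
  have hy0 : 0 < y := h.pos 0 one_pos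
  have hyx : y ≤ x := h.wa 0 one_pos
  have hbet : ∀ l, x ≤ bet P c l x y := fun l => hP.low _ _ _ hy0.le hyx hx1.le
  have he0 : 0 < e := by
    have : 0 ≤ (Csl r (i + 1) : ℝ) * vs := mul_nonneg (Nat.cast_nonneg _) hvs
    linarith
  obtain ⟨K', hK'⟩ : ∃ K', K' = ∑ l ∈ range (i + 1), K l := ⟨_, rfl⟩
  have hKK : ∀ l < i + 1, K l ≤ K' := fun l hl => by
    rw [hK']
    exact Finset.single_le_sum (f := K) (fun _ _ => Nat.zero_le _) (mem_range.2 hl)
  obtain ⟨J₁, hJ₁⟩ := big 1 (show 0 < ε / 2 by positivity)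
  refine ⟨K', K₁, hK₁, Bas.mono J₁ hb ?_⟩
  rintro J hJ F A ⟨B, G, H, h1, h2, h3⟩
  have hJε := hJ₁ J hJ
  have hJ0 : (0 : ℝ) ≤ J := Nat.cast_nonneg J
  obtain ⟨G', H', h4⟩ := h3.congr (K' := fun _ => K')
    (g' := fun _ l => ⌊(bet P c l x y - d l) * J⌋₊) (δ' := fun l => ⌊δ l * J⌋₊)
    (fun l hl => hKK l hl) (fun k l hl => rfl) (fun _ _ => rfl)
  refine ⟨B, c, i, ⌊e * J⌋₊, fun l => ⌊(bet P c l x y - d l) * J⌋₊, h1, h2, le_rfl,
    hc.mono fun z hz => (show z < r from lt_trans hz hi), fun l hl => ⟨l, hl, rfl⟩, rfl,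
    ⟨G' 0, H' 0, h4.ok 0 one_pos⟩, ?_, fun l hl => ?_⟩
  · have h5 := (hd i (by omega)).2
    have h6 := Nat.lt_floor_add_one ((bet P c i x y - d i) * (J : ℝ))
    have h7 : d i * J ≤ ε / 2 * J := mul_le_mul_of_nonneg_right h5 hJ0
    show (bet P c i x y - ε) * J ≤ (⌊(bet P c i x y - d i) * (J : ℝ)⌋₊ : ℝ)
    linarith
  · have h5 := (hd l (by omega)).1
    have h6 : bet P c l x y ≤ bet P c i x y + vs := by
      rcases hl.lt_or_eq with h7 | h7
      · exact h.srt 0 one_pos i hi l h7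
      · rw [h7]
        linarith
    have h8 : (⌊e * J⌋₊ : ℝ) ≤ e * J := Nat.floor_le (mul_nonneg he0.le hJ0)
    have h9 : (⌊(bet P c l x y - d l) * (J : ℝ)⌋₊ : ℝ) ≤ bet P c l x y * J := by
      refine (Nat.cast_le.2 (Nat.floor_le_floor (mul_le_mul_of_nonneg_right
        (show bet P c l x y - d l ≤ bet P c l x y by linarith) hJ0))).trans
        (Nat.floor_le (mul_nonneg (by linarith [hbet l]) hJ0))
    have h10 := mul_le_mul_of_nonneg_right h6 hJ0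
    have h11 : 0 ≤ ε * J := by positivity
    push_cast
    show (⌊e * J⌋₊ : ℝ) + (⌊(bet P c l x y - d l) * (J : ℝ)⌋₊ : ℝ) ≤ _
    linarith

/-- **A coordinate as a target**, at one point. -/
theorem PtN.coo (hP : ThrOf (chsys m θ) S P) (hθ : 0 < θ) (hS : TmH S) {r : ℕ}
    (hc : Set.InjOn c (Set.Iio r)) {Pt : ℝ → ℝ → ℝ} {x y vs e e₀ E sg : ℝ}
    (h : PtN S P θ c r Pt x y vs e e₀ E sg) {i : ℕ} (hi : i < r) {E' : ℝ}
    (hE : (e + vs) * (i + 1) < E') :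
    PtN S P θ c i (bet P c i) x y vs e e₀ E' (e + bet P c i x y + vs) := by
  have hr : 1 ≤ r := by omega
  have hvs := h.vs0
  have k1 : (Csl i i : ℝ) ≤ Csl r r := by
    exact_mod_cast (csl_mono hi.le i).trans (csl_mono' hr hi.le)
  have k2 : (Csl r (i + 1) : ℝ) ≤ Csl r r := by
    exact_mod_cast csl_mono' hr (by omega)
  have k3 := mul_le_mul_of_nonneg_right k1 hvs
  have k4 := mul_le_mul_of_nonneg_right k2 hvs
  have k5 := h.e1
  have he0 : 0 < e := by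
    have : 0 ≤ (Csl r r : ℝ) * vs := mul_nonneg (Nat.cast_nonneg _) hvs
    linarith
  have hi0 : (0 : ℝ) ≤ i := Nat.cast_nonneg i
  have k6 : e + vs ≤ (e + vs) * (i + 1) := by
    have : 0 ≤ (e + vs) * i := mul_nonneg (by linarith) hi0
    linarith
  exact
    { pts := pts_pre hi.le h.pts
      vs0 := hvs
      e1 := by linarith
      e2 := h.e2
      E1 := hE
      E2 := Or.inl (by linarith)
      tg := tgP_coo hP hθ hS hc hvs h.pts hi (by linarith) h.e2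
      low := hP.low _ _ _ (h.pts.pos 0 one_pos).le (h.pts.wa 0 one_pos) (h.pts.lt 0 one_pos).le
      lt := by
        have h1 := h.pts.vis 0 one_pos i hi i le_rfl
        have h2 : 0 < θ * y := mul_pos hθ (h.pts.pos 0 one_pos)
        have h3 : tau P c i i x y = bet P c i x y := rfl
        rw [h3] at h1
        linarith }

/-- **A coordinate as a target**, along a path. -/
theorem PtD.coo (hP : ThrOf (chsys m θ) S P) (hθ : 0 < θ) (hS : TmH S) {r : ℕ}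
    (hc : Set.InjOn c (Set.Iio r)) {Pt : ℝ → ℝ → ℝ} {a w ρ : ℝ} {S₀ : ℕ}
    {vs e e₀ E sg : ℝ → ℝ} {Q : Set ℝ} (h : PtD S P θ c r Pt a w ρ S₀ vs e e₀ E sg Q) {i : ℕ}
    (hi : i < r) {E' : ℝ → ℝ} (hE : ∀ κ, (e κ + vs κ) * (i + 1) < E' κ) :
    PtD S P θ c i (bet P c i) a w ρ S₀ vs e e₀ E'
      (fun κ => e κ + bet P c i (a - κ) (w - κ) + vs κ) Q where
  ρ0 := h.ρ0
  ρw := h.ρw
  wa := h.wa
  a1 := h.a1
  q0 := h.q0
  den := h.den
  pt := fun κ h1 h2 h3 => (h.pt κ h1 h2 h3).coo hP hθ hS hc hi (hE κ)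
  grw := fun κ h1 h2 h3 l hl => by
    have h4 := h.grw κ h1 h2 h3 l (by omega)
    have e1 : ∀ a w : ℝ, lvN P c r Pt l a w = bet P c l a w := fun a w => if_pos (by omega)
    have e2 : ∀ a w : ℝ, lvN P c i (bet P c i) l a w = bet P c l a w := fun a w => by
      unfold lvN
      split_ifs with h5
      · rfl
      · have : l = i := by omega
        rw [this]
    rw [e1, e1] at h4
    rw [e2, e2]
    exact h4
  sr := h.sr

theorem lvN_coo {r : ℕ} {Pt : ℝ → ℝ → ℝ} {i l : ℕ} (hi : i < r) (hl : l ≤ i) (a w : ℝ) :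
    lvN P c i (bet P c i) l a w = lvN P c r Pt l a w := by
  unfold lvN
  split_ifs with h5 h6 h6
  · rfl
  · omega
  · have : l = i := by omega
    rw [this]
  · omega

/-- The exponents of the list are larger than the slownesses. -/
theorem PtD.vse {r : ℕ} {Pt : ℝ → ℝ → ℝ} {a w ρ : ℝ} {S₀ : ℕ}
    {vs e e₀ E sg : ℝ → ℝ} {Q : Set ℝ} (h : PtD S P θ c r Pt a w ρ S₀ vs e e₀ E sg Q)
    (hr : 1 ≤ r) : 0 ≤ vs 0 ∧ vs 0 ≤ e 0 := by
  have h1 := h.pt 0 h.q0 le_rfl h.ρ0.le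
  have h2 := h1.e1
  have h3 : 1 ≤ Csl r r := by
    obtain ⟨k, rfl⟩ : ∃ k, r = k + 1 := ⟨r - 1, by omega⟩
    show 1 ≤ 1 + (k + 1) * (Csl (k + 1) k + 1)
    omega
  have h4 : (1 : ℝ) ≤ Csl r r := by exact_mod_cast h3
  have h5 := mul_le_mul_of_nonneg_right h4 h1.vs0
  exact ⟨h1.vs0, by linarith⟩

end Pool.ISO

namespace Pool.PKG

open Set
open Pool.Agent.H49.Ent Pool.Agent.H32.Dense Pool.STK Pool.KA Pool.KSAT Pool.K2S Pool.PB
open Pool.GEN Pool.S6C Pool.STAT Pool.CHT Pool.GRW Pool.ONE Pool.STA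
open Pool.ISO (PtD lvN PtD.coo PtD.vse)

variable {n : ℕ} {hn : 2 ≤ n} {S : PCl n} {P : ℝ → ℝ → ℝ} {r : ℝ → ℝ}
  {P' : ℕ → List (Fin n) × Fin n → ℝ → ℝ → ℝ} {Λ : Finset (Fin n) → Fin n → ℝ → ℝ → ℝ}
  {PB : ℕ → List (Fin n) × Fin n → ℝ → ℝ → ℝ}

/-- **A coordinate of the order as a target**, with a small exponent. -/
theorem PkT.coo (H : PkT hn S P r P' Λ PB) {o : Od n} {vs e E cE : ℝ} {S₀ : ℕ} {a w : ℝ}
    (h : PtC hn S P P' o vs e E cE S₀ a w) {i : ℕ} (hi : i < n - 1) {E' : ℝ}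
    (hE : 2 * e * (i + 1) < E') :
    ∃ (ρ : ℝ) (sg : ℝ → ℝ) (Q' : Set ℝ), PtD S (P' o.2) (tht o.2) (cc hn o.1.1) i
      (LvL hn P P' o i) a w ρ S₀ (fun _ => vs) (fun _ => e) (fun _ => e) (fun _ => E') sg Q' := by
  obtain ⟨ρ, Q', h⟩ := h
  have h1 := h.vse (by omega)
  have e1 : LvL hn P P' o i = bet (P' o.2) (cc hn o.1.1) i := by
    funext a w
    exact LvL_lt o hi a w
  rw [e1]
  refine ⟨ρ, _, Q', h.coo (H.cht o.2) (tht_pos _) H.tmh (cc_inj1 hn _) hi fun _ => ?_⟩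
  have hi0 : (0 : ℝ) ≤ i := Nat.cast_nonneg i
  have h2 : (e + vs) * ((i : ℝ) + 1) ≤ 2 * e * (i + 1) :=
    mul_le_mul_of_nonneg_right (by linarith [h1.2]) (by linarith)
  linarith

end Pool.PKG
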