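import Pool.Agent.H3.D2G.RecK
import Pool.Agent.H60.ASM.GnM

/-!
# The base cell over two contact coordinates from its class theorem

`lCellB_of_gq`, `lCellB_of_g`: `LCellB` (helper60) from the class theorem `CelQG`, `CelG` at the place
of the target, for two contact coordinates and two steep ones.
-/

set_option autoImplicit false

namespace Pool.ASM

open MeasureTheory Set Filter Topology
open Pool.GEN Pool.PKG Pool.SW
open Pool.ONE (Ext0 Ext)
open Pool.MIC6
open Pool.STR (StaAt SteepAt)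

/-- The kinds of `LCellB`: two contact coordinates, two steep ones. -/
def kgB (l : ℕ) : Kg := if l < 2 then .one else .stp

/-- **`LCellB` from its class theorem**, with a property: the target is static. -/
theorem lCellB_of_gq {ι : Type} [Countable ι] {Q : PropG 4 ι} (hQ : AePG 4 Q)
    (hcls : ∀ h : ℝ, 0 < h → h ≤ 1 → ∀ Sl : ℕ → ℝ, Sl 0 = 1 → Sl 1 = 1 → 2 < Sl 2 → 2 < Sl 3 →
      CelQG 4 3 h Sl kgB Q) : LCellB := fun _ => by
  refine (Tol.le (1 / 2) (by norm_num)).mono fun η hη => ?_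
  intro hn _ hF hTop D hD hD1 _ S P r P' Λ PB H o
  have h1 := hη D hD
  filter_upwards [sta_of_gq (κ := kgB) (i := 3) hQ H hTop hF ((1 - η D) * D) (by omega)
    (fun Sl k1 _ => hcls _ (mul_pos (by linarith) hD) (by nlinarith) Sl
      ((k1 0 (by omega)).1 rfl) ((k1 1 (by omega)).1 rfl) ((k1 2 (by omega)).2.2.2 rfl)
      ((k1 3 (by omega)).2.2.2 rfl)) o] with g h2 R _ hst hs e0 e1 hs2 hst2
  have h5 : LvL hn P P' o (4 - 1) = P := lvL_last o
  have h7 : LvL hn P P' o 3 = P := h5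
  have h6 : LvT hn PB o 3 = PT hn PB o := LvT_top o
  have h3 := h2 R fun l hl => ?_
  · rw [h7] at h3
    exact Or.inr h3
  · have h4 : l = 0 ∨ l = 1 ∨ l = 2 ∨ l = 3 := by omega
    rcases h4 with rfl | rfl | rfl | rfl
    · exact e0
    · exact e1
    · exact ⟨hs2, hst2⟩
    · refine ⟨?_, ?_⟩
      · rw [h7]
        exact hs
      · rw [h6]
        exact hst

/-- **`LCellB` from its class theorem**: the target is static. -/
theorem lCellB_of_g (hcls : ∀ h : ℝ, 0 < h → h ≤ 1 → ∀ Sl : ℕ → ℝ, Sl 0 = 1 → Sl 1 = 1 →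
    2 < Sl 2 → 2 < Sl 3 → CelG 4 3 h Sl kgB) : LCellB :=
  lCellB_of_gq (aePG_true 4 Unit) fun h h0 h1 Sl k1 k2 k3 k4 => (hcls h h0 h1 Sl k1 k2 k3 k4).q _

end Pool.ASM
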