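import Pool.Agent.H4.D2.Nvj
import Pool.Agent.H31.D2.Kp17

/-!
# The joint of the cell one, thin, thin

`lCellA_ott_of`: the cell from the class theorem of the tie `Sl 1 = Sl 2 = Sl 3 - 1`.
-/

set_option autoImplicit false

namespace Pool.ASM

open Pool.PKG Pool.STAT

/-- **The cell one, thin, thin** from the class theorem of the tie. -/
theorem lCellA_ott_of {ι : Type} [Countable ι] [Nonempty ι] {Q : PropG 4 ι}
    (hQ : (∀ k, 1 ≤ k → k < 4 → Pool.GEN.FZX k) → AePG 4 Q)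
    (hcls : ∀ h : ℝ, 0 < h → h ≤ 1 → ∀ Sl : ℕ → ℝ, Sl 0 = 1 → 1 < Sl 1 → Sl 2 = Sl 1 →
      Sl 3 = Sl 1 + 1 → CelQH 4 3 h Sl (kgL [.one, .thin, .thin]) Q) :
    LCellA 4 [.one, .thin, .thin] := by
  refine lCellA_of_ghz hQ (by norm_num) fun h h0 h1 Sl k1 k2 k3 => ?_
  by_cases ht : Sl 1 ≠ Sl 3 - 1 ∨ Sl 2 ≠ Sl 3 - 1
  · refine (((Pool.KPO.cellQK_ott (n := 4) ht).g (by norm_num) (by norm_num)
      (kgL_len [.one, .thin, .thin]) fun l hl => ?_).q Q).h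
    rw [kgL_lt (κ := [.one, .thin, .thin]) hl, List.getD_eq_getElem _ _ hl]
  · push Not at ht
    exact hcls h h0 h1 Sl ((k1 0 (by norm_num)).1 rfl) ((k1 1 (by norm_num)).2.1 rfl)
      (by linarith [ht.1, ht.2]) (by linarith [ht.1])

end Pool.ASM
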