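import Pool.Agent.H3.D2G.RecZ
import Pool.Agent.H56.ASM.Fag

/-!
# The joint of the thin windows whose base is contact or fast

`steep_slope`: the slope of a steep coordinate is at least two. `kg_all`: at almost every good window
each coordinate is of slope one, thin, static or steep. `void_slo`: the windows with a thin target
and conditions on the slopes of the base. `lVoF_of_gq`, `lVoF_of_g`, `lVoG_of_gq`, `lVoG_of_g`:
`LVoF n` and `LVoG n` from their class theorems.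
-/

set_option autoImplicit false

namespace Pool.PKG

open MeasureTheory Set Filter Topology
open Pool.Agent.H49.Ent Pool.Agent.H32.Dense Pool.STK Pool.KA Pool.KSAT Pool.K2S Pool.PB
open Pool.GEN Pool.S6C Pool.STAT Pool.CHT Pool.GRW Pool.ONE Pool.STA
open Pool.LBT (LSys ThrOf)
open Pool.LEV (Law)
open Pool.TOP (TopS)
open Pool.STR (ThinAt SteepAt StaAt)
open Pool.NMS (LeAt slope_eq dia_le sta_of2)

/-- **The slope of a steep coordinate** is at least two. -/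
theorem steep_slope {P PN : ℝ → ℝ → ℝ} {g : ℝ} (hP : Law P) (hN : Law PN) (hg0 : 0 < g)
    (hg1 : g < 1) (hd : DifferentiableAt ℝ (fun a => P a a) g)
    (hd' : DifferentiableAt ℝ (fun a => PN a a) g) (heq : PN g g = P g g) (hle : LeAt PN P g)
    (hst : SteepAt 2 P g) : 2 ≤ deriv (fun a => PN a a) g := by
  have hsl : deriv (fun a => PN a a) g = deriv (fun a => P a a) g :=
    slope_eq hd hd' heq (dia_le hP hN hg0 hg1 hle)
  rw [hsl]
  by_contra hcon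
  push Not at hcon
  obtain ⟨s, hs⟩ : ∃ s : ℝ, s = deriv (fun a => P a a) g := ⟨_, rfl⟩
  rw [← hs] at hcon
  obtain ⟨r₀, hr₀, h0⟩ := hst ((2 - s) / 4) (by linarith)
  have h3 := hd.hasDerivAt.isLittleO.def (show 0 < (2 - s) / 4 by linarith)
  obtain ⟨η, hη, h4⟩ := Metric.eventually_nhds_iff.1 h3
  obtain ⟨r, hr⟩ : ∃ r : ℝ, r = min (min r₀ η) (1 - g) / 2 := ⟨_, rfl⟩
  have hm : 0 < min (min r₀ η) (1 - g) := lt_min (lt_min hr₀ hη) (by linarith)
  have hr0 : 0 < r := by rw [hr]; linarith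
  have hrm : r < min (min r₀ η) (1 - g) := by rw [hr]; linarith
  have hr1 : r < r₀ := (hrm.trans_le (min_le_left _ _)).trans_le (min_le_left _ _)
  have hr2 : r < η := (hrm.trans_le (min_le_left _ _)).trans_le (min_le_right _ _)
  have hr3 : r < 1 - g := hrm.trans_le (min_le_right _ _)
  have k1 := h0 r hr0 hr1 (g + r) g (by linarith) (by linarith) (by linarith)
  have k2 : P (g + r) g ≤ P (g + r) (g + r) :=
    hP.mono_w (g + r) g (g + r) hg0.le (by linarith) le_rfl (by linarith)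
  have k3 := h4 (y := g + r) (by
    rw [Real.dist_eq, add_sub_cancel_left, abs_of_pos hr0]
    exact hr2)
  rw [Real.norm_eq_abs, Real.norm_eq_abs, smul_eq_mul, ← hs, add_sub_cancel_left,
    abs_of_pos hr0] at k3
  have k4 := (abs_le.1 k3).2
  have k5 : 0 < (2 - s) * r := mul_pos (by linarith) hr0
  nlinarith

variable {n : ℕ} {hn : 2 ≤ n} {S : PCl n} {P : ℝ → ℝ → ℝ} {r : ℝ → ℝ}
  {P' : ℕ → List (Fin n) × Fin n → ℝ → ℝ → ℝ} {Λ : Finset (Fin n) → Fin n → ℝ → ℝ → ℝ}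
  {PB : ℕ → List (Fin n) × Fin n → ℝ → ℝ → ℝ}

/-- **The kinds of all coordinates** at almost every good window. -/
theorem kg_all (H : PkT hn S P r P' Λ PB) (hTop : TopS n) (hF : FZX (n - 1)) :
    ∀ᵐ g : ℝ, ∀ o : Od n, g ∈ Gs P r P' Λ o → ∀ l < n, ∃ k : Kg, k ≠ .any ∧
      KgAt hn P P' PB o l g k := by
  filter_upwards [H.thin_steep_all H.pble hTop hF, H.dia_all H.pble hTop hF,
    sl_one H hTop hF] with g h1 h2 h3 o ho l hl
  obtain ⟨α, Q, c', F⟩ := H.toPk.fac hTop hF ho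
  obtain ⟨d1, d2, d3⟩ := h2 o ho l (by omega)
  have hone : 1 ≤ deriv (fun a => LvL hn P P' o l a a) g := h3 o ho l hl
  rcases hone.eq_or_lt with h4 | h4
  · exact ⟨.one, by simp, h4.symm⟩
  rcases h1 o ho l (by omega) with h5 | h5
  · exact ⟨.thin, by simp, h4, h5⟩
  have h6 := steep_slope (H.lawT o l) (H.lawL o l) F.g0 F.g1 d2 d1 d3
    (H.leAt H.pble hTop hF ho (by omega)) h5
  rcases h6.eq_or_lt with h7 | h7
  · exact ⟨.sta, by simp, h6, sta_of2 (H.lawT o l) (H.lawL o l) F.g0 F.g1 d2 d1 d3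
      (H.leAt H.pble hTop hF ho (by omega)) h5 h7.symm.le⟩
  · exact ⟨.stp, by simp, h7, h5⟩

theorem Kg.count : Countable Kg := by
  have : Finite Kg := by
    refine Finite.of_injective (fun k : Kg => match k with
      | .one => (0 : Fin 5) | .thin => 1 | .sta => 2 | .stp => 3 | .any => 4) ?_
    intro a b hab
    cases a <;> cases b <;> simp_all
  exact Finite.to_countable

/-- The kinds of the coordinates of the list, nothing about the others. -/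
def kgX (n : ℕ) (f : Fin n → Kg) (l : ℕ) : Kg := if h : l < n then f ⟨l, h⟩ else .any

/-- **A void kind of windows from its class theorem**, with the rate, a property, and a condition on
the slopes. -/
theorem void_of_gqs {ι : Type} [Countable ι] {Q : PropG n ι} (hQ : AePG n Q)
    (H : PkT hn S P r P' Λ PB) (hTop : TopS n)
    (hF : FZX (n - 1)) (h : ℝ) {κ : ℕ → Kg} (Φ : (ℕ → ℝ) → Prop)
    (hcls : ∀ Sl : ℕ → ℝ, Φ Sl → (∀ l < n, (κ l = .one → Sl l = 1) ∧ (κ l = .thin → 1 < Sl l) ∧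
      (κ l = .sta → 2 ≤ Sl l) ∧ (κ l = .stp → 2 < Sl l)) → (∀ l < n, 1 ≤ Sl l) →
      VoidQG n h Sl κ Q) (o : Od n) :
    ∀ᵐ g : ℝ, RwH H hTop hF h o g → Φ (SlL hn P P' o g) →
      (∀ l < n, KgAt hn P P' PB o l g (κ l)) → False := by
  filter_upwards [joint_ae hQ H hTop hF o κ, sl_one H hTop hF, one_zero H hTop hF o]
    with g h1 h1s h0 R hΦ hkg
  have ho := R.rwd.mem
  obtain ⟨S', G, HT, hG, hgG, W, hQg⟩ := h1 ho hkg
  obtain ⟨al, g₀, s', d', e', K₁, N₁, hal, hg₀, hC⟩ := HT.cl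
  have hl0 : LvL hn P P' o 0 g g = g := by
    rw [Pool.Z4.lvL_eq o (by omega)]
    exact H.toPk.act_diag hTop hF ho
  obtain ⟨P₂, θ₂, Eb, e₂, S₀, hS₀, W⟩ := W.recG HT hkg (fun l _ => rfl) (h0 ho) hl0 R.rwd.rdif
    R.defi hal hg₀ ⟨s', d', e', K₁, N₁, hC⟩
  obtain ⟨K, N, A, V, hK, hAV, hc⟩ := hcls (SlL hn P P' o g) hΦ (fun l hl => (hkg l hl).sl)
    (h1s o ho) al hal (1 + 1) (by norm_num) S₀ hS₀
  obtain ⟨S₂, hS₂, W⟩ := W 1 K N A V one_pos hK hAV 1 one_pos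
  obtain ⟨K', N', V', hKK, hV', ε, hε, hc⟩ := hc S₂ hS₂
  obtain ⟨q₁, hq₁, W⟩ := W K' N' V' hKK hV' ε hε
  obtain ⟨p, M, B₀, B₁, hB, hc⟩ := hc S' g₀ (P' o.2) (tht o.2) P₂ θ₂ Eb e₂ (cc hn o.1.1) P r
    (LvL hn P P' o) (LvT hn PB o) G g hG hgG
  obtain ⟨k₀, q₂, hq₂, hx⟩ := pts_near (R := 1 + 1) (by norm_num) hQg p M B₀ B₁ hB
  obtain ⟨q₃, hq₃, hc⟩ := hc k₀
  obtain ⟨q, hq⟩ : ∃ q, q = min q₁ (min q₂ q₃) / 2 := ⟨_, rfl⟩
  have hm : 0 < min q₁ (min q₂ q₃) := lt_min hq₁ (lt_min hq₂ hq₃)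
  have hq0 : 0 < q := by rw [hq]; linarith
  have hqm : q < min q₁ (min q₂ q₃) := by rw [hq]; linarith
  obtain ⟨t, ht1, ht2, hR⟩ := W q g hq0 (hqm.trans_le (min_le_left _ _)) (by
    rw [sub_self, abs_zero]
    linarith)
  obtain ⟨x, hx⟩ := hx q t hq0 (hqm.trans_le ((min_le_right _ _).trans (min_le_left _ _)))
    hR.near
  exact hc q t x (hqm.trans_le ((min_le_right _ _).trans (min_le_right _ _))) hx hR

end Pool.PKG

namespace Pool.ASM

open MeasureTheory Set Filter Topology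
open Pool.GEN Pool.PKG Pool.SW
open Pool.ONE (Ext0 Ext)
open Pool.MIC6
open Pool.STR (StaAt SteepAt ThinAt)

/-- **The windows with a thin target** whose base slopes are one or satisfy `Φ`, from the class
theorem, with a property. The kinds of the base are `one` where the slope is one, and `thin`, `sta`
or `stp` at the others. -/
theorem void_slo {n : ℕ} {ι : Type} [Countable ι] {Q : PropG n ι} (hQ : AePG n Q)
    {Φ : ℝ → ℝ → Prop} (hΦ : ∀ σ : ℝ, ¬ Φ 1 σ) {hn : 2 ≤ n} {S : Pool.PB.PCl n}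
    {P : ℝ → ℝ → ℝ} {r : ℝ → ℝ}
    {P' : ℕ → List (Fin n) × Fin n → ℝ → ℝ → ℝ} {Λ : Finset (Fin n) → Fin n → ℝ → ℝ → ℝ}
    {PB : ℕ → List (Fin n) × Fin n → ℝ → ℝ → ℝ} (H : PkT hn S P r P' Λ PB)
    (hTop : Pool.TOP.TopS n) (hF : FZX (n - 1)) (h : ℝ)
    (hcls : ∀ (Sl : ℕ → ℝ) (κ : ℕ → Kg), κ 0 = .one →
      (∀ l < n - 1, (κ l = .one ∧ Sl l = 1) ∨
        (κ l ≠ .one ∧ κ l ≠ .any ∧ Φ (Sl l) (Sl (n - 1)))) →
      κ (n - 1) = .thin → 1 < Sl (n - 1) → (∀ l < n, 1 ≤ Sl l) →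
      (∀ l < n, κ l = .sta → 2 ≤ Sl l) → (∀ l < n, κ l = .stp → 2 < Sl l) →
      VoidQG n h Sl κ Q) (o : Od n) :
    ∀ᵐ g : ℝ, RwH H hTop hF h o g → ThW hn P P' PB o g →
      (∀ i : Fin (n - 1), slo H hTop hF o g i = 1 ∨
        Φ (slo H hTop hF o g i) (deriv (fun a => P a a) g)) → False := by
  have : Countable Kg := Kg.count
  have hall : ∀ᵐ g : ℝ, ∀ f : Fin n → Kg, (kgX n f (n - 1) = .thin ∧ ∀ l < n, kgX n f l ≠ .any) →
      RwH H hTop hF h o g → (SlL hn P P' o g 0 = 1 ∧ ∀ l < n - 1, SlL hn P P' o g l = 1 ∨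
        Φ (SlL hn P P' o g l) (SlL hn P P' o g (n - 1))) →
      (∀ l < n, KgAt hn P P' PB o l g (kgX n f l)) → False := by
    refine ae_all_iff.2 fun f => ?_
    by_cases hf : kgX n f (n - 1) = .thin ∧ ∀ l < n, kgX n f l ≠ .any
    swap
    · exact Eventually.of_forall fun g k => absurd k hf
    filter_upwards [void_of_gqs (κ := kgX n f) hQ H hTop hF h
      (fun Sl => Sl 0 = 1 ∧ ∀ l < n - 1, Sl l = 1 ∨ Φ (Sl l) (Sl (n - 1)))
      (fun Sl k0 k1 k2 => by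
        have e1 : ∀ l < n, Sl l = 1 → kgX n f l = .one := fun l hl h3 => by
          obtain ⟨-, m2, m3, m4⟩ := k1 l hl
          have h4 := hf.2 l hl
          rcases h5 : kgX n f l with _ | _ | _ | _ | _
          · rfl
          · exact absurd (m2 h5) (by rw [h3]; exact lt_irrefl _)
          · exact absurd (m3 h5) (by rw [h3]; norm_num)
          · exact absurd (m4 h5) (by rw [h3]; norm_num)
          · exact absurd h5 h4
        refine hcls Sl _ (e1 0 (by omega) k0.1) (fun l hl => ?_) hf.1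
          ((k1 (n - 1) (by omega)).2.1 hf.1) k2 (fun l hl => (k1 l hl).2.2.1)
          (fun l hl => (k1 l hl).2.2.2)
        rcases k0.2 l hl with h3 | h3
        · exact Or.inl ⟨e1 l (by omega) h3, h3⟩
        · refine Or.inr ⟨fun h4 => ?_, hf.2 l (by omega), h3⟩
          rw [(k1 l (by omega)).1 h4] at h3
          exact hΦ _ h3) o] with g k _ R k3 k4
    exact k R k3 k4
  filter_upwards [hall, kg_all H hTop hF, one_zero H hTop hF o] with g k1 k2 k3 R hT hs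
  have k4 : ∀ l : Fin n, ∃ k : Kg, k ≠ .any ∧ ((l : ℕ) = n - 1 → k = .thin) ∧
      KgAt hn P P' PB o l g k := fun l => by
    by_cases hl : (l : ℕ) = n - 1
    · refine ⟨.thin, by simp, fun _ => rfl, ?_⟩
      rw [hl]
      have h5 : LvL hn P P' o (n - 1) = P := lvL_last o
      obtain ⟨h6, h7⟩ := hT
      rw [slN_tar] at h6
      refine ⟨?_, ?_⟩
      · rw [h5]
        exact h6
      · rw [h5, LvT_top]
        exact h7
    · obtain ⟨k, hk, hk'⟩ := k2 o R.rwd.mem l l.2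
      exact ⟨k, hk, fun h => absurd h hl, hk'⟩
  choose f hf1 hf2 hf3 using k4
  have e : ∀ (l : ℕ) (hl : l < n), kgX n f l = f ⟨l, hl⟩ := fun l hl => by
    unfold kgX
    rw [dif_pos hl]
  refine k1 f ⟨?_, fun l hl => ?_⟩ R ⟨k3 R.rwd.mem, fun l hl => ?_⟩ fun l hl => ?_
  · rw [e (n - 1) (by omega)]
    exact hf2 _ rfl
  · rw [e l hl]
    exact hf1 _
  · have h6 : SlL hn P P' o g (n - 1) = deriv (fun a => P a a) g := by
      show deriv (fun a => LvL hn P P' o (n - 1) a a) g = _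
      rw [lvL_last o]
    have h7 : slo H hTop hF o g ⟨l, hl⟩ = SlL hn P P' o g l := by
      rw [slo_slN, slN_lvl o (by omega)]
      rfl
    rw [h6, ← h7]
    exact hs ⟨l, hl⟩
  · rw [e l hl]
    exact hf3 ⟨l, hl⟩

/-- **`LVoF` from its class theorem**, with a property. -/
theorem lVoF_of_gq {n : ℕ} {ι : Type} [Countable ι] {Q : PropG n ι} (hQ : AePG n Q)
    (hcls : ∀ h : ℝ, 0 < h → h ≤ 1 → ∀ (Sl : ℕ → ℝ) (κ : ℕ → Kg), κ 0 = .one →
      (∀ l < n - 1, (κ l = .one ∧ Sl l = 1) ∨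
        (κ l ≠ .one ∧ κ l ≠ .any ∧ 2 < Sl l ∧ 1 < (Sl l - 1) * (Sl (n - 1) - 1))) →
      κ (n - 1) = .thin → 1 < Sl (n - 1) → (∀ l < n, 1 ≤ Sl l) →
      (∀ l < n, κ l = .sta → 2 ≤ Sl l) → (∀ l < n, κ l = .stp → 2 < Sl l) →
      VoidQG n h Sl κ Q) : LVoF n := by
  intro _ hn _ hF hTop S P r P' Λ PB H h h0 h1 o
  filter_upwards [void_slo hQ (Φ := fun s σ => 2 < s ∧ 1 < (s - 1) * (σ - 1))
    (fun σ h2 => by linarith [h2.1]) H hTop hF h (hcls h h0 h1) o] with g k R hT hs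
  exact k R hT hs

/-- **`LVoG` from its class theorem**, with a property. -/
theorem lVoG_of_gq {n : ℕ} {ι : Type} [Countable ι] {Q : PropG n ι} (hQ : AePG n Q)
    (hcls : ∀ h : ℝ, 0 < h → h ≤ 1 → ∀ (Sl : ℕ → ℝ) (κ : ℕ → Kg), κ 0 = .one →
      (∀ l < n - 1, (κ l = .one ∧ Sl l = 1) ∨
        (κ l ≠ .one ∧ κ l ≠ .any ∧ 1 < (Sl l - 1) * (Sl (n - 1) - 1))) →
      κ (n - 1) = .thin → 1 < Sl (n - 1) → (∀ l < n, 1 ≤ Sl l) →
      (∀ l < n, κ l = .sta → 2 ≤ Sl l) → (∀ l < n, κ l = .stp → 2 < Sl l) →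
      VoidQG n h Sl κ Q) : LVoG n := by
  intro _ hn _ hF hTop S P r P' Λ PB H h h0 h1 o
  filter_upwards [void_slo hQ (Φ := fun s σ => 1 < (s - 1) * (σ - 1))
    (fun σ h2 => by
      rw [sub_self, zero_mul] at h2
      linarith) H hTop hF h (hcls h h0 h1) o] with g k R hT hs
  exact k R hT hs

/-- **`LVoF` from its class theorem.** -/
theorem lVoF_of_g {n : ℕ} (hcls : ∀ h : ℝ, 0 < h → h ≤ 1 → ∀ (Sl : ℕ → ℝ) (κ : ℕ → Kg),
    κ 0 = .one → (∀ l < n - 1, (κ l = .one ∧ Sl l = 1) ∨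
      (κ l ≠ .one ∧ κ l ≠ .any ∧ 2 < Sl l ∧ 1 < (Sl l - 1) * (Sl (n - 1) - 1))) →
    κ (n - 1) = .thin → 1 < Sl (n - 1) → (∀ l < n, 1 ≤ Sl l) →
    (∀ l < n, κ l = .sta → 2 ≤ Sl l) → (∀ l < n, κ l = .stp → 2 < Sl l) →
    VoidG n h Sl κ) : LVoF n :=
  lVoF_of_gq (aePG_true n Unit) fun h h0 h1 Sl κ k1 k2 k3 k4 k5 k6 k7 =>
    (hcls h h0 h1 Sl κ k1 k2 k3 k4 k5 k6 k7).q _

/-- **`LVoG` from its class theorem.** -/
theorem lVoG_of_g {n : ℕ} (hcls : ∀ h : ℝ, 0 < h → h ≤ 1 → ∀ (Sl : ℕ → ℝ) (κ : ℕ → Kg),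
    κ 0 = .one → (∀ l < n - 1, (κ l = .one ∧ Sl l = 1) ∨
      (κ l ≠ .one ∧ κ l ≠ .any ∧ 1 < (Sl l - 1) * (Sl (n - 1) - 1))) →
    κ (n - 1) = .thin → 1 < Sl (n - 1) → (∀ l < n, 1 ≤ Sl l) →
    (∀ l < n, κ l = .sta → 2 ≤ Sl l) → (∀ l < n, κ l = .stp → 2 < Sl l) →
    VoidG n h Sl κ) : LVoG n :=
  lVoG_of_gq (aePG_true n Unit) fun h h0 h1 Sl κ k1 k2 k3 k4 k5 k6 k7 =>
    (hcls h h0 h1 Sl κ k1 k2 k3 k4 k5 k6 k7).q _

end Pool.ASM
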