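import Pool.Agent.H3.D2G.RecJ

/-!
# A static coordinate, for any kinds of the others

`sta_of_gq`, `sta_of_g`: the class theorem `CelQG`, `CelG` for kinds of all the coordinates gives a
static coordinate at the place `i`. `void_of_g`: as `void_of_gq`, without a property. `noB_of_g`:
windows without boxes.
-/

set_option autoImplicit false

namespace Pool.PKG

open MeasureTheory Set Filter Topology
open Pool.Agent.H49.Ent Pool.Agent.H32.Dense Pool.STK Pool.KA Pool.KSAT Pool.K2S Pool.PB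
open Pool.GEN Pool.S6C Pool.STAT Pool.CHT Pool.GRW Pool.ONE Pool.STA
open Pool.LBT (LSys ThrOf)
open Pool.LEV (Law)
open Pool.ALL (RateOf)
open Pool.TOP (TopS)
open Pool.STR (ThinAt SteepAt StaAt sta_of_pairs Rle NumI)
open Pool.ISO (PtD lvN WinD)

variable {n : ℕ} {hn : 2 ≤ n} {S : PCl n} {P : ℝ → ℝ → ℝ} {r : ℝ → ℝ}
  {P' : ℕ → List (Fin n) × Fin n → ℝ → ℝ → ℝ} {Λ : Finset (Fin n) → Fin n → ℝ → ℝ → ℝ}
  {PB : ℕ → List (Fin n) × Fin n → ℝ → ℝ → ℝ}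

/-- The numbers of the kinds: the slopes. -/
theorem KgAt.sl {o : Od n} {l : ℕ} {g : ℝ} {k : Kg} (h : KgAt hn P P' PB o l g k) :
    (k = .one → SlL hn P P' o g l = 1) ∧ (k = .thin → 1 < SlL hn P P' o g l) ∧
      (k = .sta → 2 ≤ SlL hn P P' o g l) ∧ (k = .stp → 2 < SlL hn P P' o g l) := by
  refine ⟨fun h4 => ?_, fun h4 => ?_, fun h4 => ?_, fun h4 => ?_⟩
  · rw [h4] at h
    exact h
  · rw [h4] at h
    exact h.1
  · rw [h4] at h
    exact h.1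
  · rw [h4] at h
    exact h.1

/-- **A static coordinate** at the place `i` from the class theorem, for any kinds of the
coordinates, with the rate and a property. -/
theorem sta_of_gq {ι : Type} [Countable ι] {Q : PropG n ι} (hQ : AePG n Q)
    (H : PkT hn S P r P' Λ PB) (hTop : TopS n)
    (hF : FZX (n - 1)) (h : ℝ) {κ : ℕ → Kg} {i : ℕ} (hi : i ≤ n - 1)
    (hcls : ∀ Sl : ℕ → ℝ, (∀ l < n, (κ l = .one → Sl l = 1) ∧ (κ l = .thin → 1 < Sl l) ∧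
      (κ l = .sta → 2 ≤ Sl l) ∧ (κ l = .stp → 2 < Sl l)) → (∀ l < n, 1 ≤ Sl l) →
      CelQG n i h Sl κ Q) (o : Od n) :
    ∀ᵐ g : ℝ, RwH H hTop hF h o g → (∀ l < n, KgAt hn P P' PB o l g (κ l)) →
      StaAt (LvL hn P P' o i) g := by
  filter_upwards [joint_ae hQ H hTop hF o κ, H.dia_all H.pble hTop hF,
    sl_one H hTop hF, one_zero H hTop hF o] with g h1 hdia h1s h0 R hkg
  have ho := R.rwd.mem
  obtain ⟨α, Q₁, c', F⟩ := H.toPk.fac hTop hF ho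
  have hg0 := F.g0
  have hg1 := F.g1
  obtain ⟨S', G, HT, hG, hgG, W, hQg⟩ := h1 ho hkg
  obtain ⟨al, g₀, s', d', e', K₁, N₁, hal, hg₀, hC⟩ := HT.cl
  have hl0 : LvL hn P P' o 0 g g = g := by
    rw [Pool.Z4.lvL_eq o (by omega)]
    exact H.toPk.act_diag hTop hF ho
  refine sta_of_pairs (H.lawL o i) hg0 hg1 (hdia o ho i hi).1
    fun K₀ del hK₀ hdel => ?_
  obtain ⟨P₂, θ₂, Eb, e₂, S₀, hS₀, W⟩ := W.recG HT hkg (fun l _ => rfl) (h0 ho) hl0 R.rwd.rdif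
    R.defi hal hg₀ ⟨s', d', e', K₁, N₁, hC⟩
  obtain ⟨K, N, A, V, hK, hAV, hc⟩ := hcls (SlL hn P P' o g) (fun l hl => (hkg l hl).sl)
    (h1s o ho) al hal (K₀ + del) (by linarith) del hdel S₀ hS₀
  obtain ⟨S₂, hS₂, W⟩ := W K₀ K N A V (by linarith) hK hAV del hdel
  obtain ⟨K', N', V', hKK, hV', ε, hε, hc⟩ := hc S₂ hS₂
  obtain ⟨q₁, hq₁, W⟩ := W K' N' V' hKK hV' ε hε
  obtain ⟨p, M, B₀, B₁, hB, hc⟩ := hc S' g₀ (P' o.2) (tht o.2) P₂ θ₂ Eb e₂ (cc hn o.1.1) P r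
    (LvL hn P P' o) (LvT hn PB o) G g hG hgG
  obtain ⟨k₀, q₂, hq₂, hx⟩ := pts_near (R := K₀ + del) (by linarith) hQg p M B₀ B₁ hB
  obtain ⟨q₃, hq₃, hc⟩ := hc k₀
  refine ⟨min q₁ (min q₂ q₃), lt_min hq₁ (lt_min hq₂ hq₃), fun q u hq hq' hu => ?_⟩
  obtain ⟨t, ht1, ht2, hR⟩ := W q u hq (hq'.trans_le (min_le_left _ _)) hu
  obtain ⟨x, hx⟩ := hx q t hq (hq'.trans_le ((min_le_right _ _).trans (min_le_left _ _)))
    hR.near
  exact ⟨t, ht1, ht2, hc q t x (hq'.trans_le ((min_le_right _ _).trans (min_le_right _ _)))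
    hx hR⟩

/-- **A static coordinate** at the place `i` from the class theorem, for any kinds of the
coordinates, with the rate. -/
theorem sta_of_g (H : PkT hn S P r P' Λ PB) (hTop : TopS n)
    (hF : FZX (n - 1)) (h : ℝ) {κ : ℕ → Kg} {i : ℕ} (hi : i ≤ n - 1)
    (hcls : ∀ Sl : ℕ → ℝ, (∀ l < n, (κ l = .one → Sl l = 1) ∧ (κ l = .thin → 1 < Sl l) ∧
      (κ l = .sta → 2 ≤ Sl l) ∧ (κ l = .stp → 2 < Sl l)) → (∀ l < n, 1 ≤ Sl l) →
      CelG n i h Sl κ) (o : Od n) :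
    ∀ᵐ g : ℝ, RwH H hTop hF h o g → (∀ l < n, KgAt hn P P' PB o l g (κ l)) →
      StaAt (LvL hn P P' o i) g :=
  sta_of_gq (aePG_true n Unit) H hTop hF h hi (fun Sl k1 k2 => (hcls Sl k1 k2).q _) o

/-- **A void kind of windows from its class theorem**, with the rate. -/
theorem void_of_g (H : PkT hn S P r P' Λ PB) (hTop : TopS n)
    (hF : FZX (n - 1)) (h : ℝ) {κ : ℕ → Kg}
    (hcls : ∀ Sl : ℕ → ℝ, (∀ l < n, (κ l = .one → Sl l = 1) ∧ (κ l = .thin → 1 < Sl l) ∧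
      (κ l = .sta → 2 ≤ Sl l) ∧ (κ l = .stp → 2 < Sl l)) → (∀ l < n, 1 ≤ Sl l) →
      VoidG n h Sl κ) (o : Od n) :
    ∀ᵐ g : ℝ, RwH H hTop hF h o g → (∀ l < n, KgAt hn P P' PB o l g (κ l)) → False :=
  void_of_gq (aePG_true n Unit) H hTop hF h (fun Sl k1 k2 => (hcls Sl k1 k2).q _) o

end Pool.PKG
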