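import Pool.Agent.H3.D2G.RecX
import Pool.Agent.H3.D2G.RecH
import Pool.Agent.H56.ASM.Xl

/-!
# Joints with the property at the window itself: void windows with a condition

`void_of_ghs`, `sta_of_ghs`, `sta_kindsH`: as `void_of_gqs`, `sta_of_gqs`, `sta_kinds` over `VoidQH`,
`CelQH`. `KgU`: the static coordinates of the base have the kind `sta`, the thin ones the kind
`thin`. `void_kh`, `noB_kh`: the thin windows with a condition on the kinds and the slopes.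
`lVoX_of_gh`: `LVoX X n`; `lVoL_of_gh`, `lVoB_of_gh`: for `X = FasL`, `FasB`.
-/

set_option autoImplicit false

namespace Pool.PKG

open MeasureTheory Set Filter Topology
open Pool.Agent.H49.Ent Pool.Agent.H32.Dense Pool.STK Pool.KA Pool.KSAT Pool.K2S Pool.PB
open Pool.GEN Pool.S6C Pool.STAT Pool.CHT Pool.GRW Pool.ONE Pool.STA
open Pool.LBT (LSys ThrOf)
open Pool.LEV (Law)
open Pool.TOP (TopS)
open Pool.STR (ThinAt SteepAt StaAt StaD sta_of_pairs)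
open Pool.NMS (LeAt slope_eq dia_le sta_of2)

variable {n : ℕ} {hn : 2 ≤ n} {S : PCl n} {P : ℝ → ℝ → ℝ} {r : ℝ → ℝ}
  {P' : ℕ → List (Fin n) × Fin n → ℝ → ℝ → ℝ} {Λ : Finset (Fin n) → Fin n → ℝ → ℝ → ℝ}
  {PB : ℕ → List (Fin n) × Fin n → ℝ → ℝ → ℝ}

/-- **A static coordinate of slope more than one** is not thin. -/
theorem kg_nts (H : PkT hn S P r P' Λ PB) (hTop : TopS n) (hF : FZX (n - 1)) :
    ∀ᵐ g : ℝ, ∀ o : Od n, g ∈ Gs P r P' Λ o → ∀ l < n, StaAt (LvL hn P P' o l) g →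
      1 < SlL hn P P' o g l → ¬ ThinAt (LvL hn P P' o l) (LvT hn PB o l) g := by
  filter_upwards [H.dia_all H.pble hTop hF] with g h2 o ho l hl hs h1s h5
  obtain ⟨α, Q, c', F⟩ := H.toPk.fac hTop hF ho
  obtain ⟨d1, d2, d3⟩ := h2 o ho l (by omega)
  exact absurd (not_thin_sta (H.lawT o l) (H.lawL o l) F.g0 F.g1 d2 d1 d3
    (H.leAt H.pble hTop hF ho (by omega)) h5 hs) (not_le.2 h1s)

/-- **A void kind of windows from its class theorem**, with the rate, a property, and a condition on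
the slopes. -/
theorem void_of_ghs {ι : Type} [Countable ι] {Q : PropG n ι} (hQ : AePG n Q)
    (H : PkT hn S P r P' Λ PB) (hTop : TopS n)
    (hF : FZX (n - 1)) (h : ℝ) {κ : ℕ → Kg} (Φ : (ℕ → ℝ) → Prop)
    (hcls : ∀ Sl : ℕ → ℝ, Φ Sl → (∀ l < n, (κ l = .one → Sl l = 1) ∧ (κ l = .thin → 1 < Sl l) ∧
      (κ l = .sta → 2 ≤ Sl l) ∧ (κ l = .stp → 2 < Sl l)) → (∀ l < n, 1 ≤ Sl l) →
      VoidQH n h Sl κ Q) (o : Od n) :
    ∀ᵐ g : ℝ, RwH H hTop hF h o g → Φ (SlL hn P P' o g) →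
      (∀ l < n, KgAt hn P P' PB o l g (κ l)) → False := by
  filter_upwards [joint_aeH hQ H hTop hF o κ, H.dia_all H.pble hTop hF, sl_one H hTop hF, one_zero H hTop hF o]
    with g h1 hdia h1s h0 R hΦ hkg
  have ho := R.rwd.mem
  obtain ⟨S', G, HT, hG, hgG, W, hQg⟩ := h1 ho hkg
  obtain ⟨al, g₀, s', d', e', K₁, N₁, hal, hg₀, hC⟩ := HT.cl
  have hl0 : LvL hn P P' o 0 g g = g := by
    rw [Pool.Z4.lvL_eq o (by omega)]
    exact H.toPk.act_diag hTop hF ho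
  obtain ⟨P₂, θ₂, Eb, e₂, S₀, hS₀, W⟩ := W.recG HT hkg (fun l _ => rfl) (h0 ho) hl0 R.rwd.rdif
    R.defi hal hg₀ ⟨s', d', e', K₁, N₁, hC⟩
  obtain ⟨K, N, A, V, hK, hAV, hc⟩ := hcls (SlL hn P P' o g) hΦ (fun l hl => (hkg l hl).sl)
    (h1s o ho) al hal (1 + 1) (by norm_num) S₀ hS₀
  obtain ⟨S₂, hS₂, W⟩ := W 1 K N A V one_pos hK hAV 1 one_pos
  obtain ⟨K', N', V', hKK, hV', ε, hε, hc⟩ := hc S₂ hS₂
  obtain ⟨q₁, hq₁, W⟩ := W K' N' V' hKK hV' ε hε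
  obtain ⟨p, M, B₀, B₁, hB, hc⟩ := hc S' g₀ (P' o.2) (tht o.2) P₂ θ₂ Eb e₂ (cc hn o.1.1) P r
    (LvL hn P P' o) (LvT hn PB o) G g hG hgG
    (fun l hl => (hdia o ho l (by omega)).1.hasDerivAt)
  obtain ⟨k₀, hg₀k, q₂, hq₂, hx⟩ := pts_nearH (R := 1 + 1) (by norm_num) hQg p M B₀ B₁ hB
  obtain ⟨q₃, hq₃, hc⟩ := hc k₀ hg₀k
  obtain ⟨q, hq⟩ : ∃ q, q = min q₁ (min q₂ q₃) / 2 := ⟨_, rfl⟩
  have hm : 0 < min q₁ (min q₂ q₃) := lt_min hq₁ (lt_min hq₂ hq₃)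
  have hq0 : 0 < q := by rw [hq]; linarith
  have hqm : q < min q₁ (min q₂ q₃) := by rw [hq]; linarith
  obtain ⟨t, ht1, ht2, hR⟩ := W q g hq0 (hqm.trans_le (min_le_left _ _)) (by
    rw [sub_self, abs_zero]
    linarith)
  obtain ⟨x, hx⟩ := hx q t hq0 (hqm.trans_le ((min_le_right _ _).trans (min_le_left _ _)))
    hR.near
  exact hc q t x (hqm.trans_le ((min_le_right _ _).trans (min_le_right _ _))) hx hR

/-- **A static coordinate** at the place `i` from the class theorem, with the rate, a property, and a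
condition on the slopes. -/
theorem sta_of_ghs {ι : Type} [Countable ι] {Q : PropG n ι} (hQ : AePG n Q)
    (H : PkT hn S P r P' Λ PB) (hTop : TopS n)
    (hF : FZX (n - 1)) (h : ℝ) {κ : ℕ → Kg} (Φ : (ℕ → ℝ) → Prop) {i : ℕ} (hi : i ≤ n - 1)
    (hcls : ∀ Sl : ℕ → ℝ, Φ Sl → (∀ l < n, (κ l = .one → Sl l = 1) ∧ (κ l = .thin → 1 < Sl l) ∧
      (κ l = .sta → 2 ≤ Sl l) ∧ (κ l = .stp → 2 < Sl l)) → (∀ l < n, 1 ≤ Sl l) →
      CelQH n i h Sl κ Q) (o : Od n) :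
    ∀ᵐ g : ℝ, RwH H hTop hF h o g → Φ (SlL hn P P' o g) →
      (∀ l < n, KgAt hn P P' PB o l g (κ l)) → StaAt (LvL hn P P' o i) g := by
  filter_upwards [joint_aeH hQ H hTop hF o κ, H.dia_all H.pble hTop hF,
    sl_one H hTop hF, one_zero H hTop hF o] with g h1 hdia h1s h0 R hΦ hkg
  have ho := R.rwd.mem
  obtain ⟨α, Q₁, c', F⟩ := H.toPk.fac hTop hF ho
  have hg0 := F.g0
  have hg1 := F.g1
  obtain ⟨S', G, HT, hG, hgG, W, hQg⟩ := h1 ho hkg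
  obtain ⟨al, g₀, s', d', e', K₁, N₁, hal, hg₀, hC⟩ := HT.cl
  have hl0 : LvL hn P P' o 0 g g = g := by
    rw [Pool.Z4.lvL_eq o (by omega)]
    exact H.toPk.act_diag hTop hF ho
  refine sta_of_pairs (H.lawL o i) hg0 hg1 (hdia o ho i hi).1
    fun K₀ del hK₀ hdel => ?_
  obtain ⟨P₂, θ₂, Eb, e₂, S₀, hS₀, W⟩ := W.recG HT hkg (fun l _ => rfl) (h0 ho) hl0 R.rwd.rdif
    R.defi hal hg₀ ⟨s', d', e', K₁, N₁, hC⟩
  obtain ⟨K, N, A, V, hK, hAV, hc⟩ := hcls (SlL hn P P' o g) hΦ (fun l hl => (hkg l hl).sl)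
    (h1s o ho) al hal (K₀ + del) (by linarith) del hdel S₀ hS₀
  obtain ⟨S₂, hS₂, W⟩ := W K₀ K N A V (by linarith) hK hAV del hdel
  obtain ⟨K', N', V', hKK, hV', ε, hε, hc⟩ := hc S₂ hS₂
  obtain ⟨q₁, hq₁, W⟩ := W K' N' V' hKK hV' ε hε
  obtain ⟨p, M, B₀, B₁, hB, hc⟩ := hc S' g₀ (P' o.2) (tht o.2) P₂ θ₂ Eb e₂ (cc hn o.1.1) P r
    (LvL hn P P' o) (LvT hn PB o) G g hG hgG
    (fun l hl => (hdia o ho l (by omega)).1.hasDerivAt)
  obtain ⟨k₀, hg₀k, q₂, hq₂, hx⟩ := pts_nearH (R := K₀ + del) (by linarith) hQg p M B₀ B₁ hB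
  obtain ⟨q₃, hq₃, hc⟩ := hc k₀ hg₀k
  refine ⟨min q₁ (min q₂ q₃), lt_min hq₁ (lt_min hq₂ hq₃), fun q u hq hq' hu => ?_⟩
  obtain ⟨t, ht1, ht2, hR⟩ := W q u hq (hq'.trans_le (min_le_left _ _)) hu
  obtain ⟨x, hx⟩ := hx q t hq (hq'.trans_le ((min_le_right _ _).trans (min_le_left _ _)))
    hR.near
  exact ⟨t, ht1, ht2, hc q t x (hq'.trans_le ((min_le_right _ _).trans (min_le_right _ _)))
    hx hR⟩

/-- **A static coordinate** at the place `i` from the class theorem, for all kinds at once, with a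
condition on the kinds and on the slopes. -/
theorem sta_kindsH {ι : Type} [Countable ι] {Q : PropG n ι} (hQ : AePG n Q)
    (H : PkT hn S P r P' Λ PB) (hTop : TopS n) (hF : FZX (n - 1)) (h : ℝ)
    (Φ : (ℕ → Kg) → (ℕ → ℝ) → Prop) {i : ℕ} (hi : i ≤ n - 1)
    (hcls : ∀ (κ : ℕ → Kg) (Sl : ℕ → ℝ), Φ κ Sl → (∀ l < n, (κ l = .one → Sl l = 1) ∧
      (κ l = .thin → 1 < Sl l) ∧ (κ l = .sta → 2 ≤ Sl l) ∧ (κ l = .stp → 2 < Sl l)) →
      (∀ l < n, 1 ≤ Sl l) → CelQH n i h Sl κ Q) (o : Od n) :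
    ∀ᵐ g : ℝ, RwH H hTop hF h o g → ∀ f : Fin n → Kg, Φ (kgX n f) (SlL hn P P' o g) →
      (∀ l : Fin n, KgAt hn P P' PB o l g (f l)) → StaAt (LvL hn P P' o i) g := by
  have : Countable Kg := Kg.count
  have h1 := ae_all_iff.2 fun f : Fin n → Kg =>
    sta_of_ghs (κ := kgX n f) hQ H hTop hF h (Φ (kgX n f)) hi
      (fun Sl k0 k1 k2 => hcls _ Sl k0 k1 k2) o
  filter_upwards [h1] with g k R f hΦ hk
  refine k f R hΦ fun l hl => ?_
  unfold kgX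
  rw [dif_pos hl]
  exact hk ⟨l, hl⟩

end Pool.PKG

namespace Pool.ASM

open MeasureTheory Set Filter Topology
open Pool.Agent.H49.Ent Pool.Agent.H32.Dense Pool.STK Pool.KA Pool.KSAT Pool.K2S Pool.PB
open Pool.GEN Pool.PKG Pool.SW
open Pool.ONE (Ext0 Ext)
open Pool.TOP (TopS)
open Pool.MIC6
open Pool.STR (StaAt SteepAt ThinAt)

/-- The kinds of a window: the static places of slope more than one have the kind `sta`, the thin
ones the kind `thin`. -/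
def KgU {n : ℕ} (hn : 2 ≤ n) (P : ℝ → ℝ → ℝ) (P' : ℕ → List (Fin n) × Fin n → ℝ → ℝ → ℝ)
    (PB : ℕ → List (Fin n) × Fin n → ℝ → ℝ → ℝ) (o : Od n) (g : ℝ) (κ : ℕ → Kg) : Prop :=
  (∀ l < n - 1, StaAt (LvL hn P P' o l) g → 1 < SlL hn P P' o g l → κ l = .sta) ∧
  ∀ l < n - 1, ThinAt (LvL hn P P' o l) (LvT hn PB o l) g → 1 < SlL hn P P' o g l → κ l = .thin

/-- **The thin windows with a condition on the kinds and the slopes** are void, from the class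
theorem, with a property. -/
theorem void_kh {n : ℕ} {ι : Type} [Countable ι] {Q : PropG n ι} (hQ : AePG n Q)
    {hn : 2 ≤ n} {S : PCl n} {P : ℝ → ℝ → ℝ} {r : ℝ → ℝ}
    {P' : ℕ → List (Fin n) × Fin n → ℝ → ℝ → ℝ} {Λ : Finset (Fin n) → Fin n → ℝ → ℝ → ℝ}
    {PB : ℕ → List (Fin n) × Fin n → ℝ → ℝ → ℝ} (H : PkT hn S P r P' Λ PB)
    (hTop : TopS n) (hF : FZX (n - 1)) (h : ℝ) (Φ : (ℕ → Kg) → (ℕ → ℝ) → Prop)
    (hcls : ∀ (Sl : ℕ → ℝ) (κ : ℕ → Kg), Φ κ Sl → KgT n κ Sl → VoidQH n h Sl κ Q) (o : Od n) :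
    ∀ᵐ g : ℝ, RwH H hTop hF h o g → ThW hn P P' PB o g →
      (∀ κ : ℕ → Kg, KgT n κ (SlL hn P P' o g) → KgU hn P P' PB o g κ → Φ κ (SlL hn P P' o g)) →
      False := by
  have : Countable Kg := Kg.count
  have hall : ∀ᵐ g : ℝ, ∀ f : Fin n → Kg, RwH H hTop hF h o g →
      (KgT n (kgX n f) (SlL hn P P' o g) ∧ Φ (kgX n f) (SlL hn P P' o g)) →
      (∀ l < n, KgAt hn P P' PB o l g (kgX n f l)) → False := by
    refine ae_all_iff.2 fun f => ?_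
    exact void_of_ghs (κ := kgX n f) hQ H hTop hF h
      (fun Sl => KgT n (kgX n f) Sl ∧ Φ (kgX n f) Sl)
      (fun Sl k0 _ _ => hcls Sl _ k0.2 k0.1) o
  filter_upwards [hall, kg_all H hTop hF, kg_sta H hTop hF, sl_one H hTop hF,
    one_zero H hTop hF o, kg_nts H hTop hF] with g k1 k2 k3 k3' k3'' k6 R hT hs
  have ho := R.rwd.mem
  have k4 : ∀ l : Fin n, ∃ k : Kg, k ≠ .any ∧ ((l : ℕ) = n - 1 → k = .thin) ∧
      ((l : ℕ) < n - 1 → StaAt (LvL hn P P' o l) g → 1 < SlL hn P P' o g l → k = .sta) ∧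
      ((l : ℕ) < n - 1 → ThinAt (LvL hn P P' o l) (LvT hn PB o l) g → 1 < SlL hn P P' o g l →
        k = .thin) ∧ KgAt hn P P' PB o l g k := fun l => by
    by_cases hl : (l : ℕ) = n - 1
    · refine ⟨.thin, by simp, fun _ => rfl, fun h => absurd hl h.ne, fun _ _ _ => rfl, ?_⟩
      rw [hl]
      have h5 : LvL hn P P' o (n - 1) = P := lvL_last o
      obtain ⟨h6, h7⟩ := hT
      rw [slN_tar] at h6
      refine ⟨?_, ?_⟩
      · rw [h5]
        exact h6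
      · rw [h5, LvT_top]
        exact h7
    · by_cases hst : StaAt (LvL hn P P' o l) g ∧ 1 < SlL hn P P' o g l
      · exact ⟨.sta, by simp, fun h => absurd h hl, fun _ _ _ => rfl,
          fun _ h1 _ => absurd h1 (k6 o ho l l.2 hst.1 hst.2), k3 o ho l l.2 hst.1 hst.2⟩
      · by_cases hth : ThinAt (LvL hn P P' o l) (LvT hn PB o l) g ∧ 1 < SlL hn P P' o g l
        · exact ⟨.thin, by simp, fun _ => rfl, fun _ h1 h2 => absurd ⟨h1, h2⟩ hst,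
            fun _ _ _ => rfl, hth.2, hth.1⟩
        · obtain ⟨k, hk, hk'⟩ := k2 o ho l l.2
          exact ⟨k, hk, fun h => absurd h hl, fun _ h1 h2 => absurd ⟨h1, h2⟩ hst,
            fun _ h1 h2 => absurd ⟨h1, h2⟩ hth, hk'⟩
  choose f hf1 hf2 hf3 hf5 hf4 using k4
  have e : ∀ (l : ℕ) (hl : l < n), kgX n f l = f ⟨l, hl⟩ := fun l hl => by
    unfold kgX
    rw [dif_pos hl]
  have hkg : ∀ l < n, KgAt hn P P' PB o l g (kgX n f l) := fun l hl => by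
    rw [e l hl]
    exact hf4 ⟨l, hl⟩
  have hany : ∀ l < n, kgX n f l ≠ .any := fun l hl => by
    rw [e l hl]
    exact hf1 _
  have hone : ∀ l < n, SlL hn P P' o g l = 1 → kgX n f l = .one := fun l hl h3 => by
    obtain ⟨-, m2, m3, m4⟩ := (hkg l hl).sl
    have h4 := hany l hl
    rcases h5 : kgX n f l with _ | _ | _ | _ | _
    · rfl
    · exact absurd (m2 h5) (by rw [h3]; exact lt_irrefl _)
    · exact absurd (m3 h5) (by rw [h3]; norm_num)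
    · exact absurd (m4 h5) (by rw [h3]; norm_num)
    · exact absurd h5 h4
  have hK : KgT n (kgX n f) (SlL hn P P' o g) :=
    { zero := hone 0 (by omega) (k3'' ho)
      tar := by
        rw [e (n - 1) (by omega)]
        exact hf2 _ rfl
      any := hany
      one := fun l hl => ⟨(hkg l hl).sl.1, hone l hl⟩
      tar1 := by
        rw [← slN_SlL (hn := hn) (P := P) (P' := P') o g le_rfl]
        exact hT.1
      ge := k3' o ho
      sta := fun l hl => (hkg l hl).sl.2.2.1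
      stp := fun l hl => (hkg l hl).sl.2.2.2 }
  refine k1 f R ⟨hK, hs _ hK ⟨fun l hl h1 h2 => ?_, fun l hl h1 h2 => ?_⟩⟩ hkg
  · rw [e l (by omega)]
    exact hf3 ⟨l, by omega⟩ hl h1 h2
  · rw [e l (by omega)]
    exact hf5 ⟨l, by omega⟩ hl h1 h2

/-- **No boxes at the thin windows with a condition on the kinds and the slopes**, from the class
theorem. -/
theorem noB_kh {n : ℕ} {ι : Type} [Countable ι] {Q : PropG n ι} (hQ : AePG n Q)
    (Φ : (ℕ → Kg) → (ℕ → ℝ) → Prop) (hcls : ∀ h : ℝ, 0 < h → h ≤ 1 → ∀ (Sl : ℕ → ℝ) (κ : ℕ → Kg),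
      Φ κ Sl → KgT n κ Sl → VoidQH n h Sl κ Q) :
    AllP n fun {hn} {_} {P} {_} {P'} {_} {PB} {_} H hTop hF h hρ =>
      NoB H hTop hF hρ h fun o g => ThW hn P P' PB o g ∧
        ∀ κ : ℕ → Kg, KgT n κ (SlL hn P P' o g) → KgU hn P P' PB o g κ →
          Φ κ (SlL hn P P' o g) := by
  intro hi hn hZ hF hTop S P r P' Λ PB H h hh hh1 ρ hρ hrow
  refine noB_false fun o => ?_
  filter_upwards [void_kh hQ H hTop hF (h / 2) Φ (hcls _ (by linarith) (by linarith)) o,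
    rwH_rho H hTop hF hρ (h' := h / 2) (by linarith) hrow o] with g k1 k2 R hx
  exact k1 (k2 R) hx.1 hx.2

/-- **`LVoX X n` from its class theorem**, with a property. -/
theorem lVoX_of_gh {n : ℕ} {ι : Type} [Countable ι] {Q : PropG n ι} (hQ : AePG n Q) {X : WinC}
    (Φ : (ℕ → Kg) → (ℕ → ℝ) → Prop)
    (hX : ∀ (hn : 2 ≤ n) (P : ℝ → ℝ → ℝ) (P' PB : ℕ → List (Fin n) × Fin n → ℝ → ℝ → ℝ)
      (o : Od n) (g : ℝ), X n hn P P' PB o g → ∀ κ : ℕ → Kg, KgT n κ (SlL hn P P' o g) →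
      KgU hn P P' PB o g κ → Φ κ (SlL hn P P' o g))
    (hcls : ∀ h : ℝ, 0 < h → h ≤ 1 → ∀ (Sl : ℕ → ℝ) (κ : ℕ → Kg), Φ κ Sl → KgT n κ Sl →
      VoidQH n h Sl κ Q) : LVoX X n := by
  intro hi hn hZ hF hTop S P r P' Λ PB H h hh hh1 o
  filter_upwards [void_kh hQ H hTop hF h Φ (hcls h hh hh1) o] with g k R hx hy
  exact k R hx (hX hn P P' PB o g hy)

/-- **All the slopes of the base are smaller than the slope of the target**: from the class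
theorem. -/
theorem lVoL_of_gh {n : ℕ} {ι : Type} [Countable ι] {Q : PropG n ι} (hQ : AePG n Q)
    (hcls : ∀ h : ℝ, 0 < h → h ≤ 1 → ∀ (Sl : ℕ → ℝ) (κ : ℕ → Kg),
      (∀ l < n - 1, Sl l < Sl (n - 1)) → KgT n κ Sl → VoidQH n h Sl κ Q) : LVoX FasL n := by
  refine lVoX_of_gh hQ (fun _ Sl => ∀ l < n - 1, Sl l < Sl (n - 1)) ?_ hcls
  intro hn P P' PB o g hx κ _ _ l hl
  have := hx l hl
  rwa [slN_SlL (hn := hn) (P := P) (P' := P') o g hl.le, slN_SlL (hn := hn) (P := P) (P' := P') o g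
    le_rfl] at this

/-- **A thin coordinate of the base is strictly the fastest of all**: from the class theorem. -/
theorem lVoB_of_gh {n : ℕ} {ι : Type} [Countable ι] {Q : PropG n ι} (hQ : AePG n Q)
    (hcls : ∀ h : ℝ, 0 < h → h ≤ 1 → ∀ (Sl : ℕ → ℝ) (κ : ℕ → Kg),
      (∃ l < n - 1, κ l = .thin ∧ Sl (n - 1) < Sl l ∧ ∀ k < n - 1, k ≠ l → Sl k < Sl l) →
      KgT n κ Sl → VoidQH n h Sl κ Q) : LVoX FasB n := by
  refine lVoX_of_gh hQ (fun κ Sl => ∃ l < n - 1, κ l = .thin ∧ Sl (n - 1) < Sl l ∧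
    ∀ k < n - 1, k ≠ l → Sl k < Sl l) ?_ hcls
  intro hn P P' PB o g hx κ hk hu
  obtain ⟨l, hl, h1, h2, h3⟩ := hx
  have e1 := slN_SlL (hn := hn) (P := P) (P' := P') o g (l := n - 1) le_rfl
  have e2 := slN_SlL (hn := hn) (P := P) (P' := P') o g hl.le
  rw [e1, e2] at h2
  refine ⟨l, hl, hu.2 l hl h1 (hk.tar1.trans h2), h2, fun k hk hne => ?_⟩
  have h4 := h3 k hk hne
  rwa [e2, slN_SlL (hn := hn) (P := P) (P' := P') o g hk.le] at h4

end Pool.ASM
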