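import Pool.Agent.H73.D2.Tmw
import Pool.Agent.H3.D2G.RecB
import Pool.Agent.H3.D2G.RecY

/-!
# A joint with a case distinction at the window

`CelO`: the class theorem of the place `i` under a hypothesis on the class with an amount, and, for
all amounts, of the place `j` under the negation. `stas_of_o`: at almost every window one of the two
places is static. `lCellB_of_o`: `LCellB` from `CelO 4 2 3` or `CelO 4 3 2`.
-/

set_option autoImplicit false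

namespace Pool.PKG

open MeasureTheory Set Filter Topology
open Pool.Agent.H49.Ent Pool.Agent.H32.Dense Pool.STK Pool.KA Pool.KSAT Pool.K2S Pool.PB
open Pool.GEN Pool.S6C Pool.STAT Pool.CHT Pool.GRW Pool.ONE Pool.STA
open Pool.LEV (Law)
open Pool.TOP (TopS)
open Pool.STR (ThinAt SteepAt StaAt sta_of_pairs)

/-- The negation of the hypothesis, for one amount. -/
def NotZ {n : ℕ} {Lm : Type} (Z : PropZ n Lm) (lam : Lm) : PropZ n Unit :=
  fun _ S P θ c Pt r L T κ G g => ¬ Z lam S P θ c Pt r L T κ G g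

/-- **Two places**: the class theorem of the place `i` under a hypothesis on the class with an
amount; for all amounts, the class theorem of the place `j` under the negation. -/
def CelO {ι : Type} (n i j : ℕ) (h : ℝ) (Sl : ℕ → ℝ) (κ : ℕ → Kg) (Q : PropG n ι) : Prop :=
  ∃ (Lm : Type) (Z : PropZ n Lm), CelZ n i h Sl κ Q Z ∧
    ∀ lam : Lm, CelZ n j h Sl κ Q (NotZ Z lam)

/-- Without a hypothesis. -/
theorem CelQH.o {ι : Type} {n i : ℕ} (j : ℕ) {h : ℝ} {Sl : ℕ → ℝ} {κ : ℕ → Kg} {Q : PropG n ι}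
    (H : CelQH n i h Sl κ Q) : CelO n i j h Sl κ Q := by
  refine ⟨Unit, fun _ _ _ _ _ _ _ _ _ _ _ _ => True, ?_, fun _ => ?_⟩
  · intro al hal K₀ hK₀ del hdel S₀ hS₀
    obtain ⟨K, N, A, V, h1, h2, H⟩ := H al hal K₀ hK₀ del hdel S₀ hS₀
    refine ⟨K, N, A, V, h1, h2, fun S₂ hS₂ => ?_⟩
    obtain ⟨K', N', V', h3, h4, ε, hε, H⟩ := H S₂ hS₂
    exact ⟨(), K', N', V', h3, h4, ε, hε, fun S g₀ P θ P₂ θ₂ Eb e₂ c Pt r L T G g hG hg hsl _ =>
      H S g₀ P θ P₂ θ₂ Eb e₂ c Pt r L T G g hG hg hsl⟩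
  · intro al hal K₀ hK₀ del hdel S₀ hS₀
    refine ⟨1, 0, fun _ => 0, fun _ => 0, le_rfl, fun k hk => absurd hk (by omega),
      fun S₂ hS₂ => ⟨(), 1, 0, fun _ => 0, le_rfl, fun k hk => absurd hk (by omega), 1, one_pos,
        fun S g₀ P θ P₂ θ₂ Eb e₂ c Pt r L T G g hG hg hsl hz => absurd trivial hz⟩⟩

variable {n : ℕ} {hn : 2 ≤ n} {S : PCl n} {P : ℝ → ℝ → ℝ} {r : ℝ → ℝ}
  {P' : ℕ → List (Fin n) × Fin n → ℝ → ℝ → ℝ} {Λ : Finset (Fin n) → Fin n → ℝ → ℝ → ℝ}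
  {PB : ℕ → List (Fin n) × Fin n → ℝ → ℝ → ℝ}

/-- **One of two places is static**, from the class theorems with a case distinction at the window,
with the rate, a property, and a condition on the slopes. -/
theorem stas_of_o {ι : Type} [Countable ι] {Q : PropG n ι} (hQ : AePG n Q)
    (H : PkT hn S P r P' Λ PB) (hTop : TopS n)
    (hF : FZX (n - 1)) (h : ℝ) {κ : ℕ → Kg} (Φ : (ℕ → ℝ) → Prop) {i j : ℕ} (hi : i ≤ n - 1)
    (hj : j ≤ n - 1)
    (hcls : ∀ Sl : ℕ → ℝ, Φ Sl → (∀ l < n, (κ l = .one → Sl l = 1) ∧ (κ l = .thin → 1 < Sl l) ∧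
      (κ l = .sta → 2 ≤ Sl l) ∧ (κ l = .stp → 2 < Sl l)) → (∀ l < n, 1 ≤ Sl l) →
      CelO n i j h Sl κ Q) (o : Od n) :
    ∀ᵐ g : ℝ, RwH H hTop hF h o g → Φ (SlL hn P P' o g) →
      (∀ l < n, KgAt hn P P' PB o l g (κ l)) →
      StaAt (LvL hn P P' o i) g ∨ StaAt (LvL hn P P' o j) g := by
  filter_upwards [joint_aeH hQ H hTop hF o κ, H.dia_all H.pble hTop hF,
    sl_one H hTop hF, one_zero H hTop hF o] with g h1 hdia h1s h0 R hΦ hkg
  have ho := R.rwd.mem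
  obtain ⟨α, Q₁, c', F⟩ := H.toPk.fac hTop hF ho
  have hg0 := F.g0
  have hg1 := F.g1
  obtain ⟨S', G, HT, hG, hgG, W, hQg⟩ := h1 ho hkg
  obtain ⟨al, g₀, s', d', e', K₁, N₁, hal, hg₀, hC⟩ := HT.cl
  have hl0 : LvL hn P P' o 0 g g = g := by
    rw [Pool.Z4.lvL_eq o (by omega)]
    exact H.toPk.act_diag hTop hF ho
  obtain ⟨P₂, θ₂, Eb, e₂, S₀, hS₀, W⟩ := W.recG HT hkg (fun l _ => rfl) (h0 ho) hl0 R.rwd.rdif
    R.defi hal hg₀ ⟨s', d', e', K₁, N₁, hC⟩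
  have core : ∀ (Lm : Type) (Z : PropZ n Lm) (i : ℕ), i ≤ n - 1 →
      CelZ n i h (SlL hn P P' o g) κ Q Z →
      (∀ lam, Z lam S' (P' o.2) (tht o.2) (cc hn o.1.1) P r (LvL hn P P' o) (LvT hn PB o) κ G g) →
      StaAt (LvL hn P P' o i) g := by
    intro Lm Z i hi hcls hz
    refine sta_of_pairs (H.lawL o i) hg0 hg1 (hdia o ho i hi).1
      fun K₀ del hK₀ hdel => ?_
    obtain ⟨K, N, A, V, hK, hAV, hc⟩ := hcls al hal (K₀ + del) (by linarith) del hdel S₀ hS₀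
    obtain ⟨S₂, hS₂, W⟩ := W K₀ K N A V (by linarith) hK hAV del hdel
    obtain ⟨lam, K', N', V', hKK, hV', ε, hε, hc⟩ := hc S₂ hS₂
    obtain ⟨q₁, hq₁, W⟩ := W K' N' V' hKK hV' ε hε
    obtain ⟨p, M, B₀, B₁, hB, hc⟩ := hc S' g₀ (P' o.2) (tht o.2) P₂ θ₂ Eb e₂ (cc hn o.1.1) P r
      (LvL hn P P' o) (LvT hn PB o) G g hG hgG
      (fun l hl => (hdia o ho l (by omega)).1.hasDerivAt) (hz lam)
    obtain ⟨k₀, hg₀k, q₂, hq₂, hx⟩ := pts_nearH (R := K₀ + del) (by linarith) hQg p M B₀ B₁ hB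
    obtain ⟨q₃, hq₃, hc⟩ := hc k₀ hg₀k
    refine ⟨min q₁ (min q₂ q₃), lt_min hq₁ (lt_min hq₂ hq₃), fun q u hq hq' hu => ?_⟩
    obtain ⟨t, ht1, ht2, hR⟩ := W q u hq (hq'.trans_le (min_le_left _ _)) hu
    obtain ⟨x, hx⟩ := hx q t hq (hq'.trans_le ((min_le_right _ _).trans (min_le_left _ _)))
      hR.near
    exact ⟨t, ht1, ht2, hc q t x (hq'.trans_le ((min_le_right _ _).trans (min_le_right _ _)))
      hx hR⟩
  obtain ⟨Lm, Z, hA, hB⟩ := hcls (SlL hn P P' o g) hΦ (fun l hl => (hkg l hl).sl) (h1s o ho)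
  by_cases hz : ∀ lam, Z lam S' (P' o.2) (tht o.2) (cc hn o.1.1) P r (LvL hn P P' o)
      (LvT hn PB o) κ G g
  · exact Or.inl (core Lm Z i hi hA hz)
  · rw [not_forall] at hz
    obtain ⟨lam, hz⟩ := hz
    exact Or.inr (core Unit (NotZ Z lam) j hj (hB lam) fun _ => hz)

end Pool.PKG

namespace Pool.ASM

open MeasureTheory Set Filter Topology
open Pool.GEN Pool.PKG Pool.SW
open Pool.ONE (Ext0 Ext)
open Pool.MIC6
open Pool.STR (StaAt SteepAt)

/-- **`LCellB` from its class theorems**: in each case the place 2 or the place 3 is static. -/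
theorem lCellB_of_o {ι : Type} [Countable ι] {Q : PropG 4 ι} (hQ : AePG 4 Q)
    (hcls : ∀ h : ℝ, 0 < h → h ≤ 1 → ∀ Sl : ℕ → ℝ, Sl 0 = 1 → Sl 1 = 1 → 2 < Sl 2 → 2 < Sl 3 →
      CelO 4 2 3 h Sl kgB Q) : LCellB := fun _ => by
  refine (Tol.le (1 / 2) (by norm_num)).mono fun η hη => ?_
  intro hn _ hF hTop D hD hD1 _ S P r P' Λ PB H o
  have h1 := hη D hD
  filter_upwards [stas_of_o (κ := kgB) (i := 2) (j := 3) hQ H hTop hF ((1 - η D) * D)
    (fun _ => True) (by omega) (by omega)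
    (fun Sl _ k1 _ => hcls _ (mul_pos (by linarith) hD) (by nlinarith) Sl
      ((k1 0 (by omega)).1 rfl) ((k1 1 (by omega)).1 rfl) ((k1 2 (by omega)).2.2.2 rfl)
      ((k1 3 (by omega)).2.2.2 rfl)) o] with g h2 R _ hst hs e0 e1 hs2 hst2
  have h5 : LvL hn P P' o (4 - 1) = P := lvL_last o
  have h7 : LvL hn P P' o 3 = P := h5
  have h6 : LvT hn PB o 3 = PT hn PB o := LvT_top o
  have h3 := h2 R trivial fun l hl => ?_
  · rw [h7] at h3
    exact h3
  · have h4 : l = 0 ∨ l = 1 ∨ l = 2 ∨ l = 3 := by omega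
    rcases h4 with rfl | rfl | rfl | rfl
    · exact e0
    · exact e1
    · exact ⟨hs2, hst2⟩
    · refine ⟨?_, ?_⟩
      · rw [h7]
        exact hs
      · rw [h6]
        exact hst

/-- **`LCellB` from its class theorems**, with the places in the other order. -/
theorem lCellB_of_o' {ι : Type} [Countable ι] {Q : PropG 4 ι} (hQ : AePG 4 Q)
    (hcls : ∀ h : ℝ, 0 < h → h ≤ 1 → ∀ Sl : ℕ → ℝ, Sl 0 = 1 → Sl 1 = 1 → 2 < Sl 2 → 2 < Sl 3 →
      CelO 4 3 2 h Sl kgB Q) : LCellB := fun _ => by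
  refine (Tol.le (1 / 2) (by norm_num)).mono fun η hη => ?_
  intro hn _ hF hTop D hD hD1 _ S P r P' Λ PB H o
  have h1 := hη D hD
  filter_upwards [stas_of_o (κ := kgB) (i := 3) (j := 2) hQ H hTop hF ((1 - η D) * D)
    (fun _ => True) (by omega) (by omega)
    (fun Sl _ k1 _ => hcls _ (mul_pos (by linarith) hD) (by nlinarith) Sl
      ((k1 0 (by omega)).1 rfl) ((k1 1 (by omega)).1 rfl) ((k1 2 (by omega)).2.2.2 rfl)
      ((k1 3 (by omega)).2.2.2 rfl)) o] with g h2 R _ hst hs e0 e1 hs2 hst2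
  have h5 : LvL hn P P' o (4 - 1) = P := lvL_last o
  have h7 : LvL hn P P' o 3 = P := h5
  have h6 : LvT hn PB o 3 = PT hn PB o := LvT_top o
  have h3 := h2 R trivial fun l hl => ?_
  · rw [h7] at h3
    exact h3.symm
  · have h4 : l = 0 ∨ l = 1 ∨ l = 2 ∨ l = 3 := by omega
    rcases h4 with rfl | rfl | rfl | rfl
    · exact e0
    · exact e1
    · exact ⟨hs2, hst2⟩
    · refine ⟨?_, ?_⟩
      · rw [h7]
        exact hs
      · rw [h6]
        exact hst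

end Pool.ASM
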