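import Pool.Agent.H3.D2G.RecY
import Pool.Agent.H19.ONE.Nor2

/-!
# Joints with the property at the window itself: a second contact coordinate in dimension four

`lV0A_of_gh`, `lV0B_of_gh`: `LV0A 4`, `LV0B 4` from their class theorems over `CelQH`. `lV01_of_gh`:
`LV01 4` from its class theorems.
-/

set_option autoImplicit false

namespace Pool.ASM

open MeasureTheory Set Filter Topology
open Pool.GEN Pool.PKG Pool.SW
open Pool.ONE (Ext0 Ext)
open Pool.MIC6
open Pool.STR (StaAt SteepAt ThinAt)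

/-- **`LV0A 4` from its class theorem**, with a property: the coordinates `0`, `1` are contact
coordinates, the coordinate `2` is thin or steep, the target is static of slope at least two; the
coordinate `2` is static. -/
theorem lV0A_of_gh {ι : Type} [Countable ι] {Q : PropG 4 ι} (hQ : AePG 4 Q)
    (hcls : ∀ h : ℝ, 0 < h → h ≤ 1 → ∀ (Sl : ℕ → ℝ) (k : Kg), Sl 0 = 1 → Sl 1 = 1 → 2 ≤ Sl 3 →
      ((k = .thin ∧ 1 < Sl 2) ∨ (k = .stp ∧ 2 < Sl 2)) →
      CelQH 4 2 h Sl (kg4 .one .one k .sta) Q) : LV0A 4 := fun _ => by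
  refine (Tol.le (1 / 2) (by norm_num)).mono fun η hη => ?_
  intro _ hn _ hF hTop D hD hD1 _ S P r P' Λ PB H o
  have h1 := hη D hD
  obtain ⟨h, hh⟩ : ∃ h, h = (1 - η D) * D := ⟨_, rfl⟩
  have h0 : 0 < h := by
    rw [hh]
    exact mul_pos (by linarith) hD
  have h1' : h ≤ 1 := by
    rw [hh]
    nlinarith
  rw [← hh]
  filter_upwards [sta_kindsH hQ H hTop hF h
    (fun κ _ => ∃ k : Kg, (k = .thin ∨ k = .stp) ∧ κ = kg4 .one .one k .sta) (i := 2)
    (by norm_num) (fun κ Sl k0 k1 _ => by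
      obtain ⟨k, hk, rfl⟩ := k0
      refine hcls h h0 h1' Sl k ((k1 0 (by norm_num)).1 rfl) ((k1 1 (by norm_num)).1 rfl)
        ((k1 3 (by norm_num)).2.2.1 rfl) ?_
      rcases hk with rfl | rfl
      · exact Or.inl ⟨rfl, (k1 2 (by norm_num)).2.1 rfl⟩
      · exact Or.inr ⟨rfl, (k1 2 (by norm_num)).2.2.2 rfl⟩) o,
    kg_all H hTop hF, kg_sta H hTop hF, sl_one H hTop hF, one_zero H hTop hF o]
    with g k1 k2 k3 k4 k5 R hP hst hl1 hl2
  have ho := R.rwd.mem
  have e1 : LvL hn P P' o 1 = LL hn P P' o 2 := Pool.Z4.lvL_eq o (by norm_num)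
  have e2 : LvL hn P P' o 2 = LL hn P P' o 3 := Pool.Z4.lvL_eq o (by norm_num)
  have e3 : LvL hn P P' o 3 = P := lvL_last o
  rw [← e1] at hl1
  rw [← e2] at hl2 ⊢
  have c0 : KgAt hn P P' PB o 0 g .one := k5 ho
  have c1 : KgAt hn P P' PB o 1 g .one := le_antisymm hl1 (k4 o ho 1 (by norm_num))
  have c3 : KgAt hn P P' PB o 3 g .sta := k3 o ho 3 (by norm_num) (by rw [e3]; exact hst)
    (by rw [e3]; exact hP)
  obtain ⟨k, hk, c2⟩ := k2 o ho 2 (by norm_num)
  have key : (k = .thin ∨ k = .stp) → StaAt (LvL hn P P' o 2) g := fun hk' => by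
    refine k1 R (fun l : Fin 4 => kg4 .one .one k .sta l) ⟨k, hk', kgX_four _ _ _ _⟩ fun l => ?_
    fin_cases l
    · exact c0
    · exact c1
    · exact c2
    · exact c3
  rcases k with _ | _ | _ | _ | _
  · exact absurd (show deriv (fun a => LvL hn P P' o 2 a a) g = 1 from c2) hl2.ne'
  · exact key (Or.inl rfl)
  · exact c2.2
  · exact key (Or.inr rfl)
  · exact absurd rfl hk

/-- **`LV0B 4` from its class theorem**, with a property: the coordinates `0`, `2` are contact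
coordinates, the coordinate `1` is thin or steep, the target is static of slope at least two; the
coordinate `1` is static. -/
theorem lV0B_of_gh {ι : Type} [Countable ι] {Q : PropG 4 ι} (hQ : AePG 4 Q)
    (hcls : ∀ h : ℝ, 0 < h → h ≤ 1 → ∀ (Sl : ℕ → ℝ) (k : Kg), Sl 0 = 1 → Sl 2 = 1 → 2 ≤ Sl 3 →
      ((k = .thin ∧ 1 < Sl 1) ∨ (k = .stp ∧ 2 < Sl 1)) →
      CelQH 4 1 h Sl (kg4 .one k .one .sta) Q) : LV0B 4 := fun _ => by
  refine (Tol.le (1 / 2) (by norm_num)).mono fun η hη => ?_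
  intro _ hn _ hF hTop D hD hD1 _ S P r P' Λ PB H o
  have h1 := hη D hD
  obtain ⟨h, hh⟩ : ∃ h, h = (1 - η D) * D := ⟨_, rfl⟩
  have h0 : 0 < h := by
    rw [hh]
    exact mul_pos (by linarith) hD
  have h1' : h ≤ 1 := by
    rw [hh]
    nlinarith
  rw [← hh]
  filter_upwards [sta_kindsH hQ H hTop hF h
    (fun κ _ => ∃ k : Kg, (k = .thin ∨ k = .stp) ∧ κ = kg4 .one k .one .sta) (i := 1)
    (by norm_num) (fun κ Sl k0 k1 _ => by
      obtain ⟨k, hk, rfl⟩ := k0
      refine hcls h h0 h1' Sl k ((k1 0 (by norm_num)).1 rfl) ((k1 2 (by norm_num)).1 rfl)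
        ((k1 3 (by norm_num)).2.2.1 rfl) ?_
      rcases hk with rfl | rfl
      · exact Or.inl ⟨rfl, (k1 1 (by norm_num)).2.1 rfl⟩
      · exact Or.inr ⟨rfl, (k1 1 (by norm_num)).2.2.2 rfl⟩) o,
    kg_all H hTop hF, kg_sta H hTop hF, sl_one H hTop hF, one_zero H hTop hF o]
    with g k1 k2 k3 k4 k5 R hP hst hl1 hl2
  have ho := R.rwd.mem
  have e1 : LvL hn P P' o 1 = LL hn P P' o 2 := Pool.Z4.lvL_eq o (by norm_num)
  have e2 : LvL hn P P' o 2 = LL hn P P' o 3 := Pool.Z4.lvL_eq o (by norm_num)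
  have e3 : LvL hn P P' o 3 = P := lvL_last o
  rw [← e2] at hl1
  rw [← e1] at hl2 ⊢
  have c0 : KgAt hn P P' PB o 0 g .one := k5 ho
  have c2 : KgAt hn P P' PB o 2 g .one := le_antisymm hl1 (k4 o ho 2 (by norm_num))
  have c3 : KgAt hn P P' PB o 3 g .sta := k3 o ho 3 (by norm_num) (by rw [e3]; exact hst)
    (by rw [e3]; exact hP)
  obtain ⟨k, hk, c1⟩ := k2 o ho 1 (by norm_num)
  have key : (k = .thin ∨ k = .stp) → StaAt (LvL hn P P' o 1) g := fun hk' => by
    refine k1 R (fun l : Fin 4 => kg4 .one k .one .sta l) ⟨k, hk', kgX_four _ _ _ _⟩ fun l => ?_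
    fin_cases l
    · exact c0
    · exact c1
    · exact c2
    · exact c3
  rcases k with _ | _ | _ | _ | _
  · exact absurd (show deriv (fun a => LvL hn P P' o 1 a a) g = 1 from c1) hl2.ne'
  · exact key (Or.inl rfl)
  · exact c1.2
  · exact key (Or.inr rfl)
  · exact absurd rfl hk

/-- **`LV01 4` from its class theorems**, with a property: the target has slope one, the coordinates
`0`, `1` (or `0`, `2`) are contact coordinates, the third one is thin or steep and is static. -/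
theorem lV01_of_gh {ι : Type} [Countable ι] {Q : PropG 4 ι} (hQ : AePG 4 Q)
    (hcls2 : ∀ h : ℝ, 0 < h → h ≤ 1 → ∀ (Sl : ℕ → ℝ) (k : Kg), Sl 0 = 1 → Sl 1 = 1 → Sl 3 = 1 →
      ((k = .thin ∧ 1 < Sl 2) ∨ (k = .stp ∧ 2 < Sl 2)) →
      CelQH 4 2 h Sl (kg4 .one .one k .one) Q)
    (hcls1 : ∀ h : ℝ, 0 < h → h ≤ 1 → ∀ (Sl : ℕ → ℝ) (k : Kg), Sl 0 = 1 → Sl 2 = 1 → Sl 3 = 1 →
      ((k = .thin ∧ 1 < Sl 1) ∨ (k = .stp ∧ 2 < Sl 1)) →
      CelQH 4 1 h Sl (kg4 .one k .one .one) Q) : LV01 4 := fun _ => by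
  refine (Tol.le (1 / 2) (by norm_num)).mono fun η hη _ => ?_
  intro hn _ hF hTop D hD hD1 _ S P r P' Λ PB H o
  have h1 := hη D hD
  obtain ⟨h, hh⟩ : ∃ h, h = (1 - η D) * D := ⟨_, rfl⟩
  have h0 : 0 < h := by
    rw [hh]
    exact mul_pos (by linarith) hD
  have h1' : h ≤ 1 := by
    rw [hh]
    nlinarith
  rw [← hh]
  filter_upwards [sta_kindsH hQ H hTop hF h
    (fun κ _ => ∃ k : Kg, (k = .thin ∨ k = .stp) ∧ κ = kg4 .one .one k .one) (i := 2)
    (by norm_num) (fun κ Sl k0 k1 _ => by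
      obtain ⟨k, hk, rfl⟩ := k0
      refine hcls2 h h0 h1' Sl k ((k1 0 (by norm_num)).1 rfl) ((k1 1 (by norm_num)).1 rfl)
        ((k1 3 (by norm_num)).1 rfl) ?_
      rcases hk with rfl | rfl
      · exact Or.inl ⟨rfl, (k1 2 (by norm_num)).2.1 rfl⟩
      · exact Or.inr ⟨rfl, (k1 2 (by norm_num)).2.2.2 rfl⟩) o,
    sta_kindsH hQ H hTop hF h
    (fun κ _ => ∃ k : Kg, (k = .thin ∨ k = .stp) ∧ κ = kg4 .one k .one .one) (i := 1)
    (by norm_num) (fun κ Sl k0 k1 _ => by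
      obtain ⟨k, hk, rfl⟩ := k0
      refine hcls1 h h0 h1' Sl k ((k1 0 (by norm_num)).1 rfl) ((k1 2 (by norm_num)).1 rfl)
        ((k1 3 (by norm_num)).1 rfl) ?_
      rcases hk with rfl | rfl
      · exact Or.inl ⟨rfl, (k1 1 (by norm_num)).2.1 rfl⟩
      · exact Or.inr ⟨rfl, (k1 1 (by norm_num)).2.2.2 rfl⟩) o,
    kg_all H hTop hF, Pool.Z4.sta_zero H hTop hF o, sl_one H hTop hF, one_zero H hTop hF o]
    with g k1 k1' k2 k3 k4 k5 R hP hex i hi
  have ho := R.rwd.mem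
  have e0 : ∀ l < 3, LvL hn P P' o l = LL hn P P' o (l + 1) := fun l hl =>
    Pool.Z4.lvL_eq o (by omega)
  have e3 : LvL hn P P' o 3 = P := lvL_last o
  have c0 : KgAt hn P P' PB o 0 g .one := k5 ho
  have c3 : KgAt hn P P' PB o 3 g .one := by
    show deriv (fun a => LvL hn P P' o 3 a a) g = 1
    rw [e3]
    exact hP
  -- a coordinate of slope one is static
  have hone : ∀ l, 1 ≤ l → l < 3 → deriv (fun a => LvL hn P P' o l a a) g ≤ 1 →
      StaAt (LL hn P P' o (l + 1)) g := fun l hl1 hl hs => by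
    rw [e0 l hl] at hs
    exact Pool.Z4.sta_one H hTop hF R.rwd (by omega) hs
  obtain ⟨j, hj1, hj, hs⟩ := hex
  have hj3 : j < 3 := by omega
  rw [← e0 j hj3] at hs
  rcases Nat.eq_zero_or_pos i with hi0 | hi0
  · rw [hi0]
    exact k3 ho
  by_cases hs' : deriv (fun a => LvL hn P P' o i a a) g ≤ 1
  · exact hone i hi0 (by omega) hs'
  have hij : i ≠ j := fun h => hs' (h ▸ hs)
  push Not at hs'
  have cj : KgAt hn P P' PB o j g .one := le_antisymm hs (k4 o ho j (by omega))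
  obtain ⟨k, hk, ci⟩ := k2 o ho i (by omega)
  rw [← e0 i (by omega)]
  have hk' : (k = .thin ∨ k = .stp) ∨ StaAt (LvL hn P P' o i) g := by
    rcases k with _ | _ | _ | _ | _
    · exact absurd (show deriv (fun a => LvL hn P P' o i a a) g = 1 from ci) hs'.ne'
    · exact Or.inl (Or.inl rfl)
    · exact Or.inr ci.2
    · exact Or.inl (Or.inr rfl)
    · exact absurd rfl hk
  rcases hk' with hk' | hst
  swap
  · exact hst
  rcases (show (i = 2 ∧ j = 1) ∨ (i = 1 ∧ j = 2) by omega) with ⟨rfl, rfl⟩ | ⟨rfl, rfl⟩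
  · refine k1 R (fun l : Fin 4 => kg4 .one .one k .one l) ⟨k, hk', kgX_four _ _ _ _⟩ fun l => ?_
    fin_cases l
    · exact c0
    · exact cj
    · exact ci
    · exact c3
  · refine k1' R (fun l : Fin 4 => kg4 .one k .one .one l) ⟨k, hk', kgX_four _ _ _ _⟩ fun l => ?_
    fin_cases l
    · exact c0
    · exact ci
    · exact cj
    · exact c3

end Pool.ASM
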