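import Pool.Agent.H3.D2G.RecF
import Pool.Agent.H56.ASM.Sk5

/-!
# The joints of the static coordinates over contact coordinates, target static

`sta_of_gqs`: as `sta_of_gq`, with a condition on the slopes. `sta_kinds`: the same for all kinds at
once. `not_thin_sta`, `kg_sta`: a static coordinate of slope more than one has slope at least two.
`lV0A_of_gq`, `lV0A_of_g`, `lV0B_of_gq`, `lV0B_of_g`: `LV0A 4`, `LV0B 4` from their class theorems.
-/

set_option autoImplicit false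

namespace Pool.PKG

open MeasureTheory Set Filter Topology
open Pool.Agent.H49.Ent Pool.Agent.H32.Dense Pool.STK Pool.KA Pool.KSAT Pool.K2S Pool.PB
open Pool.GEN Pool.S6C Pool.STAT Pool.CHT Pool.GRW Pool.ONE Pool.STA
open Pool.LBT (LSys ThrOf)
open Pool.LEV (Law)
open Pool.TOP (TopS)
open Pool.STR (ThinAt SteepAt StaAt StaD sta_of_pairs)
open Pool.NMS (LeAt slope_eq dia_le sta_of2)

/-- **A static coordinate of slope more than one** is not thin. -/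
theorem not_thin_sta {T L : ℝ → ℝ → ℝ} {g : ℝ} (hT : Law T) (hL : Law L) (hg0 : 0 < g)
    (hg1 : g < 1) (hd : DifferentiableAt ℝ (fun a => T a a) g)
    (hd' : DifferentiableAt ℝ (fun a => L a a) g) (heq : L g g = T g g) (hle : LeAt L T g)
    (hth : ThinAt L T g) (hst : StaAt L g) : deriv (fun a => L a a) g ≤ 1 := by
  have hsl : deriv (fun a => L a a) g = deriv (fun a => T a a) g :=
    slope_eq hd hd' heq (dia_le hT hL hg0 hg1 hle)
  by_contra hcon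
  push Not at hcon
  obtain ⟨s, hs⟩ : ∃ s : ℝ, s = deriv (fun a => L a a) g := ⟨_, rfl⟩
  rw [← hs] at hcon
  obtain ⟨r₁, hr₁, h1⟩ := hth ((s - 1) / 8) (by linarith)
  obtain ⟨r₂, hr₂, h2⟩ := hst ((s - 1) / 8) (by linarith)
  have h3 := hd'.hasDerivAt.isLittleO.def (show 0 < (s - 1) / 8 by linarith)
  obtain ⟨η, hη, h4⟩ := Metric.eventually_nhds_iff.1 h3
  obtain ⟨r, hr⟩ : ∃ r : ℝ, r = min (min r₁ r₂) η / 2 := ⟨_, rfl⟩
  have hm : 0 < min (min r₁ r₂) η := lt_min (lt_min hr₁ hr₂) hη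
  have hr0 : 0 < r := by rw [hr]; linarith
  have hrm : r < min (min r₁ r₂) η := by rw [hr]; linarith
  have e1 : r < r₁ := (hrm.trans_le (min_le_left _ _)).trans_le (min_le_left _ _)
  have e2 : r < r₂ := (hrm.trans_le (min_le_left _ _)).trans_le (min_le_right _ _)
  have e3 : r < η := hrm.trans_le (min_le_right _ _)
  have k1 := h1 r hr0 e1 (g + r) g (by linarith) (by linarith) (by linarith)
  have k2 := h2 r hr0 e2 (g + r) g (by linarith) (by linarith) (by linarith)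
  have k3 := h4 (y := g + r) (by
    rw [Real.dist_eq, add_sub_cancel_left, abs_of_pos hr0]
    exact e3)
  rw [Real.norm_eq_abs, Real.norm_eq_abs, smul_eq_mul, ← hs, add_sub_cancel_left,
    abs_of_pos hr0] at k3
  have k4 := (abs_le.1 k3).1
  have k5 : 0 < (s - 1) * r := mul_pos (by linarith) hr0
  nlinarith

variable {n : ℕ} {hn : 2 ≤ n} {S : PCl n} {P : ℝ → ℝ → ℝ} {r : ℝ → ℝ}
  {P' : ℕ → List (Fin n) × Fin n → ℝ → ℝ → ℝ} {Λ : Finset (Fin n) → Fin n → ℝ → ℝ → ℝ}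
  {PB : ℕ → List (Fin n) × Fin n → ℝ → ℝ → ℝ}

/-- **A static coordinate of slope more than one** has slope at least two. -/
theorem kg_sta (H : PkT hn S P r P' Λ PB) (hTop : TopS n) (hF : FZX (n - 1)) :
    ∀ᵐ g : ℝ, ∀ o : Od n, g ∈ Gs P r P' Λ o → ∀ l < n, StaAt (LvL hn P P' o l) g →
      1 < deriv (fun a => LvL hn P P' o l a a) g → KgAt hn P P' PB o l g .sta := by
  filter_upwards [H.thin_steep_all H.pble hTop hF, H.dia_all H.pble hTop hF]
    with g h1 h2 o ho l hl hs h1s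
  obtain ⟨α, Q, c', F⟩ := H.toPk.fac hTop hF ho
  obtain ⟨d1, d2, d3⟩ := h2 o ho l (by omega)
  rcases h1 o ho l (by omega) with h5 | h5
  · exact absurd (not_thin_sta (H.lawT o l) (H.lawL o l) F.g0 F.g1 d2 d1 d3
      (H.leAt H.pble hTop hF ho (by omega)) h5 hs) (not_le.2 h1s)
  · exact ⟨steep_slope (H.lawT o l) (H.lawL o l) F.g0 F.g1 d2 d1 d3
      (H.leAt H.pble hTop hF ho (by omega)) h5, hs⟩

/-- **A static coordinate** at the place `i` from the class theorem, with the rate, a property, and a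
condition on the slopes. -/
theorem sta_of_gqs {ι : Type} [Countable ι] {Q : PropG n ι} (hQ : AePG n Q)
    (H : PkT hn S P r P' Λ PB) (hTop : TopS n)
    (hF : FZX (n - 1)) (h : ℝ) {κ : ℕ → Kg} (Φ : (ℕ → ℝ) → Prop) {i : ℕ} (hi : i ≤ n - 1)
    (hcls : ∀ Sl : ℕ → ℝ, Φ Sl → (∀ l < n, (κ l = .one → Sl l = 1) ∧ (κ l = .thin → 1 < Sl l) ∧
      (κ l = .sta → 2 ≤ Sl l) ∧ (κ l = .stp → 2 < Sl l)) → (∀ l < n, 1 ≤ Sl l) →
      CelQG n i h Sl κ Q) (o : Od n) :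
    ∀ᵐ g : ℝ, RwH H hTop hF h o g → Φ (SlL hn P P' o g) →
      (∀ l < n, KgAt hn P P' PB o l g (κ l)) → StaAt (LvL hn P P' o i) g := by
  filter_upwards [joint_ae hQ H hTop hF o κ, H.dia_all H.pble hTop hF,
    sl_one H hTop hF, one_zero H hTop hF o] with g h1 hdia h1s h0 R hΦ hkg
  have ho := R.rwd.mem
  obtain ⟨α, Q₁, c', F⟩ := H.toPk.fac hTop hF ho
  have hg0 := F.g0
  have hg1 := F.g1
  obtain ⟨S', G, HT, hG, hgG, W, hQg⟩ := h1 ho hkg
  obtain ⟨al, g₀, s', d', e', K₁, N₁, hal, hg₀, hC⟩ := HT.cl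
  have hl0 : LvL hn P P' o 0 g g = g := by
    rw [Pool.Z4.lvL_eq o (by omega)]
    exact H.toPk.act_diag hTop hF ho
  refine sta_of_pairs (H.lawL o i) hg0 hg1 (hdia o ho i hi).1
    fun K₀ del hK₀ hdel => ?_
  obtain ⟨P₂, θ₂, Eb, e₂, S₀, hS₀, W⟩ := W.recG HT hkg (fun l _ => rfl) (h0 ho) hl0 R.rwd.rdif
    R.defi hal hg₀ ⟨s', d', e', K₁, N₁, hC⟩
  obtain ⟨K, N, A, V, hK, hAV, hc⟩ := hcls (SlL hn P P' o g) hΦ (fun l hl => (hkg l hl).sl)
    (h1s o ho) al hal (K₀ + del) (by linarith) del hdel S₀ hS₀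
  obtain ⟨S₂, hS₂, W⟩ := W K₀ K N A V (by linarith) hK hAV del hdel
  obtain ⟨K', N', V', hKK, hV', ε, hε, hc⟩ := hc S₂ hS₂
  obtain ⟨q₁, hq₁, W⟩ := W K' N' V' hKK hV' ε hε
  obtain ⟨p, M, B₀, B₁, hB, hc⟩ := hc S' g₀ (P' o.2) (tht o.2) P₂ θ₂ Eb e₂ (cc hn o.1.1) P r
    (LvL hn P P' o) (LvT hn PB o) G g hG hgG
  obtain ⟨k₀, q₂, hq₂, hx⟩ := pts_near (R := K₀ + del) (by linarith) hQg p M B₀ B₁ hB
  obtain ⟨q₃, hq₃, hc⟩ := hc k₀
  refine ⟨min q₁ (min q₂ q₃), lt_min hq₁ (lt_min hq₂ hq₃), fun q u hq hq' hu => ?_⟩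
  obtain ⟨t, ht1, ht2, hR⟩ := W q u hq (hq'.trans_le (min_le_left _ _)) hu
  obtain ⟨x, hx⟩ := hx q t hq (hq'.trans_le ((min_le_right _ _).trans (min_le_left _ _)))
    hR.near
  exact ⟨t, ht1, ht2, hc q t x (hq'.trans_le ((min_le_right _ _).trans (min_le_right _ _)))
    hx hR⟩

/-- **A static coordinate** at the place `i` from the class theorem, for all kinds at once, with a
condition on the kinds and on the slopes. -/
theorem sta_kinds {ι : Type} [Countable ι] {Q : PropG n ι} (hQ : AePG n Q)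
    (H : PkT hn S P r P' Λ PB) (hTop : TopS n) (hF : FZX (n - 1)) (h : ℝ)
    (Φ : (ℕ → Kg) → (ℕ → ℝ) → Prop) {i : ℕ} (hi : i ≤ n - 1)
    (hcls : ∀ (κ : ℕ → Kg) (Sl : ℕ → ℝ), Φ κ Sl → (∀ l < n, (κ l = .one → Sl l = 1) ∧
      (κ l = .thin → 1 < Sl l) ∧ (κ l = .sta → 2 ≤ Sl l) ∧ (κ l = .stp → 2 < Sl l)) →
      (∀ l < n, 1 ≤ Sl l) → CelQG n i h Sl κ Q) (o : Od n) :
    ∀ᵐ g : ℝ, RwH H hTop hF h o g → ∀ f : Fin n → Kg, Φ (kgX n f) (SlL hn P P' o g) →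
      (∀ l : Fin n, KgAt hn P P' PB o l g (f l)) → StaAt (LvL hn P P' o i) g := by
  have : Countable Kg := Kg.count
  have h1 := ae_all_iff.2 fun f : Fin n → Kg =>
    sta_of_gqs (κ := kgX n f) hQ H hTop hF h (Φ (kgX n f)) hi
      (fun Sl k0 k1 k2 => hcls _ Sl k0 k1 k2) o
  filter_upwards [h1] with g k R f hΦ hk
  refine k f R hΦ fun l hl => ?_
  unfold kgX
  rw [dif_pos hl]
  exact hk ⟨l, hl⟩

/-- Four kinds. -/
def kg4 (a b c d : Kg) (l : ℕ) : Kg :=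
  if l = 0 then a else if l = 1 then b else if l = 2 then c else if l = 3 then d else .any

theorem kgX_four (a b c d : Kg) : kgX 4 (fun l : Fin 4 => kg4 a b c d l) = kg4 a b c d := by
  funext l
  unfold kgX
  split_ifs with h
  · rfl
  · unfold kg4
    rw [if_neg (by omega), if_neg (by omega), if_neg (by omega), if_neg (by omega)]

end Pool.PKG

namespace Pool.ASM

open MeasureTheory Set Filter Topology
open Pool.GEN Pool.PKG Pool.SW
open Pool.ONE (Ext0 Ext)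
open Pool.MIC6
open Pool.STR (StaAt SteepAt ThinAt)

/-- **`LV0A 4` from its class theorem**, with a property: the coordinates `0`, `1` are contact
coordinates, the coordinate `2` is thin or steep, the target is static of slope at least two; the
coordinate `2` is static. -/
theorem lV0A_of_gq {ι : Type} [Countable ι] {Q : PropG 4 ι} (hQ : AePG 4 Q)
    (hcls : ∀ h : ℝ, 0 < h → h ≤ 1 → ∀ (Sl : ℕ → ℝ) (k : Kg), Sl 0 = 1 → Sl 1 = 1 → 2 ≤ Sl 3 →
      ((k = .thin ∧ 1 < Sl 2) ∨ (k = .stp ∧ 2 < Sl 2)) →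
      CelQG 4 2 h Sl (kg4 .one .one k .sta) Q) : LV0A 4 := fun _ => by
  refine (Tol.le (1 / 2) (by norm_num)).mono fun η hη => ?_
  intro _ hn _ hF hTop D hD hD1 _ S P r P' Λ PB H o
  have h1 := hη D hD
  obtain ⟨h, hh⟩ : ∃ h, h = (1 - η D) * D := ⟨_, rfl⟩
  have h0 : 0 < h := by
    rw [hh]
    exact mul_pos (by linarith) hD
  have h1' : h ≤ 1 := by
    rw [hh]
    nlinarith
  rw [← hh]
  filter_upwards [sta_kinds hQ H hTop hF h
    (fun κ _ => ∃ k : Kg, (k = .thin ∨ k = .stp) ∧ κ = kg4 .one .one k .sta) (i := 2)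
    (by norm_num) (fun κ Sl k0 k1 _ => by
      obtain ⟨k, hk, rfl⟩ := k0
      refine hcls h h0 h1' Sl k ((k1 0 (by norm_num)).1 rfl) ((k1 1 (by norm_num)).1 rfl)
        ((k1 3 (by norm_num)).2.2.1 rfl) ?_
      rcases hk with rfl | rfl
      · exact Or.inl ⟨rfl, (k1 2 (by norm_num)).2.1 rfl⟩
      · exact Or.inr ⟨rfl, (k1 2 (by norm_num)).2.2.2 rfl⟩) o,
    kg_all H hTop hF, kg_sta H hTop hF, sl_one H hTop hF, one_zero H hTop hF o]
    with g k1 k2 k3 k4 k5 R hP hst hl1 hl2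
  have ho := R.rwd.mem
  have e1 : LvL hn P P' o 1 = LL hn P P' o 2 := Pool.Z4.lvL_eq o (by norm_num)
  have e2 : LvL hn P P' o 2 = LL hn P P' o 3 := Pool.Z4.lvL_eq o (by norm_num)
  have e3 : LvL hn P P' o 3 = P := lvL_last o
  rw [← e1] at hl1
  rw [← e2] at hl2 ⊢
  have c0 : KgAt hn P P' PB o 0 g .one := k5 ho
  have c1 : KgAt hn P P' PB o 1 g .one := le_antisymm hl1 (k4 o ho 1 (by norm_num))
  have c3 : KgAt hn P P' PB o 3 g .sta := k3 o ho 3 (by norm_num) (by rw [e3]; exact hst)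
    (by rw [e3]; exact hP)
  obtain ⟨k, hk, c2⟩ := k2 o ho 2 (by norm_num)
  have key : (k = .thin ∨ k = .stp) → StaAt (LvL hn P P' o 2) g := fun hk' => by
    refine k1 R (fun l : Fin 4 => kg4 .one .one k .sta l) ⟨k, hk', kgX_four _ _ _ _⟩ fun l => ?_
    fin_cases l
    · exact c0
    · exact c1
    · exact c2
    · exact c3
  rcases k with _ | _ | _ | _ | _
  · exact absurd (show deriv (fun a => LvL hn P P' o 2 a a) g = 1 from c2) hl2.ne'
  · exact key (Or.inl rfl)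
  · exact c2.2
  · exact key (Or.inr rfl)
  · exact absurd rfl hk

/-- **`LV0B 4` from its class theorem**, with a property: the coordinates `0`, `2` are contact
coordinates, the coordinate `1` is thin or steep, the target is static of slope at least two; the
coordinate `1` is static. -/
theorem lV0B_of_gq {ι : Type} [Countable ι] {Q : PropG 4 ι} (hQ : AePG 4 Q)
    (hcls : ∀ h : ℝ, 0 < h → h ≤ 1 → ∀ (Sl : ℕ → ℝ) (k : Kg), Sl 0 = 1 → Sl 2 = 1 → 2 ≤ Sl 3 →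
      ((k = .thin ∧ 1 < Sl 1) ∨ (k = .stp ∧ 2 < Sl 1)) →
      CelQG 4 1 h Sl (kg4 .one k .one .sta) Q) : LV0B 4 := fun _ => by
  refine (Tol.le (1 / 2) (by norm_num)).mono fun η hη => ?_
  intro _ hn _ hF hTop D hD hD1 _ S P r P' Λ PB H o
  have h1 := hη D hD
  obtain ⟨h, hh⟩ : ∃ h, h = (1 - η D) * D := ⟨_, rfl⟩
  have h0 : 0 < h := by
    rw [hh]
    exact mul_pos (by linarith) hD
  have h1' : h ≤ 1 := by
    rw [hh]
    nlinarith
  rw [← hh]
  filter_upwards [sta_kinds hQ H hTop hF h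
    (fun κ _ => ∃ k : Kg, (k = .thin ∨ k = .stp) ∧ κ = kg4 .one k .one .sta) (i := 1)
    (by norm_num) (fun κ Sl k0 k1 _ => by
      obtain ⟨k, hk, rfl⟩ := k0
      refine hcls h h0 h1' Sl k ((k1 0 (by norm_num)).1 rfl) ((k1 2 (by norm_num)).1 rfl)
        ((k1 3 (by norm_num)).2.2.1 rfl) ?_
      rcases hk with rfl | rfl
      · exact Or.inl ⟨rfl, (k1 1 (by norm_num)).2.1 rfl⟩
      · exact Or.inr ⟨rfl, (k1 1 (by norm_num)).2.2.2 rfl⟩) o,
    kg_all H hTop hF, kg_sta H hTop hF, sl_one H hTop hF, one_zero H hTop hF o]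
    with g k1 k2 k3 k4 k5 R hP hst hl1 hl2
  have ho := R.rwd.mem
  have e1 : LvL hn P P' o 1 = LL hn P P' o 2 := Pool.Z4.lvL_eq o (by norm_num)
  have e2 : LvL hn P P' o 2 = LL hn P P' o 3 := Pool.Z4.lvL_eq o (by norm_num)
  have e3 : LvL hn P P' o 3 = P := lvL_last o
  rw [← e2] at hl1
  rw [← e1] at hl2 ⊢
  have c0 : KgAt hn P P' PB o 0 g .one := k5 ho
  have c2 : KgAt hn P P' PB o 2 g .one := le_antisymm hl1 (k4 o ho 2 (by norm_num))
  have c3 : KgAt hn P P' PB o 3 g .sta := k3 o ho 3 (by norm_num) (by rw [e3]; exact hst)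
    (by rw [e3]; exact hP)
  obtain ⟨k, hk, c1⟩ := k2 o ho 1 (by norm_num)
  have key : (k = .thin ∨ k = .stp) → StaAt (LvL hn P P' o 1) g := fun hk' => by
    refine k1 R (fun l : Fin 4 => kg4 .one k .one .sta l) ⟨k, hk', kgX_four _ _ _ _⟩ fun l => ?_
    fin_cases l
    · exact c0
    · exact c1
    · exact c2
    · exact c3
  rcases k with _ | _ | _ | _ | _
  · exact absurd (show deriv (fun a => LvL hn P P' o 1 a a) g = 1 from c1) hl2.ne'
  · exact key (Or.inl rfl)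
  · exact c1.2
  · exact key (Or.inr rfl)
  · exact absurd rfl hk

/-- **`LV0A 4` from its class theorem.** -/
theorem lV0A_of_g (hcls : ∀ h : ℝ, 0 < h → h ≤ 1 → ∀ (Sl : ℕ → ℝ) (k : Kg), Sl 0 = 1 → Sl 1 = 1 →
    2 ≤ Sl 3 → ((k = .thin ∧ 1 < Sl 2) ∨ (k = .stp ∧ 2 < Sl 2)) →
    CelG 4 2 h Sl (kg4 .one .one k .sta)) : LV0A 4 :=
  lV0A_of_gq (aePG_true 4 Unit) fun h h0 h1 Sl k k1 k2 k3 k4 =>
    (hcls h h0 h1 Sl k k1 k2 k3 k4).q _

/-- **`LV0B 4` from its class theorem.** -/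
theorem lV0B_of_g (hcls : ∀ h : ℝ, 0 < h → h ≤ 1 → ∀ (Sl : ℕ → ℝ) (k : Kg), Sl 0 = 1 → Sl 2 = 1 →
    2 ≤ Sl 3 → ((k = .thin ∧ 1 < Sl 1) ∨ (k = .stp ∧ 2 < Sl 1)) →
    CelG 4 1 h Sl (kg4 .one k .one .sta)) : LV0B 4 :=
  lV0B_of_gq (aePG_true 4 Unit) fun h h0 h1 Sl k k1 k2 k3 k4 =>
    (hcls h h0 h1 Sl k k1 k2 k3 k4).q _

end Pool.ASM
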