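import Pool.Agent.H3.D2G.RecV

/-!
# The joints of the thin windows with conditions on the slopes

`KgT`: kinds of the coordinates with a thin target. `void_sl`, `noB_sl`: the thin windows with a
condition on the slopes are void, have no boxes, from the class theorem. `lTvB_of_gq`, `lTp2B_of_gq`,
`lTvC_of_gq`, `lTp2C_of_gq`: the leaves with more than one contact coordinate.
-/

set_option autoImplicit false

namespace Pool.ASM

open MeasureTheory Set Filter Topology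
open Pool.Agent.H49.Ent Pool.Agent.H32.Dense Pool.STK Pool.KA Pool.KSAT Pool.K2S Pool.PB
open Pool.GEN Pool.PKG Pool.SW
open Pool.ONE (Ext0 Ext)
open Pool.TOP (TopS)
open Pool.MIC6
open Pool.STR (StaAt SteepAt ThinAt)

/-- **The kinds of the coordinates**, the target is thin. -/
structure KgT (n : ℕ) (κ : ℕ → Kg) (Sl : ℕ → ℝ) : Prop where
  zero : κ 0 = .one
  tar : κ (n - 1) = .thin
  any : ∀ l < n, κ l ≠ .any
  one : ∀ l < n, κ l = .one ↔ Sl l = 1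
  tar1 : 1 < Sl (n - 1)
  ge : ∀ l < n, 1 ≤ Sl l
  sta : ∀ l < n, κ l = .sta → 2 ≤ Sl l
  stp : ∀ l < n, κ l = .stp → 2 < Sl l

/-- **The thin windows with a condition on the slopes** are void, from the class theorem, with a
property. -/
theorem void_sl {n : ℕ} {ι : Type} [Countable ι] {Q : PropG n ι} (hQ : AePG n Q)
    {hn : 2 ≤ n} {S : PCl n} {P : ℝ → ℝ → ℝ} {r : ℝ → ℝ}
    {P' : ℕ → List (Fin n) × Fin n → ℝ → ℝ → ℝ} {Λ : Finset (Fin n) → Fin n → ℝ → ℝ → ℝ}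
    {PB : ℕ → List (Fin n) × Fin n → ℝ → ℝ → ℝ} (H : PkT hn S P r P' Λ PB)
    (hTop : TopS n) (hF : FZX (n - 1)) (h : ℝ) (Ψ : (ℕ → ℝ) → Prop)
    (hcls : ∀ (Sl : ℕ → ℝ) (κ : ℕ → Kg), Ψ Sl → KgT n κ Sl → VoidQG n h Sl κ Q) (o : Od n) :
    ∀ᵐ g : ℝ, RwH H hTop hF h o g → ThW hn P P' PB o g → Ψ (SlL hn P P' o g) → False := by
  have : Countable Kg := Kg.count
  have hall : ∀ᵐ g : ℝ, ∀ f : Fin n → Kg, (kgX n f (n - 1) = .thin ∧ ∀ l < n, kgX n f l ≠ .any) →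
      RwH H hTop hF h o g → (SlL hn P P' o g 0 = 1 ∧ Ψ (SlL hn P P' o g)) →
      (∀ l < n, KgAt hn P P' PB o l g (kgX n f l)) → False := by
    refine ae_all_iff.2 fun f => ?_
    by_cases hf : kgX n f (n - 1) = .thin ∧ ∀ l < n, kgX n f l ≠ .any
    swap
    · exact Eventually.of_forall fun g k => absurd k hf
    filter_upwards [void_of_gqs (κ := kgX n f) hQ H hTop hF h (fun Sl => Sl 0 = 1 ∧ Ψ Sl)
      (fun Sl k0 k1 k2 => by
        have e1 : ∀ l < n, Sl l = 1 → kgX n f l = .one := fun l hl h3 => by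
          obtain ⟨-, m2, m3, m4⟩ := k1 l hl
          have h4 := hf.2 l hl
          rcases h5 : kgX n f l with _ | _ | _ | _ | _
          · rfl
          · exact absurd (m2 h5) (by rw [h3]; exact lt_irrefl _)
          · exact absurd (m3 h5) (by rw [h3]; norm_num)
          · exact absurd (m4 h5) (by rw [h3]; norm_num)
          · exact absurd h5 h4
        exact hcls Sl _ k0.2 ⟨e1 0 (by omega) k0.1, hf.1, hf.2,
          fun l hl => ⟨(k1 l hl).1, e1 l hl⟩, (k1 (n - 1) (by omega)).2.1 hf.1, k2,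
          fun l hl => (k1 l hl).2.2.1, fun l hl => (k1 l hl).2.2.2⟩) o] with g k _ R k3 k4
    exact k R k3 k4
  filter_upwards [hall, kg_all H hTop hF, one_zero H hTop hF o] with g k1 k2 k3 R hT hs
  have k4 : ∀ l : Fin n, ∃ k : Kg, k ≠ .any ∧ ((l : ℕ) = n - 1 → k = .thin) ∧
      KgAt hn P P' PB o l g k := fun l => by
    by_cases hl : (l : ℕ) = n - 1
    · refine ⟨.thin, by simp, fun _ => rfl, ?_⟩
      rw [hl]
      have h5 : LvL hn P P' o (n - 1) = P := lvL_last o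
      obtain ⟨h6, h7⟩ := hT
      rw [slN_tar] at h6
      refine ⟨?_, ?_⟩
      · rw [h5]
        exact h6
      · rw [h5, LvT_top]
        exact h7
    · obtain ⟨k, hk, hk'⟩ := k2 o R.rwd.mem l l.2
      exact ⟨k, hk, fun h => absurd h hl, hk'⟩
  choose f hf1 hf2 hf3 using k4
  have e : ∀ (l : ℕ) (hl : l < n), kgX n f l = f ⟨l, hl⟩ := fun l hl => by
    unfold kgX
    rw [dif_pos hl]
  refine k1 f ⟨?_, fun l hl => ?_⟩ R ⟨k3 R.rwd.mem, hs⟩ fun l hl => ?_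
  · rw [e (n - 1) (by omega)]
    exact hf2 _ rfl
  · rw [e l hl]
    exact hf1 _
  · rw [e l hl]
    exact hf3 ⟨l, hl⟩

/-- **No boxes at the thin windows with a condition on the slopes**, from the class theorem. -/
theorem noB_sl {n : ℕ} {ι : Type} [Countable ι] {Q : PropG n ι} (hQ : AePG n Q)
    (Ψ : (ℕ → ℝ) → Prop) (hcls : ∀ h : ℝ, 0 < h → h ≤ 1 → ∀ (Sl : ℕ → ℝ) (κ : ℕ → Kg), Ψ Sl →
      KgT n κ Sl → VoidQG n h Sl κ Q) :
    AllP n fun {hn} {_} {P} {_} {P'} {_} {PB} {_} H hTop hF h hρ =>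
      NoB H hTop hF hρ h fun o g => ThW hn P P' PB o g ∧ Ψ (SlL hn P P' o g) := by
  intro hi hn hZ hF hTop S P r P' Λ PB H h hh hh1 ρ hρ hrow
  refine noB_false fun o => ?_
  filter_upwards [void_sl hQ H hTop hF (h / 2) Ψ (hcls _ (by linarith) (by linarith)) o,
    rwH_rho H hTop hF hρ (h' := h / 2) (by linarith) hrow o] with g k1 k2 R hx
  exact k1 (k2 R) hx.1 hx.2

section

variable {n : ℕ} {hn : 2 ≤ n} {S : PCl n} {P : ℝ → ℝ → ℝ} {r : ℝ → ℝ}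
  {P' : ℕ → List (Fin n) × Fin n → ℝ → ℝ → ℝ} {Λ : Finset (Fin n) → Fin n → ℝ → ℝ → ℝ}
  {PB : ℕ → List (Fin n) × Fin n → ℝ → ℝ → ℝ}

theorem slo_SlL (H : PkT hn S P r P' Λ PB) (hTop : TopS n) (hF : FZX (n - 1)) (o : Od n) (g : ℝ)
    {l : ℕ} (hl : l < n - 1) : slo H hTop hF o g ⟨l, hl⟩ = SlL hn P P' o g l := by
  rw [slo_slN, slN_lvl o (by omega)]
  rfl

theorem tar_SlL (o : Od n) (g : ℝ) :
    deriv (fun a => P a a) g = SlL hn P P' o g (n - 1) := by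
  show _ = deriv (fun a => LvL hn P P' o (n - 1) a a) g
  rw [lvL_last o]

theorem slN_SlL (o : Od n) (g : ℝ) {l : ℕ} (hl : l ≤ n - 1) :
    slN hn P P' o l g = SlL hn P P' o g l := by
  rcases hl.eq_or_lt with rfl | hl
  · rw [slN_tar]
    exact tar_SlL o g
  · rw [slN_lvl o (by omega)]
    rfl

end

/-- **More than one contact coordinate**, besides one which is not. -/
def TwC (n : ℕ) (Sl : ℕ → ℝ) : Prop :=
  (∃ l, 1 ≤ l ∧ l < n - 1 ∧ Sl l ≤ 1) ∧ ∃ l < n - 1, 1 < Sl l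

/-- **`LTvB` from its class theorem**, with a property. -/
theorem lTvB_of_gq {n : ℕ} {ι : Type} [Countable ι] {Q : PropG n ι} (hQ : AePG n Q)
    (hcls : ∀ h : ℝ, 0 < h → h ≤ 1 → ∀ (Sl : ℕ → ℝ) (κ : ℕ → Kg), TwC n Sl →
      (∀ l < n - 1, Sl l ≠ Sl (n - 1)) →
      ¬ FasC n (fun i : Fin (n - 1) => Sl i) (Sl (n - 1)) → KgT n κ Sl → VoidQG n h Sl κ Q) :
    LTvB n := by
  intro hi hn hZ hF hTop S P r P' Λ PB H h hh hh1 ρ hρ hrow
  refine (noB_sl hQ (fun Sl => TwC n Sl ∧ (∀ l < n - 1, Sl l ≠ Sl (n - 1)) ∧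
    ¬ FasC n (fun i : Fin (n - 1) => Sl i) (Sl (n - 1)))
    (fun h h0 h1 Sl κ k0 k1 => hcls h h0 h1 Sl κ k0.1 k0.2.1 k0.2.2 k1) hi hn hZ hF hTop S P r P' Λ
    PB H h hh hh1 ρ hρ hrow).mono fun o => Eventually.of_forall fun g _ hx => ?_
  obtain ⟨⟨hT, hN, hO, i, hi1⟩, hf⟩ := hx
  refine ⟨hT, ⟨?_, i, i.2, ?_⟩, fun l hl => ?_, fun h3 => hf fun i => ?_⟩
  · by_contra hcon
    push Not at hcon
    refine hO fun j hj => ?_
    rw [slo_SlL H hTop hF o g j.2]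
    exact hcon j hj j.2
  · rw [← slo_SlL H hTop hF o g i.2]
    exact hi1
  · rw [← slN_SlL o g (by omega), ← slN_SlL o g le_rfl]
    exact hN l hl
  · rw [tar_SlL (hn := hn) (P' := P') o g, slo_SlL H hTop hF o g i.2]
    exact h3 i

/-- **`LTvC` from its class theorem**, with a property. -/
theorem lTvC_of_gq {n : ℕ} {ι : Type} [Countable ι] {Q : PropG n ι} (hQ : AePG n Q)
    (hcls : ∀ h : ℝ, 0 < h → h ≤ 1 → ∀ (Sl : ℕ → ℝ) (κ : ℕ → Kg), TwC n Sl →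
      (∀ l < n - 1, Sl l ≠ Sl (n - 1)) →
      ¬ FasG n (fun i : Fin (n - 1) => Sl i) (Sl (n - 1)) → KgT n κ Sl → VoidQG n h Sl κ Q) :
    LTvC n := by
  intro hi hn hZ hF hTop S P r P' Λ PB H h hh hh1 ρ hρ hrow
  refine (noB_sl hQ (fun Sl => TwC n Sl ∧ (∀ l < n - 1, Sl l ≠ Sl (n - 1)) ∧
    ¬ FasG n (fun i : Fin (n - 1) => Sl i) (Sl (n - 1)))
    (fun h h0 h1 Sl κ k0 k1 => hcls h h0 h1 Sl κ k0.1 k0.2.1 k0.2.2 k1) hi hn hZ hF hTop S P r P' Λ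
    PB H h hh hh1 ρ hρ hrow).mono fun o => Eventually.of_forall fun g _ hx => ?_
  obtain ⟨⟨hT, hN, hO, i, hi1⟩, hf⟩ := hx
  refine ⟨hT, ⟨?_, i, i.2, ?_⟩, fun l hl => ?_, fun h3 => hf fun i => ?_⟩
  · by_contra hcon
    push Not at hcon
    refine hO fun j hj => ?_
    rw [slo_SlL H hTop hF o g j.2]
    exact hcon j hj j.2
  · rw [← slo_SlL H hTop hF o g i.2]
    exact hi1
  · rw [← slN_SlL o g (by omega), ← slN_SlL o g le_rfl]
    exact hN l hl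
  · rw [tar_SlL (hn := hn) (P' := P') o g, slo_SlL H hTop hF o g i.2]
    exact h3 i

/-- **`LTp2B` from its class theorem**, with a property: a tie. -/
theorem lTp2B_of_gq {n : ℕ} {ι : Type} [Countable ι] {Q : PropG n ι} (hQ : AePG n Q)
    (hcls : ∀ h : ℝ, 0 < h → h ≤ 1 → ∀ (Sl : ℕ → ℝ) (κ : ℕ → Kg), TwC n Sl →
      (∃ l < n - 1, Sl l = Sl (n - 1)) →
      ¬ FasC n (fun i : Fin (n - 1) => Sl i) (Sl (n - 1)) → KgT n κ Sl → VoidQG n h Sl κ Q) :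
    LTp2B n := by
  intro hi hn hZ hF hTop S P r P' Λ PB H h hh hh1 ρ hρ hrow
  refine (noB_sl hQ (fun Sl => TwC n Sl ∧ (∃ l < n - 1, Sl l = Sl (n - 1)) ∧
    ¬ FasC n (fun i : Fin (n - 1) => Sl i) (Sl (n - 1)))
    (fun h h0 h1 Sl κ k0 k1 => hcls h h0 h1 Sl κ k0.1 k0.2.1 k0.2.2 k1) hi hn hZ hF hTop S P r P' Λ
    PB H h hh hh1 ρ hρ hrow).mono fun o => Eventually.of_forall fun g _ hx => ?_
  obtain ⟨⟨hT, ⟨l, hl, hti⟩, hO⟩, hf⟩ := hx
  have h1 : 1 < SlL hn P P' o g (n - 1) := by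
    rw [← slN_SlL o g le_rfl]
    exact hT.1
  have h2 : SlL hn P P' o g l = SlL hn P P' o g (n - 1) := by
    rw [← slN_SlL o g (by omega), ← slN_SlL o g le_rfl]
    exact hti
  refine ⟨hT, ⟨?_, l, hl, by rw [h2]; exact h1⟩, ⟨l, hl, h2⟩, fun h3 => hf fun i => ?_⟩
  · by_contra hcon
    push Not at hcon
    refine hO fun j hj => ?_
    rw [slo_SlL H hTop hF o g j.2]
    exact hcon j hj j.2
  · rw [tar_SlL (hn := hn) (P' := P') o g, slo_SlL H hTop hF o g i.2]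
    exact h3 i

/-- **`LTp2C` from its class theorem**, with a property: a tie. -/
theorem lTp2C_of_gq {n : ℕ} {ι : Type} [Countable ι] {Q : PropG n ι} (hQ : AePG n Q)
    (hcls : ∀ h : ℝ, 0 < h → h ≤ 1 → ∀ (Sl : ℕ → ℝ) (κ : ℕ → Kg), TwC n Sl →
      (∃ l < n - 1, Sl l = Sl (n - 1)) →
      ¬ FasG n (fun i : Fin (n - 1) => Sl i) (Sl (n - 1)) → KgT n κ Sl → VoidQG n h Sl κ Q) :
    LTp2C n := by
  intro hi hn hZ hF hTop S P r P' Λ PB H h hh hh1 ρ hρ hrow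
  refine (noB_sl hQ (fun Sl => TwC n Sl ∧ (∃ l < n - 1, Sl l = Sl (n - 1)) ∧
    ¬ FasG n (fun i : Fin (n - 1) => Sl i) (Sl (n - 1)))
    (fun h h0 h1 Sl κ k0 k1 => hcls h h0 h1 Sl κ k0.1 k0.2.1 k0.2.2 k1) hi hn hZ hF hTop S P r P' Λ
    PB H h hh hh1 ρ hρ hrow).mono fun o => Eventually.of_forall fun g _ hx => ?_
  obtain ⟨⟨hT, ⟨l, hl, hti⟩, hO⟩, hf⟩ := hx
  have h1 : 1 < SlL hn P P' o g (n - 1) := by
    rw [← slN_SlL o g le_rfl]
    exact hT.1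
  have h2 : SlL hn P P' o g l = SlL hn P P' o g (n - 1) := by
    rw [← slN_SlL o g (by omega), ← slN_SlL o g le_rfl]
    exact hti
  refine ⟨hT, ⟨?_, l, hl, by rw [h2]; exact h1⟩, ⟨l, hl, h2⟩, fun h3 => hf fun i => ?_⟩
  · by_contra hcon
    push Not at hcon
    refine hO fun j hj => ?_
    rw [slo_SlL H hTop hF o g j.2]
    exact hcon j hj j.2
  · rw [tar_SlL (hn := hn) (P' := P') o g, slo_SlL H hTop hF o g i.2]
    exact h3 i

end Pool.ASM
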