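import Pool.Agent.H3.D2G.RecW

/-!
# The joints of the thin windows with conditions on the slopes and on the static places

`void_ks`, `noB_ks`: as `void_sl`, `noB_sl`, for a condition on the kinds and on the slopes; the
static places of slope more than one have the kind `sta`.
-/

set_option autoImplicit false

namespace Pool.ASM

open MeasureTheory Set Filter Topology
open Pool.Agent.H49.Ent Pool.Agent.H32.Dense Pool.STK Pool.KA Pool.KSAT Pool.K2S Pool.PB
open Pool.GEN Pool.PKG Pool.SW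
open Pool.ONE (Ext0 Ext)
open Pool.TOP (TopS)
open Pool.MIC6
open Pool.STR (StaAt SteepAt ThinAt)

/-- The kinds of a window: the static places of slope more than one have the kind `sta`. -/
def KgS {n : ℕ} (hn : 2 ≤ n) (P : ℝ → ℝ → ℝ) (P' : ℕ → List (Fin n) × Fin n → ℝ → ℝ → ℝ)
    (o : Od n) (g : ℝ) (κ : ℕ → Kg) : Prop :=
  ∀ l < n - 1, StaAt (LvL hn P P' o l) g → 1 < SlL hn P P' o g l → κ l = .sta

/-- **The thin windows with a condition on the kinds and the slopes** are void, from the class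
theorem, with a property. -/
theorem void_ks {n : ℕ} {ι : Type} [Countable ι] {Q : PropG n ι} (hQ : AePG n Q)
    {hn : 2 ≤ n} {S : PCl n} {P : ℝ → ℝ → ℝ} {r : ℝ → ℝ}
    {P' : ℕ → List (Fin n) × Fin n → ℝ → ℝ → ℝ} {Λ : Finset (Fin n) → Fin n → ℝ → ℝ → ℝ}
    {PB : ℕ → List (Fin n) × Fin n → ℝ → ℝ → ℝ} (H : PkT hn S P r P' Λ PB)
    (hTop : TopS n) (hF : FZX (n - 1)) (h : ℝ) (Φ : (ℕ → Kg) → (ℕ → ℝ) → Prop)
    (hcls : ∀ (Sl : ℕ → ℝ) (κ : ℕ → Kg), Φ κ Sl → KgT n κ Sl → VoidQG n h Sl κ Q) (o : Od n) :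
    ∀ᵐ g : ℝ, RwH H hTop hF h o g → ThW hn P P' PB o g →
      (∀ κ : ℕ → Kg, KgT n κ (SlL hn P P' o g) → KgS hn P P' o g κ → Φ κ (SlL hn P P' o g)) →
      False := by
  have : Countable Kg := Kg.count
  have hall : ∀ᵐ g : ℝ, ∀ f : Fin n → Kg, RwH H hTop hF h o g →
      (KgT n (kgX n f) (SlL hn P P' o g) ∧ Φ (kgX n f) (SlL hn P P' o g)) →
      (∀ l < n, KgAt hn P P' PB o l g (kgX n f l)) → False := by
    refine ae_all_iff.2 fun f => ?_
    exact void_of_gqs (κ := kgX n f) hQ H hTop hF h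
      (fun Sl => KgT n (kgX n f) Sl ∧ Φ (kgX n f) Sl)
      (fun Sl k0 _ _ => hcls Sl _ k0.2 k0.1) o
  filter_upwards [hall, kg_all H hTop hF, kg_sta H hTop hF, sl_one H hTop hF,
    one_zero H hTop hF o] with g k1 k2 k3 k3' k3'' R hT hs
  have ho := R.rwd.mem
  have k4 : ∀ l : Fin n, ∃ k : Kg, k ≠ .any ∧ ((l : ℕ) = n - 1 → k = .thin) ∧
      ((l : ℕ) < n - 1 → StaAt (LvL hn P P' o l) g → 1 < SlL hn P P' o g l → k = .sta) ∧
      KgAt hn P P' PB o l g k := fun l => by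
    by_cases hl : (l : ℕ) = n - 1
    · refine ⟨.thin, by simp, fun _ => rfl, fun h => absurd hl h.ne, ?_⟩
      rw [hl]
      have h5 : LvL hn P P' o (n - 1) = P := lvL_last o
      obtain ⟨h6, h7⟩ := hT
      rw [slN_tar] at h6
      refine ⟨?_, ?_⟩
      · rw [h5]
        exact h6
      · rw [h5, LvT_top]
        exact h7
    · by_cases hst : StaAt (LvL hn P P' o l) g ∧ 1 < SlL hn P P' o g l
      · exact ⟨.sta, by simp, fun h => absurd h hl, fun _ _ _ => rfl,
          k3 o ho l l.2 hst.1 hst.2⟩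
      · obtain ⟨k, hk, hk'⟩ := k2 o ho l l.2
        exact ⟨k, hk, fun h => absurd h hl, fun _ h1 h2 => absurd ⟨h1, h2⟩ hst, hk'⟩
  choose f hf1 hf2 hf3 hf4 using k4
  have e : ∀ (l : ℕ) (hl : l < n), kgX n f l = f ⟨l, hl⟩ := fun l hl => by
    unfold kgX
    rw [dif_pos hl]
  have hkg : ∀ l < n, KgAt hn P P' PB o l g (kgX n f l) := fun l hl => by
    rw [e l hl]
    exact hf4 ⟨l, hl⟩
  have hany : ∀ l < n, kgX n f l ≠ .any := fun l hl => by
    rw [e l hl]
    exact hf1 _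
  have hone : ∀ l < n, SlL hn P P' o g l = 1 → kgX n f l = .one := fun l hl h3 => by
    obtain ⟨-, m2, m3, m4⟩ := (hkg l hl).sl
    have h4 := hany l hl
    rcases h5 : kgX n f l with _ | _ | _ | _ | _
    · rfl
    · exact absurd (m2 h5) (by rw [h3]; exact lt_irrefl _)
    · exact absurd (m3 h5) (by rw [h3]; norm_num)
    · exact absurd (m4 h5) (by rw [h3]; norm_num)
    · exact absurd h5 h4
  have hK : KgT n (kgX n f) (SlL hn P P' o g) :=
    { zero := hone 0 (by omega) (k3'' ho)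
      tar := by
        rw [e (n - 1) (by omega)]
        exact hf2 _ rfl
      any := hany
      one := fun l hl => ⟨(hkg l hl).sl.1, hone l hl⟩
      tar1 := by
        rw [← slN_SlL (hn := hn) (P := P) (P' := P') o g le_rfl]
        exact hT.1
      ge := k3' o ho
      sta := fun l hl => (hkg l hl).sl.2.2.1
      stp := fun l hl => (hkg l hl).sl.2.2.2 }
  refine k1 f R ⟨hK, hs _ hK fun l hl h1 h2 => ?_⟩ hkg
  rw [e l (by omega)]
  exact hf3 ⟨l, by omega⟩ hl h1 h2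

/-- **No boxes at the thin windows with a condition on the kinds and the slopes**, from the class
theorem. -/
theorem noB_ks {n : ℕ} {ι : Type} [Countable ι] {Q : PropG n ι} (hQ : AePG n Q)
    (Φ : (ℕ → Kg) → (ℕ → ℝ) → Prop) (hcls : ∀ h : ℝ, 0 < h → h ≤ 1 → ∀ (Sl : ℕ → ℝ) (κ : ℕ → Kg),
      Φ κ Sl → KgT n κ Sl → VoidQG n h Sl κ Q) :
    AllP n fun {hn} {_} {P} {_} {P'} {_} {PB} {_} H hTop hF h hρ =>
      NoB H hTop hF hρ h fun o g => ThW hn P P' PB o g ∧
        ∀ κ : ℕ → Kg, KgT n κ (SlL hn P P' o g) → KgS hn P P' o g κ →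
          Φ κ (SlL hn P P' o g) := by
  intro hi hn hZ hF hTop S P r P' Λ PB H h hh hh1 ρ hρ hrow
  refine noB_false fun o => ?_
  filter_upwards [void_ks hQ H hTop hF (h / 2) Φ (hcls _ (by linarith) (by linarith)) o,
    rwH_rho H hTop hF hρ (h' := h / 2) (by linarith) hrow o] with g k1 k2 R hx
  exact k1 (k2 R) hx.1 hx.2

end Pool.ASM
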