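import Pool.Agent.H90.ISO.StC
import Pool.Agent.H9.GEN.PBk

/-!
# Finitely many windows near almost every good window

`PkT.win_ae`: at almost every good window `g` the record `WinG`: for finitely many pairs of offsets
`(A k, V k)` in units of a small `q`, in each interval of length `th q` near `g` there is a window
`t` with the path data `PtD` at all pairs `(t + A k q, t + V k q)` and `(t + V k q, t + V k q)`, with
constants which do not depend on `q`. `Nbx`: the local numbers up to `eta q`.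
-/

set_option autoImplicit false

namespace Pool.PKG

open MeasureTheory Set Filter Topology
open Pool.Agent.H49.Ent Pool.Agent.H32.Dense Pool.STK Pool.KA Pool.KSAT Pool.K2S Pool.PB
open Pool.GEN Pool.S6C Pool.STAT Pool.CHT Pool.GRW Pool.ONE Pool.STA
open Pool.LBT (LSys ThrOf)
open Pool.LEV (Law)
open Pool.TOP (TopS)
open Pool.QNT (affB_of)
open Pool.STR (ThinAt SteepAt StaAt StaD)
open Pool.ISO (PtD lvN WinD ex_good)
open Pool.NMS (dia_le slope_eq)

/-- **The local numbers** in the box of radius `K q`. -/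
structure Nbx (L T : ℕ → ℝ → ℝ → ℝ) (Sl : ℕ → ℝ) (N : ℕ) (g η K q : ℝ) : Prop where
  dL : ∀ l ≤ N, ∀ x : ℝ, |x - g| ≤ K * q → |L l x x - L l g g - Sl l * (x - g)| ≤ η * q
  dT : ∀ l ≤ N, ∀ x : ℝ, |x - g| ≤ K * q → |T l x x - L l g g - Sl l * (x - g)| ≤ η * q
  thin : ∀ l ≤ N, ThinAt (L l) (T l) g → ∀ a w : ℝ, g - K * q ≤ w → w ≤ a → a ≤ g + K * q →
    L l a w ≤ T l w w + (a - w) + η * q
  sta : ∀ l ≤ N, StaAt (L l) g → ∀ a w : ℝ, g - K * q ≤ w → w ≤ a → a ≤ g + K * q →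
    L l a a ≤ L l a w + η * q
  stp : ∀ l ≤ N, SteepAt 2 (T l) g → ∀ a w : ℝ, g - K * q ≤ w → w ≤ a → a ≤ g + K * q →
    T l w w + 2 * (a - w) ≤ T l a w + η * q

/-- A statement at all small scales, at the scale `K q / 8`. -/
theorem sc_ev {φ : ℝ → Prop} {K : ℝ} (hK : 0 < K)
    (h : ∃ r₀ : ℝ, 0 < r₀ ∧ ∀ r : ℝ, 0 < r → r < r₀ → φ r) :
    ∀ᶠ q in 𝓝[>] (0 : ℝ), φ (K * q / 8) := by
  obtain ⟨r₀, hr₀, h⟩ := h
  refine ev_pos ⟨8 * r₀ / K, by positivity, fun q h1 h2 => h _ (by positivity) ?_⟩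
  rw [lt_div_iff₀ hK] at h2
  linarith

theorem nbx_ev {L T : ℕ → ℝ → ℝ → ℝ} {Sl : ℕ → ℝ} {N : ℕ} {g : ℝ}
    (h1 : ∀ l ≤ N, DifferentiableAt ℝ (fun a => L l a a) g ∧
      deriv (fun a => L l a a) g = Sl l)
    (h2 : ∀ l ≤ N, DifferentiableAt ℝ (fun a => T l a a) g ∧
      deriv (fun a => T l a a) g = Sl l ∧ T l g g = L l g g)
    {η K : ℝ} (hη : 0 < η) (hK : 0 < K) :
    ∀ᶠ q in 𝓝[>] (0 : ℝ), Nbx L T Sl N g η K q := by
  classical
  have hK8 : 0 < 8 * η / K := by positivity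
  have e8 : ∀ q : ℝ, 8 * η / K * (K * q / 8) = η * q := fun q => by field_simp
  have e9 : ∀ q : ℝ, 8 * (K * q / 8) = K * q := fun q => by ring
  have a1 : ∀ᶠ q in 𝓝[>] (0 : ℝ), ∀ l ∈ Finset.range (N + 1), ∀ x : ℝ, |x - g| ≤ K * q →
      |L l x x - L l g g - Sl l * (x - g)| ≤ η * q := by
    rw [Finset.eventually_all]
    intro l hl
    obtain ⟨k1, k2⟩ := h1 l (by rw [Finset.mem_range] at hl; omega)
    obtain ⟨r₀, hr₀, h⟩ := affB_of k1 (M := K) (e := η) hK hη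
    rw [k2] at h
    exact ev_pos ⟨r₀, hr₀, fun r hr hr' x hx => h r hr hr' x hx⟩
  have a2 : ∀ᶠ q in 𝓝[>] (0 : ℝ), ∀ l ∈ Finset.range (N + 1), ∀ x : ℝ, |x - g| ≤ K * q →
      |T l x x - L l g g - Sl l * (x - g)| ≤ η * q := by
    rw [Finset.eventually_all]
    intro l hl
    obtain ⟨k1, k2, k3⟩ := h2 l (by rw [Finset.mem_range] at hl; omega)
    obtain ⟨r₀, hr₀, h⟩ := affB_of k1 (M := K) (e := η) hK hη
    rw [k2, k3] at h
    exact ev_pos ⟨r₀, hr₀, fun r hr hr' x hx => h r hr hr' x hx⟩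
  have a3 : ∀ᶠ q in 𝓝[>] (0 : ℝ), ∀ l ∈ Finset.range (N + 1), ThinAt (L l) (T l) g →
      ∀ a w : ℝ, g - K * q ≤ w → w ≤ a → a ≤ g + K * q →
        L l a w ≤ T l w w + (a - w) + η * q := by
    rw [Finset.eventually_all]
    intro l _
    by_cases hc : ThinAt (L l) (T l) g
    · filter_upwards [sc_ev hK (hc _ hK8)] with q h3 _ a w b1 b2 b3
      have h4 := h3 a w (by rw [e9]; exact b1) b2 (by rw [e9]; exact b3)
      rwa [e8] at h4
    · exact Eventually.of_forall fun q h => absurd h hc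
  have a4 : ∀ᶠ q in 𝓝[>] (0 : ℝ), ∀ l ∈ Finset.range (N + 1), StaAt (L l) g →
      ∀ a w : ℝ, g - K * q ≤ w → w ≤ a → a ≤ g + K * q → L l a a ≤ L l a w + η * q := by
    rw [Finset.eventually_all]
    intro l _
    by_cases hc : StaAt (L l) g
    · filter_upwards [sc_ev hK (hc _ hK8)] with q h3 _ a w b1 b2 b3
      have h4 := h3 a w (by rw [e9]; exact b1) b2 (by rw [e9]; exact b3)
      rwa [e8] at h4
    · exact Eventually.of_forall fun q h => absurd h hc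
  have a5 : ∀ᶠ q in 𝓝[>] (0 : ℝ), ∀ l ∈ Finset.range (N + 1), SteepAt 2 (T l) g →
      ∀ a w : ℝ, g - K * q ≤ w → w ≤ a → a ≤ g + K * q →
        T l w w + 2 * (a - w) ≤ T l a w + η * q := by
    rw [Finset.eventually_all]
    intro l _
    by_cases hc : SteepAt 2 (T l) g
    · filter_upwards [sc_ev hK (hc _ hK8)] with q h3 _ a w b1 b2 b3
      have h4 := h3 a w (by rw [e9]; exact b1) b2 (by rw [e9]; exact b3)
      rwa [e8] at h4
    · exact Eventually.of_forall fun q h => absurd h hc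
  have hr : ∀ l ≤ N, l ∈ Finset.range (N + 1) := fun l hl => Finset.mem_range.2 (by omega)
  filter_upwards [a1, a2, a3, a4, a5] with q b1 b2 b3 b4 b5
  exact ⟨fun l hl => b1 l (hr l hl), fun l hl => b2 l (hr l hl), fun l hl => b3 l (hr l hl),
    fun l hl => b4 l (hr l hl), fun l hl => b5 l (hr l hl)⟩

theorem Nbx.mono {L T : ℕ → ℝ → ℝ → ℝ} {Sl : ℕ → ℝ} {N : ℕ} {g η K K' q : ℝ}
    (h : Nbx L T Sl N g η K q) (hK : K' ≤ K) (hq : 0 ≤ q) : Nbx L T Sl N g η K' q := by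
  have h1 : K' * q ≤ K * q := mul_le_mul_of_nonneg_right hK hq
  exact ⟨fun l hl x hx => h.dL l hl x (hx.trans h1), fun l hl x hx => h.dT l hl x (hx.trans h1),
    fun l hl ht a w b1 b2 b3 => h.thin l hl ht a w (by linarith) b2 (by linarith),
    fun l hl ht a w b1 b2 b3 => h.sta l hl ht a w (by linarith) b2 (by linarith),
    fun l hl ht a w b1 b2 b3 => h.stp l hl ht a w (by linarith) b2 (by linarith)⟩

variable {n : ℕ} {hn : 2 ≤ n} {S : PCl n} {P : ℝ → ℝ → ℝ} {r : ℝ → ℝ}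
  {P' : ℕ → List (Fin n) × Fin n → ℝ → ℝ → ℝ} {Λ : Finset (Fin n) → Fin n → ℝ → ℝ → ℝ}
  {PB : ℕ → List (Fin n) × Fin n → ℝ → ℝ → ℝ}

/-- The slopes of the diagonals. -/
noncomputable def SlL (hn : 2 ≤ n) (P : ℝ → ℝ → ℝ) (P' : ℕ → List (Fin n) × Fin n → ℝ → ℝ → ℝ)
    (o : Od n) (g : ℝ) (l : ℕ) : ℝ := deriv (fun a => LvL hn P P' o l a a) g

/-- The path data of a pair, with constants `vs`, `e` (list), `E` (target). -/
def PtC (hn : 2 ≤ n) (S : PCl n) (P : ℝ → ℝ → ℝ) (P' : ℕ → List (Fin n) × Fin n → ℝ → ℝ → ℝ)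
    (o : Od n) (vs e E cE : ℝ) (S₀ : ℕ) (a w : ℝ) : Prop :=
  ∃ (ρ : ℝ) (Q' : Set ℝ), PtD S (P' o.2) (tht o.2) (cc hn o.1.1) (n - 1) P a w ρ S₀
    (fun _ => vs) (fun _ => e) (fun _ => e) (fun _ => E) (fun _ => 1 - cE) Q'

/-- **The record of a good window** `g`: the windows near `g`, in units of a small `q`. The
offsets `(A k, V k)` are chosen before the constant `S₀`, and the error `η` after it. -/
def WinG (hn : 2 ≤ n) (S : PCl n) (P : ℝ → ℝ → ℝ) (P' : ℕ → List (Fin n) × Fin n → ℝ → ℝ → ℝ)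
    (PB : ℕ → List (Fin n) × Fin n → ℝ → ℝ → ℝ) (G : ℝ → Prop) (o : Od n) (g : ℝ) : Prop :=
  ∃ E cE : ℝ, 0 < E ∧ (∀ l ≤ n - 1, LvL hn P P' o l g g + E < 1) ∧
    ∀ e' : ℝ, 0 < e' → ∃ vs e : ℝ, 0 < e ∧ e ≤ e' ∧
      ∀ (K : ℝ) (N : ℕ) (A V : ℕ → ℝ), 1 ≤ K → (∀ k < N, -K ≤ V k ∧ V k ≤ A k ∧ A k ≤ K) →
        ∀ th : ℝ, 0 < th → ∃ S₀ : ℕ, 1 ≤ S₀ ∧ ∀ η : ℝ, 0 < η → ∃ q₁ : ℝ, 0 < q₁ ∧
          ∀ q u : ℝ, 0 < q → q < q₁ → |u - g| ≤ K * q →
            3 * K * q ≤ g / 2 ∧ 3 * K * q ≤ 1 - g ∧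
            Nbx (LvL hn P P' o) (LvT hn PB o) (SlL hn P P' o g) (n - 1) g η (3 * K) q ∧
            (∀ l ≤ n - 1, ∀ x : ℝ, |x - g| ≤ 3 * K * q →
              LvL hn P P' o l x x + E + 6 * K * q < 1) ∧
            ∃ t : ℝ, u ≤ t ∧ t ≤ u + th * q ∧
              (∀ k < N, PtC hn S P P' o vs e E cE S₀ (t + A k * q) (t + V k * q) ∧
                PtC hn S P P' o vs e E cE S₀ (t + V k * q) (t + V k * q)) ∧
              (∀ k < N, ∀ l ≤ n - 1,
                LvT hn PB o l (t + A k * q) (t + V k * q) ≤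
                  LvL hn P P' o l (t + A k * q) (t + V k * q) ∧
                LvT hn PB o l (t + V k * q) (t + V k * q) ≤
                  LvL hn P P' o l (t + V k * q) (t + V k * q)) ∧
              ∀ k < N, G (t + A k * q) ∧ G (t + V k * q)

namespace PkT

variable (H : PkT hn S P r P' Λ PB)
include H

/-- **The local numbers** at almost every good window. -/
theorem sl_ae (hTop : TopS n) (hF : FZX (n - 1)) :
    ∀ᵐ g : ℝ, ∀ o : Od n, g ∈ Gs P r P' Λ o → ∀ l ≤ n - 1, 1 ≤ SlL hn P P' o g l ∧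
      (DifferentiableAt ℝ (fun a => LvL hn P P' o l a a) g ∧
        deriv (fun a => LvL hn P P' o l a a) g = SlL hn P P' o g l) ∧
      (DifferentiableAt ℝ (fun a => LvT hn PB o l a a) g ∧
        deriv (fun a => LvT hn PB o l a a) g = SlL hn P P' o g l ∧
        LvT hn PB o l g g = LvL hn P P' o l g g) := by
  filter_upwards [H.toPk.unif_ae hTop hF, H.dia_all H.pble hTop hF] with g hun hdia o ho l hl
  obtain ⟨α, Q, c', F⟩ := H.toPk.fac hTop hF ho
  have hd := hdia o ho l hl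
  obtain ⟨E, cE, hE, hroom, -⟩ := hun o ho
  have hr := hroom l hl
  have hsl := slope_eq hd.2.1 hd.1 hd.2.2 (dia_le (H.lawT o l) (H.lawL o l) F.g0 F.g1
    (H.leAt H.pble hTop hF ho hl))
  refine ⟨one_le_slope (H.lawL o l) F.g0 F.g1 ?_ hd.1, ⟨hd.1, rfl⟩, hd.2.1, hsl.symm, hd.2.2.symm⟩
  show lvN (P' o.2) (cc hn o.1.1) (n - 1) P l g g < 1
  linarith

/-- **The windows near almost every good window.** -/
theorem win_ae (hTop : TopS n) (hF : FZX (n - 1)) {G : Od n → ℝ → Prop}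
    (hG : ∀ o, ∀ᵐ w : ℝ, G o w) :
    ∀ᵐ g : ℝ, ∀ o : Od n, g ∈ Gs P r P' Λ o → WinG hn S P P' PB (G o) o g := by
  classical
  filter_upwards [H.toPk.unif_ae hTop hF, H.sl_ae hTop hF] with g hun hsl o ho
  obtain ⟨α, Q, c', F⟩ := H.toPk.fac hTop hF ho
  have hg0 := F.g0
  have hg1 := F.g1
  have hsl := hsl o ho
  obtain ⟨E, cE, hE, hroom, hun⟩ := hun o ho
  refine ⟨E, cE, hE, hroom, fun e' he' => ?_⟩
  obtain ⟨vs, e, he, hee, hun⟩ := hun (min e' (tht o.2 * (g / 2)))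
    (lt_min he' (mul_pos (tht_pos _) (by linarith)))
  have hee' : e ≤ e' := hee.trans (min_le_left _ _)
  have heg : e ≤ tht o.2 * (g / 2) := hee.trans (min_le_right _ _)
  refine ⟨vs, e, he, hee', fun K N A V hK hAV th hth => ?_⟩
  have hK0 : 0 < K := by linarith
  obtain ⟨θ₂, hθ₂⟩ : ∃ θ₂ : ℝ, θ₂ = min th 1 := ⟨_, rfl⟩
  have hθ20 : 0 < θ₂ := by rw [hθ₂]; exact lt_min hth one_pos
  have hθ21 : θ₂ ≤ 1 := by rw [hθ₂]; exact min_le_right _ _
  have hθ22 : θ₂ ≤ th := by rw [hθ₂]; exact min_le_left _ _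
  obtain ⟨M, hM⟩ : ∃ M : ℕ, M = 2 * N + 1 := ⟨_, rfl⟩
  have hM0 : (0 : ℝ) < M := by
    rw [hM]
    positivity
  obtain ⟨τ, hτ⟩ : ∃ τ : ℝ, τ = θ₂ / (2 * M) / (2 * K) := ⟨_, rfl⟩
  have hτ0 : 0 < τ := by rw [hτ]; positivity
  have hMτ : ∀ q : ℝ, M * (τ * (2 * K * q)) = θ₂ / 2 * q := fun q => by
    rw [hτ]
    field_simp
  obtain ⟨S₀, s₁, hS₀, hs₁, hun⟩ := hun 2 τ (by norm_num) hτ0
  refine ⟨S₀, hS₀, fun η hη => ?_⟩
  -- the scales
  have hnb : ∀ᶠ q in 𝓝[>] (0 : ℝ),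
      Nbx (LvL hn P P' o) (LvT hn PB o) (SlL hn P P' o g) (n - 1) g η (3 * K) q :=
    nbx_ev (fun l hl => (hsl l hl).2.1) (fun l hl => (hsl l hl).2.2) hη (by positivity)
  have hnb1 : ∀ᶠ q in 𝓝[>] (0 : ℝ),
      Nbx (LvL hn P P' o) (LvT hn PB o) (SlL hn P P' o g) (n - 1) g 1 (3 * K) q :=
    nbx_ev (fun l hl => (hsl l hl).2.1) (fun l hl => (hsl l hl).2.2) one_pos (by positivity)
  have hrm : ∀ᶠ q in 𝓝[>] (0 : ℝ), ∀ l ∈ Finset.range n,
      E + LvL hn P P' o l g g + (3 * K * |SlL hn P P' o g l| + 1 + 6 * K) * q < 1 := by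
    rw [Finset.eventually_all]
    intro l hl
    rw [Finset.mem_range] at hl
    have h1 : LvL hn P P' o l g g + E < 1 := hroom l (by omega)
    have h2 : Tendsto (fun q : ℝ => E + LvL hn P P' o l g g +
        (3 * K * |SlL hn P P' o g l| + 1 + 6 * K) * q) (𝓝[>] 0)
        (𝓝 (E + LvL hn P P' o l g g + (3 * K * |SlL hn P P' o g l| + 1 + 6 * K) * 0)) :=
      (Continuous.tendsto (by fun_prop) _).mono_left nhdsWithin_le_nhds
    rw [mul_zero, add_zero] at h2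
    exact h2.eventually_lt_const (by linarith)
  have hqs : ∀ᶠ q in 𝓝[>] (0 : ℝ), 2 * K * q < s₁ ∧ 3 * K * q ≤ g / 2 ∧ 3 * K * q ≤ 1 - g := by
    filter_upwards [Ioo_mem_nhdsGT (show 0 < min s₁ (min (g / 2) (1 - g)) / (3 * K) from
      div_pos (lt_min hs₁ (lt_min (by linarith) (by linarith))) (by positivity))] with q hq
    have h1 := hq.2
    rw [lt_div_iff₀ (by positivity)] at h1
    have h2 := min_le_left s₁ (min (g / 2) (1 - g))
    have h3 := (min_le_right s₁ (min (g / 2) (1 - g))).trans (min_le_left _ _)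
    have h4 := (min_le_right s₁ (min (g / 2) (1 - g))).trans (min_le_right _ _)
    have h5 : 0 < K * q := mul_pos hK0 hq.1
    refine ⟨by linarith, by linarith, by linarith⟩
  obtain ⟨q₁, hq₁, hall⟩ := pos_ev ((hnb.and hnb1).and (hrm.and hqs))
  refine ⟨q₁, hq₁, fun q u hq hqm hu => ?_⟩
  obtain ⟨⟨hnb, hnb1⟩, hrm, hqs, hqg, hqg1⟩ := hall q hq hqm
  have hu' := abs_le.1 hu
  have hKq : 0 < K * q := mul_pos hK0 hq
  refine ⟨hqg, hqg1, hnb, fun l hl x hx => ?_, ?_⟩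
  · have h1 := hrm l (Finset.mem_range.2 (by omega))
    have h2 := (abs_le.1 (hnb1.dL l hl x hx)).2
    have h3 : SlL hn P P' o g l * (x - g) ≤ |SlL hn P P' o g l| * (3 * K * q) := by
      calc SlL hn P P' o g l * (x - g) ≤ |SlL hn P P' o g l * (x - g)| := le_abs_self _
        _ = |SlL hn P P' o g l| * |x - g| := abs_mul _ _
        _ ≤ |SlL hn P P' o g l| * (3 * K * q) := mul_le_mul_of_nonneg_left hx (abs_nonneg _)
    linarith
  -- the window
  obtain ⟨Z, hZ⟩ : ∃ Z : Set ℝ, Z = {x : ℝ | ¬ ∀ k < N, G o (x + K * q + A k * q) ∧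
      G o (x + K * q + V k * q)} := ⟨_, rfl⟩
  have hZ0 : volume Z = 0 := by
    have h1 : ∀ y : ℝ, ∀ᵐ x : ℝ, G o (x + y) := fun y =>
      (measurePreserving_add_right (volume : Measure ℝ) y).quasiMeasurePreserving.ae (hG o)
    have h2 : ∀ᵐ x : ℝ, ∀ k < N, G o (x + K * q + A k * q) ∧ G o (x + K * q + V k * q) := by
      rw [ae_all_iff]
      intro k
      filter_upwards [h1 (K * q + A k * q), h1 (K * q + V k * q)] with x k1 k2 _
      rw [add_assoc, add_assoc]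
      exact ⟨k1, k2⟩
    rw [hZ]
    exact ae_iff.1 h2
  obtain ⟨Bad, hBad⟩ : ∃ Bad : ℕ → Set ℝ, Bad = fun k => if k < N then
      {w : ℝ | |w - g| ≤ 2 * (2 * K * q) ∧ ¬ PtC hn S P P' o vs e E cE S₀
        (w + (A k + K) * q) (w + (V k + K) * q)}
      else if k < 2 * N then
      {w : ℝ | |w - g| ≤ 2 * (2 * K * q) ∧ ¬ PtC hn S P P' o vs e E cE S₀
        (w + (V (k - N) + K) * q) (w + (V (k - N) + K) * q)}
      else Z := ⟨_, rfl⟩
  have hBadm : ∀ k < M, volume (Bad k) ≤ ENNReal.ofReal (τ * (2 * K * q)) := by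
    intro k hk
    rw [hBad]
    simp only
    split_ifs with h1 h2
    · obtain ⟨k1, k2, k3⟩ := hAV k h1
      exact hun (2 * K * q) ((V k + K) * q) ((A k + K) * q) (by positivity) hqs
        (mul_nonneg (by linarith) hq.le) (mul_le_mul_of_nonneg_right (by linarith) hq.le)
        (mul_le_mul_of_nonneg_right (by linarith) hq.le)
    · obtain ⟨k1, k2, k3⟩ := hAV (k - N) (by omega)
      exact hun (2 * K * q) ((V (k - N) + K) * q) ((V (k - N) + K) * q) (by positivity) hqs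
        (mul_nonneg (by linarith) hq.le) le_rfl (mul_le_mul_of_nonneg_right (by linarith) hq.le)
    · rw [hZ0]
      exact bot_le
  obtain ⟨x, hx, hxB⟩ := ex_good (A := Icc (u - K * q) (u - K * q + θ₂ * q)) (n := M)
    (t := τ * (2 * K * q)) Bad (by
    rw [Real.volume_Icc, add_sub_cancel_left, hMτ]
    refine ENNReal.ofReal_lt_ofReal_iff_of_nonneg (by positivity) |>.2 ?_
    have : 0 < θ₂ * q := by positivity
    linarith) hBadm
  obtain ⟨t, ht⟩ : ∃ t : ℝ, t = x + K * q := ⟨_, rfl⟩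
  have hθq : θ₂ * q ≤ 1 * q := mul_le_mul_of_nonneg_right hθ21 hq.le
  have hqK : 1 * q ≤ K * q := mul_le_mul_of_nonneg_right hK hq.le
  have hxg : |x - g| ≤ 2 * (2 * K * q) := by
    rw [abs_le]
    constructor <;> linarith [hx.1, hx.2]
  have e1 : ∀ y : ℝ, x + (y + K) * q = t + y * q := fun y => by rw [ht]; ring
  have hpt : ∀ k < N, PtC hn S P P' o vs e E cE S₀ (t + A k * q) (t + V k * q) ∧
      PtC hn S P P' o vs e E cE S₀ (t + V k * q) (t + V k * q) := by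
    intro k hk
    constructor
    · have h1 := hxB k (by omega)
      rw [hBad] at h1
      simp only [if_pos hk, mem_ofPred_eq, not_and, not_not] at h1
      have h2 := h1 hxg
      rwa [e1, e1] at h2
    · have h1 := hxB (k + N) (by omega)
      rw [hBad] at h1
      simp only [if_neg (show ¬ k + N < N by omega), if_pos (show k + N < 2 * N by omega),
        mem_ofPred_eq, not_and, not_not, Nat.add_sub_cancel] at h1
      have h2 := h1 hxg
      rwa [e1] at h2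
  have hlow : ∀ k < N, g / 2 ≤ t + V k * q := by
    intro k hk
    obtain ⟨k1, k2, k3⟩ := hAV k hk
    have h1 : -K * q ≤ V k * q := mul_le_mul_of_nonneg_right k1 hq.le
    have h2 := hx.1
    rw [ht]
    linarith
  have hle : ∀ l ≤ n - 1, ∀ {a w : ℝ}, g / 2 ≤ w → PtC hn S P P' o vs e E cE S₀ a w →
      LvT hn PB o l a w ≤ LvL hn P P' o l a w := by
    intro l hl a w hw h1
    obtain ⟨ρ, Q', h1⟩ := h1
    exact H.ttle H.pble hl h1 (heg.trans (mul_le_mul_of_nonneg_left hw (tht_pos _).le))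
  have hθt : θ₂ * q ≤ th * q := mul_le_mul_of_nonneg_right hθ22 hq.le
  refine ⟨t, by rw [ht]; linarith [hx.1], by rw [ht]; linarith [hx.2], hpt, fun k hk l hl =>
    ⟨hle l hl (hlow k hk) (hpt k hk).1, hle l hl (hlow k hk) (hpt k hk).2⟩, ?_⟩
  have h1 := hxB (2 * N) (by omega)
  rw [hBad] at h1
  simp only [if_neg (show ¬ 2 * N < N by omega), lt_irrefl, if_false] at h1
  rw [hZ, mem_ofPred_eq, not_not] at h1
  rw [ht]
  exact h1

end PkT

end Pool.PKG
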