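import Pool.Agent.H3.D2G.Win2

/-!
# The windows near a good window, with a chain of balls

`WinC`: as `WinH`, with a second list `V'` of windows, chosen after the constant `S₁` of the pairs
`(A k, V k)`: at its windows there are the data of the diagonal pairs, with the constant `S₀`.
-/

set_option autoImplicit false

namespace Pool.PKG

open MeasureTheory Set Filter Topology
open Pool.Agent.H49.Ent Pool.Agent.H32.Dense Pool.STK Pool.KA Pool.KSAT Pool.K2S Pool.PB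
open Pool.GEN Pool.S6C Pool.STAT Pool.CHT Pool.GRW Pool.ONE Pool.STA
open Pool.LBT (LSys ThrOf)
open Pool.LEV (Law)
open Pool.TOP (TopS)
open Pool.QNT (affB_of)
open Pool.STR (ThinAt SteepAt StaAt StaD)
open Pool.ISO (PtD lvN WinD ex_good dens_compl)
open Pool.NMS (dia_le slope_eq)

/-- The measure of a finite union. -/
theorem vol_un {M : ℕ} {B : ℕ → Set ℝ} {t : ℝ} (hB : ∀ k < M, volume (B k) ≤ ENNReal.ofReal t) :
    volume (⋃ k ∈ Finset.range M, B k) ≤ ENNReal.ofReal (M * t) := by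
  refine (measure_biUnion_finset_le (μ := volume) (Finset.range M) B).trans ?_
  refine (Finset.sum_le_sum fun k hk => hB k (Finset.mem_range.1 hk)).trans (le_of_eq ?_)
  rw [Finset.sum_const, Finset.card_range, nsmul_eq_mul, ENNReal.ofReal_mul (Nat.cast_nonneg M),
    ENNReal.ofReal_natCast]

variable {n : ℕ}

/-- **The record of a good window** `g`: the windows near `g`, in units of a small `q`. The
offsets `(A k, V k)` are chosen after the constant `S₀` of the diagonal pairs and before the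
constant `S₁` of the other pairs, the offsets `V' k` of the chain and the error `η` after both. All
windows are in `Gs`, and the window `t` avoids any null set `Z`. -/
def WinC (hn : 2 ≤ n) (S : PCl n) (P : ℝ → ℝ → ℝ) (r : ℝ → ℝ)
    (P' : ℕ → List (Fin n) × Fin n → ℝ → ℝ → ℝ) (Λ : Finset (Fin n) → Fin n → ℝ → ℝ → ℝ)
    (PB : ℕ → List (Fin n) × Fin n → ℝ → ℝ → ℝ) (o : Od n) (g : ℝ) : Prop :=
  ∃ E cE : ℝ, 0 < E ∧ (∀ l ≤ n - 1, LvL hn P P' o l g g + E < 1) ∧
    ∀ e' : ℝ, 0 < e' → ∃ (vs e : ℝ) (S₀ : ℕ), 0 < e ∧ e ≤ e' ∧ 1 ≤ S₀ ∧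
      ∀ (K : ℝ) (N : ℕ) (A V : ℕ → ℝ), 1 ≤ K → (∀ k < N, -K ≤ V k ∧ V k ≤ A k ∧ A k ≤ K) →
        ∀ th : ℝ, 0 < th → ∃ S₁ : ℕ, 1 ≤ S₁ ∧ ∀ (N' : ℕ) (V' : ℕ → ℝ),
          (∀ k < N', -K ≤ V' k ∧ V' k ≤ K) → ∀ η : ℝ, 0 < η → ∃ q₁ : ℝ, 0 < q₁ ∧
          ∀ q u : ℝ, 0 < q → q < q₁ → |u - g| ≤ K * q →
            3 * K * q ≤ g / 2 ∧ 3 * K * q ≤ 1 - g ∧
            Nbx (LvL hn P P' o) (LvT hn PB o) (SlL hn P P' o g) (n - 1) g η (3 * K) q ∧
            (∀ l ≤ n - 1, ∀ x : ℝ, |x - g| ≤ 3 * K * q →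
              LvL hn P P' o l x x + E + 6 * K * q < 1) ∧
            ∀ Z : Set ℝ, volume Z = 0 → ∃ t : ℝ, t ∉ Z ∧ u ≤ t ∧ t ≤ u + th * q ∧
              (∀ k < N, PtC hn S P P' o vs e E cE S₁ (t + A k * q) (t + V k * q) ∧
                PtC hn S P P' o vs e E cE S₀ (t + V k * q) (t + V k * q)) ∧
              (∀ k < N, ∀ l ≤ n - 1,
                LvT hn PB o l (t + A k * q) (t + V k * q) ≤
                  LvL hn P P' o l (t + A k * q) (t + V k * q) ∧
                LvT hn PB o l (t + V k * q) (t + V k * q) ≤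
                  LvL hn P P' o l (t + V k * q) (t + V k * q)) ∧
              (∀ k < N, t + A k * q ∈ Gs P r P' Λ o ∧ t + V k * q ∈ Gs P r P' Λ o) ∧
              ∀ k < N', PtC hn S P P' o vs e E cE S₀ (t + V' k * q) (t + V' k * q) ∧
                (∀ l ≤ n - 1, LvT hn PB o l (t + V' k * q) (t + V' k * q) ≤
                  LvL hn P P' o l (t + V' k * q) (t + V' k * q)) ∧
                t + V' k * q ∈ Gs P r P' Λ o

variable {hn : 2 ≤ n} {S : PCl n} {P : ℝ → ℝ → ℝ} {r : ℝ → ℝ}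
  {P' : ℕ → List (Fin n) × Fin n → ℝ → ℝ → ℝ} {Λ : Finset (Fin n) → Fin n → ℝ → ℝ → ℝ}
  {PB : ℕ → List (Fin n) × Fin n → ℝ → ℝ → ℝ}

namespace PkT

variable (H : PkT hn S P r P' Λ PB)
include H

/-- **The windows near almost every good window, with a chain.** -/
theorem win3_ae (hTop : TopS n) (hF : FZX (n - 1)) :
    ∀ᵐ g : ℝ, ∀ o : Od n, g ∈ Gs P r P' Λ o → WinC hn S P r P' Λ PB o g := by
  classical
  have hde : ∀ᵐ g : ℝ, ∀ o : Od n, g ∈ Gs P r P' Λ o → ∀ c τ : ℝ, 0 ≤ c → 0 < τ →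
      ∃ s₁ : ℝ, 0 < s₁ ∧ ∀ s y : ℝ, 0 < s → s < s₁ → 0 ≤ y → y ≤ s →
        volume {w : ℝ | |w - g| ≤ c * s ∧ w + y ∉ Gs P r P' Λ o} ≤ ENNReal.ofReal (τ * s) :=
    ae_all_iff.2 fun o => dens_ev (H.toPk.gs_meas o)
  filter_upwards [H.toPk.unif2_ae hTop hF, H.sl_ae hTop hF, hde] with g hun hsl hde o ho
  obtain ⟨α, Q, c', F⟩ := H.toPk.fac hTop hF ho
  have hg0 := F.g0
  have hg1 := F.g1
  have hsl := hsl o ho
  have hde := hde o ho
  obtain ⟨E, cE, hE, hroom, hun⟩ := hun o ho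
  refine ⟨E, cE, hE, hroom, fun e' he' => ?_⟩
  obtain ⟨vs, e, he, hee, S₀, hS₀, hun⟩ := hun (min e' (tht o.2 * (g / 2)))
    (lt_min he' (mul_pos (tht_pos _) (by linarith)))
  have hee' : e ≤ e' := hee.trans (min_le_left _ _)
  have heg : e ≤ tht o.2 * (g / 2) := hee.trans (min_le_right _ _)
  refine ⟨vs, e, S₀, he, hee', hS₀, fun K N A V hK hAV th hth => ?_⟩
  have hK0 : 0 < K := by linarith
  obtain ⟨θ₂, hθ₂⟩ : ∃ θ₂ : ℝ, θ₂ = min th 1 := ⟨_, rfl⟩
  have hθ20 : 0 < θ₂ := by rw [hθ₂]; exact lt_min hth one_pos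
  have hθ21 : θ₂ ≤ 1 := by rw [hθ₂]; exact min_le_right _ _
  have hθ22 : θ₂ ≤ th := by rw [hθ₂]; exact min_le_left _ _
  obtain ⟨M, hM⟩ : ∃ M : ℕ, M = 4 * N + 1 := ⟨_, rfl⟩
  have hM0 : (0 : ℝ) < M := by
    rw [hM]
    positivity
  obtain ⟨τ, hτ⟩ : ∃ τ : ℝ, τ = θ₂ / (2 * M) / (2 * K) := ⟨_, rfl⟩
  have hτ0 : 0 < τ := by rw [hτ]; positivity
  have hMτ : ∀ q : ℝ, M * (τ * (2 * K * q)) = θ₂ / 2 * q := fun q => by
    rw [hτ]
    field_simp
  obtain ⟨S₁, s₁, hS₁, hs₁, hun0, hun1⟩ := hun 2 τ (by norm_num) hτ0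
  obtain ⟨s₂, hs₂, hde1⟩ := hde 2 τ (by norm_num) hτ0
  refine ⟨S₁, hS₁, fun N' V' hV' η hη => ?_⟩
  obtain ⟨τ', hτ'⟩ : ∃ τ' : ℝ, τ' = τ / (2 * N' + 1) := ⟨_, rfl⟩
  have hτ'0 : 0 < τ' := by rw [hτ']; positivity
  have hτ'1 : ((2 * N' : ℕ) : ℝ) * τ' ≤ τ := by
    rw [hτ', mul_div_assoc', div_le_iff₀ (by positivity)]
    push_cast
    nlinarith
  obtain ⟨-, s₃, -, hs₃, hun3, -⟩ := hun 2 τ' (by norm_num) hτ'0
  obtain ⟨s₄, hs₄, hde4⟩ := hde 2 τ' (by norm_num) hτ'0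
  -- the scales
  have hnb : ∀ᶠ q in 𝓝[>] (0 : ℝ),
      Nbx (LvL hn P P' o) (LvT hn PB o) (SlL hn P P' o g) (n - 1) g η (3 * K) q :=
    nbx_ev (fun l hl => (hsl l hl).2.1) (fun l hl => (hsl l hl).2.2) hη (by positivity)
  have hnb1 : ∀ᶠ q in 𝓝[>] (0 : ℝ),
      Nbx (LvL hn P P' o) (LvT hn PB o) (SlL hn P P' o g) (n - 1) g 1 (3 * K) q :=
    nbx_ev (fun l hl => (hsl l hl).2.1) (fun l hl => (hsl l hl).2.2) one_pos (by positivity)
  have hrm : ∀ᶠ q in 𝓝[>] (0 : ℝ), ∀ l ∈ Finset.range n,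
      E + LvL hn P P' o l g g + (3 * K * |SlL hn P P' o g l| + 1 + 6 * K) * q < 1 := by
    rw [Finset.eventually_all]
    intro l hl
    rw [Finset.mem_range] at hl
    have h1 : LvL hn P P' o l g g + E < 1 := hroom l (by omega)
    have h2 : Tendsto (fun q : ℝ => E + LvL hn P P' o l g g +
        (3 * K * |SlL hn P P' o g l| + 1 + 6 * K) * q) (𝓝[>] 0)
        (𝓝 (E + LvL hn P P' o l g g + (3 * K * |SlL hn P P' o g l| + 1 + 6 * K) * 0)) :=
      (Continuous.tendsto (by fun_prop) _).mono_left nhdsWithin_le_nhds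
    rw [mul_zero, add_zero] at h2
    exact h2.eventually_lt_const (by linarith)
  have hqs : ∀ᶠ q in 𝓝[>] (0 : ℝ), 2 * K * q < min (min s₁ s₂) (min s₃ s₄) ∧
      3 * K * q ≤ g / 2 ∧ 3 * K * q ≤ 1 - g := by
    filter_upwards [Ioo_mem_nhdsGT (show 0 < min (min (min s₁ s₂) (min s₃ s₄))
      (min (g / 2) (1 - g)) / (3 * K) from
      div_pos (lt_min (lt_min (lt_min hs₁ hs₂) (lt_min hs₃ hs₄))
        (lt_min (by linarith) (by linarith))) (by positivity))]
      with q hq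
    have h1 := hq.2
    rw [lt_div_iff₀ (by positivity)] at h1
    have h2 := min_le_left (min (min s₁ s₂) (min s₃ s₄)) (min (g / 2) (1 - g))
    have h3 := (min_le_right (min (min s₁ s₂) (min s₃ s₄)) (min (g / 2) (1 - g))).trans
      (min_le_left _ _)
    have h4 := (min_le_right (min (min s₁ s₂) (min s₃ s₄)) (min (g / 2) (1 - g))).trans
      (min_le_right _ _)
    have h5 : 0 < K * q := mul_pos hK0 hq.1
    refine ⟨by linarith, by linarith, by linarith⟩
  obtain ⟨q₁, hq₁, hall⟩ := pos_ev ((hnb.and hnb1).and (hrm.and hqs))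
  refine ⟨q₁, hq₁, fun q u hq hqm hu => ?_⟩
  obtain ⟨⟨hnb, hnb1⟩, hrm, hqs, hqg, hqg1⟩ := hall q hq hqm
  have hqs1 := hqs.trans_le ((min_le_left _ _).trans (min_le_left _ _))
  have hqs2 := hqs.trans_le ((min_le_left _ _).trans (min_le_right _ _))
  have hqs3 := hqs.trans_le ((min_le_right _ _).trans (min_le_left _ _))
  have hqs4 := hqs.trans_le ((min_le_right _ _).trans (min_le_right _ _))
  have hu' := abs_le.1 hu
  have hKq : 0 < K * q := mul_pos hK0 hq
  refine ⟨hqg, hqg1, hnb, fun l hl x hx => ?_, fun Z hZ => ?_⟩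
  · have h1 := hrm l (Finset.mem_range.2 (by omega))
    have h2 := (abs_le.1 (hnb1.dL l hl x hx)).2
    have h3 : SlL hn P P' o g l * (x - g) ≤ |SlL hn P P' o g l| * (3 * K * q) := by
      calc SlL hn P P' o g l * (x - g) ≤ |SlL hn P P' o g l * (x - g)| := le_abs_self _
        _ = |SlL hn P P' o g l| * |x - g| := abs_mul _ _
        _ ≤ |SlL hn P P' o g l| * (3 * K * q) := mul_le_mul_of_nonneg_left hx (abs_nonneg _)
    linarith
  -- the window
  have hZ0 : volume {x : ℝ | x + K * q ∈ Z} = 0 := by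
    have h1 : {x : ℝ | x + K * q ∈ Z} = (fun x => x + K * q) ⁻¹' Z := rfl
    rw [h1, measure_preimage_add_right]
    exact hZ
  obtain ⟨Bc, hBc⟩ : ∃ Bc : ℕ → Set ℝ, Bc = fun k => if k < N' then
      {w : ℝ | |w - g| ≤ 2 * (2 * K * q) ∧ ¬ PtC hn S P P' o vs e E cE S₀
        (w + (V' k + K) * q) (w + (V' k + K) * q)}
      else {w : ℝ | |w - g| ≤ 2 * (2 * K * q) ∧ w + (V' (k - N') + K) * q ∉ Gs P r P' Λ o} :=
    ⟨_, rfl⟩
  have hBcm : ∀ k < 2 * N', volume (Bc k) ≤ ENNReal.ofReal (τ' * (2 * K * q)) := by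
    intro k hk
    rw [hBc]
    simp only
    split_ifs with h1
    · obtain ⟨k1, k2⟩ := hV' k h1
      exact hun3 (2 * K * q) ((V' k + K) * q) (by positivity) hqs3
        (mul_nonneg (by linarith) hq.le) (mul_le_mul_of_nonneg_right (by linarith) hq.le)
    · obtain ⟨k1, k2⟩ := hV' (k - N') (by omega)
      exact hde4 (2 * K * q) ((V' (k - N') + K) * q) (by positivity) hqs4
        (mul_nonneg (by linarith) hq.le) (mul_le_mul_of_nonneg_right (by linarith) hq.le)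
  have hBcu : volume ({x : ℝ | x + K * q ∈ Z} ∪ ⋃ k ∈ Finset.range (2 * N'), Bc k) ≤
      ENNReal.ofReal (τ * (2 * K * q)) := by
    refine (measure_union_le _ _).trans ?_
    rw [hZ0, zero_add]
    refine (vol_un hBcm).trans (ENNReal.ofReal_le_ofReal ?_)
    have h1 := mul_le_mul_of_nonneg_right hτ'1 (show 0 ≤ 2 * K * q by positivity)
    linarith
  obtain ⟨Bad, hBad⟩ : ∃ Bad : ℕ → Set ℝ, Bad = fun k => if k < N then
      {w : ℝ | |w - g| ≤ 2 * (2 * K * q) ∧ ¬ PtC hn S P P' o vs e E cE S₁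
        (w + (A k + K) * q) (w + (V k + K) * q)}
      else if k < 2 * N then
      {w : ℝ | |w - g| ≤ 2 * (2 * K * q) ∧ ¬ PtC hn S P P' o vs e E cE S₀
        (w + (V (k - N) + K) * q) (w + (V (k - N) + K) * q)}
      else if k < 3 * N then
      {w : ℝ | |w - g| ≤ 2 * (2 * K * q) ∧ w + (A (k - 2 * N) + K) * q ∉ Gs P r P' Λ o}
      else if k < 4 * N then
      {w : ℝ | |w - g| ≤ 2 * (2 * K * q) ∧ w + (V (k - 3 * N) + K) * q ∉ Gs P r P' Λ o}
      else {x : ℝ | x + K * q ∈ Z} ∪ ⋃ k ∈ Finset.range (2 * N'), Bc k := ⟨_, rfl⟩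
  have hBadm : ∀ k < M, volume (Bad k) ≤ ENNReal.ofReal (τ * (2 * K * q)) := by
    intro k hk
    rw [hBad]
    simp only
    split_ifs with h1 h2 h3 h4
    · obtain ⟨k1, k2, k3⟩ := hAV k h1
      exact hun1 (2 * K * q) ((V k + K) * q) ((A k + K) * q) (by positivity) hqs1
        (mul_nonneg (by linarith) hq.le) (mul_le_mul_of_nonneg_right (by linarith) hq.le)
        (mul_le_mul_of_nonneg_right (by linarith) hq.le)
    · obtain ⟨k1, k2, k3⟩ := hAV (k - N) (by omega)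
      exact hun0 (2 * K * q) ((V (k - N) + K) * q) (by positivity) hqs1
        (mul_nonneg (by linarith) hq.le) (mul_le_mul_of_nonneg_right (by linarith) hq.le)
    · obtain ⟨k1, k2, k3⟩ := hAV (k - 2 * N) (by omega)
      exact hde1 (2 * K * q) ((A (k - 2 * N) + K) * q) (by positivity) hqs2
        (mul_nonneg (by linarith) hq.le) (mul_le_mul_of_nonneg_right (by linarith) hq.le)
    · obtain ⟨k1, k2, k3⟩ := hAV (k - 3 * N) (by omega)
      exact hde1 (2 * K * q) ((V (k - 3 * N) + K) * q) (by positivity) hqs2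
        (mul_nonneg (by linarith) hq.le) (mul_le_mul_of_nonneg_right (by linarith) hq.le)
    · exact hBcu
  obtain ⟨x, hx, hxB⟩ := ex_good (A := Icc (u - K * q) (u - K * q + θ₂ * q)) (n := M)
    (t := τ * (2 * K * q)) Bad (by
    rw [Real.volume_Icc, add_sub_cancel_left, hMτ]
    refine ENNReal.ofReal_lt_ofReal_iff_of_nonneg (by positivity) |>.2 ?_
    have : 0 < θ₂ * q := by positivity
    linarith) hBadm
  obtain ⟨t, ht⟩ : ∃ t : ℝ, t = x + K * q := ⟨_, rfl⟩
  have hθq : θ₂ * q ≤ 1 * q := mul_le_mul_of_nonneg_right hθ21 hq.le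
  have hqK : 1 * q ≤ K * q := mul_le_mul_of_nonneg_right hK hq.le
  have hxg : |x - g| ≤ 2 * (2 * K * q) := by
    rw [abs_le]
    constructor <;> linarith [hx.1, hx.2]
  have e1 : ∀ y : ℝ, x + (y + K) * q = t + y * q := fun y => by rw [ht]; ring
  have hpt : ∀ k < N, PtC hn S P P' o vs e E cE S₁ (t + A k * q) (t + V k * q) ∧
      PtC hn S P P' o vs e E cE S₀ (t + V k * q) (t + V k * q) := by
    intro k hk
    constructor
    · have h1 := hxB k (by omega)
      rw [hBad] at h1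
      simp only [if_pos hk, mem_ofPred_eq, not_and, not_not] at h1
      have h2 := h1 hxg
      rwa [e1, e1] at h2
    · have h1 := hxB (k + N) (by omega)
      rw [hBad] at h1
      simp only [if_neg (show ¬ k + N < N by omega), if_pos (show k + N < 2 * N by omega),
        mem_ofPred_eq, not_and, not_not, Nat.add_sub_cancel] at h1
      have h2 := h1 hxg
      rwa [e1] at h2
  have hGs : ∀ k < N, t + A k * q ∈ Gs P r P' Λ o ∧ t + V k * q ∈ Gs P r P' Λ o := by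
    intro k hk
    constructor
    · have h1 := hxB (k + 2 * N) (by omega)
      rw [hBad] at h1
      simp only [if_neg (show ¬ k + 2 * N < N by omega),
        if_neg (show ¬ k + 2 * N < 2 * N by omega), if_pos (show k + 2 * N < 3 * N by omega),
        mem_ofPred_eq, not_and, not_not, Nat.add_sub_cancel] at h1
      have h2 := h1 hxg
      rwa [e1] at h2
    · have h1 := hxB (k + 3 * N) (by omega)
      rw [hBad] at h1
      simp only [if_neg (show ¬ k + 3 * N < N by omega),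
        if_neg (show ¬ k + 3 * N < 2 * N by omega), if_neg (show ¬ k + 3 * N < 3 * N by omega),
        if_pos (show k + 3 * N < 4 * N by omega),
        mem_ofPred_eq, not_and, not_not, Nat.add_sub_cancel] at h1
      have h2 := h1 hxg
      rwa [e1] at h2
  have hlow : ∀ k < N, g / 2 ≤ t + V k * q := by
    intro k hk
    obtain ⟨k1, k2, k3⟩ := hAV k hk
    have h1 : -K * q ≤ V k * q := mul_le_mul_of_nonneg_right k1 hq.le
    have h2 := hx.1
    rw [ht]
    linarith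
  have hle : ∀ l ≤ n - 1, ∀ {a w : ℝ} {S₂ : ℕ}, g / 2 ≤ w → PtC hn S P P' o vs e E cE S₂ a w →
      LvT hn PB o l a w ≤ LvL hn P P' o l a w := by
    intro l hl a w S₂ hw h1
    obtain ⟨ρ, Q', h1⟩ := h1
    exact H.ttle H.pble hl h1 (heg.trans (mul_le_mul_of_nonneg_left hw (tht_pos _).le))
  have hθt : θ₂ * q ≤ th * q := mul_le_mul_of_nonneg_right hθ22 hq.le
  have h4N := hxB (4 * N) (by omega)
  rw [hBad] at h4N
  simp only [if_neg (show ¬ 4 * N < N by omega), if_neg (show ¬ 4 * N < 2 * N by omega),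
    if_neg (show ¬ 4 * N < 3 * N by omega), lt_irrefl, if_false] at h4N
  rw [mem_union, not_or] at h4N
  obtain ⟨hZt, hch⟩ := h4N
  have hch' : ∀ k < 2 * N', x ∉ Bc k := fun k hk h1 =>
    hch (mem_iUnion₂.2 ⟨k, Finset.mem_range.2 hk, h1⟩)
  have hlow' : ∀ k < N', g / 2 ≤ t + V' k * q := by
    intro k hk
    obtain ⟨k1, k2⟩ := hV' k hk
    have h1 : -K * q ≤ V' k * q := mul_le_mul_of_nonneg_right k1 hq.le
    have h2 := hx.1
    rw [ht]
    linarith
  have hpt' : ∀ k < N', PtC hn S P P' o vs e E cE S₀ (t + V' k * q) (t + V' k * q) := by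
    intro k hk
    have h1 := hch' k (by omega)
    rw [hBc] at h1
    simp only [if_pos hk, mem_ofPred_eq, not_and, not_not] at h1
    have h2 := h1 hxg
    rwa [e1] at h2
  have hGs' : ∀ k < N', t + V' k * q ∈ Gs P r P' Λ o := by
    intro k hk
    have h1 := hch' (k + N') (by omega)
    rw [hBc] at h1
    simp only [if_neg (show ¬ k + N' < N' by omega), mem_ofPred_eq, not_and, not_not,
      Nat.add_sub_cancel] at h1
    have h2 := h1 hxg
    rwa [e1] at h2
  refine ⟨t, ?_, by rw [ht]; linarith [hx.1], by rw [ht]; linarith [hx.2], hpt, fun k hk l hl =>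
    ⟨hle l hl (hlow k hk) (hpt k hk).1, hle l hl (hlow k hk) (hpt k hk).2⟩, hGs, fun k hk =>
    ⟨hpt' k hk, fun l hl => hle l hl (hlow' k hk) (hpt' k hk), hGs' k hk⟩⟩
  rw [mem_ofPred_eq] at hZt
  rw [ht]
  exact hZt

end PkT

end Pool.PKG
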