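import Pool.Agent.H3.D2G.Win3
import Pool.Agent.H3.D2G.WinI

/-!
# The windows near a good window, for the target at any place, with a chain of balls

`WinJ`: as `WinI`, with a second list `V'` of windows, chosen after the constant `S₁`: at its
windows there are the data of the diagonal pairs, with the constant `S₀`. `winJ_ae`: it holds at
almost every good window, for every place `1 ≤ i ≤ n - 1`.
-/

set_option autoImplicit false

namespace Pool.PKG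

open MeasureTheory Set Filter Topology
open Pool.Agent.H49.Ent Pool.Agent.H32.Dense Pool.STK Pool.KA Pool.KSAT Pool.K2S Pool.PB
open Pool.GEN Pool.S6C Pool.STAT Pool.CHT Pool.GRW Pool.ONE Pool.STA
open Pool.LBT (LSys ThrOf)
open Pool.LEV (Law)
open Pool.TOP (TopS)
open Pool.ISO (PtD lvN WinD)

variable {n : ℕ}

/-- **The record of a good window** `g`, for the target at the place `i` of the order `o`. -/
def WinJ (hn : 2 ≤ n) (S : PCl n) (P : ℝ → ℝ → ℝ) (r : ℝ → ℝ)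
    (P' : ℕ → List (Fin n) × Fin n → ℝ → ℝ → ℝ) (Λ : Finset (Fin n) → Fin n → ℝ → ℝ → ℝ)
    (PB : ℕ → List (Fin n) × Fin n → ℝ → ℝ → ℝ) (o : Od n) (i : ℕ) (g : ℝ) : Prop :=
  ∃ (θ₂ e₂ Eb : ℝ) (P₂ : List (Fin n) × Fin n → ℝ → ℝ → ℝ) (S₀ : ℕ), 0 < Eb ∧ Eb < e₂ ∧
    e₂ < θ₂ * g ∧ ThrOf (chsys n θ₂) S P₂ ∧ (∀ l ≤ i, LvL hn P P' o l g g + Eb < 1) ∧ 1 ≤ S₀ ∧
      ∀ (K : ℝ) (N : ℕ) (A V : ℕ → ℝ), 1 ≤ K → (∀ k < N, -K ≤ V k ∧ V k ≤ A k ∧ A k ≤ K) →
        ∀ th : ℝ, 0 < th → ∃ S₁ : ℕ, 1 ≤ S₁ ∧ ∀ (N' : ℕ) (V' : ℕ → ℝ),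
          (∀ k < N', -K ≤ V' k ∧ V' k ≤ K) → ∀ η : ℝ, 0 < η → ∃ q₁ : ℝ, 0 < q₁ ∧
          ∀ q u : ℝ, 0 < q → q < q₁ → |u - g| ≤ K * q →
            3 * K * q ≤ g / 2 ∧ 3 * K * q ≤ 1 - g ∧ e₂ < θ₂ * (g - 3 * K * q) ∧
            Eb + 3 * K * q < e₂ ∧
            Nbx (LvL hn P P' o) (LvT hn PB o) (SlL hn P P' o g) (n - 1) g η (3 * K) q ∧
            (∀ l ≤ i, ∀ x : ℝ, |x - g| ≤ 3 * K * q →
              LvL hn P P' o l x x + Eb + 6 * K * q < 1) ∧
            ∀ Z : Set ℝ, volume Z = 0 → ∃ t : ℝ, t ∉ Z ∧ u ≤ t ∧ t ≤ u + th * q ∧ (∀ k < N,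
              PtI S (P' o.2) (tht o.2) (cc hn o.1.1) i (LvL hn P P' o i) S₁ Eb (t + A k * q)
                (t + V k * q) ∧
              PtI S (P' o.2) (tht o.2) (cc hn o.1.1) i (LvL hn P P' o i) S₀ Eb (t + V k * q)
                (t + V k * q) ∧
              (∀ l ≤ n - 1, LvT hn PB o l (t + A k * q) (t + V k * q) ≤
                  LvL hn P P' o l (t + A k * q) (t + V k * q) ∧
                LvT hn PB o l (t + V k * q) (t + V k * q) ≤
                  LvL hn P P' o l (t + V k * q) (t + V k * q)) ∧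
              (t + A k * q ∈ Gs P r P' Λ o ∧ t + V k * q ∈ Gs P r P' Λ o) ∧
              ∀ e : ℝ, 0 < e → ∃ d : ℝ, 0 < d ∧ ∀ a' w' : ℝ, t + A k * q ≤ a' →
                a' ≤ t + A k * q + d → t + V k * q ≤ w' → w' ≤ t + V k * q + d → w' ≤ a' →
                bet P₂ (cc hn o.1.1) i a' w' ≤ LvL hn P P' o i (t + A k * q) (t + V k * q) + e ∧
                (∀ l ≤ i, bet P₂ (cc hn o.1.1) l w' w' ≤
                  LvL hn P P' o l (t + V k * q) (t + V k * q) + e) ∧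
                ∀ l ≤ i, bet P₂ (cc hn o.1.1) l a' a' ≤
                  LvL hn P P' o l (t + A k * q) (t + A k * q) + e) ∧
              ∀ k < N',
                PtI S (P' o.2) (tht o.2) (cc hn o.1.1) i (LvL hn P P' o i) S₀ Eb (t + V' k * q)
                  (t + V' k * q) ∧
                (∀ l ≤ n - 1, LvT hn PB o l (t + V' k * q) (t + V' k * q) ≤
                  LvL hn P P' o l (t + V' k * q) (t + V' k * q)) ∧
                t + V' k * q ∈ Gs P r P' Λ o ∧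
                ∀ e : ℝ, 0 < e → ∃ d : ℝ, 0 < d ∧ ∀ w' : ℝ, t + V' k * q ≤ w' →
                  w' ≤ t + V' k * q + d → ∀ l ≤ i, bet P₂ (cc hn o.1.1) l w' w' ≤
                    LvL hn P P' o l (t + V' k * q) (t + V' k * q) + e

variable {hn : 2 ≤ n} {S : PCl n} {P : ℝ → ℝ → ℝ} {r : ℝ → ℝ}
  {P' : ℕ → List (Fin n) × Fin n → ℝ → ℝ → ℝ} {Λ : Finset (Fin n) → Fin n → ℝ → ℝ → ℝ}
  {PB : ℕ → List (Fin n) × Fin n → ℝ → ℝ → ℝ} {PQ : ℚ → List (Fin n) × Fin n → ℝ → ℝ → ℝ}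

/-- The record at the place `i` from the record of the window. -/
theorem winJ_aux (H : PkT hn S P r P' Λ PB) {o : Od n} {g E cE : ℝ} (hg0 : 0 < g) (hg1 : g < 1)
    (hroom : ∀ l ≤ n - 1, LvL hn P P' o l g g + E < 1)
    (W : ∀ e' : ℝ, 0 < e' → ∃ (vs e : ℝ) (S₀ : ℕ), 0 < e ∧ e ≤ e' ∧ 1 ≤ S₀ ∧
      ∀ (K : ℝ) (N : ℕ) (A V : ℕ → ℝ), 1 ≤ K → (∀ k < N, -K ≤ V k ∧ V k ≤ A k ∧ A k ≤ K) →
        ∀ th : ℝ, 0 < th → ∃ S₁ : ℕ, 1 ≤ S₁ ∧ ∀ (N' : ℕ) (V' : ℕ → ℝ),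
          (∀ k < N', -K ≤ V' k ∧ V' k ≤ K) → ∀ η : ℝ, 0 < η → ∃ q₁ : ℝ, 0 < q₁ ∧
          ∀ q u : ℝ, 0 < q → q < q₁ → |u - g| ≤ K * q →
            3 * K * q ≤ g / 2 ∧ 3 * K * q ≤ 1 - g ∧
            Nbx (LvL hn P P' o) (LvT hn PB o) (SlL hn P P' o g) (n - 1) g η (3 * K) q ∧
            (∀ l ≤ n - 1, ∀ x : ℝ, |x - g| ≤ 3 * K * q →
              LvL hn P P' o l x x + E + 6 * K * q < 1) ∧
            ∀ Z : Set ℝ, volume Z = 0 → ∃ t : ℝ, t ∉ Z ∧ u ≤ t ∧ t ≤ u + th * q ∧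
              (∀ k < N, PtC hn S P P' o vs e E cE S₁ (t + A k * q) (t + V k * q) ∧
                PtC hn S P P' o vs e E cE S₀ (t + V k * q) (t + V k * q)) ∧
              (∀ k < N, ∀ l ≤ n - 1,
                LvT hn PB o l (t + A k * q) (t + V k * q) ≤
                  LvL hn P P' o l (t + A k * q) (t + V k * q) ∧
                LvT hn PB o l (t + V k * q) (t + V k * q) ≤
                  LvL hn P P' o l (t + V k * q) (t + V k * q)) ∧
              (∀ k < N, t + A k * q ∈ Gs P r P' Λ o ∧ t + V k * q ∈ Gs P r P' Λ o) ∧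
              ∀ k < N', PtC hn S P P' o vs e E cE S₀ (t + V' k * q) (t + V' k * q) ∧
                (∀ l ≤ n - 1, LvT hn PB o l (t + V' k * q) (t + V' k * q) ≤
                  LvL hn P P' o l (t + V' k * q) (t + V' k * q)) ∧
                t + V' k * q ∈ Gs P r P' Λ o)
    {i : ℕ} (hi : i ≤ n - 1) {θ₂ e₂ Eb e' ζ : ℝ} {P₂ : List (Fin n) × Fin n → ℝ → ℝ → ℝ}
    (h2 : ThrOf (chsys n θ₂) S P₂) (hEb : 0 < Eb) (hEE : Eb ≤ E) (hEe : Eb < e₂)
    (heθ : e₂ < θ₂ * g) (he' : 0 < e') (hζ : 0 < ζ)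
    (hpt : ∀ (vs e : ℝ) (S₀ : ℕ) (a w : ℝ), 0 < e → e ≤ e' →
      PtC hn S P P' o vs e E cE S₀ a w →
      PtI S (P' o.2) (tht o.2) (cc hn o.1.1) i (LvL hn P P' o i) S₀ Eb a w)
    (hle : ∀ a w : ℝ, 0 < w → w ≤ a → a ≤ 1 → bet P₂ (cc hn o.1.1) i a w ≤ LvL hn P P' o i a w)
    (hnum : ∀ x ∈ Gs P r P' Λ o, |x - g| ≤ ζ → ∀ l < i,
      bet P₂ (cc hn o.1.1) l x x ≤ LvL hn P P' o l x x) :
    WinJ hn S P r P' Λ PB o i g := by
  obtain ⟨vs, e, S₀, he, hee, hS₀, W⟩ := W e' he'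
  have hθ₂ : 0 < θ₂ := by
    by_contra hcon
    have : θ₂ * g ≤ 0 := mul_nonpos_of_nonpos_of_nonneg (not_lt.1 hcon) hg0.le
    linarith
  refine ⟨θ₂, e₂, Eb, P₂, S₀, hEb, hEe, heθ, h2, fun l hl => by
    linarith [hroom l (by omega)], hS₀, fun K N A V hK hAV th hth => ?_⟩
  have hK0 : 0 < K := by linarith
  obtain ⟨S₁, hS₁, W⟩ := W K N A V hK hAV (min th K) (lt_min hth hK0)
  refine ⟨S₁, hS₁, fun N' V' hV' η hη => ?_⟩
  obtain ⟨q₁, hq₁, W⟩ := W N' V' hV' η hη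
  obtain ⟨q₂, hq₂⟩ : ∃ q₂ : ℝ, q₂ = min (ζ / (3 * K))
    (min ((θ₂ * g - e₂) / (2 * (3 * K * θ₂))) ((e₂ - Eb) / (2 * (3 * K)))) := ⟨_, rfl⟩
  have hq₂0 : 0 < q₂ := by
    rw [hq₂]
    exact lt_min (by positivity) (lt_min (div_pos (by linarith) (by positivity))
      (div_pos (by linarith) (by positivity)))
  refine ⟨min q₁ q₂, lt_min hq₁ hq₂0, fun q u hq hqm hu => ?_⟩
  have hqq := hqm.trans_le (min_le_right _ _)
  rw [hq₂] at hqq
  have k1 := hqq.trans_le (min_le_left _ _)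
  have k2 := hqq.trans_le ((min_le_right _ _).trans (min_le_left _ _))
  have k3 := hqq.trans_le ((min_le_right _ _).trans (min_le_right _ _))
  rw [lt_div_iff₀ (by positivity)] at k1 k2 k3
  obtain ⟨a1, a2, a3, a4, W⟩ := W q u hq (hqm.trans_le (min_le_left _ _)) hu
  have hKq : 0 < K * q := mul_pos hK0 hq
  have hθq : 0 < θ₂ * (K * q) := mul_pos hθ₂ hKq
  refine ⟨a1, a2, by nlinarith, by linarith, a3, fun l hl x hx => by
    linarith [a4 l (by omega) x hx], fun Z hZ => ?_⟩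
  obtain ⟨Z', hZ', hnear⟩ := near_num (o := o) H h2 N A V (fun k hk => (hAV k hk).2.1) hq.le hle
  obtain ⟨Zc, hZc, hnearc⟩ := near_num (o := o) H h2 N' V' V' (fun k _ => le_rfl) hq.le hle
  obtain ⟨t, ht, ht1, ht2, b1, b2, b3, b4⟩ := W (Z ∪ Z' ∪ Zc)
    (measure_union_null (measure_union_null hZ hZ') hZc)
  rw [mem_union, mem_union, not_or, not_or] at ht
  have hthK : min th K * q ≤ th * q := mul_le_mul_of_nonneg_right (min_le_left _ _) hq.le
  have hthK' : min th K * q ≤ K * q := mul_le_mul_of_nonneg_right (min_le_right _ _) hq.le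
  have hu' := abs_le.1 hu
  refine ⟨t, ht.1.1, ht1, by linarith, fun k hk => ⟨hpt _ _ _ _ _ he hee (b1 k hk).1,
    hpt _ _ _ _ _ he hee (b1 k hk).2, fun l hl => b2 k hk l hl, b3 k hk, ?_⟩, fun k hk =>
    ⟨hpt _ _ _ _ _ he hee (b4 k hk).1, fun l hl => (b4 k hk).2.1 l hl, (b4 k hk).2.2,
      fun e he => ?_⟩⟩
  · obtain ⟨c1, c2, c3⟩ := hAV k hk
    have d1 : -K * q ≤ V k * q := mul_le_mul_of_nonneg_right c1 hq.le
    have d2 : V k * q ≤ A k * q := mul_le_mul_of_nonneg_right c2 hq.le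
    have d3 : A k * q ≤ K * q := mul_le_mul_of_nonneg_right c3 hq.le
    obtain ⟨ρ, Q', f1⟩ := (b1 k hk).1
    refine hnear t ht.1.2 k hk (f1.w0) f1.a1 (hnum _ (b3 k hk).2 ?_) (hnum _ (b3 k hk).1 ?_)
    · rw [abs_le]
      constructor <;> linarith
    · rw [abs_le]
      constructor <;> linarith
  · obtain ⟨c1, c2⟩ := hV' k hk
    have d1 : -K * q ≤ V' k * q := mul_le_mul_of_nonneg_right c1 hq.le
    have d2 : V' k * q ≤ K * q := mul_le_mul_of_nonneg_right c2 hq.le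
    obtain ⟨ρ, Q', f1⟩ := (b4 k hk).1
    have hx : |t + V' k * q - g| ≤ ζ := by
      rw [abs_le]
      constructor <;> linarith
    obtain ⟨d, hd, hd1⟩ := hnearc t ht.2 k hk (f1.w0) f1.a1 (hnum _ (b4 k hk).2.2 hx)
      (hnum _ (b4 k hk).2.2 hx) e he
    exact ⟨d, hd, fun w' h1 h2 l hl => (hd1 w' w' h1 h2 h1 h2 le_rfl).2.1 l hl⟩

/-- **The record at almost every good window**, for the target at any place. -/
theorem PkB.winJ_ae (H : PkB hn S P r P' Λ PB PQ) (hTop : TopS n) (hF : FZX (n - 1)) :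
    ∀ᵐ g : ℝ, ∀ o : Od n, g ∈ Gs P r P' Λ o → ∀ i, 1 ≤ i → i ≤ n - 1 →
      WinJ hn S P r P' Λ PB o i g := by
  filter_upwards [H.toPkT.win3_ae hTop hF, H.sl_ae hTop hF] with g hW hsl o ho i hi1 hi
  obtain ⟨α, Q, c', F⟩ := H.toPk.fac hTop hF ho
  have hg0 := F.g0
  have hg1 := F.g1
  have hsl := hsl o ho
  obtain ⟨E, cE, hE, hroom, W⟩ := hW o ho
  have hth := tht_pos o.2
  rcases Nat.lt_or_ge i (n - 1) with hin | hin
  · -- a coordinate of the list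
    obtain ⟨Eb, hEb⟩ : ∃ Eb, Eb = min E (tht o.2 * g / 4) := ⟨_, rfl⟩
    have hEb0 : 0 < Eb := by rw [hEb]; exact lt_min hE (by positivity)
    have hEb1 : Eb ≤ E := by rw [hEb]; exact min_le_left _ _
    have hEb2 : Eb ≤ tht o.2 * g / 4 := by rw [hEb]; exact min_le_right _ _
    have htg : 0 < tht o.2 * g := mul_pos hth hg0
    refine winJ_aux H.toPkT hg0 hg1 hroom W hi (θ₂ := tht o.2) (e₂ := tht o.2 * g / 2) (Eb := Eb)
      (e' := Eb / (4 * (i + 1))) (ζ := 1) (P₂ := P' o.2) (H.cht o.2) hEb0 hEb1 (by linarith)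
      (by linarith) (by positivity) one_pos ?_ (fun a w _ _ _ => (LvL_lt o hin a w).ge)
      (fun x _ _ l hl => (LvL_lt o (by omega) x x).ge)
    intro vs e S₀ a w he hee h
    have h1 : 2 * e * (i + 1) < Eb := by
      rw [le_div_iff₀ (by positivity)] at hee
      linarith
    have hi0 : (0 : ℝ) ≤ i := Nat.cast_nonneg i
    obtain ⟨ρ, sg, Q', h2⟩ := H.toPkT.coo h hin (E' := Eb) h1
    exact ⟨ρ, _, _, _, _, sg, Q', h2, le_rfl, by nlinarith⟩
  · -- the target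
    have hin' : i = n - 1 := by omega
    subst hin'
    obtain ⟨δ, hδ, hδl⟩ := fin_pos n (f := fun l => 1 - (LvL hn P P' o l g g + E)) fun l hl => by
      linarith [hroom l (by omega)]
    obtain ⟨p, hp1, hp2⟩ := exists_rat_btwn (show E / g < (E + δ / 2) / g from
      div_lt_div_of_pos_right (by linarith) hg0)
    rw [div_lt_iff₀ hg0] at hp1
    rw [lt_div_iff₀ hg0] at hp2
    have hp0 : (0 : ℝ) < p := by
      by_contra hcon
      have : (p : ℝ) * g ≤ 0 := mul_nonpos_of_nonpos_of_nonneg (not_lt.1 hcon) hg0.le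
      linarith
    -- the scale at which the numbers of the list are small
    have hcont : ∀ᶠ x in 𝓝 g, ∀ l ∈ Finset.range (n - 1), LvL hn P P' o l x x + p * x < 1 := by
      rw [Finset.eventually_all]
      intro l hl
      rw [Finset.mem_range] at hl
      have h1 : ContinuousAt (fun x => LvL hn P P' o l x x + p * x) g :=
        (hsl l (by omega)).2.1.1.continuousAt.add (by fun_prop)
      refine h1.eventually_lt_const ?_
      have := hδl l (by omega)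
      linarith
    obtain ⟨ζ, hζ, hnum⟩ := Metric.eventually_nhds_iff.1 hcont
    refine winJ_aux H.toPkT hg0 hg1 hroom W hi (θ₂ := (p : ℝ)) (e₂ := (E + p * g) / 2) (Eb := E)
      (e' := E) (ζ := ζ / 2) (P₂ := PQ p) (H.thq p) hE le_rfl (by linarith) (by linarith) hE
      (by positivity) ?_ (fun a w h1 h2 h3 => ?_) (fun x hx hxg l hl => ?_)
    · intro vs e S₀ a w he hee h
      obtain ⟨ρ, Q', h1⟩ := h
      rw [lvL_last]
      exact ⟨ρ, _, _, _, _, _, Q', h1, le_rfl, hee⟩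
    · rw [lvL_last]
      exact H.tgt o p h1 h2 h3
    · have h1 := @hnum x (by rw [Real.dist_eq]; linarith) l (Finset.mem_range.2 hl)
      have h2 := LvL_lt (P := P) (P' := P') (hn := hn) o hl x x
      have h3 : LvL hn P P' o l x x = bet (P' o.2) (cc hn o.1.1) l x x := h2
      rw [h3] at h1 ⊢
      exact H.num hF hx (by exact_mod_cast hp0) hl (by linarith)

end Pool.PKG
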